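import Mathlib

open Polynomial

namespace Pool.Agent.MP196

noncomputable section

/-! ### Part A: Laurent series at the place `X = ∞` and twisted powers -/

/-- The embedding `k[X] → k((w))`, `X ↦ w⁻¹`. -/
def pinf (k : Type) [Field k] : k[X] →+* LaurentSeries k :=
  Polynomial.eval₂RingHom (HahnSeries.C : k →+* LaurentSeries k)
    (HahnSeries.single (-1 : ℤ) (1 : k))

/-- `Gm q U m (w) = U(w^(q^(m-1))) ... U(w^q) U(w)`. -/
def Gm {k : Type} [Field k] {ι : Type} [Fintype ι] [DecidableEq ι] (q : ℕ)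
    (U : Matrix ι ι k[X]) : ℕ → Matrix ι ι k[X]
  | 0 => 1
  | m + 1 => (Gm q U m).map (fun f => expand k q f) * U

/-- `NN q e U (X) = X^((q-1)e) U(1/X)`. -/
def NN {k : Type} [Field k] {ι : Type} (q e : ℕ) (U : Matrix ι ι k[X]) : Matrix ι ι k[X] :=
  U.map (fun f => f.reflect ((q - 1) * e))

theorem j_smul {k B : Type} [Field k] [CommRing B] [Algebra k B] (j : B →ₐ[k] LaurentSeries k)
    (c : k) (x : B) : j (c • x) = HahnSeries.C c * j x := by
  rw [Algebra.smul_def, map_mul, AlgHom.commutes, LaurentSeries.algebraMap_apply]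

/-- The space of `x ∈ B` such that `act g x` has a pole of order at most `D g` at infinity,
for every `g`. -/
def Lsp {k B G : Type} [Field k] [CommRing B] [Algebra k[X] B] [Algebra k B]
    [IsScalarTower k k[X] B] [Group G] (act : G →* (B ≃ₐ[k[X]] B)) (j : B →ₐ[k] LaurentSeries k)
    (D : G → ℤ) : Submodule k B where
  carrier := {x | ∀ g : G, ∀ n : ℤ, n < - D g → (j (act g x)).coeff n = 0}
  add_mem' := by
    intro x y hx hy g n hn
    simp only [map_add, HahnSeries.coeff_add]
    rw [hx g n hn, hy g n hn, add_zero]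
  zero_mem' := by
    intro g n _
    simp
  smul_mem' := by
    intro c x hx g n hn
    have h1 : act g (c • x) = c • act g x := by
      rw [← algebraMap_smul k[X] c x, map_smul, algebraMap_smul]
    rw [h1, j_smul, HahnSeries.C_mul_eq_smul, HahnSeries.coeff_smul]
    rw [hx g n hn, smul_zero]

/-- The points of `Ω` fixed by `x ↦ x^Q`. -/
def Pt (Ω : Type) [Field Ω] (Q : ℕ) : Finset Ω := by
  classical
  exact (X ^ Q - X : Polynomial Ω).roots.toFinset

/-! ### Part B: polynomials over `F_2` -/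

/-- Polynomials over `F_2`. -/
abbrev P2 : Type := (ZMod 2)[X]

/-- Polynomials of degree `< d`. -/
def Plt (d : ℕ) : Finset P2 :=
  Finset.univ.image (fun c : Fin d → ZMod 2 => ∑ i : Fin d, C (c i) * X ^ (i : ℕ))

/-- Polynomials of degree exactly `j` (over `F_2` they are monic). -/
def MD (j : ℕ) : Finset P2 := (Plt j).image (fun f => X ^ j + f)

/-- von Mangoldt function: `deg P` for `f = P^m`, `P` irreducible, `m ≥ 1`; otherwise `0`. -/
def vM (f : P2) : ℕ := by
  classical
  exact if h : ∃ P : P2, Irreducible P ∧ ∃ m : ℕ, 0 < m ∧ f = P ^ m then h.choose.natDegree else 0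

/-- Homogenised evaluation: `lam t1 t0 f = ∑ f_i t1^i t0^(deg f - i)`. -/
def lam {A : Type} [CommRing A] [Algebra (ZMod 2) A] (t1 t0 : A) (f : P2) : A :=
  ∑ i ∈ Finset.range (f.natDegree + 1), algebraMap (ZMod 2) A (f.coeff i) * t1 ^ i *
    t0 ^ (f.natDegree - i)

/-- `∑_{f monic of degree j} Λ(f) ψ(lam f)`. -/
def SS {A : Type} [CommRing A] [Algebra (ZMod 2) A] (t1 t0 : A) (ψ : MulChar A ℂ) (j : ℕ) : ℂ :=
  ∑ f ∈ MD j, (vM f : ℂ) * ψ (lam t1 t0 f)

/-- Multiplication matrices of `A` with entries in the `F_2`-algebra `R`. -/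
def LMC (A : Type) [CommRing A] [Algebra (ZMod 2) A] [Finite A] (R : Type) [CommRing R]
    [Algebra (ZMod 2) R] :
    A →+* Matrix (Fin (Module.finrank (ZMod 2) A)) (Fin (Module.finrank (ZMod 2) A)) R :=
  (algebraMap (ZMod 2) R).mapMatrix.comp
    ((Algebra.leftMulMatrix (Module.finBasis (ZMod 2) A)).toRingHom)

/-- The matrix `c' ∏_{i<f} (t1 - (x0 + X)^(2^i) t0)`. -/
def UU {A : Type} [CommRing A] [Algebra (ZMod 2) A] [Finite A] (t1 t0 c' : A) (k : Type)
    [Field k] [Algebra (ZMod 2) k] (x0 : k) (f : ℕ) :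
    Matrix (Fin (Module.finrank (ZMod 2) A)) (Fin (Module.finrank (ZMod 2) A)) k[X] :=
  LMC A k[X] c' * ((List.range f).map (fun i =>
    LMC A k[X] t1 - ((C x0 + X) ^ (2 ^ i) : k[X]) • LMC A k[X] t0)).prod

/-- Reduction modulo `r` and the leading `K + 1` coefficients. -/
abbrev AA (r : P2) (K : ℕ) : Type := AdjoinRoot r × AdjoinRoot (X ^ (K + 1) : P2)

/-- `t1` for `AA r K`. -/
def t1A (r : P2) (K : ℕ) : AA r K := (AdjoinRoot.root r, 1)

/-- `t0` for `AA r K`. -/
def t0A (r : P2) (K : ℕ) : AA r K := (1, AdjoinRoot.root _)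

/-! ### Part C: the Sarkozy problem for shifted irreducibles -/

/-- The sign `(-1)^z`. -/
def sg (z : ZMod 2) : ℝ := if z = 0 then 1 else -1

/-- The residue functional `coefficient of X^(deg g - 1)` of `h mod g`. -/
def res (g h : P2) : ZMod 2 := (h %ₘ g).coeff (g.natDegree - 1)

/-- Residue classes coprime to `r`. -/
def Cop (r : P2) : Finset P2 := by
  classical
  exact (Plt r.natDegree).filter (fun u => IsCoprime u r)

/-- Euler's function. -/
def ph (r : P2) : ℕ := (Cop r).card

/-- Truncated power series with constant term `1`. -/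
def V1 (K : ℕ) : Finset P2 := by
  classical
  exact (Plt (K + 1)).filter (fun v => v.coeff 0 = 1)

/-- `Y_q`. -/
def YY (g q : P2) : Finset P2 := by
  classical
  exact (Plt g.natDegree).filter (fun y => IsCoprime (1 + q * y) g)

/-- The local average `m(q)`. -/
def mq (g a q : P2) : ℝ := (∑ y ∈ YY g q, sg (res g (a * q * y))) / ((YY g q).card : ℝ)

/-- The prime divisors of `g`. -/
def pf (g : P2) : Finset P2 := by
  classical
  exact (UniqueFactorizationMonoid.normalizedFactors g).toFinset

/-- The prime divisors of `g` not dividing `q`. -/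
def Tq (g q : P2) : Finset P2 := by
  classical
  exact (pf g).filter (fun P => ¬ P ∣ q)

/-- The weight. -/
def wt (D : ℕ) (s : P2) : ℝ := by
  classical
  exact if Irreducible (s + 1) then
    ((s + 1).natDegree : ℝ) * ∑ q ∈ (MD D).filter (fun q => q ∣ s), (ph q : ℝ) else 0

end

end Pool.Agent.MP196
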