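import Mathlib
import Pool.Agent.Lib.MP_196a10_nt.Defs

open Polynomial

namespace Pool.Agent.MP196

noncomputable section

/-! ### the field `F_2` and its polynomials -/

theorem zmod2_cases (x : ZMod 2) : x = 0 ∨ x = 1 := by
  fin_cases x
  · left; rfl
  · right; rfl

theorem monic_of_ne {f : P2} (hf : f ≠ 0) : f.Monic := by
  rcases zmod2_cases f.leadingCoeff with h | h
  · exact absurd (leadingCoeff_eq_zero.mp h) hf
  · exact h

theorem isUnit_iff_one (f : P2) : IsUnit f ↔ f = 1 := by
  constructor
  · intro h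
    have hf : f ≠ 0 := h.ne_zero
    exact (monic_of_ne hf).isUnit_iff.mp h
  · rintro rfl
    exact isUnit_one

theorem eq_of_associated {f g : P2} (h : Associated f g) : f = g := by
  obtain ⟨u, hu⟩ := h
  have : (u : P2) = 1 := (isUnit_iff_one _).mp u.isUnit
  rw [this, mul_one] at hu
  exact hu

theorem add_self_P2 (f : P2) : f + f = 0 := CharTwo.add_self_eq_zero f

theorem sub_eq_add_P2 (f g : P2) : f - g = f + g := CharTwo.sub_eq_add f g

theorem neg_eq_P2 (f : P2) : -f = f := CharTwo.neg_eq f

/-! ### `Plt` and `MD` -/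

theorem mem_Plt {d : ℕ} {f : P2} : f ∈ Plt d ↔ f.degree < d := by
  unfold Plt
  simp only [Finset.mem_image, Finset.mem_univ, true_and]
  constructor
  · rintro ⟨c, rfl⟩
    rw [← mem_degreeLT]
    apply Submodule.sum_mem
    intro i _
    rw [mem_degreeLT]
    exact (degree_C_mul_X_pow_le _ _).trans_lt (by exact_mod_cast i.2)
  · intro h
    refine ⟨fun i => f.coeff i, ?_⟩
    rw [Finset.sum_range (fun i => C (f.coeff i) * X ^ i) |>.symm]
    by_cases hf : f = 0
    · subst hf; simp
    · rw [← as_sum_range_C_mul_X_pow' f ((natDegree_lt_iff_degree_lt hf).mpr h)]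

theorem coeff_Plt_sum {d : ℕ} (c : Fin d → ZMod 2) (i : Fin d) :
    (∑ i : Fin d, C (c i) * X ^ (i : ℕ) : P2).coeff i = c i := by
  rw [finsetSum_coeff, Finset.sum_eq_single i]
  · simp
  · intro b _ hb
    rw [coeff_C_mul, coeff_X_pow, if_neg, mul_zero]
    intro h
    exact hb (Fin.ext h.symm)
  · simp

theorem card_Plt (d : ℕ) : (Plt d).card = 2 ^ d := by
  unfold Plt
  rw [Finset.card_image_of_injective]
  · simp [ZMod.card]
  · intro c c' h
    funext i
    rw [← coeff_Plt_sum c i, ← coeff_Plt_sum c' i]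
    exact congrArg (fun p : P2 => p.coeff i) h

theorem zero_mem_Plt (d : ℕ) : (0 : P2) ∈ Plt d := by
  rw [mem_Plt]; simp

theorem add_mem_Plt {d : ℕ} {f g : P2} (hf : f ∈ Plt d) (hg : g ∈ Plt d) : f + g ∈ Plt d := by
  rw [mem_Plt] at *
  exact (degree_add_le f g).trans_lt (max_lt hf hg)

theorem Plt_zero : Plt 0 = {0} := by
  ext f
  rw [mem_Plt, Finset.mem_singleton]
  constructor
  · intro h
    rw [← degree_eq_bot]
    exact Nat.WithBot.lt_zero_iff.mp (by exact_mod_cast h)
  · rintro rfl
    simp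

theorem mem_MD {j : ℕ} {f : P2} : f ∈ MD j ↔ f.degree = j := by
  unfold MD
  simp only [Finset.mem_image]
  constructor
  · rintro ⟨g, hg, rfl⟩
    rw [mem_Plt] at hg
    rw [degree_add_eq_left_of_degree_lt (by rwa [degree_X_pow]), degree_X_pow]
  · intro h
    have hf : f ≠ 0 := by
      rintro rfl
      simp at h
    refine ⟨X ^ j + f, ?_, ?_⟩
    · rw [mem_Plt, ← sub_eq_add_P2]
      have := degree_sub_lt_left (p := X ^ j) (q := f) (by rw [degree_X_pow, h])
        (pow_ne_zero _ X_ne_zero) (by rw [(monic_of_ne hf).leadingCoeff, leadingCoeff_X_pow])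
      rwa [degree_X_pow] at this
    · rw [← add_assoc, add_self_P2, zero_add]

theorem mem_MD' {j : ℕ} {f : P2} : f ∈ MD j ↔ f ≠ 0 ∧ f.natDegree = j := by
  rw [mem_MD]
  constructor
  · intro h
    refine ⟨?_, natDegree_eq_of_degree_eq_some h⟩
    rintro rfl
    simp at h
  · rintro ⟨h1, h2⟩
    rw [degree_eq_natDegree h1, h2]

theorem ne_zero_of_mem_MD {j : ℕ} {f : P2} (h : f ∈ MD j) : f ≠ 0 := (mem_MD'.mp h).1

theorem natDegree_of_mem_MD {j : ℕ} {f : P2} (h : f ∈ MD j) : f.natDegree = j := (mem_MD'.mp h).2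

theorem card_MD (j : ℕ) : (MD j).card = 2 ^ j := by
  unfold MD
  rw [Finset.card_image_of_injective _ (add_right_injective _), card_Plt]

theorem MD_zero : MD 0 = {1} := by
  ext f
  rw [mem_MD', Finset.mem_singleton]
  constructor
  · rintro ⟨h1, h2⟩
    exact (monic_of_ne h1).natDegree_eq_zero.mp h2
  · rintro rfl
    simp

theorem mul_mem_MD {i j : ℕ} {f g : P2} (hf : f ∈ MD i) (hg : g ∈ MD j) :
    f * g ∈ MD (i + j) := by
  rw [mem_MD'] at *
  exact ⟨mul_ne_zero hf.1 hg.1, by rw [natDegree_mul hf.1 hg.1, hf.2, hg.2]⟩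

/-! ### von Mangoldt -/

theorem irreducible_pow_unique {P Q : P2} (hP : Irreducible P) (hQ : Irreducible Q) {m n : ℕ}
    (hm : 0 < m) (h : P ^ m = Q ^ n) : P = Q ∧ m = n := by
  have h1 : P ∣ Q ^ n := h ▸ dvd_pow_self P hm.ne'
  have h2 : P = Q := eq_of_associated
    ((hP.prime.dvd_of_dvd_pow h1 |> fun h3 => hP.associated_of_dvd hQ h3))
  subst h2
  refine ⟨rfl, ?_⟩
  have h3 := congrArg natDegree h
  rw [natDegree_pow, natDegree_pow] at h3
  exact Nat.eq_of_mul_eq_mul_right hP.natDegree_pos h3

theorem vM_pow {P : P2} (hP : Irreducible P) {m : ℕ} (hm : 0 < m) :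
    vM (P ^ m) = P.natDegree := by
  unfold vM
  have h : ∃ Q : P2, Irreducible Q ∧ ∃ n : ℕ, 0 < n ∧ P ^ m = Q ^ n := ⟨P, hP, m, hm, rfl⟩
  rw [dif_pos h]
  obtain ⟨h1, n, h2, h3⟩ := h.choose_spec
  rw [← (irreducible_pow_unique hP h1 hm h3).1]

theorem vM_irreducible {P : P2} (hP : Irreducible P) : vM P = P.natDegree := by
  have := vM_pow hP (m := 1) one_pos
  rwa [pow_one] at this

theorem vM_eq_zero {f : P2} (h : ¬ ∃ P : P2, Irreducible P ∧ ∃ m : ℕ, 0 < m ∧ f = P ^ m) :
    vM f = 0 := by
  unfold vM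
  rw [dif_neg h]

theorem vM_one : vM 1 = 0 := by
  apply vM_eq_zero
  rintro ⟨P, hP, m, hm, h⟩
  have h1 : IsUnit (P ^ m) := h ▸ isUnit_one
  exact hP.not_isUnit ((isUnit_pow_iff hm.ne').mp h1)

/-! ### signs -/

theorem sg_zero : sg 0 = 1 := by simp [sg]

theorem sg_one : sg 1 = -1 := by
  unfold sg
  rw [if_neg (by decide)]

theorem sg_add (x y : ZMod 2) : sg (x + y) = sg x * sg y := by
  rcases zmod2_cases x with rfl | rfl <;> rcases zmod2_cases y with rfl | rfl
  · simp [sg_zero]
  · simp [sg_zero]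
  · simp [sg_zero]
  · have : (1 : ZMod 2) + 1 = 0 := by decide
    rw [this, sg_zero, sg_one]; norm_num

theorem sg_mul_self (x : ZMod 2) : sg x * sg x = 1 := by
  rw [← sg_add, CharTwo.add_self_eq_zero, sg_zero]

theorem abs_sg (x : ZMod 2) : |sg x| = 1 := by
  rcases zmod2_cases x with rfl | rfl
  · simp [sg_zero]
  · simp [sg_one]

theorem sg_sub (x y : ZMod 2) : sg (x - y) = sg x * sg y := by
  rw [CharTwo.sub_eq_add, sg_add]

/-! ### the residue functional -/

theorem res_add (g h h' : P2) : res g (h + h') = res g h + res g h' := by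
  unfold res
  rw [add_modByMonic, coeff_add]

theorem res_zero (g : P2) : res g 0 = 0 := by
  unfold res
  simp

/-- The linear functional `f ↦ res g (a f)`. -/
def resL (g a : P2) : P2 →ₗ[ZMod 2] ZMod 2 where
  toFun f := res g (a * f)
  map_add' f f' := by rw [mul_add, res_add]
  map_smul' c f := by
    rcases zmod2_cases c with rfl | rfl
    · simp [res_zero]
    · simp

theorem resL_apply (g a f : P2) : resL g a f = res g (a * f) := rfl

theorem res_mod {g h : P2} (hg : g ≠ 0) : res g (h %ₘ g) = res g h := by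
  unfold res
  rw [modByMonic_eq_self_iff (monic_of_ne hg) |>.mpr (degree_modByMonic_lt _ (monic_of_ne hg))]

theorem res_congr {g h h' : P2} (hg : g ≠ 0) (hd : g ∣ h - h') : res g h = res g h' := by
  unfold res
  have : h %ₘ g = h' %ₘ g := by
    rw [← sub_eq_zero, ← sub_modByMonic]
    exact (modByMonic_eq_zero_iff_dvd (monic_of_ne hg)).mpr hd
  rw [this]

/-! ### points -/

theorem mem_Pt {Ω : Type} [Field Ω] {Q : ℕ} (hQ : 1 < Q) {x : Ω} : x ∈ Pt Ω Q ↔ x ^ Q = x := by
  classical
  unfold Pt
  rw [Multiset.mem_toFinset, mem_roots (FiniteField.X_pow_card_sub_X_ne_zero Ω hQ)]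
  simp [sub_eq_zero]

/-! ### Laurent series at infinity -/

theorem pinf_C {k : Type} [Field k] (a : k) : pinf k (C a) = HahnSeries.C a := by
  simp [pinf]

theorem pinf_monomial {k : Type} [Field k] (n : ℕ) (a : k) :
    pinf k (monomial n a) = HahnSeries.single (-(n : ℤ)) a := by
  rw [pinf, coe_eval₂RingHom, eval₂_monomial, HahnSeries.single_pow, one_pow,
    HahnSeries.C_apply, HahnSeries.single_mul_single]
  simp

theorem pinf_coeff {k : Type} [Field k] (f : k[X]) (n : ℤ) :
    (pinf k f).coeff n = if n ≤ 0 then f.coeff n.natAbs else 0 := by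
  induction f using Polynomial.induction_on' with
  | add p q hp hq =>
    rw [map_add, HahnSeries.coeff_add, hp, hq]
    split_ifs <;> simp
  | monomial m a =>
    rw [pinf_monomial, HahnSeries.coeff_single, coeff_monomial]
    by_cases h : n = -(m : ℤ)
    · subst h
      simp
    · rw [if_neg h]
      split_ifs with h1 h2
      · exfalso; apply h; omega
      · rfl
      · rfl

theorem pinf_injective (k : Type) [Field k] : Function.Injective (pinf k) := by
  rw [injective_iff_map_eq_zero]
  intro f hf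
  ext n
  have := pinf_coeff f (-(n : ℤ))
  rw [hf] at this
  simp at this
  simpa using this.symm

theorem pinf_order {k : Type} [Field k] {f : k[X]} (hf : f ≠ 0) :
    (pinf k f).order = -(f.natDegree : ℤ) := by
  have h0 : pinf k f ≠ 0 := fun h => hf (pinf_injective k (by rw [h, map_zero]))
  apply le_antisymm
  · apply HahnSeries.order_le_of_coeff_ne_zero
    rw [pinf_coeff]
    simp [hf]
  · by_contra hlt
    push Not at hlt
    have h1 := mt HahnSeries.coeff_order_eq_zero.mp h0
    rw [pinf_coeff] at h1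
    split_ifs at h1 with h2
    · apply h1
      apply coeff_eq_zero_of_natDegree_lt
      omega
    · exact h1 rfl

/-! ### Frobenius -/

section frob
variable {k : Type} [Field k] [Finite k] {q : ℕ} (hq : Nat.card k = q)
include hq

theorem one_lt_q : 1 < q := by
  rw [← hq]; exact Finite.one_lt_card

theorem pow_q (a : k) : a ^ q = a := by
  classical
  have := Fintype.ofFinite k
  rw [← hq, Nat.card_eq_fintype_card]
  exact FiniteField.pow_card a

theorem pow_qm (a : k) (m : ℕ) : a ^ (q ^ m) = a := by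
  induction m with
  | zero => simp
  | succ m ih => rw [pow_succ, pow_mul, ih, pow_q hq]

theorem add_pow_q {B : Type} [CommRing B] [Algebra k B] (x y : B) :
    (x + y) ^ q = x ^ q + y ^ q := by
  classical
  have := Fintype.ofFinite k
  have h := map_add (FiniteField.frobeniusAlgHom k B) x y
  simp only [FiniteField.coe_frobeniusAlgHom] at h
  rw [← hq, Nat.card_eq_fintype_card]
  exact h

/-- The `q^m`-power map as a `k`-algebra homomorphism. -/
def frobm (B : Type) [CommRing B] [Algebra k B] (m : ℕ) : B →ₐ[k] B where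
  toFun x := x ^ (q ^ m)
  map_one' := one_pow _
  map_mul' x y := mul_pow x y _
  map_zero' := zero_pow (pow_ne_zero _ (by have := one_lt_q hq; omega))
  map_add' x y := by
    induction m generalizing x y with
    | zero => simp
    | succ m ih => rw [pow_succ, pow_mul, ih, add_pow_q hq, ← pow_mul, ← pow_mul]
  commutes' a := by rw [← map_pow, pow_qm hq]

theorem frobm_apply (B : Type) [CommRing B] [Algebra k B] (m : ℕ) (x : B) :
    frobm hq B m x = x ^ (q ^ m) := rfl

theorem expand_pow_q (m : ℕ) (f : k[X]) : expand k (q ^ m) f = f ^ (q ^ m) := by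
  induction f using Polynomial.induction_on' with
  | add p r hp hr =>
    have h := map_add (frobm hq k[X] m) p r
    simp only [frobm_apply] at h
    rw [map_add, hp, hr, h]
  | monomial n a =>
    rw [expand_monomial, ← C_mul_X_pow_eq_monomial, ← C_mul_X_pow_eq_monomial, mul_pow,
      ← C_pow, pow_qm hq, ← pow_mul, mul_comm]

theorem expand_q (f : k[X]) : expand k q f = f ^ q := by
  have := expand_pow_q hq 1 f
  rwa [pow_one] at this

/-- Elements fixed by the `q`-power map are constants. -/
theorem exists_of_pow_q {B : Type} [CommRing B] [IsDomain B] [Algebra k B] (x : B)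
    (hx : x ^ q = x) : ∃ a : k, algebraMap k B a = x := by
  classical
  have := Fintype.ofFinite k
  have h1 : (∏ a : k, (X - C a) : k[X]) = X ^ q - X := by
    rw [← hq, Nat.card_eq_fintype_card]
    have h4 : (X ^ Fintype.card k - X : k[X]).Monic :=
      monic_X_pow_sub (by rw [degree_X]; exact_mod_cast Fintype.one_lt_card)
    have h5 := prod_multiset_X_sub_C_of_monic_of_roots_card_eq h4 (by
      rw [FiniteField.roots_X_pow_card_sub_X k,
        FiniteField.X_pow_card_sub_X_natDegree_eq k Fintype.one_lt_card]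
      rfl)
    rw [FiniteField.roots_X_pow_card_sub_X k] at h5
    exact h5
  have h2 : (∏ a : k, (x - algebraMap k B a)) = 0 := by
    have h3 := congrArg (aeval x) h1
    simp only [map_prod, map_sub, aeval_X, aeval_C, map_pow] at h3
    rw [h3, hx, sub_self]
  obtain ⟨a, _, ha⟩ := Finset.prod_eq_zero_iff.mp h2
  exact ⟨a, (sub_eq_zero.mp ha).symm⟩

/-- Iteration of `b^(q) = N b`. -/
theorem map_pow_qm {B : Type} [CommRing B] [Algebra k[X] B] {ι : Type} [Fintype ι]
    [DecidableEq ι] (N : Matrix ι ι k[X]) (b : Matrix ι ι B)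
    (hbN : b.map (fun x => x ^ q) = N.map (algebraMap k[X] B) * b) (m : ℕ) :
    b.map (fun x => x ^ (q ^ m)) = (Gm q N m).map (algebraMap k[X] B) * b := by
  let _ : Algebra k B := ((algebraMap k[X] B).comp C).toAlgebra
  induction m with
  | zero => simp [Gm]
  | succ m ih =>
    have h1 : b.map (fun x => x ^ (q ^ (m + 1))) = (b.map (fun x => x ^ (q ^ m))).map
        (frobm hq B 1) := by
      ext i j
      simp [frobm_apply, pow_succ, pow_mul]
    have h2 : b.map (frobm hq B 1) = b.map (fun x => x ^ q) := by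
      ext i j
      simp [frobm_apply]
    have h3 : ((Gm q N m).map (algebraMap k[X] B)).map (frobm hq B 1) =
        ((Gm q N m).map (fun f => expand k q f)).map (algebraMap k[X] B) := by
      ext i j
      simp [frobm_apply, expand_q hq]
    rw [h1, ih, Matrix.map_mul, h2, hbN, h3, ← Matrix.mul_assoc, ← Matrix.map_mul]
    rfl

end frob

end

end Pool.Agent.MP196
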