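import Mathlib
import Pool.Agent.Lib.MP_196a10_nt.Base

open Polynomial

namespace Pool.Agent.MP196

noncomputable section

namespace Approx

/-- A linear functional vanishing on `g X^i`, `i < m`, vanishes on `g s`, `deg s < m`. -/
theorem lin_zero (l : P2 →ₗ[ZMod 2] ZMod 2) (g : P2) (m : ℕ)
    (h : ∀ i < m, l (g * X ^ i) = 0) (s : P2) (hs : s ∈ Plt m) : l (g * s) = 0 := by
  have hs' : s.degree < m := mem_Plt.mp hs
  by_cases h0 : s = 0
  · subst h0; simp
  have hs2 : s.natDegree < m := (natDegree_lt_iff_degree_lt h0).mpr hs'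
  rw [as_sum_range_C_mul_X_pow' s hs2, Finset.mul_sum, map_sum]
  apply Finset.sum_eq_zero
  intro i hi
  have h1 : g * (C (s.coeff i) * X ^ i) = s.coeff i • (g * X ^ i) := by
    rw [smul_eq_C_mul]; ring
  rw [h1, map_smul, h i (Finset.mem_range.mp hi), smul_zero]

/-- Two linear functionals that agree on `X^i`, `i < m`, agree on `Plt m`. -/
theorem lin_eq (l l' : P2 →ₗ[ZMod 2] ZMod 2) (m : ℕ)
    (h : ∀ i < m, l (X ^ i) = l' (X ^ i)) (s : P2) (hs : s ∈ Plt m) : l s = l' s := by
  have h1 := lin_zero (l - l') 1 m (fun i hi => by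
    rw [one_mul, LinearMap.sub_apply, h i hi, sub_self]) s hs
  rw [one_mul, LinearMap.sub_apply] at h1
  exact sub_eq_zero.mp h1

/-- Admissible denominators. -/
def Adm (l : P2 →ₗ[ZMod 2] ZMod 2) (m : ℕ) (g : P2) : Prop :=
  g ≠ 0 ∧ ∀ s ∈ Plt m, l (g * s) = 0

theorem exists_adm (l : P2 →ₗ[ZMod 2] ZMod 2) (m N : ℕ) (h : m < N) :
    ∃ g ∈ Plt N, Adm l m g := by
  classical
  have hcard : (Finset.univ : Finset (Fin m → ZMod 2)).card < (Plt N).card := by
    rw [card_Plt, Finset.card_univ, Fintype.card_fun, ZMod.card, Fintype.card_fin]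
    exact Nat.pow_lt_pow_right (by norm_num) h
  obtain ⟨g1, h1, g2, h2, hne, heq⟩ := Finset.exists_ne_map_eq_of_card_lt_of_maps_to
    (s := Plt N) (t := (Finset.univ : Finset (Fin m → ZMod 2))) hcard
    (f := fun g => fun i : Fin m => l (g * X ^ (i : ℕ))) (fun _ _ => Finset.mem_coe.mpr (Finset.mem_univ _))
  refine ⟨g1 + g2, add_mem_Plt h1 h2, ?_, ?_⟩
  · intro h0
    apply hne
    rw [← sub_eq_add_P2] at h0
    exact sub_eq_zero.mp h0
  · intro s hs
    refine lin_zero l _ m (fun i hi => ?_) s hs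
    have h3 := congrFun heq ⟨i, hi⟩
    simp only at h3
    rw [← sub_eq_add_P2, sub_mul, map_sub, h3, sub_self]

theorem res_shift {g a : P2} (hg : g ≠ 0) (ha : a ≠ 0) (had : a.natDegree < g.natDegree) :
    res g (a * X ^ (g.natDegree - 1 - a.natDegree)) = 1 := by
  unfold res
  have h1 : (a * X ^ (g.natDegree - 1 - a.natDegree)).natDegree = g.natDegree - 1 := by
    rw [natDegree_mul_X_pow _ ha]
    omega
  have h2 : (a * X ^ (g.natDegree - 1 - a.natDegree)).degree < g.degree := by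
    apply degree_lt_degree
    rw [h1]
    omega
  rw [(modByMonic_eq_self_iff (monic_of_ne hg)).mpr h2]
  have h3 : (a * X ^ (g.natDegree - 1 - a.natDegree)).coeff
      ((a * X ^ (g.natDegree - 1 - a.natDegree)).natDegree) = 1 := by
    rw [coeff_natDegree]
    exact (monic_of_ne (mul_ne_zero ha (pow_ne_zero _ X_ne_zero)))
  rwa [h1] at h3

theorem exists_rep {g : P2} (hg : g ≠ 0) (v : Fin g.natDegree → ZMod 2) :
    ∃ a ∈ Plt g.natDegree, ∀ i : Fin g.natDegree, res g (a * X ^ (i : ℕ)) = v i := by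
  classical
  let ψ : (Fin g.natDegree → ZMod 2) → (Fin g.natDegree → ZMod 2) := fun c i =>
    res g ((∑ j : Fin g.natDegree, C (c j) * X ^ (j : ℕ)) * X ^ (i : ℕ))
  have hinj : Function.Injective ψ := by
    intro c c' hcc
    by_contra hne
    set a : P2 := (∑ j : Fin g.natDegree, C (c j) * X ^ (j : ℕ)) -
      (∑ j : Fin g.natDegree, C (c' j) * X ^ (j : ℕ)) with ha
    have hmem : ∀ c : Fin g.natDegree → ZMod 2,
        (∑ j : Fin g.natDegree, C (c j) * X ^ (j : ℕ) : P2) ∈ Plt g.natDegree := by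
      intro c
      unfold Plt
      exact Finset.mem_image_of_mem _ (Finset.mem_univ c)
    have hamem : a ∈ Plt g.natDegree := by
      rw [ha, sub_eq_add_P2]
      exact add_mem_Plt (hmem c) (hmem c')
    have ha0 : a ≠ 0 := by
      intro h0
      apply hne
      funext i
      rw [← coeff_Plt_sum c i, ← coeff_Plt_sum c' i]
      rw [ha] at h0
      rw [sub_eq_zero.mp h0]
    have hadeg : a.natDegree < g.natDegree :=
      (natDegree_lt_iff_degree_lt ha0).mpr (mem_Plt.mp hamem)
    have h1 := res_shift hg ha0 hadeg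
    have h2 := congrFun hcc ⟨g.natDegree - 1 - a.natDegree, by omega⟩
    simp only [ψ] at h2
    have h3 : res g (a * X ^ (g.natDegree - 1 - a.natDegree)) = 0 := by
      rw [ha, sub_mul, sub_eq_add_P2, res_add, ← ha, h2]
      exact CharTwo.add_self_eq_zero _
    rw [h3] at h1
    exact zero_ne_one h1
  obtain ⟨c, hc⟩ := (Finite.injective_iff_surjective.mp hinj) v
  refine ⟨∑ j : Fin g.natDegree, C (c j) * X ^ (j : ℕ), ?_, fun i => congrFun hc i⟩
  unfold Plt
  exact Finset.mem_image_of_mem _ (Finset.mem_univ c)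

theorem mem_Plt_of_natDegree_lt {f : P2} {d : ℕ} (h : f.natDegree < d) : f ∈ Plt d := by
  rw [mem_Plt]
  exact (degree_le_natDegree).trans_lt (by exact_mod_cast h)

end Approx

open Approx in
theorem approx (n N : ℕ) (hN : N ≤ n) (h2N : n + 1 ≤ 2 * N) (l : P2 →ₗ[ZMod 2] ZMod 2) :
    ∃ g a : P2, g ≠ 0 ∧ g.natDegree ≤ N ∧ IsCoprime a g ∧
      ∀ f : P2, f.natDegree ≤ n - N + g.natDegree → l f = res g (a * f) := by
  classical
  obtain ⟨g₀, hg₀, hadm₀⟩ := exists_adm l (n - N + 1) (N + 1) (by omega)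
  have hex : ∃ G : ℕ, ∃ g : P2, Adm l (n - N + 1) g ∧ g.natDegree = G := ⟨_, g₀, hadm₀, rfl⟩
  obtain ⟨g, hadm, hG⟩ := Nat.find_spec hex
  have hmin : ∀ g' : P2, Adm l (n - N + 1) g' → g.natDegree ≤ g'.natDegree := by
    intro g' h'
    rw [hG]
    exact Nat.find_min' hex ⟨g', h', rfl⟩
  have hg : g ≠ 0 := hadm.1
  have hgN : g.natDegree ≤ N := by
    refine (hmin g₀ hadm₀).trans ?_
    have h1 := (natDegree_lt_iff_degree_lt hadm₀.1).mpr (mem_Plt.mp hg₀)
    omega
  obtain ⟨a, ha, hrep⟩ := exists_rep hg (fun i => l (X ^ (i : ℕ)))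
  have hrep' : ∀ f ∈ Plt g.natDegree, l f = res g (a * f) := by
    intro f hf
    exact lin_eq l (resL g a) g.natDegree (fun i hi => (hrep ⟨i, hi⟩).symm) f hf
  have hmain : ∀ f : P2, f.natDegree ≤ n - N + g.natDegree → l f = res g (a * f) := by
    intro f hf
    have hmon := monic_of_ne hg
    have h1 : f %ₘ g + g * (f /ₘ g) = f := modByMonic_add_div f g
    have h2 : l (g * (f /ₘ g)) = 0 := by
      apply hadm.2
      apply mem_Plt_of_natDegree_lt
      rw [natDegree_divByMonic f hmon]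
      omega
    have h3 : f %ₘ g ∈ Plt g.natDegree := by
      rw [mem_Plt, ← degree_eq_natDegree hg]
      exact degree_modByMonic_lt f hmon
    have h4 : l f = l (f %ₘ g) := by
      conv_lhs => rw [← h1]
      rw [map_add, h2, add_zero]
    rw [h4, hrep' _ h3]
    apply res_congr hg
    refine ⟨-(a * (f /ₘ g)), ?_⟩
    conv_lhs => rw [← h1]
    rw [modByMonic_add_div]
    have h5 : f %ₘ g = f - g * (f /ₘ g) := by
      conv_rhs => rw [← h1]
      rw [modByMonic_add_div]
      exact (eq_sub_of_add_eq h1)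
    rw [h5]
    ring
  refine ⟨g, a, hg, hgN, ?_, hmain⟩
  -- coprimality
  rw [← EuclideanDomain.gcd_isUnit_iff]
  set d := EuclideanDomain.gcd a g with hd
  obtain ⟨a1, ha1⟩ : d ∣ a := EuclideanDomain.gcd_dvd_left a g
  obtain ⟨g1, hg1⟩ : d ∣ g := EuclideanDomain.gcd_dvd_right a g
  have hd0 : d ≠ 0 := by
    intro h0
    rw [h0, zero_mul] at hg1
    exact hg hg1
  have hg10 : g1 ≠ 0 := by
    intro h0
    rw [h0, mul_zero] at hg1
    exact hg hg1
  have hdeg : g.natDegree = d.natDegree + g1.natDegree := by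
    conv_lhs => rw [hg1]
    exact natDegree_mul hd0 hg10
  have hadm1 : Adm l (n - N + 1) g1 := by
    refine ⟨hg10, fun s hs => ?_⟩
    by_cases hs0 : s = 0
    · subst hs0; simp
    have hsd : s.natDegree < n - N + 1 := (natDegree_lt_iff_degree_lt hs0).mpr (mem_Plt.mp hs)
    have h1 : (g1 * s).natDegree ≤ n - N + g.natDegree := by
      rw [natDegree_mul hg10 hs0]
      omega
    rw [hmain _ h1]
    have h2 : res g (a * (g1 * s)) = res g 0 := by
      apply res_congr hg
      refine ⟨a1 * s, ?_⟩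
      rw [sub_zero]
      calc a * (g1 * s) = (d * a1) * (g1 * s) := by rw [← ha1]
        _ = (d * g1) * (a1 * s) := by ring
        _ = g * (a1 * s) := by rw [← hg1]
    rw [h2, res_zero]
  have h6 := hmin g1 hadm1
  have h7 : d.natDegree = 0 := by omega
  rw [isUnit_iff_one]
  exact (monic_of_ne hd0).natDegree_eq_zero.mp h7

end

end Pool.Agent.MP196
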