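import Mathlib
import Pool.Agent.Lib.MP_196a10_nt.Base

open Polynomial

namespace Pool.Agent.MP196

noncomputable section

namespace CntR

theorem sum_pf_natDegree (r : P2) (hr : r ≠ 0) : ∑ P ∈ pf r, P.natDegree ≤ r.natDegree := by
  classical
  have h1 : ((UniqueFactorizationMonoid.normalizedFactors r).map natDegree).sum =
      r.natDegree := by
    have h2 := UniqueFactorizationMonoid.prod_normalizedFactors hr
    have h3 := eq_of_associated h2
    conv_rhs => rw [← h3]
    rw [natDegree_multiset_prod]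
    exact UniqueFactorizationMonoid.zero_notMem_normalizedFactors r
  rw [← h1, Finset.sum_multiset_map_count]
  unfold pf
  apply Finset.sum_le_sum
  intro P hP
  rw [Multiset.mem_toFinset] at hP
  rw [smul_eq_mul]
  have := Multiset.one_le_count_iff_mem.mpr hP
  nlinarith

theorem mem_pf_iff (r : P2) (hr : r ≠ 0) (P : P2) : P ∈ pf r ↔ Irreducible P ∧ P ∣ r := by
  classical
  unfold pf
  rw [Multiset.mem_toFinset]
  constructor
  · intro h
    exact ⟨UniqueFactorizationMonoid.irreducible_of_normalized_factor P h,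
      UniqueFactorizationMonoid.dvd_of_mem_normalizedFactors h⟩
  · rintro ⟨h1, h2⟩
    obtain ⟨Q, hQ, hQ2⟩ := UniqueFactorizationMonoid.exists_mem_normalizedFactors_of_dvd hr h1 h2
    rw [eq_of_associated hQ2]
    exact hQ

end CntR

open Classical in
theorem sum_vM_not_coprime (r : P2) (hr : r ≠ 0) (j : ℕ) (hj : 1 ≤ j) :
    ∑ f ∈ MD j, (if IsCoprime f r then 0 else vM f) ≤ r.natDegree := by
  classical
  set S : Finset P2 := (pf r).filter (fun P => P.natDegree ∣ j) with hS
  have hmem : ∀ P ∈ S, Irreducible P ∧ P ∣ r ∧ P.natDegree ∣ j := by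
    intro P hP
    rw [hS, Finset.mem_filter, CntR.mem_pf_iff r hr] at hP
    exact ⟨hP.1.1, hP.1.2, hP.2⟩
  have hpos : ∀ P ∈ S, 0 < j / P.natDegree := by
    intro P hP
    have := hmem P hP
    exact Nat.div_pos (Nat.le_of_dvd (by omega) this.2.2) this.1.natDegree_pos
  have h1 : S.image (fun P => P ^ (j / P.natDegree)) ⊆ MD j := by
    intro f hf
    rw [Finset.mem_image] at hf
    obtain ⟨P, hP, rfl⟩ := hf
    have := hmem P hP
    rw [mem_MD']
    refine ⟨pow_ne_zero _ this.1.ne_zero, ?_⟩
    rw [natDegree_pow, Nat.div_mul_cancel this.2.2]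
  rw [← Finset.sum_subset h1, Finset.sum_image]
  · have h2 : ∑ P ∈ S, P.natDegree ≤ ∑ P ∈ pf r, P.natDegree :=
      Finset.sum_le_sum_of_subset (Finset.filter_subset _ _)
    refine le_trans (Finset.sum_le_sum (g := fun P => P.natDegree) ?_) (le_trans
      h2 (CntR.sum_pf_natDegree r hr))
    intro P hP
    split_ifs
    · exact Nat.zero_le _
    · rw [vM_pow (hmem P hP).1 (hpos P hP)]
  · intro P hP Q hQ h
    exact (irreducible_pow_unique (hmem P hP).1 (hmem Q hQ).1 (hpos P hP) h).1
  · intro f hf hf2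
    split_ifs with hco
    · rfl
    · rw [vM_eq_zero]
      rintro ⟨P, hP, m, hm0, rfl⟩
      apply hf2
      have hdeg := natDegree_of_mem_MD hf
      rw [natDegree_pow] at hdeg
      rw [Finset.mem_image]
      refine ⟨P, ?_, ?_⟩
      · rw [hS, Finset.mem_filter, CntR.mem_pf_iff r hr]
        refine ⟨⟨hP, ?_⟩, ⟨m, by rw [← hdeg, mul_comm]⟩⟩
        by_contra hnd
        exact hco ((hP.coprime_iff_not_dvd.mpr hnd).pow_left)
      · rw [← hdeg, Nat.mul_div_cancel _ hP.natDegree_pos]

end

end Pool.Agent.MP196
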