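import Mathlib
import Pool.Agent.Lib.MP_196a10_nt.Base

open Polynomial

namespace Pool.Agent.MP196

noncomputable section

theorem fcong {k B : Type} [Field k] [Finite k] [CommRing B] [Algebra k[X] B] [Algebra k B]
    [IsScalarTower k k[X] B] {ι : Type} [Fintype ι] [DecidableEq ι]
    (q : ℕ) (hq : Nat.card k = q)
    (N : Matrix ι ι k[X]) (b : Matrix ι ι B)
    (hbN : b.map (fun x => x ^ q) = N.map (algebraMap k[X] B) * b)
    (hgen : Algebra.adjoin k[X] (Set.range fun p : ι × ι => b p.1 p.2) = ⊤)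
    (P : k[X]) (m : ℕ) (hPm : P ∣ X ^ (q ^ m) - X) (g : Matrix ι ι k)
    (hg : ∀ i j, P ∣ Gm q N m i j - C (g i j))
    (hcomm : Commute ((Gm q N m).map (algebraMap k[X] B)) b)
    (σ : B →ₐ[k[X]] B) (hσ : b.map σ = b * g.map (algebraMap k B)) (x : B) :
    algebraMap k[X] B P ∣ x ^ (q ^ m) - σ x := by
  have hx : x ∈ Algebra.adjoin k[X] (Set.range fun p : ι × ι => b p.1 p.2) := by
    rw [hgen]; exact Algebra.mem_top
  induction hx using Algebra.adjoin_induction with
  | mem y hy =>
    obtain ⟨⟨i, j⟩, rfl⟩ := hy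
    have h1 : (b i j) ^ (q ^ m) = (b * (Gm q N m).map (algebraMap k[X] B)) i j := by
      have h2 := congrFun (congrFun (map_pow_qm hq N b hbN m) i) j
      rw [hcomm.eq] at h2
      exact h2
    have h3 : σ (b i j) = (b * g.map (algebraMap k B)) i j := by
      have h4 := congrFun (congrFun hσ i) j
      exact h4
    simp only
    rw [h1, h3, Matrix.mul_apply, Matrix.mul_apply, ← Finset.sum_sub_distrib]
    apply Finset.dvd_sum
    intro l _
    rw [← mul_sub]
    apply Dvd.dvd.mul_left
    rw [Matrix.map_apply, Matrix.map_apply, IsScalarTower.algebraMap_apply k k[X] B,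
      ← map_sub]
    apply _root_.map_dvd
    exact hg l j
  | algebraMap f =>
    rw [AlgHom.commutes, ← map_pow, ← map_sub]
    apply _root_.map_dvd
    rw [← expand_pow_q hq, expand_eq_comp_X_pow]
    refine hPm.trans ?_
    have h5 := Polynomial.sub_dvd_eval_sub (X ^ (q ^ m) : k[X]) X (f.map C)
    rw [eval_map, eval_map] at h5
    simpa [comp, eval₂_C_X] using h5
  | add y z _ _ hy hz =>
    have h6 := map_add (frobm hq B m) y z
    simp only [frobm_apply] at h6
    rw [h6, map_add, add_sub_add_comm]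
    exact dvd_add hy hz
  | mul y z _ _ hy hz =>
    have h7 : (y * z) ^ (q ^ m) - σ (y * z) =
        y ^ (q ^ m) * (z ^ (q ^ m) - σ z) + (y ^ (q ^ m) - σ y) * σ z := by
      rw [map_mul]; ring
    rw [h7]
    exact dvd_add (hz.mul_left _) (hy.mul_right _)

end

end Pool.Agent.MP196
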