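import Mathlib
import Pool.Agent.Lib.MP_196a10_nt.Base

open Polynomial

namespace Pool.Agent.MP196

noncomputable section

namespace FMem

theorem exists_residue {k B : Type} [Field k] [CommRing B] [Algebra k[X] B]
    [Module.Finite k[X] B] (hinj : Function.Injective (algebraMap k[X] B))
    (P : k[X]) (hP : Irreducible P) :
    ∃ (Ω : Type) (_ : Field Ω) (φ : B →+* Ω), ∀ f : k[X], φ (algebraMap k[X] B f) = 0 ↔ P ∣ f := by
  have hmax : (Ideal.span {P} : Ideal k[X]).IsMaximal :=
    PrincipalIdealRing.isMaximal_of_irreducible hP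
  obtain ⟨Q, hQ, hQ2⟩ := Ideal.exists_ideal_over_maximal_of_isIntegral (S := B)
    (Ideal.span {P} : Ideal k[X]) (by
      rw [(RingHom.injective_iff_ker_eq_bot _).mp hinj]
      exact bot_le)
  refine ⟨B ⧸ Q, Ideal.Quotient.field Q, Ideal.Quotient.mk Q, ?_⟩
  intro f
  rw [Ideal.Quotient.eq_zero_iff_mem, ← Ideal.mem_comap, hQ2, Ideal.mem_span_singleton]

theorem dvd_pow_sub {k : Type} [Field k] [Finite k] {q : ℕ} (hq : Nat.card k = q) {P : k[X]}
    {m : ℕ} (hPm : P ∣ X ^ (q ^ m) - X) (f : k[X]) : P ∣ f ^ (q ^ m) - f := by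
  refine hPm.trans ?_
  have h := sub_dvd_eval_sub (X ^ (q ^ m)) X (f.map (C : k →+* k[X]))
  rw [eval_map, eval_map, eval₂_C_X] at h
  have h2 : f ^ (q ^ m) = eval₂ C (X ^ (q ^ m)) f := by
    rw [← expand_pow_q hq m f, expand_eq_comp_X_pow]
    rfl
  rw [h2]
  exact h

end FMem

open FMem in
theorem fmem {k B G : Type} [Field k] [Finite k] [CommRing B] [IsDomain B] [Algebra k[X] B]
    [Algebra k B] [IsScalarTower k k[X] B] [Module.Finite k[X] B]
    (hinj : Function.Injective (algebraMap k[X] B))
    [Group G] [Finite G] {ι : Type} [Fintype ι] [DecidableEq ι]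
    (q : ℕ) (hq : Nat.card k = q)
    (N : Matrix ι ι k[X]) (b : Matrix ι ι B)
    (hbN : b.map (fun x => x ^ q) = N.map (algebraMap k[X] B) * b)
    (hdetb : b.det ≠ 0)
    (hgen : Algebra.adjoin k[X] (Set.range fun p : ι × ι => b p.1 p.2) = ⊤)
    (ρ : G →* (Matrix ι ι k)ˣ) (hρ : Function.Injective ρ) (act : G →* (B ≃ₐ[k[X]] B))
    (hact : ∀ g : G, b.map (act g) = b * ((ρ g : (Matrix ι ι k)ˣ) : Matrix ι ι k).map
        (algebraMap k B))
    (hrank : Module.finrank k[X] B = Nat.card G)
    (P : k[X]) (hP : Irreducible P) (hdet : ¬ P ∣ N.det)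
    (m : ℕ) (hPm : P ∣ X ^ (q ^ m) - X) (g : Matrix ι ι k)
    (hg : ∀ i j, P ∣ Gm q N m i j - C (g i j))
    (hcomm : Commute ((Gm q N m).map (algebraMap k[X] B)) b) :
    ∃ h : G, ((ρ h : (Matrix ι ι k)ˣ) : Matrix ι ι k) = g := by
  obtain ⟨Ω, _, φ, hφ⟩ := exists_residue (B := B) hinj P hP
  have hq1 := one_lt_q hq
  -- the determinant of `b` is a unit in `Ω`
  have hdetφ : φ b.det ≠ 0 := by
    intro h0
    have h1 : b.det ^ q = algebraMap k[X] B N.det * b.det := by
      have h2 : b.det ^ q = (b.map (fun x => x ^ q)).det := by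
        have h3 := RingHom.map_det (frobm hq B 1).toRingHom b
        have h4 : (frobm hq B 1).toRingHom b.det = b.det ^ q := by
          change b.det ^ (q ^ 1) = _
          rw [pow_one]
        rw [← h4, h3]
        congr 1
        ext i j
        change b i j ^ (q ^ 1) = _
        rw [pow_one]
        rfl
      rw [h2, hbN, Matrix.det_mul]
      congr 1
      exact (RingHom.map_det (algebraMap k[X] B) N).symm
    have h5 : b.det ^ (q - 1) = algebraMap k[X] B N.det := by
      apply mul_right_cancel₀ hdetb
      rw [← h1, ← pow_succ]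
      congr 1
      omega
    apply hdet
    rw [← hφ, ← h5, map_pow, h0, zero_pow]
    omega
  have hbφ : IsUnit (b.map φ) := by
    rw [Matrix.isUnit_iff_isUnit_det]
    have : (b.map φ).det = φ b.det := (RingHom.map_det φ b).symm
    rw [this]
    exact isUnit_iff_ne_zero.mpr hdetφ
  by_contra hno
  push Not at hno
  -- the ring homs
  let F : Option G → (B →+* Ω) := fun o => match o with
    | none => φ.comp (frobm hq B m).toRingHom
    | some h => φ.comp (act h : B ≃ₐ[k[X]] B).toRingEquiv.toRingHom
  have hFs : ∀ h x, F (some h) x = φ (act h x) := fun h x => rfl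
  have hFn : ∀ x, F none x = φ (x ^ (q ^ m)) := fun x => rfl
  have hlin : ∀ o (f : k[X]), F o (algebraMap k[X] B f) = φ (algebraMap k[X] B f) := by
    intro o f
    rcases o with _ | h
    · rw [hFn, ← map_pow, ← sub_eq_zero, ← map_sub, ← map_sub, hφ]
      exact dvd_pow_sub hq hPm f
    · rw [hFs, AlgEquiv.commutes]
  -- constants
  have hkinj : Function.Injective (φ.comp (algebraMap k B)) := (φ.comp (algebraMap k B)).injective
  have hmat : ∀ A A' : Matrix ι ι k, b.map φ * A.map (φ.comp (algebraMap k B)) =
      b.map φ * A'.map (φ.comp (algebraMap k B)) → A = A' := by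
    intro A A' h
    have h2 := hbφ.mul_left_cancel h
    ext i j
    exact hkinj (congrFun (congrFun h2 i) j)
  have hbs : ∀ h, b.map (F (some h)) = b.map φ *
      ((ρ h : (Matrix ι ι k)ˣ) : Matrix ι ι k).map (φ.comp (algebraMap k B)) := by
    intro h
    have h1 : b.map (F (some h)) = (b.map (act h)).map φ := rfl
    rw [h1, hact, Matrix.map_mul]
    rfl
  have hbn : b.map (F none) = b.map φ * g.map (φ.comp (algebraMap k B)) := by
    have h1 : b.map (F none) = (b.map (fun x => x ^ (q ^ m))).map φ := rfl
    rw [h1, map_pow_qm hq N b hbN m, hcomm.eq, Matrix.map_mul]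
    congr 1
    ext i j
    change φ (algebraMap k[X] B (Gm q N m i j)) = φ (algebraMap k B (g i j))
    rw [IsScalarTower.algebraMap_apply k k[X] B, ← sub_eq_zero, ← map_sub, ← map_sub, hφ]
    exact hg i j
  have hFinj : Function.Injective (fun o => ((F o : B →+* Ω) : B →* Ω)) := by
    intro o o' h
    have h' : b.map (F o) = b.map (F o') := by
      ext i j
      exact congrArg (fun u : B →* Ω => u (b i j)) h
    rcases o with _ | s <;> rcases o' with _ | s'
    · rfl
    · rw [hbn, hbs] at h'
      exact absurd (hmat _ _ h').symm (hno s')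
    · rw [hbn, hbs] at h'
      exact absurd (hmat _ _ h') (hno s)
    · rw [hbs, hbs] at h'
      rw [hρ (Units.ext (hmat _ _ h'))]
  have hli : LinearIndependent Ω (fun o => (F o : B → Ω)) :=
    (linearIndependent_monoidHom B Ω).comp _ hFinj
  -- the basis
  have hfs : FaithfulSMul k[X] B := (faithfulSMul_iff_algebraMap_injective k[X] B).mpr hinj
  have htf : Module.IsTorsionFree k[X] B := Module.IsTorsionFree.trans_faithfulSMul k[X] B B
  have hfree : Module.Free k[X] B := Module.free_of_finite_type_torsion_free'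
  let e := Module.finBasis k[X] B
  let T : (Fin (Module.finrank k[X] B) → Ω) →ₗ[Ω] (B → Ω) :=
    { toFun := fun v x => ∑ i, φ (algebraMap k[X] B (e.repr x i)) * v i
      map_add' := by
        intro v w
        funext x
        simp [mul_add, Finset.sum_add_distrib]
      map_smul' := by
        intro c v
        funext x
        simp [Finset.mul_sum, mul_left_comm] }
  have hT : ∀ o, (F o : B → Ω) = T (fun i => F o (e i)) := by
    intro o
    funext x
    change F o x = ∑ i, φ (algebraMap k[X] B (e.repr x i)) * F o (e i)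
    conv_lhs => rw [← e.sum_repr x]
    rw [map_sum]
    refine Finset.sum_congr rfl fun i _ => ?_
    rw [Algebra.smul_def, map_mul, hlin]
  have hli2 : LinearIndependent Ω (fun o => (fun i => F o (e i) :
      Fin (Module.finrank k[X] B) → Ω)) := by
    apply LinearIndependent.of_comp T
    convert hli using 1
    funext o
    exact (hT o).symm
  have := Fintype.ofFinite G
  have hcard := hli2.fintype_card_le_finrank
  rw [Module.finrank_fin_fun, hrank, Nat.card_eq_fintype_card, Fintype.card_option] at hcard
  omega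

end

end Pool.Agent.MP196
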