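import Mathlib
import Pool.Agent.Lib.MP_196a10_nt.Base

open Polynomial

namespace Pool.Agent.MP196

noncomputable section

namespace TB

section

variable {k κ C : Type} [Field k] [Finite k] [Field κ] [Algebra k κ] [CommRing C]
    [Algebra κ C] [Algebra k C] [IsScalarTower k κ C]

theorem pow_q_sum {q : ℕ} (hq : Nat.card k = q) {ι : Type} (s : Finset ι) (f : ι → C) :
    (∑ i ∈ s, f i) ^ q = ∑ i ∈ s, f i ^ q := by
  have h := map_sum (frobm hq C 1) f s
  simpa only [frobm_apply, pow_one] using h

theorem smul_pow_mem (q : ℕ) (S : Submodule κ C) {a : κ} {c : C} (h : c ^ q ∈ S) :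
    (a • c) ^ q ∈ S := by
  rw [_root_.smul_pow]
  exact S.smul_mem _ h

theorem span_pow_eq_top {ι : Type} [Fintype ι] [DecidableEq ι] (q : ℕ)
    (N : Matrix ι ι κ) (hN : N.det ≠ 0) (b : Matrix ι ι C)
    (hbN : b.map (fun x => x ^ q) = N.map (algebraMap κ C) * b)
    (hgen : Algebra.adjoin κ (Set.range fun p : ι × ι => b p.1 p.2) = ⊤) :
    Submodule.span κ (Set.range fun c : C => c ^ q) = ⊤ := by
  set W : Submodule κ C := Submodule.span κ (Set.range fun c : C => c ^ q) with hW
  have h1 : (1 : C) ∈ W := Submodule.subset_span ⟨1, one_pow q⟩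
  have hmul : ∀ x y : C, x ∈ W → y ∈ W → x * y ∈ W := by
    intro x y hx hy
    have h2 : x * y ∈ W * W := Submodule.mul_mem_mul hx hy
    have h3 : W * W ≤ W := by
      rw [hW, Submodule.span_mul_span]
      apply Submodule.span_mono
      rintro _ ⟨_, ⟨c, rfl⟩, _, ⟨d, rfl⟩, rfl⟩
      exact ⟨c * d, mul_pow c d q⟩
    exact h3 h2
  let S : Subalgebra κ C := W.toSubalgebra h1 hmul
  have hbS : Algebra.adjoin κ (Set.range fun p : ι × ι => b p.1 p.2) ≤ S := by
    apply Algebra.adjoin_le
    rintro _ ⟨⟨i, j⟩, rfl⟩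
    have hu : IsUnit N.det := isUnit_iff_ne_zero.mpr hN
    have h4 : (N⁻¹).map (algebraMap κ C) * b.map (fun x => x ^ q) = b := by
      rw [hbN, ← Matrix.mul_assoc, ← Matrix.map_mul, Matrix.nonsing_inv_mul _ hu,
        Matrix.map_one _ (map_zero _) (map_one _), Matrix.one_mul]
    have h5 : b i j = ∑ l, (N⁻¹ i l) • (b l j) ^ q := by
      have h6 := congrFun (congrFun h4 i) j
      rw [Matrix.mul_apply] at h6
      rw [← h6]
      apply Finset.sum_congr rfl
      intro l _
      rw [Matrix.map_apply, Matrix.map_apply, Algebra.smul_def]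
    change b i j ∈ W
    rw [h5]
    apply Submodule.sum_mem
    intro l _
    exact W.smul_mem _ (Submodule.subset_span ⟨b l j, rfl⟩)
  rw [hgen] at hbS
  rw [eq_top_iff]
  intro x _
  exact hbS (Algebra.mem_top : x ∈ (⊤ : Subalgebra κ C))

end

end TB

theorem linIndep_pow {k κ C : Type} [Field k] [Finite k] [Field κ] [Algebra k κ] [CommRing C]
    [Algebra κ C] [Algebra k C] [IsScalarTower k κ C] [Module.Finite κ C]
    {ι : Type} [Fintype ι] [DecidableEq ι] (q : ℕ) (hq : Nat.card k = q)
    (N : Matrix ι ι κ) (hN : N.det ≠ 0) (b : Matrix ι ι C)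
    (hbN : b.map (fun x => x ^ q) = N.map (algebraMap κ C) * b)
    (hgen : Algebra.adjoin κ (Set.range fun p : ι × ι => b p.1 p.2) = ⊤)
    {n : ℕ} (v : Fin n → C) (hv : LinearIndependent κ v) :
    LinearIndependent κ (fun i => v i ^ q) := by
  classical
  have htop := TB.span_pow_eq_top q N hN b hbN hgen
  have hs : LinearIndepOn κ id (Set.range v) := hv.linearIndepOn_id
  let I : Set C := hs.extend (Set.subset_univ _)
  let e : Module.Basis I κ C := Module.Basis.extend hs
  have he : ∀ i : I, e i = (i : C) := fun i => Module.Basis.extend_apply_self hs i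
  have : Finite I := Module.Finite.finite_basis e
  let _ : Fintype I := Fintype.ofFinite I
  have hspan : ⊤ ≤ Submodule.span κ (Set.range fun i : I => (i : C) ^ q) := by
    rw [← htop]
    apply Submodule.span_le.mpr
    rintro _ ⟨c, rfl⟩
    have h1 : c = ∑ i : I, e.repr c i • (i : C) := by
      conv_lhs => rw [← e.sum_repr c]
      exact Finset.sum_congr rfl (fun i _ => by rw [he])
    change c ^ q ∈ Submodule.span κ (Set.range fun i : I => (i : C) ^ q)
    rw [h1, TB.pow_q_sum hq]
    apply Submodule.sum_mem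
    intro i _
    exact TB.smul_pow_mem q _ (Submodule.subset_span ⟨i, rfl⟩)
  have hcard : Fintype.card I = Module.finrank κ C := (Module.finrank_eq_card_basis e).symm
  have hli : LinearIndependent κ (fun i : I => (i : C) ^ q) :=
    linearIndependent_of_top_le_span_of_card_eq_finrank hspan hcard
  have hmem : ∀ i : Fin n, v i ∈ I := fun i => hs.subset_extend _ ⟨i, rfl⟩
  let f : Fin n → I := fun i => ⟨v i, hmem i⟩
  have hf : Function.Injective f := by
    intro i j hij
    exact hv.injective (congrArg Subtype.val hij)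
  exact hli.comp f hf

end

end Pool.Agent.MP196
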