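import Mathlib
import Pool.Agent.Lib.MP_196a10_nt.Base
import Pool.Agent.Lib.MP_196a10_nt.TB

open Polynomial

namespace Pool.Agent.MP196

noncomputable section

namespace GalF

theorem key {k M : Type} [Field k] [Finite k] [Field M] [Algebra k M]
    {ι : Type} [Fintype ι] [DecidableEq ι] {q : ℕ} (hq : Nat.card k = q)
    (N b1 b2 : Matrix ι ι M) (hN : N.det ≠ 0) (hb1 : b1.det ≠ 0)
    (h1 : b1.map (fun x => x ^ q) = N * b1) (h2 : b2.map (fun x => x ^ q) = N * b2) :
    ∃ a : Matrix ι ι k, b2 = b1 * a.map (algebraMap k M) := by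
  have hu : IsUnit b1.det := isUnit_iff_ne_zero.mpr hb1
  have hNu : IsUnit N.det := isUnit_iff_ne_zero.mpr hN
  set c : Matrix ι ι M := b1⁻¹ * b2 with hc
  have hbc : b1 * c = b2 := by
    rw [hc, ← Matrix.mul_assoc, Matrix.mul_nonsing_inv _ hu, Matrix.one_mul]
  have hfr : ∀ a : Matrix ι ι M, a.map (frobm hq M 1) = a.map (fun x => x ^ q) := by
    intro a
    ext i j
    simp [frobm_apply]
  have h3 : b1.map (fun x => x ^ q) * c.map (fun x => x ^ q) = b2.map (fun x => x ^ q) := by
    rw [← hfr, ← hfr, ← hfr, ← Matrix.map_mul, hbc]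
  rw [h1, h2, ← hbc, ← Matrix.mul_assoc] at h3
  have hNb : IsUnit (N * b1).det := by
    rw [Matrix.det_mul]
    exact hNu.mul hu
  have h4 : c.map (fun x => x ^ q) = c := by
    have h6 : (N * b1)⁻¹ * (N * b1) = 1 := Matrix.nonsing_inv_mul _ hNb
    have h7 : (N * b1)⁻¹ * ((N * b1) * c.map (fun x => x ^ q)) = (N * b1)⁻¹ * ((N * b1) * c) := by
      rw [h3]
    calc c.map (fun x => x ^ q) = ((N * b1)⁻¹ * (N * b1)) * c.map (fun x => x ^ q) := by
          rw [h6, Matrix.one_mul]
      _ = ((N * b1)⁻¹ * (N * b1)) * c := by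
          rw [Matrix.mul_assoc, h7, ← Matrix.mul_assoc (N * b1)⁻¹ (N * b1) c]
      _ = c := by rw [h6, Matrix.one_mul]
  have h5 : ∀ i j, ∃ a : k, algebraMap k M a = c i j := by
    intro i j
    apply exists_of_pow_q hq
    have := congrFun (congrFun h4 i) j
    simpa using this
  choose a ha using h5
  refine ⟨Matrix.of a, ?_⟩
  have h6 : (Matrix.of a).map (algebraMap k M) = c := by
    ext i j
    simp [ha]
  rw [h6, hbc]

theorem separable {k K L : Type} [Field k] [Finite k] [Field K] [Field L] [Algebra k K]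
    [Algebra K L] [Algebra k L] [IsScalarTower k K L] [FiniteDimensional K L]
    {ι : Type} [Fintype ι] [DecidableEq ι] {q : ℕ} (hq : Nat.card k = q)
    (N : Matrix ι ι K) (hN : N.det ≠ 0) (b : Matrix ι ι L)
    (hbN : b.map (fun x => x ^ q) = N.map (algebraMap K L) * b)
    (hgen : IntermediateField.adjoin K (Set.range fun p : ι × ι => b p.1 p.2) = ⊤) :
    Algebra.IsSeparable K L := by
  classical
  obtain ⟨p, hp⟩ := CharP.exists k
  have hpp : p.Prime :=
    (CharP.char_is_prime_or_zero k p).resolve_right (CharP.char_ne_zero_of_finite k p)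
  have : Fact p.Prime := ⟨hpp⟩
  have : CharP K p := charP_of_injective_algebraMap (algebraMap k K).injective p
  have : ExpChar K p := ExpChar.prime hpp
  have : Fintype k := Fintype.ofFinite k
  obtain ⟨s, _, hqs⟩ := FiniteField.card k p
  rw [← Nat.card_eq_fintype_card, hq] at hqs
  set S := separableClosure K L with hS
  have : ExpChar S p := expChar_of_injective_algebraMap (algebraMap K S).injective p
  have h1 : ∀ x : L, ∃ n : ℕ, x ^ p ^ n ∈ S := by
    intro x
    obtain ⟨n, y, hy⟩ := IsPurelyInseparable.pow_mem S p x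
    exact ⟨n, hy ▸ y.2⟩
  have h2 : ∀ x : L, ∀ n m : ℕ, n ≤ m → x ^ p ^ n ∈ S → x ^ p ^ m ∈ S := by
    intro x n m hnm hx
    obtain ⟨l, rfl⟩ := Nat.exists_eq_add_of_le hnm
    rw [pow_add, pow_mul]
    exact pow_mem hx _
  choose n hn using fun pr : ι × ι => h1 (b pr.1 pr.2)
  have hP : ∀ m : ℕ, (∀ i j, b i j ^ (q ^ (m + 1)) ∈ S) → ∀ i j, b i j ^ (q ^ m) ∈ S := by
    intro m hm i j
    set N' : Matrix ι ι K := N.map (frobm hq K m) with hN'
    have hN'd : IsUnit N'.det := by
      have : N'.det = frobm hq K m N.det := by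
        rw [AlgHom.map_det]
        rfl
      rw [this, frobm_apply]
      exact isUnit_iff_ne_zero.mpr (pow_ne_zero _ hN)
    have h3 : b.map (fun x => x ^ (q ^ (m + 1))) =
        N'.map (algebraMap K L) * b.map (fun x => x ^ (q ^ m)) := by
      have h4 := congrArg (fun z : Matrix ι ι L => z.map (frobm hq L m)) hbN
      simp only [Matrix.map_mul, Matrix.map_map] at h4
      have h5 : (frobm hq L m ∘ fun x : L => x ^ q) = (fun x : L => x ^ (q ^ (m + 1))) := by
        funext x
        simp only [Function.comp, frobm_apply]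
        rw [← pow_mul, pow_succ, mul_comm]
      have h6 : (frobm hq L m ∘ algebraMap K L) = (algebraMap K L ∘ frobm hq K m) := by
        funext x
        simp only [Function.comp, frobm_apply, map_pow]
      rw [h5, h6] at h4
      rw [h4, hN', Matrix.map_map]
      rfl
    have h7 : b.map (fun x => x ^ (q ^ m)) =
        (N'⁻¹).map (algebraMap K L) * b.map (fun x => x ^ (q ^ (m + 1))) := by
      rw [h3, ← Matrix.mul_assoc, ← Matrix.map_mul, Matrix.nonsing_inv_mul _ hN'd]
      rw [Matrix.map_one _ (map_zero _) (map_one _), Matrix.one_mul]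
    have h8 := congrFun (congrFun h7 i) j
    simp only [Matrix.map_apply, Matrix.mul_apply] at h8
    rw [h8]
    apply sum_mem
    intro l _
    exact mul_mem (IntermediateField.algebraMap_mem _ _) (hm l j)
  have hbase : ∀ i j, b i j ^ (q ^ (∑ pr : ι × ι, n pr)) ∈ S := by
    intro i j
    rw [hqs, ← pow_mul]
    apply h2 _ (n (i, j)) _ _ (hn (i, j))
    calc n (i, j) ≤ ∑ pr : ι × ι, n pr :=
          Finset.single_le_sum (f := n) (fun _ _ => Nat.zero_le _) (Finset.mem_univ (i, j))
      _ = 1 * ∑ pr : ι × ι, n pr := (one_mul _).symm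
      _ ≤ s * ∑ pr : ι × ι, n pr := Nat.mul_le_mul_right _ s.pos
  have hall : ∀ m : ℕ, (∀ i j, b i j ^ (q ^ m) ∈ S) → ∀ i j, b i j ∈ S := by
    intro m
    induction m with
    | zero => intro h i j; simpa using h i j
    | succ m ih => intro h; exact ih (hP m h)
  have hfin := hall _ hbase
  have htop : S = ⊤ := by
    rw [eq_top_iff, ← hgen, IntermediateField.adjoin_le_iff]
    rintro _ ⟨⟨i, j⟩, rfl⟩
    exact hfin i j
  rw [← separableClosure.eq_top_iff]
  exact htop

end GalF

theorem galois_field {k K L : Type} [Field k] [Finite k] [Field K] [Field L] [Algebra k K]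
    [Algebra K L] [Algebra k L] [IsScalarTower k K L] [FiniteDimensional K L]
    {ι : Type} [Fintype ι] [DecidableEq ι] (q : ℕ) (hq : Nat.card k = q)
    (N : Matrix ι ι K) (hN : N.det ≠ 0) (b : Matrix ι ι L) (hb : b.det ≠ 0)
    (hbN : b.map (fun x => x ^ q) = N.map (algebraMap K L) * b)
    (hgen : IntermediateField.adjoin K (Set.range fun p : ι × ι => b p.1 p.2) = ⊤) :
    IsGalois K L ∧
      ∀ σ : L ≃ₐ[K] L, ∃ a : Matrix ι ι k, b.map σ = b * a.map (algebraMap k L) := by
  classical
  -- general embeddings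
  have hemb : ∀ (M : Type) [Field M] [Algebra K M] [Algebra k M] [IsScalarTower k K M]
      (τ τ' : L →ₐ[K] M), ∃ a : Matrix ι ι k, b.map τ' = b.map τ * a.map (algebraMap k M) := by
    intro M _ _ _ _ τ τ'
    have hτ : ∀ τ : L →ₐ[K] M, (b.map τ).map (fun x => x ^ q) =
        N.map (algebraMap K M) * b.map τ := by
      intro τ
      have h1 := congrArg (fun z : Matrix ι ι L => z.map τ) hbN
      simp only [Matrix.map_mul, Matrix.map_map] at h1
      rw [Matrix.map_map]
      have h2 : (τ ∘ fun x : L => x ^ q) = ((fun x : M => x ^ q) ∘ τ) := by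
        funext x
        simp
      have h3 : (τ ∘ algebraMap K L) = algebraMap K M := by
        funext x
        simp
      rw [h2, h3] at h1
      exact h1
    have hdet : (b.map τ).det ≠ 0 := by
      have : (b.map τ).det = τ b.det := by
        rw [AlgHom.map_det]
        rfl
      rw [this]
      exact (_root_.map_ne_zero τ).mpr hb
    have hNd : (N.map (algebraMap K M)).det ≠ 0 := by
      have : (N.map (algebraMap K M)).det = algebraMap K M N.det := by
        rw [RingHom.map_det]
        rfl
      rw [this]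
      exact (_root_.map_ne_zero _).mpr hN
    exact GalF.key hq _ _ _ hNd hdet (hτ τ) (hτ τ')
  refine ⟨?_, ?_⟩
  · -- Galois
    have hnormal : Normal K L := by
      let M := AlgebraicClosure L
      have hM : IsAlgClosure K M := IsAlgClosure.ofAlgebraic K L M
      have hMn : Normal K M := IsAlgClosure.normal K M
      let τ : L →ₐ[K] M := IsScalarTower.toAlgHom K L M
      have hE : Normal K τ.fieldRange := by
        rw [IntermediateField.normal_iff_forall_map_le]
        intro σ
        have h1 : τ.fieldRange = IntermediateField.adjoin K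
            (τ '' (Set.range fun p : ι × ι => b p.1 p.2)) := by
          rw [← IntermediateField.adjoin_map, hgen]
          rw [← AlgHom.fieldRange_eq_map]
        have h2 : (τ.fieldRange).map σ = IntermediateField.adjoin K
            (σ '' (τ '' (Set.range fun p : ι × ι => b p.1 p.2))) := by
          rw [h1, IntermediateField.adjoin_map]
        rw [h2, IntermediateField.adjoin_le_iff]
        rintro _ ⟨_, ⟨_, ⟨⟨i, j⟩, rfl⟩, rfl⟩, rfl⟩
        obtain ⟨a, ha⟩ := hemb M τ (σ.comp τ)
        have h3 := congrFun (congrFun ha i) j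
        simp only [Matrix.map_apply, AlgHom.comp_apply, Matrix.mul_apply] at h3
        simp only
        rw [h3]
        apply sum_mem
        intro l _
        apply mul_mem
        · exact ⟨b i l, rfl⟩
        · rw [IsScalarTower.algebraMap_apply k K M]
          exact IntermediateField.algebraMap_mem _ _
      exact Normal.of_algEquiv (AlgHom.equivFieldRange τ).symm
    have hsep : Algebra.IsSeparable K L := by
      exact GalF.separable hq N hN b hbN hgen
    exact { }
  · intro σ
    obtain ⟨a, ha⟩ := hemb L (AlgHom.id K L) σ.toAlgHom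
    refine ⟨a, ?_⟩
    have : b.map (AlgHom.id K L) = b := by
      ext i j
      simp
    rw [this] at ha
    exact ha

end

end Pool.Agent.MP196
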