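import Mathlib
import Pool.Agent.Lib.MP_196a10_nt.Base

open Polynomial

namespace Pool.Agent.MP196

noncomputable section

theorem isIntegral_entries {k B : Type} [Field k] [Finite k] [CommRing B] [Algebra k[X] B]
    {ι : Type} [Fintype ι] [DecidableEq ι] (q : ℕ) (hq : Nat.card k = q)
    (N : Matrix ι ι k[X]) (b : Matrix ι ι B)
    (hbN : b.map (fun x => x ^ q) = N.map (algebraMap k[X] B) * b) (i j : ι) :
    IsIntegral k[X] (b i j) := by
  classical
  set x : B := b i j with hx
  have hq1 : 1 < q := one_lt_q hq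
  set V : Submodule k[X] B := Submodule.span k[X] (Set.range (fun l => b l j)) with hV
  have hVfg : V.FG := Submodule.fg_span (Set.finite_range _)
  have hmem : ∀ m : ℕ, x ^ (q ^ m) ∈ V := by
    intro m
    have h1 := congrFun (congrFun (map_pow_qm hq N b hbN m) i) j
    rw [Matrix.map_apply, Matrix.mul_apply] at h1
    rw [hx, h1]
    refine Submodule.sum_mem _ (fun l _ => ?_)
    rw [Matrix.map_apply, ← Algebra.smul_def]
    exact Submodule.smul_mem _ _ (Submodule.subset_span ⟨l, rfl⟩)
  have hN : IsNoetherian k[X] V := isNoetherian_of_fg_of_noetherian V hVfg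
  let W : ℕ → Submodule k[X] B := fun m =>
    Submodule.span k[X] ((fun s : ℕ => x ^ (q ^ s)) '' (Finset.range (m + 1) : Set ℕ))
  let f : ℕ →o Submodule k[X] V :=
    { toFun := fun m => (W m).comap V.subtype
      monotone' := by
        intro m m' hmm
        apply Submodule.comap_mono
        apply Submodule.span_mono
        apply Set.image_mono
        intro s hs
        simp only [Finset.coe_range, Set.mem_Iio] at hs ⊢
        omega }
  obtain ⟨n, hn⟩ := monotone_stabilizes_iff_noetherian.mpr hN f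
  have h2 : (⟨x ^ (q ^ (n + 1)), hmem (n + 1)⟩ : V) ∈ f (n + 1) := by
    change x ^ (q ^ (n + 1)) ∈ W (n + 1)
    apply Submodule.subset_span
    exact ⟨n + 1, by simp, rfl⟩
  rw [← hn (n + 1) (Nat.le_succ n)] at h2
  change x ^ (q ^ (n + 1)) ∈ W n at h2
  rw [Submodule.mem_span_image_finset_iff_exists_fun'] at h2
  obtain ⟨c, hc⟩ := h2
  refine ⟨X ^ (q ^ (n + 1)) - ∑ s ∈ Finset.range (n + 1), C (c s) * X ^ (q ^ s), ?_, ?_⟩
  · apply monic_X_pow_sub
    rw [← mem_degreeLT]
    refine Submodule.sum_mem _ (fun s hs => ?_)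
    rw [mem_degreeLT]
    refine (degree_C_mul_X_pow_le _ _).trans_lt ?_
    have h3 : q ^ s < q ^ (n + 1) := Nat.pow_lt_pow_right hq1 (Finset.mem_range.mp hs)
    exact_mod_cast h3
  · rw [eval₂_sub, eval₂_pow, eval₂_X, eval₂_finsetSum, ← hc, sub_eq_zero]
    refine Finset.sum_congr rfl (fun s _ => ?_)
    rw [eval₂_mul, eval₂_C, eval₂_pow, eval₂_X, Algebra.smul_def]

end

end Pool.Agent.MP196
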