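import Mathlib
import Pool.Agent.Lib.MP_196a10_nt.Base

open Polynomial

namespace Pool.Agent.MP196

noncomputable section

namespace YSer

/-- Coefficients of the `q`-th power of a power series over `F_q`. -/
theorem coeff_pow_q {k : Type} [Field k] [Finite k] {q : ℕ} (hq : Nat.card k = q)
    (f : PowerSeries k) (n : ℕ) :
    PowerSeries.coeff n (f ^ q) = if q ∣ n then PowerSeries.coeff (n / q) f else 0 := by
  have hq1 : 1 < q := one_lt_q hq
  have h1 := PowerSeries.eq_X_pow_mul_shift_add_trunc (n + 1) f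
  have h2 : f ^ q = (PowerSeries.X ^ (n + 1) *
      PowerSeries.mk fun i => PowerSeries.coeff (i + (n + 1)) f) ^ q +
      ((PowerSeries.trunc (n + 1) f : k[X]) : PowerSeries k) ^ q := by
    conv_lhs => rw [h1]
    exact add_pow_q hq _ _
  rw [h2, map_add, mul_pow, ← pow_mul, PowerSeries.coeff_X_pow_mul', if_neg, zero_add,
    ← Polynomial.coe_pow, ← expand_q hq, Polynomial.coeff_coe, coeff_expand (by omega)]
  · split_ifs with h
    · rw [PowerSeries.coeff_trunc, if_pos]
      exact lt_of_le_of_lt (Nat.div_le_self n q) (Nat.lt_succ_self n)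
    · rfl
  · intro h
    have : (n + 1) * 1 ≤ (n + 1) * q := Nat.mul_le_mul_left _ hq1.le
    omega

variable {k : Type} [Field k] {ι : Type} [Fintype ι] [DecidableEq ι]

/-- The coefficient matrices of `Y`. -/
def yy (q : ℕ) (U : Matrix ι ι k[X]) : ℕ → Matrix ι ι k
  | 0 => 1
  | n + 1 => (if h : 1 < q ∧ q ∣ n + 1 then yy q U ((n + 1) / q) else 0) -
      ∑ i : Fin (n + 1), (U.map (fun f => f.coeff ((i : ℕ) + 1))) * yy q U (n - i)
termination_by n => n
decreasing_by
  · exact Nat.div_lt_self (Nat.succ_pos n) h.1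
  · omega

theorem yy_zero (q : ℕ) (U : Matrix ι ι k[X]) : yy q U 0 = 1 := by
  rw [yy]

theorem yy_succ (q : ℕ) (hq : 1 < q) (U : Matrix ι ι k[X]) (n : ℕ) :
    yy q U (n + 1) = (if q ∣ n + 1 then yy q U ((n + 1) / q) else 0) -
      ∑ i ∈ Finset.range (n + 1), (U.map (fun f => f.coeff (i + 1))) * yy q U (n - i) := by
  rw [yy]
  congr 1
  · by_cases h : q ∣ n + 1
    · rw [dif_pos ⟨hq, h⟩, if_pos h]
    · rw [dif_neg (fun hc => h hc.2), if_neg h]
  · exact (Fin.sum_univ_eq_sum_range
      (fun i => (U.map (fun f => f.coeff (i + 1))) * yy q U (n - i)) (n + 1))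

theorem commute_yy (q : ℕ) (hq : 1 < q) (U : Matrix ι ι k[X]) (Z : Matrix ι ι k)
    (hZ : ∀ i, Commute Z (U.map (fun f => f.coeff i))) (n : ℕ) : Commute Z (yy q U n) := by
  induction n using Nat.strong_induction_on with
  | _ n ih =>
    cases n with
    | zero => rw [yy_zero]; exact Commute.one_right Z
    | succ n =>
      rw [yy_succ q hq]
      apply Commute.sub_right
      · split_ifs
        · exact ih _ (Nat.div_lt_self (Nat.succ_pos n) hq)
        · exact Commute.zero_right Z
      · apply Commute.sum_right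
        intro i _
        exact (hZ (i + 1)).mul_right (ih _ (by omega))

end YSer

open YSer in
theorem exists_Y (k : Type) [Field k] [Finite k] (q : ℕ) (hq : Nat.card k = q)
    (ι : Type) [Fintype ι] [DecidableEq ι]
    (U : Matrix ι ι k[X]) (hU0 : U.map (fun f => f.coeff 0) = 1) :
    ∃ Y : Matrix ι ι (PowerSeries k),
      Y.map (fun f => f ^ q) = U.map (fun f => (f : PowerSeries k)) * Y ∧
      Y.map (fun f => PowerSeries.constantCoeff f) = 1 ∧
      ∀ Z : Matrix ι ι k, (∀ i, Commute Z (U.map (fun f => f.coeff i))) →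
        Commute (Z.map (PowerSeries.C : k →+* PowerSeries k)) Y := by
  have hq1 : 1 < q := one_lt_q hq
  refine ⟨Matrix.of fun i j => PowerSeries.mk (fun n => yy q U n i j), ?_, ?_, ?_⟩
  · ext i j n
    rw [Matrix.map_apply, coeff_pow_q hq, Matrix.mul_apply, map_sum]
    simp only [Matrix.of_apply, PowerSeries.coeff_mk, Matrix.map_apply, PowerSeries.coeff_mul,
      Polynomial.coeff_coe]
    rw [Finset.sum_comm]
    have hterm : ∀ p : ℕ × ℕ, ∑ l, (U i l).coeff p.1 * yy q U p.2 l j =
        ((U.map (fun f => f.coeff p.1)) * yy q U p.2) i j := by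
      intro p
      rw [Matrix.mul_apply]
      rfl
    rw [Finset.sum_congr rfl (fun p _ => hterm p)]
    cases n with
    | zero =>
      rw [if_pos (dvd_zero q), Nat.zero_div, Finset.Nat.antidiagonal_zero, Finset.sum_singleton,
        hU0, one_mul]
    | succ n =>
      rw [Finset.Nat.sum_antidiagonal_succ, hU0, one_mul, yy_succ q hq1,
        Finset.Nat.sum_antidiagonal_eq_sum_range_succ_mk]
      rw [Matrix.sub_apply, Matrix.sum_apply]
      split_ifs <;> simp
  · ext i j
    rw [Matrix.map_apply, Matrix.of_apply, ← PowerSeries.coeff_zero_eq_constantCoeff_apply,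
      PowerSeries.coeff_mk, yy_zero]
  · intro Z hZ
    unfold Commute SemiconjBy
    ext i j n
    have hc := commute_yy q hq1 U Z hZ n
    have h1 : (Z * yy q U n) i j = (yy q U n * Z) i j := by rw [hc.eq]
    rw [Matrix.mul_apply, Matrix.mul_apply] at h1
    rw [Matrix.mul_apply, Matrix.mul_apply, map_sum, map_sum]
    simp only [Matrix.of_apply, Matrix.map_apply, PowerSeries.coeff_C_mul,
      PowerSeries.coeff_mul_C, PowerSeries.coeff_mk]
    exact h1

end

end Pool.Agent.MP196
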