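import Mathlib
import Pool.Agent.Lib.MP_196a10_nt.Base
import Pool.Agent.Lib.MP_196a10_nt.YSer
import Pool.Agent.Lib.MP_196a10_nt.IntB
import Pool.Agent.Lib.MP_196a10_nt.GalF

open Polynomial

namespace Pool.Agent.MP196

noncomputable section

namespace GalP

/-- Restriction of a group of automorphisms to a stable subring. -/
theorem restrict_act {A B L G : Type} [CommRing A] [CommRing B] [CommRing L] [Algebra A B]
    [Algebra B L] [Algebra A L] [IsScalarTower A B L]
    (hinj : Function.Injective (algebraMap B L)) [Group G] (σ : G →* (L ≃ₐ[A] L))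
    (h : ∀ g (x : B), ∃ y : B, algebraMap B L y = σ g (algebraMap B L x)) :
    ∃ act : G →* (B ≃ₐ[A] B), ∀ g x, algebraMap B L (act g x) = σ g (algebraMap B L x) := by
  choose f hf using h
  let F : G → (B →ₐ[A] B) := fun g =>
    { toFun := f g
      map_one' := hinj (by rw [hf, map_one, map_one])
      map_mul' := fun x y => hinj (by rw [hf, map_mul, map_mul, map_mul, hf, hf])
      map_zero' := hinj (by rw [hf, map_zero, map_zero])
      map_add' := fun x y => hinj (by rw [hf, map_add, map_add, map_add, hf, hf])
      commutes' := fun a => hinj (by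
        rw [hf, ← IsScalarTower.algebraMap_apply A B L, AlgEquiv.commutes]) }
  have hF : ∀ g x, algebraMap B L (F g x) = σ g (algebraMap B L x) := hf
  have hFF : ∀ g h, (F g).comp (F h) = F (g * h) := by
    intro g h
    apply AlgHom.ext
    intro x
    apply hinj
    rw [AlgHom.comp_apply, hF, hF, hF, map_mul]
    rfl
  have hF1 : F 1 = AlgHom.id A B := by
    apply AlgHom.ext
    intro x
    apply hinj
    rw [hF, map_one]
    rfl
  let act : G →* (B ≃ₐ[A] B) :=
    { toFun := fun g => AlgEquiv.ofAlgHom (F g) (F g⁻¹) (by rw [hFF, mul_inv_cancel, hF1])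
        (by rw [hFF, inv_mul_cancel, hF1])
      map_one' := by
        apply AlgEquiv.ext
        intro x
        show F 1 x = x
        rw [hF1]; rfl
      map_mul' := fun g h => by
        apply AlgEquiv.ext
        intro x
        show F (g * h) x = F g (F h x)
        rw [← hFF]; rfl }
  exact ⟨act, fun g x => hF g x⟩

theorem map_det_pow {k B : Type} [Field k] [Finite k] [CommRing B] [Algebra k B]
    {ι : Type} [Fintype ι] [DecidableEq ι] {q : ℕ} (hq : Nat.card k = q) (b : Matrix ι ι B) :
    (b.map (fun x => x ^ q)).det = b.det ^ q := by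
  have h1 : b.map (fun x => x ^ q) = (frobm hq B 1).toRingHom.mapMatrix b := by
    ext i j
    simp [frobm_apply]
  rw [h1, ← RingHom.map_det]
  simp [frobm_apply]

theorem pkg_field {k B : Type} [Field k] [Finite k] (q : ℕ) (hq : Nat.card k = q)
    [CommRing B] [IsDomain B] [Algebra k[X] B] [Algebra k B] [IsScalarTower k k[X] B]
    [Module.Finite k[X] B] (hinj : Function.Injective (algebraMap k[X] B))
    {ι : Type} [Fintype ι] [DecidableEq ι] (N : Matrix ι ι k[X]) (b : Matrix ι ι B)
    (hbN : b.map (fun x => x ^ q) = N.map (algebraMap k[X] B) * b) (hdet : b.det ≠ 0)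
    (hgen : Algebra.adjoin k[X] (Set.range fun p : ι × ι => b p.1 p.2) = ⊤) :
    ∃ (G : Type) (_ : Group G) (_ : Finite G)
      (ρ : G →* (Matrix ι ι k)ˣ) (act : G →* (B ≃ₐ[k[X]] B)),
      (∀ g : G, b.map (act g) = b * ((ρ g : (Matrix ι ι k)ˣ) : Matrix ι ι k).map
        (algebraMap k B)) ∧
      Function.Injective ρ ∧
      (∀ x : B, (∀ g, act g x = x) → ∃ f : k[X], algebraMap k[X] B f = x) ∧
      Module.finrank k[X] B = Nat.card G := by
  classical
  have hfaith : FaithfulSMul k[X] B := (faithfulSMul_iff_algebraMap_injective _ _).mpr hinj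
  let K := FractionRing k[X]
  let L := FractionRing B
  have hinjL : Function.Injective (algebraMap B L) := IsFractionRing.injective B L
  have hfaithL : FaithfulSMul k[X] L := by
    rw [faithfulSMul_iff_algebraMap_injective, IsScalarTower.algebraMap_eq k[X] B L]
    exact hinjL.comp hinj
  let _ : Algebra K L := FractionRing.liftAlgebra k[X] L
  have _ : IsScalarTower k[X] K L := FractionRing.isScalarTower_liftAlgebra k[X] L
  have hkKL : IsScalarTower k K L := by
    apply IsScalarTower.of_algebraMap_eq
    intro a
    rw [IsScalarTower.algebraMap_apply k k[X] K, ← IsScalarTower.algebraMap_apply k[X] K L,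
      IsScalarTower.algebraMap_apply k[X] B L, ← IsScalarTower.algebraMap_apply k k[X] B,
      ← IsScalarTower.algebraMap_apply k B L]
  have hdq : b.det ^ q = algebraMap k[X] B N.det * b.det := by
    rw [← map_det_pow hq b, hbN, Matrix.det_mul]
    congr 1
    exact ((algebraMap k[X] B).map_det N).symm
  have hNdet : N.det ≠ 0 := by
    intro h
    rw [h, map_zero, zero_mul] at hdq
    exact hdet (pow_eq_zero_iff (by have := one_lt_q hq; omega) |>.mp hdq)
  let NK : Matrix ι ι K := N.map (algebraMap k[X] K)
  let bL : Matrix ι ι L := b.map (algebraMap B L)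
  have hNK : NK.det ≠ 0 := by
    have h1 : NK.det = algebraMap k[X] K N.det := ((algebraMap k[X] K).map_det N).symm
    rw [h1]
    exact fun h => hNdet (IsFractionRing.injective k[X] K (by rw [h, map_zero]))
  have hbLdet : bL.det ≠ 0 := by
    have h1 : bL.det = algebraMap B L b.det := ((algebraMap B L).map_det b).symm
    rw [h1]
    exact fun h => hdet (hinjL (by rw [h, map_zero]))
  have hbLN : bL.map (fun x => x ^ q) = NK.map (algebraMap K L) * bL := by
    have h1 : bL.map (fun x => x ^ q) = (b.map (fun x => x ^ q)).map (algebraMap B L) := by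
      ext i j
      simp [bL]
    have h2 : NK.map (algebraMap K L) = (N.map (algebraMap k[X] B)).map (algebraMap B L) := by
      ext i j
      simp only [NK, Matrix.map_apply]
      rw [← IsScalarTower.algebraMap_apply k[X] K L, IsScalarTower.algebraMap_apply k[X] B L]
    rw [h1, hbN, Matrix.map_mul, h2]
  -- generation
  have hmemB : ∀ x : B, algebraMap B L x ∈
      IntermediateField.adjoin K (Set.range fun p : ι × ι => bL p.1 p.2) := by
    intro x
    have hx : x ∈ Algebra.adjoin k[X] (Set.range fun p : ι × ι => b p.1 p.2) := by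
      rw [hgen]; exact Algebra.mem_top
    induction hx using Algebra.adjoin_induction with
    | mem y hy =>
      obtain ⟨p, rfl⟩ := hy
      exact IntermediateField.subset_adjoin K _ ⟨p, rfl⟩
    | algebraMap r =>
      rw [← IsScalarTower.algebraMap_apply k[X] B L, IsScalarTower.algebraMap_apply k[X] K L]
      exact IntermediateField.algebraMap_mem _ _
    | add y z _ _ hy hz => rw [map_add]; exact add_mem hy hz
    | mul y z _ _ hy hz => rw [map_mul]; exact mul_mem hy hz
  have hgenL : IntermediateField.adjoin K (Set.range fun p : ι × ι => bL p.1 p.2) = ⊤ := by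
    rw [eq_top_iff]
    intro x _
    obtain ⟨y, z, _, rfl⟩ := IsFractionRing.div_surjective (A := B) x
    exact div_mem (hmemB y) (hmemB z)
  have hfd : FiniteDimensional K L := by
    have h1 : FiniteDimensional K
        (IntermediateField.adjoin K (Set.range fun p : ι × ι => bL p.1 p.2)) := by
      apply IntermediateField.finiteDimensional_adjoin
      rintro x ⟨p, rfl⟩
      have h2 : IsIntegral k[X] (b p.1 p.2) := Algebra.IsIntegral.isIntegral _
      have h3 : IsIntegral k[X] (algebraMap B L (b p.1 p.2)) :=
        h2.map (IsScalarTower.toAlgHom k[X] B L)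
      exact h3.tower_top
    rw [hgenL] at h1
    exact Module.Finite.equiv (IntermediateField.topEquiv (F := K) (E := L)).toLinearEquiv
  obtain ⟨hgal, hσ⟩ := galois_field (k := k) q hq NK hNK bL hbLdet hbLN hgenL
  choose a ha using hσ
  have hinjk : Function.Injective (algebraMap k L) := (algebraMap k L).injective
  have huniq : ∀ c c' : Matrix ι ι k, bL * c.map (algebraMap k L) = bL * c'.map (algebraMap k L) →
      c = c' := by
    intro c c' h
    have h1 : c.map (algebraMap k L) = c'.map (algebraMap k L) := by
      have h2 := congrArg (fun M => bL⁻¹ * M) h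
      simp only [← Matrix.mul_assoc] at h2
      rwa [Matrix.nonsing_inv_mul _ (isUnit_iff_ne_zero.mpr hbLdet), Matrix.one_mul,
        Matrix.one_mul] at h2
    ext i j
    exact hinjk (congrFun (congrFun h1 i) j)
  let aH : (L ≃ₐ[K] L) →* Matrix ι ι k :=
    { toFun := a
      map_one' := by
        apply huniq
        rw [← ha]
        ext i j
        simp [Matrix.mul_apply, Matrix.map_apply, Matrix.one_apply, apply_ite]
      map_mul' := fun σ τ => by
        apply huniq
        rw [← ha]
        have h1 : bL.map (σ * τ) = (bL.map τ).map σ := by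
          ext i j
          simp
        have h2 : ((a τ).map (algebraMap k L)).map σ = (a τ).map (algebraMap k L) := by
          ext i j
          simp only [Matrix.map_apply]
          rw [IsScalarTower.algebraMap_apply k K L, AlgEquiv.commutes]
        rw [h1, ha τ, Matrix.map_mul, h2, ha σ, Matrix.mul_assoc, ← Matrix.map_mul] }
  let σX : (L ≃ₐ[K] L) →* (L ≃ₐ[k[X]] L) := AlgEquiv.restrictScalarsHom k[X]
  have hσX : ∀ σ x, σX σ x = σ x := fun σ x => rfl
  obtain ⟨act, hact⟩ := restrict_act (A := k[X]) (B := B) (L := L) hinjL σX (by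
    intro σ x
    have hx : x ∈ Algebra.adjoin k[X] (Set.range fun p : ι × ι => b p.1 p.2) := by
      rw [hgen]; exact Algebra.mem_top
    induction hx using Algebra.adjoin_induction with
    | mem y hy =>
      obtain ⟨p, rfl⟩ := hy
      refine ⟨(b * (a σ).map (algebraMap k B)) p.1 p.2, ?_⟩
      rw [hσX]
      have h1 := congrFun (congrFun (ha σ) p.1) p.2
      simp only [Matrix.map_apply, bL] at h1
      rw [h1, Matrix.mul_apply, Matrix.mul_apply, map_sum]
      apply Finset.sum_congr rfl
      intro l _
      rw [map_mul, Matrix.map_apply, Matrix.map_apply, Matrix.map_apply,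
        ← IsScalarTower.algebraMap_apply k B L]
    | algebraMap r =>
      refine ⟨algebraMap k[X] B r, ?_⟩
      rw [← IsScalarTower.algebraMap_apply k[X] B L, AlgEquiv.commutes]
    | add y z _ _ hy hz =>
      obtain ⟨y', hy'⟩ := hy
      obtain ⟨z', hz'⟩ := hz
      exact ⟨y' + z', by rw [map_add, hy', hz', map_add, map_add]⟩
    | mul y z _ _ hy hz =>
      obtain ⟨y', hy'⟩ := hy
      obtain ⟨z', hz'⟩ := hz
      exact ⟨y' * z', by rw [map_mul, hy', hz', map_mul, map_mul]⟩)
  refine ⟨L ≃ₐ[K] L, inferInstance, inferInstance, aH.toHomUnits, act, ?_, ?_, ?_, ?_⟩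
  · intro g
    have h1 : bL.map g = bL * (a g).map (algebraMap k L) := ha g
    ext i j
    apply hinjL
    rw [Matrix.map_apply, hact, hσX]
    have h2 := congrFun (congrFun h1 i) j
    simp only [Matrix.map_apply, bL] at h2
    rw [h2, Matrix.mul_apply, Matrix.mul_apply, map_sum]
    apply Finset.sum_congr rfl
    intro l _
    rw [map_mul, Matrix.map_apply, Matrix.map_apply, Matrix.map_apply,
      ← IsScalarTower.algebraMap_apply k B L]
    rfl
  · intro g h hgh
    have h1 : a g = a h := by
      have := congrArg (fun u : (Matrix ι ι k)ˣ => (u : Matrix ι ι k)) hgh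
      exact this
    have h2 : bL.map g = bL.map h := by rw [ha, ha, h1]
    have h3 : (act g : B →ₐ[k[X]] B) = (act h : B →ₐ[k[X]] B) := by
      apply AlgHom.ext_of_adjoin_eq_top hgen
      rintro x ⟨p, rfl⟩
      apply hinjL
      have h4 := congrFun (congrFun h2 p.1) p.2
      simp only [Matrix.map_apply, bL] at h4
      rw [← hσX, ← hσX, ← hact, ← hact] at h4
      exact h4
    apply AlgEquiv.ext
    intro x
    obtain ⟨y, z, _, rfl⟩ := IsFractionRing.div_surjective (A := B) x
    rw [map_div₀, map_div₀, ← hσX, ← hσX, ← hσX, ← hσX, ← hact, ← hact, ← hact, ← hact]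
    have h5 : ∀ y, act g y = act h y := fun y => congrArg (fun F : B →ₐ[k[X]] B => F y) h3
    rw [h5, h5]
  · intro x hx
    have h1 : algebraMap B L x ∈ (⊥ : IntermediateField K L) := by
      rw [IsGalois.mem_bot_iff_fixed]
      intro σ
      rw [← hσX, ← hact, hx]
    obtain ⟨z, hz⟩ := IntermediateField.mem_bot.mp h1
    have h2 : IsIntegral k[X] z := by
      have h3 : IsIntegral k[X] (algebraMap B L x) :=
        (Algebra.IsIntegral.isIntegral (R := k[X]) x).map (IsScalarTower.toAlgHom k[X] B L)
      rw [← hz] at h3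
      exact (isIntegral_algHom_iff (IsScalarTower.toAlgHom k[X] K L)
        (algebraMap K L).injective).mp h3
    obtain ⟨f, hf⟩ := IsIntegrallyClosed.isIntegral_iff.mp h2
    refine ⟨f, hinjL ?_⟩
    rw [← hz, ← hf, ← IsScalarTower.algebraMap_apply k[X] K L,
      ← IsScalarTower.algebraMap_apply k[X] B L]
  · rw [← IsFractionRing.finrank_eq k[X] K B L, ← IsGalois.card_aut_eq_finrank]


/-- A type copy of the field of Laurent series. -/
def LL (k : Type) [Field k] : Type := LaurentSeries k

instance (k : Type) [Field k] : Field (LL k) := inferInstanceAs (Field (LaurentSeries k))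

/-- The identity `LL k → LaurentSeries k`. -/
def toLS (k : Type) [Field k] : LL k →+* LaurentSeries k := RingHom.id (LaurentSeries k)

/-- The identity `LaurentSeries k → LL k`. -/
def ofLS (k : Type) [Field k] : LaurentSeries k →+* LL k := RingHom.id (LaurentSeries k)

theorem toLS_ofLS (k : Type) [Field k] (x : LaurentSeries k) : toLS k (ofLS k x) = x := rfl
theorem ofLS_toLS (k : Type) [Field k] (x : LL k) : ofLS k (toLS k x) = x := rfl

instance instAlgPoly (k : Type) [Field k] : Algebra k[X] (LL k) := ((ofLS k).comp (pinf k)).toAlgebra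

instance instAlgBase (k : Type) [Field k] : Algebra k (LL k) :=
  (((ofLS k).comp (pinf k)).comp C).toAlgebra

instance (k : Type) [Field k] : IsScalarTower k k[X] (LL k) :=
  IsScalarTower.of_algebraMap_eq' rfl

theorem algebraMap_LL (k : Type) [Field k] (f : k[X]) :
    algebraMap k[X] (LL k) f = ofLS k (pinf k f) := rfl

theorem algebraMap_LL' (k : Type) [Field k] (a : k) :
    algebraMap k (LL k) a = ofLS k (HahnSeries.C a) := by
  show ofLS k (pinf k (C a)) = _
  rw [pinf_C]

/-- `w^(-n) f(w) = (reflect n f)(1/w)`. -/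
theorem pinf_reflect (k : Type) [Field k] (n : ℕ) (f : k[X]) (hf : f.natDegree ≤ n) :
    pinf k (f.reflect n) = HahnSeries.single (-(n : ℤ)) (1 : k) *
      ((f : PowerSeries k) : LaurentSeries k) := by
  have h1 : ((f : PowerSeries k) : LaurentSeries k) =
      eval₂ (HahnSeries.C : k →+* LaurentSeries k) (HahnSeries.single (1 : ℤ) (1 : k)) f := by
    have h2 : (HahnSeries.ofPowerSeries ℤ k).comp (Polynomial.coeToPowerSeries.ringHom) =
        Polynomial.eval₂RingHom (HahnSeries.C : k →+* LaurentSeries k)
          (HahnSeries.single (1 : ℤ) (1 : k)) := by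
      apply Polynomial.ringHom_ext
      · intro a
        simp
      · simp
    exact congrArg (fun F : k[X] →+* LaurentSeries k => F f) h2
  have h3 : (HahnSeries.single (1 : ℤ) (1 : k)) * (HahnSeries.single (-1 : ℤ) (1 : k)) = 1 := by
    rw [HahnSeries.single_mul_single]
    simp
  let _ : Invertible (HahnSeries.single (1 : ℤ) (1 : k)) :=
    ⟨HahnSeries.single (-1 : ℤ) (1 : k), by rw [mul_comm, h3], h3⟩
  have h4 := Polynomial.eval₂_reflect_mul_pow (HahnSeries.C : k →+* LaurentSeries k)
    (HahnSeries.single (1 : ℤ) (1 : k)) n f hf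
  have h5 : pinf k (f.reflect n) = eval₂ (HahnSeries.C : k →+* LaurentSeries k)
      (⅟(HahnSeries.single (1 : ℤ) (1 : k))) (f.reflect n) := rfl
  rw [h1, ← h4, ← h5, HahnSeries.single_pow, one_pow, mul_comm, mul_assoc,
    HahnSeries.single_mul_single]
  simp

end GalP

open GalP in
theorem galois_pkg (k : Type) [Field k] [Finite k] (q : ℕ) (hq : Nat.card k = q)
    (ι : Type) [Fintype ι] [DecidableEq ι]
    (U : Matrix ι ι k[X]) (hU0 : U.map (fun f => f.coeff 0) = 1)
    (e : ℕ) (he : ∀ i j, (U i j).natDegree ≤ (q - 1) * e) :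
    ∃ (B : Type) (_ : CommRing B) (_ : IsDomain B) (_ : Algebra k[X] B) (_ : Algebra k B)
      (_ : IsScalarTower k k[X] B) (_ : Module.Finite k[X] B)
      (G : Type) (_ : Group G) (_ : Finite G)
      (b : Matrix ι ι B) (ρ : G →* (Matrix ι ι k)ˣ) (act : G →* (B ≃ₐ[k[X]] B))
      (j : B →ₐ[k] LaurentSeries k),
      b.map (fun x => x ^ q) = (NN q e U).map (algebraMap k[X] B) * b ∧
      b.det ≠ 0 ∧
      Algebra.adjoin k[X] (Set.range fun p : ι × ι => b p.1 p.2) = ⊤ ∧
      (∀ Z : Matrix ι ι k, (∀ i, Commute Z (U.map (fun f => f.coeff i))) →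
        Commute (Z.map (algebraMap k B)) b) ∧
      (∀ g : G, b.map (act g) = b * ((ρ g : (Matrix ι ι k)ˣ) : Matrix ι ι k).map
        (algebraMap k B)) ∧
      Function.Injective ρ ∧
      (∀ x : B, (∀ g, act g x = x) → ∃ f : k[X], algebraMap k[X] B f = x) ∧
      Function.Injective j ∧
      (∀ f : k[X], j (algebraMap k[X] B f) = pinf k f) ∧
      Module.finrank k[X] B = Nat.card G := by
  classical
  obtain ⟨Y, hY1, hY2, hY3⟩ := exists_Y k q hq ι U hU0
  have hq1 := one_lt_q hq
  -- the matrix b0 = w^(-e) Y
  let z : LaurentSeries k := HahnSeries.single (-(e : ℤ)) (1 : k)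
  let b0 : Matrix ι ι (LL k) := Matrix.of fun i j => ofLS k (z * ((Y i j : PowerSeries k) : LaurentSeries k))
  have hzq : z ^ q = HahnSeries.single (-(((q - 1) * e : ℕ) : ℤ)) (1 : k) * z := by
    rw [HahnSeries.single_pow, one_pow, HahnSeries.single_mul_single, one_mul]
    congr 1
    obtain ⟨q', rfl⟩ : ∃ q', q = q' + 1 := ⟨q - 1, by omega⟩
    simp only [Nat.add_sub_cancel, nsmul_eq_mul]
    push_cast
    ring_nf
  have hb0 : b0.map (fun x => x ^ q) = (NN q e U).map (algebraMap k[X] (LL k)) * b0 := by
    ext i j
    have h1 := congrFun (congrFun hY1 i) j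
    simp only [Matrix.map_apply, Matrix.mul_apply] at h1
    simp only [b0, Matrix.map_apply, Matrix.of_apply, Matrix.mul_apply, NN, algebraMap_LL]
    rw [← map_pow, mul_pow, ← PowerSeries.coe_pow, h1, hzq]
    have h2 : ((∑ l, (U i l : PowerSeries k) * Y l j : PowerSeries k) : LaurentSeries k) =
        ∑ l, ((U i l : PowerSeries k) : LaurentSeries k) * ((Y l j : PowerSeries k) : LaurentSeries k) := by
      rw [map_sum]
      exact Finset.sum_congr rfl fun l _ => map_mul _ _ _
    have h3 : HahnSeries.single (-(((q - 1) * e : ℕ) : ℤ)) (1 : k) * z *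
        ∑ l, ((U i l : PowerSeries k) : LaurentSeries k) * ((Y l j : PowerSeries k) : LaurentSeries k)
        = ∑ l, (HahnSeries.single (-(((q - 1) * e : ℕ) : ℤ)) (1 : k) *
          ((U i l : PowerSeries k) : LaurentSeries k)) *
          (z * ((Y l j : PowerSeries k) : LaurentSeries k)) := by
      rw [Finset.mul_sum]
      apply Finset.sum_congr rfl
      intro l _
      ring
    rw [h2, h3, map_sum]
    apply Finset.sum_congr rfl
    intro l _
    rw [map_mul, pinf_reflect k _ _ (he i l)]
  let B := Algebra.adjoin k[X] (Set.range fun p : ι × ι => b0 p.1 p.2)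
  let b : Matrix ι ι B := Matrix.of fun i j => ⟨b0 i j, Algebra.subset_adjoin ⟨(i, j), rfl⟩⟩
  have hval : Function.Injective (algebraMap B (LL k)) := Subtype.val_injective
  have hbval : b.map (algebraMap B (LL k)) = b0 := by
    ext i j
    rfl
  have hfin : Module.Finite k[X] B := by
    apply Algebra.finite_adjoin_of_finite_of_isIntegral (Set.finite_range _)
    rintro x ⟨p, rfl⟩
    exact isIntegral_entries q hq (NN q e U) b0 hb0 p.1 p.2
  have hbN : b.map (fun x => x ^ q) = (NN q e U).map (algebraMap k[X] B) * b := by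
    ext i j
    have h1 := congrFun (congrFun hb0 i) j
    simp only [Matrix.map_apply, Matrix.mul_apply] at h1 ⊢
    show (((b i j) ^ q : B) : LL k) = ((∑ l, _ : B) : LL k)
    rw [SubmonoidClass.coe_pow, AddSubmonoidClass.coe_finsetSum]
    exact h1
  have hdet0 : b0.det ≠ 0 := by
    have h1 : b0 = (ofLS k z) • (Y.map (fun f => ofLS k ((f : PowerSeries k) : LaurentSeries k))) := by
      ext i j
      simp only [b0, Matrix.of_apply, Matrix.smul_apply, Matrix.map_apply, smul_eq_mul, map_mul]
    have hz0 : ofLS k z ≠ 0 := by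
      intro h
      have h2 : z = 0 := (ofLS k).injective (by rw [h, map_zero])
      exact one_ne_zero (HahnSeries.single_eq_zero_iff.mp h2)
    have h2 : (Y.map (fun f => ofLS k ((f : PowerSeries k) : LaurentSeries k))).det =
        ofLS k ((Y.det : PowerSeries k) : LaurentSeries k) := by
      have := ((ofLS k).comp (HahnSeries.ofPowerSeries ℤ k)).map_det Y
      rw [RingHom.comp_apply] at this
      rw [this]
      rfl
    have h3 : Y.det ≠ 0 := by
      intro h
      have h4 := (PowerSeries.constantCoeff (R := k)).map_det Y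
      have h5 : (PowerSeries.constantCoeff (R := k)).mapMatrix Y = 1 := hY2
      rw [h5, h, map_zero, Matrix.det_one] at h4
      exact zero_ne_one h4
    rw [h1, Matrix.det_smul, h2]
    apply mul_ne_zero (pow_ne_zero _ hz0)
    intro h
    have h6 : ((Y.det : PowerSeries k) : LaurentSeries k) = 0 :=
      (ofLS k).injective (by rw [h, map_zero])
    exact h3 (HahnSeries.ofPowerSeries_injective (by rw [h6, map_zero]))
  have hdet : b.det ≠ 0 := by
    intro h
    have h1 := (algebraMap B (LL k)).map_det b
    have h2 : (algebraMap B (LL k)).mapMatrix b = b0 := hbval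
    rw [h, map_zero, h2] at h1
    exact hdet0 h1.symm
  have hgen : Algebra.adjoin k[X] (Set.range fun p : ι × ι => b p.1 p.2) = ⊤ := by
    have h1 := Algebra.adjoin_adjoin_coe_preimage (R := k[X])
      (s := Set.range fun p : ι × ι => b0 p.1 p.2)
    rw [← h1]
    congr 1
    ext x
    simp only [Set.mem_range, Set.mem_preimage]
    constructor
    · rintro ⟨p, rfl⟩
      exact ⟨p, rfl⟩
    · rintro ⟨p, hp⟩
      exact ⟨p, Subtype.ext hp⟩
  have hinj : Function.Injective (algebraMap k[X] B) := by
    have h1 : Function.Injective (algebraMap k[X] (LL k)) := by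
      intro f g hfg
      rw [algebraMap_LL, algebraMap_LL] at hfg
      exact pinf_injective k ((ofLS k).injective hfg)
    intro f g hfg
    apply h1
    rw [IsScalarTower.algebraMap_apply k[X] B (LL k), hfg,
      ← IsScalarTower.algebraMap_apply k[X] B (LL k)]
  obtain ⟨G, hG1, hG2, ρ, act, h1, h2, h3, h4⟩ := pkg_field q hq hinj (NN q e U) b hbN hdet hgen
  let j : B →ₐ[k] LaurentSeries k :=
    { ((toLS k).comp (algebraMap B (LL k))) with
      commutes' := fun a => by
        show toLS k (algebraMap B (LL k) (algebraMap k B a)) = _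
        rw [← IsScalarTower.algebraMap_apply k B (LL k), algebraMap_LL', toLS_ofLS,
          LaurentSeries.algebraMap_apply] }
  have hjdef : ∀ x : B, j x = toLS k (algebraMap B (LL k) x) := fun x => rfl
  refine ⟨B, inferInstance, inferInstance, inferInstance, inferInstance, inferInstance, hfin,
    G, hG1, hG2, b, ρ, act, j, hbN, hdet, hgen, ?_, h1, h2, h3, ?_, ?_, h4⟩
  · intro Z hZ
    have h5 := hY3 Z hZ
    have h6 : ∀ i l, ∑ m, (PowerSeries.C (Z i m) : PowerSeries k) * Y m l =
        ∑ m, Y i m * (PowerSeries.C (Z m l) : PowerSeries k) := by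
      intro i l
      have := congrFun (congrFun h5 i) l
      simp only [Matrix.mul_apply, Matrix.map_apply] at this
      exact this
    have hcZ : ∀ a : k, algebraMap B (LL k) (algebraMap k B a) =
        ofLS k ((PowerSeries.C a : PowerSeries k) : LaurentSeries k) := by
      intro a
      rw [← IsScalarTower.algebraMap_apply k B (LL k), algebraMap_LL', HahnSeries.ofPowerSeries_C]
    show (Z.map (algebraMap k B)) * b = b * (Z.map (algebraMap k B))
    ext i l
    apply congrArg
    apply hval
    rw [Matrix.mul_apply, Matrix.mul_apply, map_sum, map_sum]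
    have h7 : ∀ i l, algebraMap B (LL k) (b i l) =
        ofLS k z * ofLS k ((Y i l : PowerSeries k) : LaurentSeries k) := by
      intro i l
      rw [← map_mul]
      rfl
    simp only [map_mul, Matrix.map_apply, hcZ, h7]
    have h8 := congrArg (fun f : PowerSeries k => ofLS k z * ofLS k (f : LaurentSeries k)) (h6 i l)
    simp only [map_sum, map_mul, Finset.mul_sum] at h8
    rw [Finset.sum_congr rfl fun m _ => mul_left_comm _ _ _, h8]
    exact Finset.sum_congr rfl fun m _ => (mul_assoc _ _ _).symm
  · intro x y hxy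
    exact hval ((toLS k).injective hxy)
  · intro f
    rw [hjdef, ← IsScalarTower.algebraMap_apply k[X] B (LL k), algebraMap_LL, toLS_ofLS]

end

end Pool.Agent.MP196
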