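import Mathlib
import Pool.Agent.Lib.MP_196a10_nt.Base
import Pool.Agent.Lib.MP_196a10_nt.TB

open Polynomial

namespace Pool.Agent.MP196

noncomputable section

namespace Redu

theorem redu_one {k B : Type} [Field k] [Finite k] [CommRing B] [Algebra k[X] B]
    [Module.Finite k[X] B] {ι : Type} [Fintype ι] [DecidableEq ι] (q : ℕ) (hq : Nat.card k = q)
    (N : Matrix ι ι k[X]) (b : Matrix ι ι B)
    (hbN : b.map (fun x => x ^ q) = N.map (algebraMap k[X] B) * b)
    (hgen : Algebra.adjoin k[X] (Set.range fun p : ι × ι => b p.1 p.2) = ⊤)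
    (P : k[X]) (hP : Irreducible P) (hdet : ¬ P ∣ N.det) (x : B)
    (hx : algebraMap k[X] B P ∣ x ^ q) : algebraMap k[X] B P ∣ x := by
  classical
  let I : Ideal k[X] := Ideal.span {P}
  have hI : I.IsMaximal := PrincipalIdealRing.isMaximal_of_irreducible hP
  let J : Ideal B := Ideal.span {algebraMap k[X] B P}
  have hIJ : I ≤ J.comap (algebraMap k[X] B) := by
    rw [Ideal.span_le, Set.singleton_subset_iff]
    exact Ideal.mem_span_singleton_self _
  let fκ : Field (k[X] ⧸ I) := Ideal.Quotient.field I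
  let φ : (k[X] ⧸ I) →+* (B ⧸ J) := Ideal.quotientMap J (algebraMap k[X] B) hIJ
  let aκC : Algebra (k[X] ⧸ I) (B ⧸ J) := φ.toAlgebra
  let akC : Algebra k (B ⧸ J) := (φ.comp (algebraMap k (k[X] ⧸ I))).toAlgebra
  have t1 : IsScalarTower k (k[X] ⧸ I) (B ⧸ J) := IsScalarTower.of_algebraMap_eq' rfl
  have hφ : ∀ r : k[X], φ (Ideal.Quotient.mk I r) = Ideal.Quotient.mk J (algebraMap k[X] B r) :=
    fun r => Ideal.quotientMap_mk
  have t2 : IsScalarTower k[X] (k[X] ⧸ I) (B ⧸ J) := IsScalarTower.of_algebraMap_eq (fun r => (hφ r).symm)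
  let ψ : B →ₐ[k[X]] (B ⧸ J) :=
    { toRingHom := Ideal.Quotient.mk J
      commutes' := fun r => rfl }
  have hψ : Function.Surjective ψ := Ideal.Quotient.mk_surjective
  have f1 : Module.Finite k[X] (B ⧸ J) := Module.Finite.of_surjective ψ.toLinearMap hψ
  have f2 : Module.Finite (k[X] ⧸ I) (B ⧸ J) := Module.Finite.of_restrictScalars_finite k[X] (k[X] ⧸ I) (B ⧸ J)
  let N' : Matrix ι ι (k[X] ⧸ I) := N.map (Ideal.Quotient.mk I)
  let b' : Matrix ι ι (B ⧸ J) := b.map ψ
  have hN' : N'.det ≠ 0 := by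
    have h1 : N'.det = Ideal.Quotient.mk I N.det := by
      rw [RingHom.map_det]
      rfl
    rw [h1]
    intro h2
    apply hdet
    exact Ideal.mem_span_singleton.mp (Ideal.Quotient.eq_zero_iff_mem.mp h2)
  have hbN' : b'.map (fun x => x ^ q) = N'.map (algebraMap (k[X] ⧸ I) (B ⧸ J)) * b' := by
    have h1 : (b.map (fun x => x ^ q)).map ψ = (N.map (algebraMap k[X] B) * b).map ψ :=
      congrArg (fun M : Matrix ι ι B => M.map ψ) hbN
    have h2 : (b.map (fun x => x ^ q)).map ψ = b'.map (fun x => x ^ q) := by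
      ext i j
      simp [b']
    have h3 : (N.map (algebraMap k[X] B) * b).map ψ = N'.map (algebraMap (k[X] ⧸ I) (B ⧸ J)) * b' := by
      rw [Matrix.map_mul]
      rfl
    rw [← h2, h1, h3]
  have hgen' : Algebra.adjoin (k[X] ⧸ I) (Set.range fun p : ι × ι => b' p.1 p.2) = ⊤ := by
    rw [eq_top_iff]
    intro y _
    obtain ⟨z, rfl⟩ := hψ y
    have hz : z ∈ Algebra.adjoin k[X] (Set.range fun p : ι × ι => b p.1 p.2) := by
      rw [hgen]; exact Algebra.mem_top
    induction hz using Algebra.adjoin_induction with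
    | mem x hx =>
      obtain ⟨p, rfl⟩ := hx
      exact Algebra.subset_adjoin ⟨p, rfl⟩
    | algebraMap r =>
      have h1 : ψ (algebraMap k[X] B r) = algebraMap (k[X] ⧸ I) (B ⧸ J) (Ideal.Quotient.mk I r) := (hφ r).symm
      rw [h1]
      exact Subalgebra.algebraMap_mem _ _
    | add x y _ _ hx hy =>
      rw [map_add]
      exact add_mem (hx Algebra.mem_top) (hy Algebra.mem_top)
    | mul x y _ _ hx hy =>
      rw [map_mul]
      exact mul_mem (hx Algebra.mem_top) (hy Algebra.mem_top)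
  have hmem : ∀ z : B, ψ z = 0 ↔ algebraMap k[X] B P ∣ z := by
    intro z
    exact Ideal.Quotient.eq_zero_iff_mem.trans Ideal.mem_span_singleton
  rw [← hmem] at hx ⊢
  rw [map_pow] at hx
  by_contra hx0
  have hv : LinearIndependent (k[X] ⧸ I) (fun _ : Fin 1 => ψ x) :=
    (linearIndependent_unique_iff (R := (k[X] ⧸ I))).mpr hx0
  have h5 := linIndep_pow (k := k) q hq N' hN' b' hbN' hgen' _ hv
  exact (h5.ne_zero 0) hx

end Redu

theorem redu {k B : Type} [Field k] [Finite k] [CommRing B] [Algebra k[X] B]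
    [Module.Finite k[X] B] {ι : Type} [Fintype ι] [DecidableEq ι] (q : ℕ) (hq : Nat.card k = q)
    (N : Matrix ι ι k[X]) (b : Matrix ι ι B)
    (hbN : b.map (fun x => x ^ q) = N.map (algebraMap k[X] B) * b)
    (hgen : Algebra.adjoin k[X] (Set.range fun p : ι × ι => b p.1 p.2) = ⊤)
    (P : k[X]) (hP : Irreducible P) (hdet : ¬ P ∣ N.det) (m : ℕ) (x : B)
    (hx : algebraMap k[X] B P ∣ x ^ (q ^ m)) : algebraMap k[X] B P ∣ x := by
  induction m with
  | zero => simpa using hx
  | succ m ih =>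
    apply ih
    apply Redu.redu_one q hq N b hbN hgen P hP hdet
    rwa [← pow_mul, ← pow_succ]

end

end Pool.Agent.MP196
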