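import Mathlib
import Pool.Agent.Lib.MP_196a10_nt.Base

open Polynomial

namespace Pool.Agent.MP196

noncomputable section

namespace SumOrd

theorem order_prod {k : Type} [Field k] {G : Type} (s : Finset G) (y : G → LaurentSeries k)
    (hy : ∀ g ∈ s, y g ≠ 0) :
    (∏ g ∈ s, y g) ≠ 0 ∧ (∏ g ∈ s, y g).order = ∑ g ∈ s, (y g).order := by
  classical
  induction s using Finset.induction_on with
  | empty => simp
  | insert a s ha ih =>
    obtain ⟨h1, h2⟩ := ih (fun g hg => hy g (Finset.mem_insert_of_mem hg))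
    have h3 : y a ≠ 0 := hy a (Finset.mem_insert_self _ _)
    rw [Finset.prod_insert ha, Finset.sum_insert ha]
    exact ⟨mul_ne_zero h3 h1, by rw [HahnSeries.order_mul h3 h1, h2]⟩

end SumOrd

theorem sum_order_nonpos {k B G : Type} [Field k] [CommRing B] [IsDomain B] [Algebra k[X] B]
    [Algebra k B] [IsScalarTower k k[X] B] [Group G] [Fintype G]
    (act : G →* (B ≃ₐ[k[X]] B)) (j : B →ₐ[k] LaurentSeries k)
    (hfix : ∀ x : B, (∀ g, act g x = x) → ∃ f : k[X], algebraMap k[X] B f = x)
    (hjinj : Function.Injective j) (hj : ∀ f : k[X], j (algebraMap k[X] B f) = pinf k f)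
    (x : B) (hx : x ≠ 0) :
    ∑ g : G, (j (act g x)).order ≤ 0 ∧
      ∃ f : k[X], f ≠ 0 ∧ algebraMap k[X] B f = ∏ g : G, act g x ∧
        ∑ g : G, (j (act g x)).order = -(f.natDegree : ℤ) := by
  classical
  have hinv : ∀ h : G, act h (∏ g : G, act g x) = ∏ g : G, act g x := by
    intro h
    rw [map_prod]
    have h1 : ∀ g : G, act h (act g x) = act (h * g) x := by
      intro g
      rw [map_mul]
      rfl
    simp only [h1]
    exact Fintype.prod_equiv (Equiv.mulLeft h) _ _ (fun g => rfl)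
  obtain ⟨f, hf⟩ := hfix _ hinv
  have hne : ∀ g : G, act g x ≠ 0 := by
    intro g
    exact (EmbeddingLike.map_ne_zero_iff (f := act g)).mpr hx
  have hne' : ∀ g ∈ (Finset.univ : Finset G), j (act g x) ≠ 0 := by
    intro g _
    exact (map_ne_zero_iff j hjinj).mpr (hne g)
  obtain ⟨h1, h2⟩ := SumOrd.order_prod Finset.univ (fun g => j (act g x)) hne'
  have h3 : pinf k f = ∏ g : G, j (act g x) := by
    rw [← hj, hf, map_prod]
  have hf0 : f ≠ 0 := by
    rintro rfl
    rw [map_zero] at h3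
    exact h1 h3.symm
  have h4 : ∑ g : G, (j (act g x)).order = -(f.natDegree : ℤ) := by
    rw [← h2, ← h3, pinf_order hf0]
  refine ⟨?_, f, hf0, hf, h4⟩
  rw [h4]
  omega

end

end Pool.Agent.MP196
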