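import Mathlib
import Pool.Agent.Lib.MP_196a10_nt.Base
import Pool.Agent.Lib.MP_196a10_nt.SumOrd

open Polynomial

namespace Pool.Agent.MP196

noncomputable section

namespace LspU

/-- The coefficient functional `x ↦ coefficient n of j (act g x)`. -/
def phi {k B G : Type} [Field k] [CommRing B] [Algebra k[X] B]
    [Algebra k B] [IsScalarTower k k[X] B] [Group G]
    (act : G →* (B ≃ₐ[k[X]] B)) (j : B →ₐ[k] LaurentSeries k) (g : G) (n : ℤ) : B →ₗ[k] k where
  toFun x := (j (act g x)).coeff n
  map_add' x y := by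
    simp only [map_add, HahnSeries.coeff_add]
  map_smul' c x := by
    have h1 : act g (c • x) = c • act g x := by
      rw [← algebraMap_smul k[X] c x, map_smul, algebraMap_smul]
    simp only [RingHom.id_apply]
    rw [h1, j_smul, HahnSeries.C_mul_eq_smul, HahnSeries.coeff_smul]

theorem phi_apply {k B G : Type} [Field k] [CommRing B] [Algebra k[X] B]
    [Algebra k B] [IsScalarTower k k[X] B] [Group G]
    (act : G →* (B ≃ₐ[k[X]] B)) (j : B →ₐ[k] LaurentSeries k) (g : G) (n : ℤ) (x : B) :
    phi act j g n x = (j (act g x)).coeff n := rfl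

theorem mem_Lsp {k B G : Type} [Field k] [CommRing B] [Algebra k[X] B]
    [Algebra k B] [IsScalarTower k k[X] B] [Group G]
    (act : G →* (B ≃ₐ[k[X]] B)) (j : B →ₐ[k] LaurentSeries k) (D : G → ℤ) (x : B) :
    x ∈ Lsp act j D ↔ ∀ g : G, ∀ n : ℤ, n < - D g → (j (act g x)).coeff n = 0 := Iff.rfl

theorem Lsp_update {k B G : Type} [Field k] [CommRing B] [Algebra k[X] B]
    [Algebra k B] [IsScalarTower k k[X] B] [Group G] [DecidableEq G]
    (act : G →* (B ≃ₐ[k[X]] B)) (j : B →ₐ[k] LaurentSeries k) (D : G → ℤ) (g : G) :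
    Lsp act j (Function.update D g (D g - 1)) =
      Lsp act j D ⊓ LinearMap.ker (phi act j g (- D g)) := by
  ext x
  rw [Submodule.mem_inf, mem_Lsp, mem_Lsp, LinearMap.mem_ker, phi_apply]
  constructor
  · intro h
    constructor
    · intro g' n hn
      apply h g' n
      by_cases hg : g' = g
      · subst hg
        rw [Function.update_self]
        omega
      · rw [Function.update_of_ne hg]
        exact hn
    · apply h g
      rw [Function.update_self]
      omega
  · rintro ⟨h1, h2⟩ g' n hn
    by_cases hg : g' = g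
    · subst hg
      rw [Function.update_self] at hn
      by_cases hn' : n = - D g'
      · rw [hn']
        exact h2
      · exact h1 g' n (by omega)
    · rw [Function.update_of_ne hg] at hn
      exact h1 g' n hn

theorem finrank_le_inf_ker {k B : Type} [Field k] [AddCommGroup B] [Module k B]
    (s : Submodule k B) (f : B →ₗ[k] k) (hfin : FiniteDimensional k s) :
    Module.finrank k s ≤ Module.finrank k (s ⊓ LinearMap.ker f : Submodule k B) + 1 := by
  have h1 := LinearMap.finrank_range_add_finrank_ker (f.domRestrict s)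
  have h2 : Module.finrank k (LinearMap.range (f.domRestrict s)) ≤ 1 := by
    calc Module.finrank k (LinearMap.range (f.domRestrict s)) ≤ Module.finrank k k :=
          Submodule.finrank_le _
      _ = 1 := Module.finrank_self k
  have h3 : Module.finrank k (LinearMap.ker (f.domRestrict s)) =
      Module.finrank k (s ⊓ LinearMap.ker f : Submodule k B) := by
    have h4 : (LinearMap.ker (f.domRestrict s)).map s.subtype = s ⊓ LinearMap.ker f := by
      ext x
      simp only [Submodule.mem_map, LinearMap.mem_ker, Submodule.mem_inf, Submodule.subtype_apply,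
        Subtype.exists, LinearMap.domRestrict_apply]
      constructor
      · rintro ⟨a, ha, h5, rfl⟩
        exact ⟨ha, h5⟩
      · rintro ⟨h5, h6⟩
        exact ⟨x, h5, h6, rfl⟩
    rw [← h4]
    exact (LinearEquiv.finrank_eq (Submodule.equivMapOfInjective s.subtype
      s.injective_subtype (LinearMap.ker (f.domRestrict s))))
  omega

theorem finite_of_inf_ker {k B : Type} [Field k] [AddCommGroup B] [Module k B]
    (s : Submodule k B) (f : B →ₗ[k] k)
    (hfin : FiniteDimensional k (s ⊓ LinearMap.ker f : Submodule k B)) :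
    FiniteDimensional k s := by
  have h1 : (s ⊓ LinearMap.ker f).FG := (Module.Finite.iff_fg).mp hfin
  have h2 : (s.map f).FG := IsNoetherian.noetherian _
  exact Module.Finite.iff_fg.mpr (Submodule.fg_of_fg_map_of_fg_inf_ker f h2 h1)

theorem Lsp_bot {k B G : Type} [Field k] [CommRing B] [IsDomain B] [Algebra k[X] B]
    [Algebra k B] [IsScalarTower k k[X] B] [Group G] [Fintype G]
    (act : G →* (B ≃ₐ[k[X]] B)) (j : B →ₐ[k] LaurentSeries k)
    (hfix : ∀ x : B, (∀ g, act g x = x) → ∃ f : k[X], algebraMap k[X] B f = x)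
    (hjinj : Function.Injective j) (hj : ∀ f : k[X], j (algebraMap k[X] B f) = pinf k f)
    (D : G → ℤ) (hD : ∑ g : G, D g = -1) : Lsp act j D = ⊥ := by
  rw [eq_bot_iff]
  intro x hx
  rw [Submodule.mem_bot]
  by_contra hx0
  have h1 := (sum_order_nonpos act j hfix hjinj hj x hx0).1
  have h2 : ∀ g : G, - D g ≤ (j (act g x)).order := by
    intro g
    by_contra hlt
    push Not at hlt
    have h3 := hx g _ hlt
    have h4 : j (act g x) ≠ 0 := by
      intro h5
      apply hx0
      have h6 : act g x = 0 := hjinj (by rw [h5, map_zero])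
      exact (map_eq_zero_iff _ (act g).injective).mp h6
    exact h4 (HahnSeries.coeff_order_eq_zero.mp h3)
  have h7 : ∑ g : G, (- D g) ≤ ∑ g : G, (j (act g x)).order :=
    Finset.sum_le_sum (fun g _ => h2 g)
  rw [Finset.sum_neg_distrib, hD] at h7
  omega

end LspU

theorem Lsp_upper {k B G : Type} [Field k] [CommRing B] [IsDomain B] [Algebra k[X] B]
    [Algebra k B] [IsScalarTower k k[X] B] [Group G] [Fintype G]
    (act : G →* (B ≃ₐ[k[X]] B)) (j : B →ₐ[k] LaurentSeries k)
    (hfix : ∀ x : B, (∀ g, act g x = x) → ∃ f : k[X], algebraMap k[X] B f = x)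
    (hjinj : Function.Injective j) (hj : ∀ f : k[X], j (algebraMap k[X] B f) = pinf k f)
    (D : G → ℤ) (hD : -1 ≤ ∑ g : G, D g) :
    FiniteDimensional k (Lsp act j D) ∧
      (Module.finrank k (Lsp act j D) : ℤ) ≤ ∑ g : G, D g + 1 := by
  classical
  obtain ⟨n, hn⟩ : ∃ n : ℕ, ∑ g : G, D g + 1 = n :=
    ⟨(∑ g : G, D g + 1).toNat, (Int.toNat_of_nonneg (by omega)).symm⟩
  clear hD
  induction n generalizing D with
  | zero =>
    have h1 := LspU.Lsp_bot act j hfix hjinj hj D (by push_cast at hn; omega)
    rw [h1]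
    refine ⟨inferInstance, ?_⟩
    rw [finrank_bot]
    push_cast at hn ⊢
    omega
  | succ n ih =>
    have h2 : ∑ g : G, Function.update D 1 (D 1 - 1) g = ∑ g : G, D g - 1 := by
      rw [Finset.sum_update_of_mem (Finset.mem_univ _)]
      rw [← Finset.add_sum_erase Finset.univ D (Finset.mem_univ (1 : G))]
      rw [Finset.sdiff_singleton_eq_erase]
      ring
    obtain ⟨h3, h4⟩ := ih (Function.update D 1 (D 1 - 1)) (by rw [h2]; push_cast at hn; omega)
    rw [LspU.Lsp_update] at h3 h4
    have h5 := LspU.finite_of_inf_ker _ _ h3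
    refine ⟨h5, ?_⟩
    have h6 := LspU.finrank_le_inf_ker _ (LspU.phi act j 1 (- D 1)) h5
    rw [h2] at h4
    have h7 : (Module.finrank k (Lsp act j D) : ℤ) ≤
        (Module.finrank k (Lsp act j D ⊓ LinearMap.ker (LspU.phi act j 1 (- D 1)) :
          Submodule k B) : ℤ) + 1 := by exact_mod_cast h6
    linarith

/-- Lowering `D` at one point lowers the dimension by at most one. -/
theorem Lsp_step {k B G : Type} [Field k] [CommRing B] [Algebra k[X] B]
    [Algebra k B] [IsScalarTower k k[X] B] [Group G] [DecidableEq G]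
    (act : G →* (B ≃ₐ[k[X]] B)) (j : B →ₐ[k] LaurentSeries k)
    (D : G → ℤ) (g : G) (hfin : FiniteDimensional k (Lsp act j D)) :
    Module.finrank k (Lsp act j D) ≤
      Module.finrank k (Lsp act j (Function.update D g (D g - 1))) + 1 := by
  rw [LspU.Lsp_update]
  exact LspU.finrank_le_inf_ker _ _ hfin

end

end Pool.Agent.MP196
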