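import Mathlib
import Pool.Agent.Lib.MP_196a10_nt.Base
import Pool.Agent.Lib.MP_196a10_nt.LspU

open Polynomial

namespace Pool.Agent.MP196

noncomputable section

namespace LspL

/-- Lowering `D` to `D'` loses at most the difference of the sums. -/
theorem descent {k B G : Type} [Field k] [CommRing B] [IsDomain B] [Algebra k[X] B]
    [Algebra k B] [IsScalarTower k k[X] B] [Group G] [Fintype G] [DecidableEq G]
    (act : G →* (B ≃ₐ[k[X]] B)) (j : B →ₐ[k] LaurentSeries k)
    (hfix : ∀ x : B, (∀ g, act g x = x) → ∃ f : k[X], algebraMap k[X] B f = x)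
    (hjinj : Function.Injective j) (hj : ∀ f : k[X], j (algebraMap k[X] B f) = pinf k f)
    (N : ℕ) : ∀ (D D' : G → ℤ), (∀ g, 0 ≤ D' g) → (∀ g, D' g ≤ D g) →
      (∑ g : G, D g = ∑ g : G, D' g + N) →
      Module.finrank k (Lsp act j D) ≤ Module.finrank k (Lsp act j D') + N := by
  induction N with
  | zero =>
    intro D D' _ h1 h2
    have h3 : ∑ g : G, D' g = ∑ g : G, D g := by rw [h2]; simp
    have h4 := (Finset.sum_eq_sum_iff_of_le (fun g _ => h1 g)).mp h3
    have h5 : D = D' := funext fun g => (h4 g (Finset.mem_univ g)).symm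
    rw [h5]
    simp
  | succ N ih =>
    intro D D' h0 h1 h2
    have h3 : ∃ g, D' g < D g := by
      by_contra hcon
      push Not at hcon
      have h4 : ∑ g : G, D g ≤ ∑ g : G, D' g := Finset.sum_le_sum fun g _ => hcon g
      push_cast at h2
      linarith
    obtain ⟨g, hg⟩ := h3
    have hsum : ∑ x : G, Function.update D g (D g - 1) x = ∑ x : G, D x - 1 := by
      rw [Finset.sum_update_of_mem (Finset.mem_univ g)]
      rw [← Finset.add_sum_erase Finset.univ D (Finset.mem_univ g)]
      rw [Finset.sdiff_singleton_eq_erase]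
      ring
    have hfin := (Lsp_upper act j hfix hjinj hj D (by
      have h4 : 0 ≤ ∑ g : G, D g := Finset.sum_nonneg fun g _ => (h0 g).trans (h1 g)
      linarith)).1
    have h5 := Lsp_step act j D g hfin
    have h6 := ih (Function.update D g (D g - 1)) D' h0 (by
      intro x
      by_cases hx : x = g
      · subst hx
        rw [Function.update_self]
        omega
      · rw [Function.update_of_ne hx]
        exact h1 x) (by
      rw [hsum, h2]
      push_cast
      ring)
    omega

/-- A common bound for the pole orders. -/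
theorem exists_pole {k B G ι : Type} [Field k] [CommRing B] [Algebra k[X] B]
    [Algebra k B] [Group G] [Fintype G] [Fintype ι]
    (act : G →* (B ≃ₐ[k[X]] B)) (j : B →ₐ[k] LaurentSeries k) (b : ι → B) :
    ∃ c : ℕ, ∀ g : G, ∀ i : ι, ∀ m : ℤ, m < -(c : ℤ) → (j (act g (b i))).coeff m = 0 := by
  classical
  refine ⟨∑ g : G, ∑ i : ι, (-(j (act g (b i))).order).toNat, ?_⟩
  intro g i m hm
  apply HahnSeries.coeff_eq_zero_of_lt_order
  have h1 : (-(j (act g (b i))).order).toNat ≤
      ∑ g : G, ∑ i : ι, (-(j (act g (b i))).order).toNat := by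
    refine le_trans ?_ (Finset.single_le_sum (f := fun g => ∑ i : ι,
      (-(j (act g (b i))).order).toNat) (fun _ _ => Nat.zero_le _) (Finset.mem_univ g))
    exact Finset.single_le_sum (f := fun i => (-(j (act g (b i))).order).toNat)
      (fun _ _ => Nat.zero_le _) (Finset.mem_univ i)
  omega

/-- Products of series with bounded poles. -/
theorem coeff_mul_zero {k : Type} [Field k] (x y : LaurentSeries k) (a b : ℤ)
    (hx : ∀ n, n < a → x.coeff n = 0) (hy : ∀ n, n < b → y.coeff n = 0) (n : ℤ)
    (hn : n < a + b) : (x * y).coeff n = 0 := by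
  rw [HahnSeries.coeff_mul]
  apply Finset.sum_eq_zero
  intro p hp
  rw [Finset.mem_addAntidiagonal] at hp
  by_cases h : p.1 < a
  · rw [hx _ h, zero_mul]
  · rw [hy p.2 (by omega), mul_zero]

end LspL

theorem Lsp_lower {k B G : Type} [Field k] [CommRing B] [IsDomain B] [Algebra k[X] B]
    [Algebra k B] [IsScalarTower k k[X] B] [Group G] [Fintype G] [DecidableEq G]
    [Module.Finite k[X] B]
    (act : G →* (B ≃ₐ[k[X]] B)) (j : B →ₐ[k] LaurentSeries k)
    (hfix : ∀ x : B, (∀ g, act g x = x) → ∃ f : k[X], algebraMap k[X] B f = x)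
    (hjinj : Function.Injective j) (hj : ∀ f : k[X], j (algebraMap k[X] B f) = pinf k f)
    (hrank : Module.finrank k[X] B = Nat.card G) :
    ∃ C0 : ℕ, ∀ l : ℕ, l ≤ Module.finrank k (Lsp act j (fun g => if g = 1 then (l : ℤ) else 0))
      + C0 := by
  have hinj : Function.Injective (algebraMap k[X] B) := by
    intro f g hfg
    apply pinf_injective k
    rw [← hj, ← hj, hfg]
  have htf : Module.IsTorsionFree k[X] B := by
    have : FaithfulSMul k[X] B := (faithfulSMul_iff_algebraMap_injective _ _).mpr hinj
    infer_instance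
  have hfree : Module.Free k[X] B := inferInstance
  obtain ⟨n, hn⟩ : ∃ n, n = Module.finrank k[X] B := ⟨_, rfl⟩
  rw [← hn] at hrank
  obtain ⟨b⟩ : Nonempty (Module.Basis (Fin n) k[X] B) := by
    rw [hn]
    exact ⟨Module.finBasis k[X] B⟩
  obtain ⟨c, hc⟩ := LspL.exists_pole act j b
  refine ⟨n * c, ?_⟩
  intro l
  set M := l + c with hM
  set D : G → ℤ := fun _ => (M : ℤ) with hD
  set D' : G → ℤ := fun g => if g = 1 then (l : ℤ) else 0 with hD'
  have hsumD : ∑ g : G, D g = n * M := by
    rw [hD, Finset.sum_const, Finset.card_univ, nsmul_eq_mul, hrank, Nat.card_eq_fintype_card]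
  have hsumD' : ∑ g : G, D' g = l := by
    rw [hD']
    simp
  have hn1 : 1 ≤ n := by
    rw [hrank]
    exact Nat.card_pos
  have hle : l ≤ n * M := by nlinarith
  have hdesc := LspL.descent act j hfix hjinj hj (n * M - l) D D' (by
    intro g
    simp only [hD']
    split_ifs <;> positivity) (by
    intro g
    simp only [hD', hD]
    split_ifs <;> omega) (by
    rw [hsumD, hsumD']
    push_cast [hle]
    ring)
  have hfin := (Lsp_upper act j hfix hjinj hj D (by
    rw [hsumD]
    have : (0 : ℤ) ≤ n * M := by positivity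
    linarith)).1
  -- the map
  let Φ : (Fin n → degreeLT k (l + 1)) →ₗ[k] B :=
    { toFun := fun f => ∑ i, (f i : k[X]) • b i
      map_add' := by
        intro f f'
        simp only [Pi.add_apply, Submodule.coe_add, add_smul, Finset.sum_add_distrib]
      map_smul' := by
        intro a f
        simp only [Pi.smul_apply, Submodule.coe_smul, RingHom.id_apply, Finset.smul_sum,
          smul_assoc] }
  have hΦinj : Function.Injective Φ := by
    intro f f' hff
    have h1 : ∑ i, (f i : k[X]) • b i = ∑ i, (f' i : k[X]) • b i := hff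
    funext i
    apply Subtype.ext
    have h2 := congrArg (fun x => b.repr x i) h1
    simpa [map_sum, Finsupp.single_apply] using h2
  have hΦmem : ∀ f, Φ f ∈ Lsp act j D := by
    intro f g m hm
    have h1 : act g (Φ f) = ∑ i, (f i : k[X]) • act g (b i) := by
      show act g (∑ i, (f i : k[X]) • b i) = _
      rw [map_sum]
      simp
    rw [h1, map_sum]
    simp only [Algebra.smul_def, map_mul, hj]
    rw [HahnSeries.coeff_sum]
    apply Finset.sum_eq_zero
    intro i _
    apply LspL.coeff_mul_zero _ _ (-(l : ℤ)) (-(c : ℤ)) _ (hc g i)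
    · simp only [hD] at hm
      omega
    · intro p hp
      rw [pinf_coeff]
      split_ifs with hp0
      · have h3 := (f i).2
        rw [mem_degreeLT] at h3
        apply coeff_eq_zero_of_degree_lt
        refine lt_of_lt_of_le h3 ?_
        have : l + 1 ≤ p.natAbs := by omega
        exact_mod_cast this
      · rfl
  have hdim : n * (l + 1) ≤ Module.finrank k (Lsp act j D) := by
    have h1 := LinearMap.finrank_le_finrank_of_injective
      (f := LinearMap.codRestrict (Lsp act j D) Φ hΦmem) (by
        intro f f' hff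
        apply hΦinj
        exact congrArg Subtype.val hff)
    have hfd : FiniteDimensional k (degreeLT k (l + 1)) :=
      Module.Finite.equiv (degreeLTEquiv k (l + 1)).symm
    rw [Module.finrank_pi_fintype] at h1
    rw [Finset.sum_const, Finset.card_univ, Fintype.card_fin, smul_eq_mul] at h1
    have h2 : Module.finrank k (degreeLT k (l + 1)) = l + 1 := by
      rw [(degreeLTEquiv k (l + 1)).finrank_eq, Module.finrank_fin_fun]
    rwa [h2] at h1
  have h7 : n * M = n * l + n * c := by rw [hM]; ring
  have h8 : n * (l + 1) = n * l + n := by ring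
  omega

end

end Pool.Agent.MP196
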