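import Mathlib
import Pool.Agent.Lib.MP_196a10_nt.Base
import Pool.Agent.Lib.MP_196a10_nt.SumOrd
import Pool.Agent.Lib.MP_196a10_nt.LspU
import Pool.Agent.Lib.MP_196a10_nt.LspL

open Polynomial

namespace Pool.Agent.MP196

noncomputable section

namespace StepAux

/-- A sum of Laurent series with pairwise distinct orders is nonzero. -/
theorem sum_ne_zero {k ι : Type} [Field k] (s : Finset ι) (y : ι → LaurentSeries k)
    (hd : ∀ a ∈ s, ∀ b ∈ s, y a ≠ 0 → y b ≠ 0 → (y a).order = (y b).order → a = b)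
    (hne : ∃ a ∈ s, y a ≠ 0) : ∑ a ∈ s, y a ≠ 0 := by
  classical
  obtain ⟨a1, ha1, ha1'⟩ := hne
  obtain ⟨a0, ha0, hmin⟩ := Finset.exists_min_image (s.filter (fun a => y a ≠ 0))
    (fun a => (y a).order) ⟨a1, Finset.mem_filter.mpr ⟨ha1, ha1'⟩⟩
  rw [Finset.mem_filter] at ha0
  intro h0
  have h1 : (∑ a ∈ s, y a).coeff (y a0).order = (y a0).coeff (y a0).order := by
    rw [HahnSeries.coeff_sum]
    apply Finset.sum_eq_single_of_mem a0 ha0.1
    intro b hb hba
    by_cases hyb : y b = 0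
    · rw [hyb]; rfl
    · apply HahnSeries.coeff_eq_zero_of_lt_order
      have h2 := hmin b (Finset.mem_filter.mpr ⟨hb, hyb⟩)
      rcases lt_or_eq_of_le h2 with h3 | h3
      · exact h3
      · exact absurd (hd a0 ha0.1 b hb ha0.2 hyb h3).symm hba
  rw [h0] at h1
  exact ha0.2 (HahnSeries.coeff_order_eq_zero.mp h1.symm)

/-- Powers of series with bounded poles. -/
theorem coeff_pow_zero {k : Type} [Field k] (x : LaurentSeries k) (a : ℤ)
    (hx : ∀ n, n < a → x.coeff n = 0) (Z : ℕ) (n : ℤ) (hn : n < Z * a) :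
    (x ^ Z).coeff n = 0 := by
  induction Z generalizing n with
  | zero =>
    rw [pow_zero, HahnSeries.coeff_one]
    rw [if_neg]
    simp at hn
    omega
  | succ Z ih =>
    rw [pow_succ]
    apply LspL.coeff_mul_zero _ _ (Z * a) a ih hx
    push_cast at hn
    linarith

theorem order_ge {k B G : Type} [Field k] [CommRing B] [Algebra k[X] B]
    [Algebra k B] [IsScalarTower k k[X] B] [Group G]
    (act : G →* (B ≃ₐ[k[X]] B)) (j : B →ₐ[k] LaurentSeries k)
    (hjinj : Function.Injective j) (D : G → ℤ) (x : B) (hx : x ∈ Lsp act j D) (hx0 : x ≠ 0)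
    (g : G) : - D g ≤ (j (act g x)).order := by
  by_contra hlt
  push Not at hlt
  have h3 := hx g _ hlt
  have h4 : j (act g x) ≠ 0 := by
    intro h5
    apply hx0
    have h6 : act g x = 0 := hjinj (by rw [h5, map_zero])
    exact (map_eq_zero_iff _ (act g).injective).mp h6
  exact h4 (HahnSeries.coeff_order_eq_zero.mp h3)

theorem order_le_zero {k B G : Type} [Field k] [CommRing B] [IsDomain B] [Algebra k[X] B]
    [Algebra k B] [IsScalarTower k k[X] B] [Group G] [Fintype G] [DecidableEq G]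
    (act : G →* (B ≃ₐ[k[X]] B)) (j : B →ₐ[k] LaurentSeries k)
    (hfix : ∀ x : B, (∀ g, act g x = x) → ∃ f : k[X], algebraMap k[X] B f = x)
    (hjinj : Function.Injective j) (hj : ∀ f : k[X], j (algebraMap k[X] B f) = pinf k f)
    (l : ℕ) (x : B) (hx : x ∈ Lsp act j (fun g => if g = 1 then (l : ℤ) else 0)) (hx0 : x ≠ 0) :
    -(l : ℤ) ≤ (j x).order ∧ (j x).order ≤ 0 := by
  have h1 := order_ge act j hjinj _ x hx hx0
  have h2 := (sum_order_nonpos act j hfix hjinj hj x hx0).1
  have h3 : act (1 : G) x = x := by rw [map_one]; rfl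
  constructor
  · have h4 := h1 1
    rw [if_pos rfl, h3] at h4
    exact h4
  · rw [← Finset.add_sum_erase Finset.univ _ (Finset.mem_univ (1 : G)), h3] at h2
    have h5 : 0 ≤ ∑ g ∈ Finset.univ.erase (1 : G), (j (act g x)).order := by
      apply Finset.sum_nonneg
      intro g hg
      have h6 := h1 g
      rw [if_neg (Finset.ne_of_mem_erase hg)] at h6
      simpa using h6
    linarith

/-- Elements of `L(D_ms)` with pairwise distinct orders, as many as the dimension. -/
theorem exists_orders {k B G : Type} [Field k] [CommRing B] [IsDomain B] [Algebra k[X] B]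
    [Algebra k B] [IsScalarTower k k[X] B] [Group G] [Fintype G] [DecidableEq G]
    (act : G →* (B ≃ₐ[k[X]] B)) (j : B →ₐ[k] LaurentSeries k)
    (hfix : ∀ x : B, (∀ g, act g x = x) → ∃ f : k[X], algebraMap k[X] B f = x)
    (hjinj : Function.Injective j) (hj : ∀ f : k[X], j (algebraMap k[X] B f) = pinf k f)
    (l : ℕ) :
    ∃ (O : Finset ℤ) (s : ℤ → B),
      (∀ o ∈ O, s o ∈ Lsp act j (fun g => if g = 1 then (l : ℤ) else 0)) ∧
      (∀ o ∈ O, s o ≠ 0) ∧ (∀ o ∈ O, (j (s o)).order = o) ∧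
      Module.finrank k (Lsp act j (fun g => if g = 1 then (l : ℤ) else 0)) ≤ O.card := by
  classical
  set L := Lsp act j (fun g : G => if g = 1 then (l : ℤ) else 0) with hL
  let p : ℤ → Prop := fun o => ∃ s : B, s ∈ L ∧ s ≠ 0 ∧ (j s).order = o
  let O : Finset ℤ := (Finset.Icc (-(l : ℤ)) 0).filter p
  have hO : ∀ o ∈ O, p o := fun o ho => (Finset.mem_filter.mp ho).2
  refine ⟨O, fun o => if h : p o then h.choose else 0, ?_, ?_, ?_, ?_⟩
  · intro o ho
    simp only [dif_pos (hO o ho)]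
    exact (hO o ho).choose_spec.1
  · intro o ho
    simp only [dif_pos (hO o ho)]
    exact (hO o ho).choose_spec.2.1
  · intro o ho
    simp only [dif_pos (hO o ho)]
    exact (hO o ho).choose_spec.2.2
  · let T : L →ₗ[k] (O → k) :=
      LinearMap.pi (fun o : O => (LspU.phi act j 1 (o : ℤ)).comp L.subtype)
    have hT : Function.Injective T := by
      rw [← LinearMap.ker_eq_bot, LinearMap.ker_eq_bot']
      intro x hx
      by_contra hx0
      have hx1 : (x : B) ≠ 0 := fun h => hx0 (Subtype.ext h)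
      have h1 := order_le_zero act j hfix hjinj hj l x x.2 hx1
      have h2 : (j (x : B)).order ∈ O := by
        rw [Finset.mem_filter, Finset.mem_Icc]
        exact ⟨h1, x, x.2, hx1, rfl⟩
      have h3 := congrFun hx ⟨_, h2⟩
      have h4 : act (1 : G) (x : B) = x := by rw [map_one]; rfl
      have h5 : (j (x : B)).coeff (j (x : B)).order = 0 := by
        have h6 : T x ⟨_, h2⟩ = (j (act (1 : G) (x : B))).coeff (j (x : B)).order := rfl
        rw [h3] at h6
        rw [h4] at h6
        exact h6.symm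
      have h7 : j (x : B) = 0 := HahnSeries.coeff_order_eq_zero.mp h5
      exact hx1 (hjinj (by rw [h7, map_zero]))
    have h8 := LinearMap.finrank_le_finrank_of_injective hT
    rw [Module.finrank_fintype_fun_eq_card, Fintype.card_coe] at h8
    exact h8

theorem act_mul {k B G : Type} [Field k] [CommRing B] [Algebra k[X] B] [Group G]
    (act : G →* (B ≃ₐ[k[X]] B)) (h g : G) (x : B) : act h (act g x) = act (h * g) x := by
  rw [map_mul]; rfl

theorem sum_E {G : Type} [Group G] [Fintype G] [DecidableEq G] (g : G) (a b : ℤ) :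
    ∑ h : G, ((if h = 1 then a else 0) + (if h * g = 1 then b else 0)) = a + b := by
  rw [Finset.sum_add_distrib, Finset.sum_ite_eq' Finset.univ (1 : G) (fun _ => a)]
  have h1 : ∀ h : G, (if h * g = 1 then b else 0) = if h = g⁻¹ then b else 0 := by
    intro h
    by_cases hh : h = g⁻¹
    · rw [if_pos hh, if_pos (by rw [hh, inv_mul_cancel])]
    · rw [if_neg hh, if_neg (fun h' => hh (eq_inv_of_mul_eq_one_left h'))]
  simp only [h1]
  rw [Finset.sum_ite_eq' Finset.univ (g⁻¹ : G) (fun _ => b)]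
  simp

/-- The auxiliary relation. -/
theorem exists_rel {k B G : Type} [Field k] [Finite k] (q : ℕ) (hq : Nat.card k = q)
    [CommRing B] [IsDomain B] [Algebra k[X] B]
    [Algebra k B] [IsScalarTower k k[X] B] [Group G] [Fintype G] [DecidableEq G]
    (act : G →* (B ≃ₐ[k[X]] B)) (j : B →ₐ[k] LaurentSeries k)
    (hfix : ∀ x : B, (∀ g, act g x = x) → ∃ f : k[X], algebraMap k[X] B f = x)
    (hjinj : Function.Injective j) (hj : ∀ f : k[X], j (algebraMap k[X] B f) = pinf k f)
    (μ : ℕ) (l ms : ℕ) (g : G) (O : Finset ℤ) (s : ℤ → B)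
    (hs : ∀ o ∈ O, s o ∈ Lsp act j (fun g => if g = 1 then (ms : ℤ) else 0))
    (hdim : l * q ^ μ + ms + 1 <
      O.card * Module.finrank k (Lsp act j (fun g => if g = 1 then (l : ℤ) else 0))) :
    ∃ ν : O → B, (∀ o, ν o ∈ Lsp act j (fun g => if g = 1 then (l : ℤ) else 0)) ∧
      (∃ o, ν o ≠ 0) ∧ ∑ o : O, ν o ^ (q ^ μ) * act g (s o) = 0 := by
  classical
  set L := Lsp act j (fun g : G => if g = 1 then (l : ℤ) else 0) with hL
  let E : G → ℤ := fun h => (if h = 1 then ((l * q ^ μ : ℕ) : ℤ) else 0) +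
    (if h * g = 1 then (ms : ℤ) else 0)
  have hEsum : ∑ h : G, E h = ((l * q ^ μ : ℕ) : ℤ) + ms := sum_E g _ _
  obtain ⟨hEfin, hEdim⟩ := Lsp_upper act j hfix hjinj hj E (by rw [hEsum]; omega)
  rw [hEsum] at hEdim
  let f : O → L →ₗ[k] B := fun o =>
    (LinearMap.mulRight k (act g (s o))).comp ((frobm hq B μ).toLinearMap.comp L.subtype)
  have hfapp : ∀ (o : O) (x : L), f o x = (x : B) ^ (q ^ μ) * act g (s o) := fun o x => rfl
  let Ψ0 : (O → L) →ₗ[k] B := ∑ o : O, (f o).comp (LinearMap.proj o)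
  have hΨ0 : ∀ x : O → L, Ψ0 x = ∑ o : O, (x o : B) ^ (q ^ μ) * act g (s o) := by
    intro x
    simp only [Ψ0, LinearMap.sum_apply, LinearMap.comp_apply, LinearMap.proj_apply, hfapp]
  have hmem : ∀ x : O → L, Ψ0 x ∈ Lsp act j E := by
    intro x
    rw [hΨ0]
    apply Submodule.sum_mem
    intro o _ h n hn
    rw [map_mul, map_pow, map_mul, map_pow, act_mul]
    have h1 := (x o).2 h
    have h2 := hs o o.2 (h * g)
    apply LspL.coeff_mul_zero _ _ (((q ^ μ : ℕ) : ℤ) * (-(if h = 1 then (l : ℤ) else 0)))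
      (-(if h * g = 1 then (ms : ℤ) else 0)) _ h2
    · have h3 : E h = (if h = 1 then ((l * q ^ μ : ℕ) : ℤ) else 0) +
        (if h * g = 1 then (ms : ℤ) else 0) := rfl
      rw [h3] at hn
      refine lt_of_lt_of_le hn ?_
      by_cases hh : h = 1
      · rw [if_pos hh, if_pos hh]
        push_cast
        apply le_of_eq
        ring
      · rw [if_neg hh, if_neg hh]
        apply le_of_eq
        ring
    · intro n hn
      exact coeff_pow_zero _ _ h1 _ _ hn
  let Ψ : (O → L) →ₗ[k] Lsp act j E := Ψ0.codRestrict _ hmem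
  have hfinL : FiniteDimensional k L := (Lsp_upper act j hfix hjinj hj _ (by
    rw [Finset.sum_ite_eq' Finset.univ (1 : G) (fun _ => (l : ℤ))]
    simp)).1
  have hlt : Module.finrank k (Lsp act j E) < Module.finrank k (O → L) := by
    rw [Module.finrank_pi_fintype]
    simp only [Finset.sum_const, Finset.card_univ, Fintype.card_coe, smul_eq_mul]
    have h1 : (Module.finrank k (Lsp act j E) : ℤ) ≤ ((l * q ^ μ + ms + 1 : ℕ) : ℤ) := by
      push_cast at hEdim ⊢
      exact hEdim
    have h2 : Module.finrank k (Lsp act j E) ≤ l * q ^ μ + ms + 1 := by exact_mod_cast h1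
    omega
  have hker := LinearMap.ker_ne_bot_of_finrank_lt (f := Ψ) hlt
  obtain ⟨ν, hν, hν0⟩ := (Submodule.ne_bot_iff _).mp hker
  refine ⟨fun o => (ν o : B), fun o => (ν o).2, ?_, ?_⟩
  · by_contra hcon
    push Not at hcon
    exact hν0 (funext fun o => Subtype.ext (hcon o))
  · rw [LinearMap.mem_ker] at hν
    have h1 : ((Ψ ν : Lsp act j E) : B) = 0 := by rw [hν]; rfl
    rw [← hΨ0]
    exact h1

theorem dvd_act {k B G : Type} [Field k] [CommRing B] [Algebra k[X] B] [Group G]
    (act : G →* (B ≃ₐ[k[X]] B)) (P : k[X]) (x : B) (h : algebraMap k[X] B P ∣ x) (γ : G) :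
    algebraMap k[X] B P ∣ act γ x := by
  obtain ⟨y, rfl⟩ := h
  rw [map_mul, AlgEquiv.commutes]
  exact Dvd.intro _ rfl

/-- The final count from a nonzero function. -/
theorem count {k B G : Type} [Field k] [CommRing B] [IsDomain B] [Algebra k[X] B]
    [Algebra k B] [IsScalarTower k k[X] B] [Group G] [Fintype G]
    (act : G →* (B ≃ₐ[k[X]] B)) (j : B →ₐ[k] LaurentSeries k)
    (hfix : ∀ x : B, (∀ g, act g x = x) → ∃ f : k[X], algebraMap k[X] B f = x)
    (hjinj : Function.Injective j) (hj : ∀ f : k[X], j (algebraMap k[X] B f) = pinf k f)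
    (D : G → ℤ) (x : B) (hx : x ∈ Lsp act j D) (hx0 : x ≠ 0) (S : Finset k[X])
    (hS : ∀ P ∈ S, Irreducible P ∧ P.Monic) (hdiv : ∀ P ∈ S, algebraMap k[X] B P ∣ x) :
    ((Nat.card G * ∑ P ∈ S, P.natDegree : ℕ) : ℤ) ≤ ∑ g : G, D g := by
  classical
  obtain ⟨h1, F, hF0, hF, hdeg⟩ := sum_order_nonpos act j hfix hjinj hj x hx0
  have hainj : Function.Injective (algebraMap k[X] B) := by
    intro f g hfg
    apply pinf_injective k
    rw [← hj, ← hj, hfg]
  have h2 : (F.natDegree : ℤ) ≤ ∑ g : G, D g := by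
    have h3 : ∑ g : G, (- D g) ≤ ∑ g : G, (j (act g x)).order :=
      Finset.sum_le_sum fun g _ => order_ge act j hjinj D x hx hx0 g
    rw [Finset.sum_neg_distrib, hdeg] at h3
    linarith
  have h4 : ∀ P ∈ S, P ^ Nat.card G ∣ F := by
    intro P hP
    have h5 : algebraMap k[X] B (P ^ Nat.card G) ∣ algebraMap k[X] B F := by
      rw [hF, map_pow, Nat.card_eq_fintype_card, ← Finset.card_univ, ← Finset.prod_const]
      exact Finset.prod_dvd_prod_of_dvd _ _ fun g _ => dvd_act act P x (hdiv P hP) g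
    obtain ⟨y, hy⟩ := h5
    have hPne : algebraMap k[X] B (P ^ Nat.card G) ≠ 0 := by
      rw [← map_zero (algebraMap k[X] B)]
      intro h6
      exact pow_ne_zero _ (hS P hP).1.ne_zero (hainj h6)
    have h6 : ∀ g : G, act g y = y := by
      intro g
      have h7 := congrArg (act g) hy
      rw [map_mul, AlgEquiv.commutes, AlgEquiv.commutes, hy] at h7
      exact (mul_left_cancel₀ hPne h7).symm
    obtain ⟨f, hf⟩ := hfix y h6
    refine ⟨f, hainj ?_⟩
    rw [hy, map_mul, hf]
  have h8 : (∏ P ∈ S, P ^ Nat.card G) ∣ F := by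
    apply Finset.prod_dvd_of_coprime _ h4
    intro P hP Q hQ hPQ
    apply IsCoprime.pow
    rw [(hS P hP).1.coprime_iff_not_dvd]
    intro h9
    apply hPQ
    exact eq_of_monic_of_associated (hS P hP).2 (hS Q hQ).2
      ((hS P hP).1.associated_of_dvd (hS Q hQ).1 h9)
  have h9 := natDegree_le_of_dvd h8 hF0
  have h10 : (∏ P ∈ S, P ^ Nat.card G).natDegree = Nat.card G * ∑ P ∈ S, P.natDegree := by
    rw [natDegree_prod_of_monic _ _ fun P hP => (hS P hP).2.pow _]
    rw [Finset.mul_sum]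
    exact Finset.sum_congr rfl fun P hP => (hS P hP).2.natDegree_pow _
  rw [h10] at h9
  have h11 : ((Nat.card G * ∑ P ∈ S, P.natDegree : ℕ) : ℤ) ≤ (F.natDegree : ℤ) := by
    exact_mod_cast h9
  exact h11.trans h2

end StepAux

theorem stepanov {k B G : Type} [Field k] [Finite k] (q : ℕ) (hq : Nat.card k = q)
    [CommRing B] [IsDomain B] [Algebra k[X] B]
    [Algebra k B] [IsScalarTower k k[X] B] [Module.Finite k[X] B]
    [Group G] [Finite G] (act : G →* (B ≃ₐ[k[X]] B)) (j : B →ₐ[k] LaurentSeries k)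
    (hfix : ∀ x : B, (∀ g, act g x = x) → ∃ f : k[X], algebraMap k[X] B f = x)
    (hjinj : Function.Injective j) (hj : ∀ f : k[X], j (algebraMap k[X] B f) = pinf k f)
    (hrank : Module.finrank k[X] B = Nat.card G) :
    ∃ c μ0 : ℕ, ∀ μ ≥ μ0, ∀ g : G, ∀ S : Finset k[X],
      (∀ P ∈ S, Irreducible P ∧ P.Monic) →
      (∀ P ∈ S, ∀ x : B, algebraMap k[X] B P ∣ x ^ (q ^ (2 * μ)) - act g x) →
      (∀ P ∈ S, ∀ x : B, algebraMap k[X] B P ∣ x ^ (q ^ μ) → algebraMap k[X] B P ∣ x) →
      Nat.card G * ∑ P ∈ S, P.natDegree ≤ q ^ (2 * μ) + c * q ^ μ := by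
  classical
  have hG := Fintype.ofFinite G
  obtain ⟨C0, hC0⟩ := Lsp_lower act j hfix hjinj hj hrank
  refine ⟨2 * C0 + 3, (C0 + 1) * (C0 + 2) + 2 * C0 + 4, ?_⟩
  intro μ hμ g S hS hSg hSr
  have hq1 : 1 < q := one_lt_q hq
  set Z := q ^ μ with hZ
  have hZμ : μ < Z := Nat.lt_pow_self hq1
  have hZ0 : 0 < Z := by omega
  set l := Z - 1 with hl
  set ms := Z + 2 * C0 + 2 with hms
  obtain ⟨O, s, hs, hs0, hso, hOcard⟩ := StepAux.exists_orders act j hfix hjinj hj ms
  have hZ1 : l + 1 = Z := by omega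
  have hdim : l * q ^ μ + ms + 1 <
      O.card * Module.finrank k (Lsp act j (fun g => if g = 1 then (l : ℤ) else 0)) := by
    rw [← hZ]
    have h1 : Z + C0 + 2 ≤ O.card := by
      have := hC0 ms
      omega
    obtain ⟨m, hm⟩ : ∃ m, m + C0 + 1 = Z := ⟨Z - C0 - 1, by
      have : (C0 + 1) * (C0 + 2) ≥ 0 := Nat.zero_le _
      omega⟩
    have h2 : m ≤ Module.finrank k (Lsp act j (fun g => if g = 1 then (l : ℤ) else 0)) := by
      have := hC0 l
      omega
    refine lt_of_lt_of_le ?_ (Nat.mul_le_mul h1 h2)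
    have h3 : l = m + C0 := by omega
    have h4 : (C0 + 1) * (C0 + 2) + 2 * C0 + 4 < m + C0 + 1 := by omega
    rw [hms, h3, ← hm]
    nlinarith
  obtain ⟨ν, hν, ⟨o1, ho1⟩, hrel⟩ := StepAux.exists_rel q hq act j hfix hjinj hj μ l ms g O s hs hdim
  set h : B := ∑ o : O, ν o * s o ^ Z with hh
  have hh0 : h ≠ 0 := by
    intro h0
    have h1 : ∑ o : O, j (ν o * s o ^ Z) = 0 := by
      rw [← map_sum, ← hh, h0, map_zero]
    refine StepAux.sum_ne_zero (Finset.univ : Finset O) (fun o => j (ν o * s o ^ Z)) ?_ ?_ h1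
    · intro a _ b _ ha hb hab
      simp only [map_mul, map_pow] at ha hb hab
      have ha1 : j (ν a) ≠ 0 := left_ne_zero_of_mul ha
      have hb1 : j (ν b) ≠ 0 := left_ne_zero_of_mul hb
      have ha2 : ν a ≠ 0 := fun h => ha1 (by rw [h, map_zero])
      have hb2 : ν b ≠ 0 := fun h => hb1 (by rw [h, map_zero])
      rw [HahnSeries.order_mul ha1 (right_ne_zero_of_mul ha),
        HahnSeries.order_mul hb1 (right_ne_zero_of_mul hb), HahnSeries.order_pow,
        HahnSeries.order_pow, hso a a.2, hso b b.2] at hab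
      have h3 := StepAux.order_le_zero act j hfix hjinj hj l (ν a) (hν a) ha2
      have h4 := StepAux.order_le_zero act j hfix hjinj hj l (ν b) (hν b) hb2
      simp only [nsmul_eq_mul] at hab
      have h5 : (l : ℤ) + 1 = Z := by exact_mod_cast hZ1
      apply Subtype.ext
      by_contra hne
      rcases lt_or_gt_of_ne hne with h6 | h6
      · have h7 : (Z : ℤ) * 1 ≤ Z * ((b : ℤ) - a) :=
          mul_le_mul_of_nonneg_left (by omega) (by positivity)
        linarith
      · have h7 : (Z : ℤ) * 1 ≤ Z * ((a : ℤ) - b) :=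
          mul_le_mul_of_nonneg_left (by omega) (by positivity)
        linarith
    · refine ⟨o1, Finset.mem_univ _, ?_⟩
      intro h2
      have h3 : ν o1 * s o1 ^ Z = 0 := hjinj (by rw [h2, map_zero])
      rcases mul_eq_zero.mp h3 with h4 | h4
      · exact ho1 h4
      · exact hs0 o1 o1.2 (pow_eq_zero_iff hZ0.ne' |>.mp h4)
  have hhP : ∀ P ∈ S, algebraMap k[X] B P ∣ h := by
    intro P hP
    apply hSr P hP
    have h1 : h ^ (q ^ μ) = ∑ o : O, ν o ^ (q ^ μ) * (s o) ^ (q ^ (2 * μ)) := by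
      rw [← frobm_apply hq B μ, hh, map_sum]
      refine Finset.sum_congr rfl fun o _ => ?_
      rw [frobm_apply, mul_pow, ← pow_mul (s o), hZ, ← pow_add]
      congr 3
      omega
    have h2 : h ^ (q ^ μ) = ∑ o : O, ν o ^ (q ^ μ) * ((s o) ^ (q ^ (2 * μ)) - act g (s o)) := by
      simp only [mul_sub]
      rw [Finset.sum_sub_distrib, hrel, sub_zero, h1]
    rw [h2]
    exact Finset.dvd_sum fun o _ => Dvd.dvd.mul_left (hSg P hP (s o)) _
  let D : G → ℤ := fun g => if g = 1 then ((l + ms * Z : ℕ) : ℤ) else 0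
  have hhD : h ∈ Lsp act j D := by
    rw [hh]
    apply Submodule.sum_mem
    intro o _ γ n hn
    rw [map_mul, map_pow, map_mul, map_pow]
    have h1 := hν o γ
    have h2 := hs o o.2 γ
    apply LspL.coeff_mul_zero _ _ (-(if γ = 1 then (l : ℤ) else 0))
      ((Z : ℤ) * (-(if γ = 1 then (ms : ℤ) else 0))) h1
    · intro n hn
      exact StepAux.coeff_pow_zero _ _ h2 _ _ hn
    · have h3 : D γ = if γ = 1 then ((l + ms * Z : ℕ) : ℤ) else 0 := rfl
      rw [h3] at hn
      refine lt_of_lt_of_le hn ?_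
      by_cases hγ : γ = 1
      · rw [if_pos hγ, if_pos hγ, if_pos hγ]
        push_cast
        apply le_of_eq
        ring
      · rw [if_neg hγ, if_neg hγ, if_neg hγ]
        apply le_of_eq
        ring
  have hfinal := StepAux.count act j hfix hjinj hj D h hhD hh0 S hS hhP
  have hDsum : ∑ g : G, D g = ((l + ms * Z : ℕ) : ℤ) := by
    simp only [D]
    rw [Finset.sum_ite_eq' Finset.univ (1 : G) (fun _ => ((l + ms * Z : ℕ) : ℤ))]
    simp
  rw [hDsum] at hfinal
  have h12 : Nat.card G * ∑ P ∈ S, P.natDegree ≤ l + ms * Z := by exact_mod_cast hfinal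
  refine h12.trans ?_
  have h13 : q ^ (2 * μ) = Z * Z := by
    rw [hZ, ← pow_add]
    congr 1
    omega
  rw [h13, hms]
  have h14 : l ≤ Z := by omega
  nlinarith

end

end Pool.Agent.MP196
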