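import Mathlib
import Pool.Agent.Lib.MP_196a10_nt.Base
import Pool.Agent.Lib.MP_196a10_nt.GalP
import Pool.Agent.Lib.MP_196a10_nt.Redu
import Pool.Agent.Lib.MP_196a10_nt.FCong
import Pool.Agent.Lib.MP_196a10_nt.FMem
import Pool.Agent.Lib.MP_196a10_nt.Step

open Polynomial

namespace Pool.Agent.MP196

noncomputable section

namespace Eqd

variable {k : Type} [Field k] {ι : Type} [Fintype ι] [DecidableEq ι]

/-- All coefficient matrices lie in a subalgebra. -/
def InS (S : Subalgebra k (Matrix ι ι k)) (F : Matrix ι ι k[X]) : Prop :=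
  ∀ n, F.map (fun f => f.coeff n) ∈ S

theorem InS_one (S : Subalgebra k (Matrix ι ι k)) : InS S (1 : Matrix ι ι k[X]) := by
  intro n
  have h : (1 : Matrix ι ι k[X]).map (fun f => f.coeff n) =
      if n = 0 then 1 else 0 := by
    ext i j
    by_cases hij : i = j
    · subst hij
      by_cases hn : n = 0
      · simp [hn]
      · simp [hn, coeff_one]
    · by_cases hn : n = 0
      · simp [hn, hij]
      · simp [hn, hij]
  rw [h]
  split_ifs
  · exact one_mem S
  · exact zero_mem S

theorem InS_mul {S : Subalgebra k (Matrix ι ι k)} {F G : Matrix ι ι k[X]} (hF : InS S F)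
    (hG : InS S G) : InS S (F * G) := by
  intro n
  have h : (F * G).map (fun f => f.coeff n) =
      ∑ p ∈ Finset.HasAntidiagonal.antidiagonal n, F.map (fun f => f.coeff p.1) * G.map (fun f => f.coeff p.2) := by
    ext i j
    rw [Matrix.sum_apply]
    simp only [Matrix.map_apply, Matrix.mul_apply, finsetSum_coeff, coeff_mul]
    rw [Finset.sum_comm]
  rw [h]
  exact sum_mem fun p _ => mul_mem (hF _) (hG _)

theorem InS_expand {S : Subalgebra k (Matrix ι ι k)} {F : Matrix ι ι k[X]} (hF : InS S F)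
    (q : ℕ) (hq : 0 < q) : InS S (F.map (fun f => expand k q f)) := by
  intro n
  have h : (F.map (fun f => expand k q f)).map (fun f => f.coeff n) =
      if q ∣ n then F.map (fun f => f.coeff (n / q)) else 0 := by
    ext i j
    simp only [Matrix.map_apply, coeff_expand hq]
    split_ifs <;> rfl
  rw [h]
  split_ifs
  · exact hF _
  · exact zero_mem S

theorem InS_reflect {S : Subalgebra k (Matrix ι ι k)} {F : Matrix ι ι k[X]} (hF : InS S F)
    (N : ℕ) : InS S (F.map (fun f => f.reflect N)) := by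
  intro n
  have h : (F.map (fun f => f.reflect N)).map (fun f => f.coeff n) =
      F.map (fun f => f.coeff (revAt N n)) := by
    ext i j
    simp [coeff_reflect]
  rw [h]
  exact hF _

theorem InS_Gm {S : Subalgebra k (Matrix ι ι k)} {F : Matrix ι ι k[X]} (hF : InS S F)
    (q : ℕ) (hq : 0 < q) (m : ℕ) : InS S (Gm q F m) := by
  induction m with
  | zero => exact InS_one S
  | succ m ih => exact InS_mul (InS_expand ih q hq) hF

/-- Expansion of the evaluation in coefficient matrices. -/
theorem map_aeval_eq_sum {R : Type} [CommRing R] [Algebra k R] (F : Matrix ι ι k[X]) (x : R) :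
    ∃ d : ℕ, F.map (aeval x) =
      ∑ n ∈ Finset.range d, x ^ n • (F.map (fun f => f.coeff n)).map (algebraMap k R) := by
  refine ⟨(∑ p : ι × ι, (F p.1 p.2).natDegree) + 1, ?_⟩
  ext i j
  rw [Matrix.sum_apply]
  simp only [Matrix.map_apply, Matrix.smul_apply, smul_eq_mul]
  have h1 : (F i j).natDegree < (∑ p : ι × ι, (F p.1 p.2).natDegree) + 1 := by
    have := Finset.single_le_sum (f := fun p : ι × ι => (F p.1 p.2).natDegree)
      (fun _ _ => Nat.zero_le _) (Finset.mem_univ (i, j))
    simp only at this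
    omega
  rw [aeval_eq_sum_range' h1]
  apply Finset.sum_congr rfl
  intro n _
  rw [Algebra.smul_def, mul_comm]

theorem commute_map_aeval {R : Type} [CommRing R] [Algebra k R] {S : Subalgebra k (Matrix ι ι k)}
    (hS : ∀ a ∈ S, ∀ b ∈ S, Commute a b) {F G : Matrix ι ι k[X]} (hF : InS S F) (hG : InS S G)
    (x y : R) : Commute (F.map (aeval x)) (G.map (aeval y)) := by
  obtain ⟨d, hd⟩ := map_aeval_eq_sum F x
  obtain ⟨d', hd'⟩ := map_aeval_eq_sum G y
  rw [hd, hd']
  apply Commute.sum_left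
  intro n _
  apply Commute.sum_right
  intro m _
  apply Commute.smul_left
  apply Commute.smul_right
  have h := (hS _ (hF n) _ (hG m)).map ((algebraMap k R).mapMatrix (m := ι))
  exact h

theorem map_map_expand {R : Type} [CommRing R] [Algebra k R] (F : Matrix ι ι k[X]) (q : ℕ)
    (x : R) : (F.map (fun f => expand k q f)).map (aeval x) = F.map (aeval (x ^ q)) := by
  ext i j
  simp [expand_aeval]

theorem Gm_eval_succ {R : Type} [CommRing R] [Algebra k R] (F : Matrix ι ι k[X]) (q m : ℕ)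
    (x : R) : (Gm q F (m + 1)).map (aeval x) =
      (Gm q F m).map (aeval (x ^ q)) * F.map (aeval x) := by
  show ((Gm q F m).map (fun f => expand k q f) * F).map (aeval x) = _
  rw [Matrix.map_mul, map_map_expand]

theorem Gm_eval_succ' {R : Type} [CommRing R] [Algebra k R] (F : Matrix ι ι k[X]) (q m : ℕ)
    (x : R) : (Gm q F (m + 1)).map (aeval x) =
      F.map (aeval (x ^ (q ^ m))) * (Gm q F m).map (aeval x) := by
  induction m generalizing x with
  | zero =>
    rw [Gm_eval_succ]
    simp [Gm, Matrix.map_one]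
  | succ m ih =>
    rw [Gm_eval_succ, ih, Gm_eval_succ F q m x, Matrix.mul_assoc, ← pow_mul, ← pow_succ']


/-- The relation between the twisted powers of `NN` at `x` and of `U` at `w = 1/x`. -/
theorem NN_eval {R : Type} [CommRing R] [Algebra k R] (q e : ℕ) (U : Matrix ι ι k[X])
    (he : ∀ i j, (U i j).natDegree ≤ (q - 1) * e) (x w : R) (hxw : x * w = 1) :
    (NN q e U).map (aeval x) = x ^ ((q - 1) * e) • U.map (aeval w) := by
  ext i j
  simp only [NN, Matrix.map_apply, Matrix.smul_apply, smul_eq_mul]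
  let _ : Invertible w := ⟨x, hxw, by rw [mul_comm, hxw]⟩
  have h := Polynomial.eval₂_reflect_mul_pow (algebraMap k R) w ((q - 1) * e) (U i j) (he i j)
  have h1 : (aeval x) ((U i j).reflect ((q - 1) * e)) =
      eval₂ (algebraMap k R) (⅟w) ((U i j).reflect ((q - 1) * e)) := rfl
  have h2 : (aeval w) (U i j) = eval₂ (algebraMap k R) w (U i j) := rfl
  rw [h1, h2, ← h, mul_left_comm, ← mul_pow, hxw, one_pow, mul_one]

theorem Gm_NN_eval {R : Type} [CommRing R] [Algebra k R] (q e : ℕ) (hq : 1 < q)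
    (U : Matrix ι ι k[X])
    (he : ∀ i j, (U i j).natDegree ≤ (q - 1) * e) (m : ℕ) (x w : R) (hxw : x * w = 1) :
    (Gm q (NN q e U) m).map (aeval x) = x ^ ((q ^ m - 1) * e) • (Gm q U m).map (aeval w) := by
  induction m generalizing x w with
  | zero => simp [Gm]
  | succ m ih =>
    rw [Gm_eval_succ, Gm_eval_succ, ih (x ^ q) (w ^ q) (by rw [← mul_pow, hxw, one_pow]),
      NN_eval q e U he x w hxw, Matrix.smul_mul, Matrix.mul_smul, smul_smul, ← pow_mul, ← pow_add]
    congr 2
    have h1 : 1 ≤ q ^ m := Nat.one_le_pow _ _ (by omega)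
    obtain ⟨a, ha⟩ : ∃ a, q ^ m = a + 1 := ⟨q ^ m - 1, by omega⟩
    obtain ⟨c, hc⟩ : ∃ c, q = c + 1 := ⟨q - 1, by omega⟩
    rw [pow_succ, ha]
    rw [hc]
    simp only [Nat.add_sub_cancel]
    have : (a + 1) * (c + 1) - 1 = a * (c + 1) + c := by
      have : (a + 1) * (c + 1) = a * (c + 1) + c + 1 := by ring
      omega
    rw [this]
    ring

/-- The twisted power at a Frobenius point has constant entries. -/
theorem Gm_const [Finite k] {q : ℕ} (hq : Nat.card k = q) {R : Type} [Field R] [Algebra k R]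
    {S : Subalgebra k (Matrix ι ι k)}
    (hS : ∀ a ∈ S, ∀ b ∈ S, Commute a b) {U : Matrix ι ι k[X]} (hU : InS S U) (m : ℕ) (w : R)
    (hw : w ^ (q ^ m) = w) (hdet : (U.map (aeval w)).det ≠ 0) :
    ∃ g : Matrix ι ι k, (Gm q U m).map (aeval w) = g.map (algebraMap k R) := by
  have hq1 := one_lt_q hq
  have h1 : (Gm q U m).map (aeval (w ^ q)) = (Gm q U m).map (aeval w) := by
    have h2 := Gm_eval_succ U q m w
    have h3 := Gm_eval_succ' U q m w
    rw [hw] at h3
    have h4 : Commute (U.map (aeval w)) ((Gm q U m).map (aeval w)) :=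
      commute_map_aeval hS hU (InS_Gm hU q (by omega) m) w w
    rw [h3, h4.eq] at h2
    have h5 := congrArg (fun M => M * (U.map (aeval w))⁻¹) h2
    simp only [Matrix.mul_assoc] at h5
    rw [Matrix.mul_nonsing_inv _ (isUnit_iff_ne_zero.mpr hdet), Matrix.mul_one,
      Matrix.mul_one] at h5
    exact h5.symm
  have h6 : ∀ i j, ∃ a : k, algebraMap k R a = (aeval w) (Gm q U m i j) := by
    intro i j
    apply exists_of_pow_q hq
    have h7 := congrFun (congrFun h1 i) j
    simp only [Matrix.map_apply] at h7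
    rw [← map_pow, ← expand_q hq, expand_aeval, h7]
  choose g hg using h6
  exact ⟨Matrix.of g, by ext i j; simp [hg]⟩

end Eqd

open Eqd in
theorem equidist (k : Type) [Field k] [Finite k] (q : ℕ) (hq : Nat.card k = q)
    (ι : Type) [Fintype ι] [DecidableEq ι]
    (U : Matrix ι ι k[X]) (hU0 : U.map (fun f => f.coeff 0) = 1)
    (hcomm : ∀ i j, Commute (U.map (fun f => f.coeff i)) (U.map (fun f => f.coeff j)))
    (Ω : Type) [Field Ω] [Algebra k Ω] [IsAlgClosed Ω] :
    ∃ (H : Subgroup (Matrix ι ι k)ˣ) (c μ0 : ℕ), ∀ μ ≥ μ0,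
      (∀ w : Ω, w ^ (q ^ (2 * μ)) = w → (U.map (aeval w)).det ≠ 0 →
        ∃ h ∈ H, (Gm q U (2 * μ)).map (aeval w) =
          ((h : (Matrix ι ι k)ˣ) : Matrix ι ι k).map (algebraMap k Ω)) ∧
      ∀ h ∈ H, ∀ S : Finset Ω, (∀ w ∈ S, w ^ (q ^ (2 * μ)) = w ∧ (U.map (aeval w)).det ≠ 0 ∧
          (Gm q U (2 * μ)).map (aeval w) =
            ((h : (Matrix ι ι k)ˣ) : Matrix ι ι k).map (algebraMap k Ω)) →
        Nat.card H * S.card ≤ q ^ (2 * μ) + c * q ^ μ := by
  classical
  have hq1 := one_lt_q hq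
  let e : ℕ := ∑ p : ι × ι, (U p.1 p.2).natDegree
  have he : ∀ i j, (U i j).natDegree ≤ (q - 1) * e := by
    intro i j
    have h1 : (U i j).natDegree ≤ e := Finset.single_le_sum
      (f := fun p : ι × ι => (U p.1 p.2).natDegree) (fun _ _ => Nat.zero_le _)
      (Finset.mem_univ (i, j))
    have h2 : 1 * e ≤ (q - 1) * e := Nat.mul_le_mul_right _ (by omega)
    omega
  -- the commutative subalgebra
  let S : Subalgebra k (Matrix ι ι k) := Algebra.adjoin k (Set.range fun n => U.map (fun f => f.coeff n))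
  have hScomm : ∀ a ∈ S, ∀ b ∈ S, Commute a b := by
    intro a ha b hb
    exact Algebra.commute_of_mem_adjoin_of_forall_mem_commute hb (fun c hc => by
      obtain ⟨n, rfl⟩ := hc
      exact (Algebra.commute_of_mem_adjoin_of_forall_mem_commute ha (fun c hc => by
        obtain ⟨m, rfl⟩ := hc
        exact (hcomm m n).symm)).symm)
  have hUS : InS S U := fun n => Algebra.subset_adjoin ⟨n, rfl⟩
  obtain ⟨B, i1, i2, i3, i4, i5, i6, G, i7, i8, b, ρ, act, j, hbN, hdetb, hgen, hZ, hact, hρ, hfix,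
    hjinj, hj, hrank⟩ := galois_pkg k q hq ι U hU0 e he
  obtain ⟨c, μ0, hstep⟩ := stepanov q hq act j hfix hjinj hj hrank
  have hinj : Function.Injective (algebraMap k[X] B) := by
    intro f g hfg
    apply pinf_injective k
    rw [← hj, ← hj, hfg]
  have hcommN : ∀ m, Commute ((Gm q (NN q e U) m).map (algebraMap k[X] B)) b := by
    intro m
    have h1 : InS S (Gm q (NN q e U) m) := InS_Gm (InS_reflect hUS _) q (by omega) m
    obtain ⟨d, hd⟩ := map_aeval_eq_sum (Gm q (NN q e U) m) (algebraMap k[X] B X)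
    have h2 : (Gm q (NN q e U) m).map (algebraMap k[X] B) =
        (Gm q (NN q e U) m).map (aeval (algebraMap k[X] B X)) := by
      ext i j
      simp only [Matrix.map_apply]
      rw [aeval_algebraMap_apply, aeval_X_left_apply]
    rw [h2, hd]
    apply Commute.sum_left
    intro n _
    apply Commute.smul_left
    exact hZ _ fun i => hScomm _ (h1 n) _ (hUS i)
  -- dictionary at a point
  have key : ∀ (m : ℕ) (w : Ω) (g : Matrix ι ι k), 1 ≤ m → w ≠ 0 → w ^ (q ^ m) = w →
      (U.map (aeval w)).det ≠ 0 → (Gm q U m).map (aeval w) = g.map (algebraMap k Ω) →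
      Irreducible (minpoly k w⁻¹) ∧ (minpoly k w⁻¹).Monic ∧ ¬ minpoly k w⁻¹ ∣ (NN q e U).det ∧
      minpoly k w⁻¹ ∣ X ^ (q ^ m) - X ∧
      ∀ i j, minpoly k w⁻¹ ∣ Gm q (NN q e U) m i j - C (g i j) := by
    intro m w g hm1 hw0 hw hdet hg
    have hx : (w⁻¹) ^ (q ^ m) = w⁻¹ := by rw [inv_pow, hw]
    have hxw : w⁻¹ * w = 1 := inv_mul_cancel₀ hw0
    have hx1 : (w⁻¹) ^ (q ^ m - 1) = 1 := by
      have h1 : 1 ≤ q ^ m := Nat.one_le_pow _ _ (by omega)
      have h2 : (w⁻¹) ^ (q ^ m - 1) * w⁻¹ = 1 * w⁻¹ := by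
        rw [← pow_succ, Nat.sub_add_cancel h1, hx, one_mul]
      exact mul_right_cancel₀ (inv_ne_zero hw0) h2
    have hroot : aeval (w⁻¹) (X ^ (q ^ m) - X : k[X]) = 0 := by
      simp [hx]
    have hint : IsIntegral k w⁻¹ := by
      refine ⟨X ^ (q ^ m) - X, ?_, ?_⟩
      · apply monic_X_pow_sub
        rw [degree_X]
        exact_mod_cast Nat.one_lt_pow (by omega) hq1
      · rw [← aeval_def]; exact hroot
    refine ⟨minpoly.irreducible hint, minpoly.monic hint, ?_, minpoly.dvd k _ hroot, ?_⟩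
    · intro hdvd
      have h1 : aeval w⁻¹ (NN q e U).det = 0 := by
        obtain ⟨f, hf⟩ := hdvd
        rw [hf, map_mul, minpoly.aeval, zero_mul]
      have h2 : aeval w⁻¹ (NN q e U).det = ((NN q e U).map (aeval w⁻¹)).det :=
        (aeval w⁻¹ : k[X] →ₐ[k] Ω).toRingHom.map_det _
      rw [h2, NN_eval q e U he _ _ hxw, Matrix.det_smul] at h1
      exact mul_ne_zero (pow_ne_zero _ (pow_ne_zero _ (inv_ne_zero hw0))) hdet h1
    · intro i j
      apply minpoly.dvd
      have h1 := congrFun (congrFun (Gm_NN_eval q e hq1 U he m _ _ hxw) i) j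
      rw [pow_mul, hx1, one_pow, one_smul, hg] at h1
      simp only [Matrix.map_apply] at h1
      rw [map_sub, h1, aeval_C, sub_self]
  refine ⟨ρ.range, c + Nat.card G, max μ0 1, ?_⟩
  have hcardH : Nat.card ρ.range = Nat.card G :=
    Nat.card_congr (Equiv.ofInjective ρ hρ).symm
  intro μ hμ'
  have hμ : μ0 ≤ μ := le_trans (le_max_left _ _) hμ'
  have hμ1 : 1 ≤ 2 * μ := by have := le_trans (le_max_right μ0 1) hμ'; omega
  constructor
  · intro w hw hdet
    obtain ⟨g, hg⟩ := Gm_const hq hScomm hUS (2 * μ) w hw hdet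
    by_cases hw0 : w = 0
    · refine ⟨1, one_mem _, ?_⟩
      subst hw0
      have h1 : ∀ m, (Gm q U m).map (aeval (0 : Ω)) = 1 := by
        intro m
        induction m with
        | zero => simp [Gm, Matrix.map_one]
        | succ m ih =>
          rw [Gm_eval_succ, zero_pow (by omega), ih, Matrix.one_mul]
          ext i j
          have h2 := congrFun (congrFun hU0 i) j
          simp only [Matrix.map_apply] at h2 ⊢
          have h3 : (aeval (0 : Ω)) (U i j) = algebraMap k Ω ((U i j).coeff 0) := by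
            rw [← map_zero (algebraMap k Ω), aeval_algebraMap_apply, coeff_zero_eq_aeval_zero]
          rw [h3, h2, Matrix.one_apply, Matrix.one_apply]
          split_ifs <;> simp
      rw [h1, Units.val_one, Matrix.map_one _ (map_zero _) (map_one _)]
    · obtain ⟨h1, h2, h3, h4, h5⟩ := key (2 * μ) w g hμ1 hw0 hw hdet hg
      obtain ⟨h, hh⟩ := fmem hinj q hq (NN q e U) b hbN hdetb hgen ρ hρ act hact hrank
        (minpoly k w⁻¹) h1 h3 (2 * μ) h4 g h5 (hcommN _)
      exact ⟨ρ h, ⟨h, rfl⟩, by rw [hh, hg]⟩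
  · rintro h ⟨g0, rfl⟩ T hT
    let T' := T.erase 0
    let PS : Finset k[X] := T'.image (fun w => minpoly k w⁻¹)
    have hPS : ∀ P ∈ PS, Irreducible P ∧ P.Monic ∧ ¬ P ∣ (NN q e U).det ∧
        P ∣ X ^ (q ^ (2 * μ)) - X ∧ ∀ i j, P ∣ Gm q (NN q e U) (2 * μ) i j -
          C (((ρ g0 : (Matrix ι ι k)ˣ) : Matrix ι ι k) i j) := by
      intro P hP
      obtain ⟨w, hw, rfl⟩ := Finset.mem_image.mp hP
      obtain ⟨hw1, hw2, hw3⟩ := hT w (Finset.mem_of_mem_erase hw)
      exact key (2 * μ) w _ hμ1 (Finset.ne_of_mem_erase hw) hw1 hw2 hw3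
    have hmain := hstep μ hμ g0 PS (fun P hP => ⟨(hPS P hP).1, (hPS P hP).2.1⟩)
      (fun P hP x => fcong q hq (NN q e U) b hbN hgen P (2 * μ) (hPS P hP).2.2.2.1 _
        (hPS P hP).2.2.2.2 (hcommN _) (act g0 : B →ₐ[k[X]] B) (hact g0) x)
      (fun P hP x hx => redu q hq (NN q e U) b hbN hgen P (hPS P hP).1 (hPS P hP).2.2.1 μ x hx)
    have hcard : T'.card ≤ ∑ P ∈ PS, P.natDegree := by
      rw [Finset.card_eq_sum_card_image (fun w => minpoly k w⁻¹) T']
      apply Finset.sum_le_sum
      intro P hP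
      have hP0 : P ≠ 0 := (hPS P hP).1.ne_zero
      have h1 : ((T'.filter (fun w => minpoly k w⁻¹ = P)).image (fun w => w⁻¹)).card =
          (T'.filter (fun w => minpoly k w⁻¹ = P)).card :=
        Finset.card_image_of_injective _ inv_injective
      rw [← h1]
      calc _ ≤ ((P.map (algebraMap k Ω)).roots.toFinset).card := by
            apply Finset.card_le_card
            intro y hy
            obtain ⟨w, hw, rfl⟩ := Finset.mem_image.mp hy
            obtain ⟨_, hw2⟩ := Finset.mem_filter.mp hw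
            rw [Multiset.mem_toFinset, mem_roots (Polynomial.map_ne_zero hP0), IsRoot.def,
              eval_map_algebraMap, ← hw2, minpoly.aeval]
        _ ≤ Multiset.card (P.map (algebraMap k Ω)).roots := Multiset.toFinset_card_le _
        _ ≤ (P.map (algebraMap k Ω)).natDegree := card_roots' _
        _ ≤ P.natDegree := natDegree_map_le
    have hT1 : T.card ≤ T'.card + 1 := by
      have := Finset.pred_card_le_card_erase (s := T) (a := 0)
      show T.card ≤ (T.erase 0).card + 1
      omega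
    rw [hcardH]
    have hqμ : 1 ≤ q ^ μ := Nat.one_le_pow _ _ (by omega)
    calc Nat.card G * T.card ≤ Nat.card G * (∑ P ∈ PS, P.natDegree + 1) :=
          Nat.mul_le_mul_left _ (by omega)
      _ = Nat.card G * ∑ P ∈ PS, P.natDegree + Nat.card G := by ring
      _ ≤ q ^ (2 * μ) + c * q ^ μ + Nat.card G * q ^ μ := by
          apply Nat.add_le_add hmain
          exact Nat.le_mul_of_pos_right _ (by omega)
      _ = _ := by ring

end

end Pool.Agent.MP196
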