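import Mathlib
import Pool.Agent.Lib.MP_196a10_nt.Base

open Polynomial

namespace Pool.Agent.MP196

noncomputable section

namespace LamMul

/-- `hom φ a b n F = ∑_{i ≤ n} φ (F_i) a^i b^(n-i)`, as an evaluation of `homogenize`. -/
def hom {S R : Type} [CommRing S] [CommRing R] (φ : S →+* R) (a b : R) (n : ℕ) (F : S[X]) : R :=
  MvPolynomial.eval₂ φ ![a, b] (F.homogenize n)

theorem hom_eq {S R : Type} [CommRing S] [CommRing R] (φ : S →+* R) (a b : R) (n : ℕ)
    (F : S[X]) :
    hom φ a b n F = ∑ i ∈ Finset.range (n + 1), φ (F.coeff i) * a ^ i * b ^ (n - i) := by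
  unfold hom Polynomial.homogenize
  rw [Finset.Nat.sum_antidiagonal_eq_sum_range_succ_mk, MvPolynomial.eval₂_sum]
  refine Finset.sum_congr rfl fun k hk ↦ ?_
  rw [MvPolynomial.eval₂_monomial, Finsupp.update_eq_add_single (by simp), Finsupp.prod_add_index',
    Finsupp.prod_single_index, Finsupp.prod_single_index]
  · simp [mul_assoc]
  · simp
  · simp
  · simp
  · intro i m1 m2
    exact pow_add _ _ _

theorem hom_mul {S R : Type} [CommRing S] [CommRing R] (φ : S →+* R) (a b : R) (m n : ℕ)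
    (F G : S[X]) (hm : F.natDegree ≤ m) (hn : G.natDegree ≤ n) :
    hom φ a b (m + n) (F * G) = hom φ a b m F * hom φ a b n G := by
  unfold hom
  rw [Polynomial.homogenize_mul F G hm hn, MvPolynomial.eval₂_mul]

theorem lam_eq {A : Type} [CommRing A] [Algebra (ZMod 2) A] (t1 t0 : A) (f : P2) :
    lam t1 t0 f = hom (algebraMap (ZMod 2) A) t1 t0 f.natDegree f := by
  rw [hom_eq]
  rfl

end LamMul

theorem lam_mul {A : Type} [CommRing A] [Algebra (ZMod 2) A] (t1 t0 : A) {f g : P2}
    (hf : f ≠ 0) (hg : g ≠ 0) : lam t1 t0 (f * g) = lam t1 t0 f * lam t1 t0 g := by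
  rw [LamMul.lam_eq, LamMul.lam_eq, LamMul.lam_eq, Polynomial.natDegree_mul hf hg,
    LamMul.hom_mul _ _ _ _ _ _ _ le_rfl le_rfl]

theorem lam_one {A : Type} [CommRing A] [Algebra (ZMod 2) A] (t1 t0 : A) :
    lam t1 t0 (1 : P2) = 1 := by
  simp [lam]

theorem lam_pow {A : Type} [CommRing A] [Algebra (ZMod 2) A] (t1 t0 : A) {f : P2}
    (hf : f ≠ 0) (m : ℕ) : lam t1 t0 (f ^ m) = lam t1 t0 f ^ m := by
  induction m with
  | zero => rw [pow_zero, pow_zero, lam_one]
  | succ m ih => rw [pow_succ, pow_succ, lam_mul t1 t0 (pow_ne_zero m hf) hf, ih]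

/-- Homogenised factorisation into linear factors over an extension `Ω` acting on `R`. -/
theorem lam_roots {Ω R : Type} [Field Ω] [Algebra (ZMod 2) Ω] [CommRing R] [Algebra Ω R]
    [Algebra (ZMod 2) R] [IsScalarTower (ZMod 2) Ω R] (T1 T0 : R) (f : P2) (n : ℕ) (x : ℕ → Ω)
    (h : f.map (algebraMap (ZMod 2) Ω) = ∏ i ∈ Finset.range n, (X - C (x i))) :
    lam T1 T0 f = ∏ i ∈ Finset.range n, (T1 - algebraMap Ω R (x i) * T0) := by
  have key : ∀ m : ℕ, (∏ i ∈ Finset.range m, (X - C (x i)) : Polynomial Ω).natDegree = m ∧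
      LamMul.hom (algebraMap Ω R) T1 T0 m (∏ i ∈ Finset.range m, (X - C (x i))) =
        ∏ i ∈ Finset.range m, (T1 - algebraMap Ω R (x i) * T0) := by
    intro m
    induction m with
    | zero => simp [LamMul.hom_eq]
    | succ m ih =>
      have hdeg : (∏ i ∈ Finset.range (m + 1), (X - C (x i)) : Polynomial Ω).natDegree = m + 1 := by
        rw [Polynomial.natDegree_prod_of_monic _ _ (fun i _ => monic_X_sub_C (x i))]
        simp
      refine ⟨hdeg, ?_⟩
      rw [Finset.prod_range_succ, Finset.prod_range_succ,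
        LamMul.hom_mul _ _ _ _ _ _ _ ih.1.le (natDegree_X_sub_C_le (x m)), ih.2]
      congr 1
      rw [LamMul.hom_eq, Finset.sum_range_succ, Finset.sum_range_one]
      simp [Polynomial.coeff_X, Polynomial.coeff_C]
      ring
  have hn : f.natDegree = n := by
    have h1 := Polynomial.natDegree_map_eq_of_injective
      (algebraMap (ZMod 2) Ω).injective f
    rw [← h1, h, (key n).1]
  have h2 : lam T1 T0 f = LamMul.hom (algebraMap Ω R) T1 T0 n (f.map (algebraMap (ZMod 2) Ω)) := by
    rw [LamMul.lam_eq, LamMul.hom_eq, LamMul.hom_eq, hn]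
    refine Finset.sum_congr rfl fun i _ => ?_
    rw [Polynomial.coeff_map, ← IsScalarTower.algebraMap_apply]
  rw [h2, h, (key n).2]

end

end Pool.Agent.MP196
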