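import Mathlib
import Pool.Agent.Lib.MP_196a10_nt.Base
import Pool.Agent.Lib.MP_196a10_nt.LamMul

open Polynomial

namespace Pool.Agent.MP196

noncomputable section

namespace MatM

section conj
variable {Ω : Type} [Field Ω] [Algebra (ZMod 2) Ω]

theorem charP_of : CharP Ω 2 := charP_of_injective_algebraMap (algebraMap (ZMod 2) Ω).injective 2

theorem sq_inj {x y : Ω} (n : ℕ) (h : x ^ (2 ^ n) = y ^ (2 ^ n)) : x = y := by
  have := charP_of (Ω := Ω)
  have h1 := iterateFrobenius_inj Ω 2 n
  apply h1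
  simpa [iterateFrobenius_def] using h

theorem aeval_pow (f : P2) (x : Ω) (n : ℕ) : aeval (x ^ (2 ^ n)) f = (aeval x f) ^ (2 ^ n) := by
  have := charP_of (Ω := Ω)
  induction f using Polynomial.induction_on' with
  | add p q hp hq =>
    rw [map_add, map_add, hp, hq]
    have h := map_add (iterateFrobenius Ω 2 n) (aeval x p) (aeval x q)
    simpa [iterateFrobenius_def] using h.symm
  | monomial m a =>
    rw [aeval_monomial, aeval_monomial, mul_pow, ← map_pow, ← pow_mul, ← pow_mul, mul_comm m]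
    congr 2
    rcases zmod2_cases a with rfl | rfl
    · rw [zero_pow (by positivity)]
    · rw [one_pow]

variable {x : Ω}

theorem ne_of_lt (hx : IsIntegral (ZMod 2) x) {e : ℕ} (he : 1 ≤ e)
    (hed : e < (minpoly (ZMod 2) x).natDegree) : x ^ (2 ^ e) ≠ x := by
  classical
  intro h
  set d := (minpoly (ZMod 2) x).natDegree with hd
  have h1 : Set.InjOn (fun f : P2 => aeval x f) (Plt d : Set P2) := by
    intro f hf g hg hfg
    rw [Finset.mem_coe, mem_Plt] at hf hg
    by_contra hne
    have h2 : f - g ≠ 0 := sub_ne_zero.mpr hne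
    have h3 : aeval x (f - g) = 0 := by
      rw [map_sub]; exact sub_eq_zero.mpr hfg
    have h4 := minpoly.degree_le_of_ne_zero (ZMod 2) x h2 h3
    have h5 : (f - g).degree < d := (degree_sub_le f g).trans_lt (max_lt hf hg)
    have h6 := h4.trans_lt h5
    rw [degree_eq_natDegree (minpoly.ne_zero hx), ← hd] at h6
    exact lt_irrefl _ h6
  have h2 : (Plt d).image (fun f : P2 => aeval x f) ⊆ Pt Ω (2 ^ e) := by
    intro y hy
    obtain ⟨f, _, rfl⟩ := Finset.mem_image.mp hy
    rw [mem_Pt (Nat.one_lt_two_pow (by omega))]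
    show (aeval x f) ^ (2 ^ e) = aeval x f
    rw [← aeval_pow, h]
  have h3 := Finset.card_le_card h2
  rw [Finset.card_image_of_injOn h1, card_Plt] at h3
  have h4 : (Pt Ω (2 ^ e)).card ≤ 2 ^ e := by
    unfold Pt
    refine (Multiset.toFinset_card_le _).trans ((card_roots' _).trans ?_)
    exact (FiniteField.X_pow_card_sub_X_natDegree_eq Ω (Nat.one_lt_two_pow (by omega))).le
  have h5 : (2 : ℕ) ^ d ≤ 2 ^ e := h3.trans h4
  have h6 := (Nat.pow_le_pow_iff_right (by norm_num : 1 < 2)).mp h5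
  omega

theorem inj_of_lt (hx : IsIntegral (ZMod 2) x) {i j : ℕ}
    (hi : i < (minpoly (ZMod 2) x).natDegree) (hj : j < (minpoly (ZMod 2) x).natDegree)
    (h : x ^ (2 ^ i) = x ^ (2 ^ j)) : i = j := by
  by_contra hne
  wlog hij : i < j generalizing i j with H
  · exact H hj hi h.symm (Ne.symm hne) (by omega)
  obtain ⟨e, rfl⟩ := Nat.exists_eq_add_of_lt hij
  have h1 : i + e + 1 = (e + 1) + i := by ring
  rw [h1, pow_add, pow_mul] at h
  have h2 := sq_inj i h
  exact ne_of_lt hx (e := e + 1) (by omega) (by omega) h2.symm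

theorem prod_eq (hx : IsIntegral (ZMod 2) x) :
    (minpoly (ZMod 2) x).map (algebraMap (ZMod 2) Ω) =
      ∏ i ∈ Finset.range (minpoly (ZMod 2) x).natDegree, (X - C (x ^ (2 ^ i))) := by
  classical
  set d := (minpoly (ZMod 2) x).natDegree with hd
  set P := (minpoly (ZMod 2) x).map (algebraMap (ZMod 2) Ω) with hP
  have hPm : P.Monic := (minpoly.monic hx).map _
  have h1 : (∏ i ∈ Finset.range d, (X - C (x ^ (2 ^ i)))) ∣ P := by
    apply Finset.prod_dvd_of_coprime
    · intro i hi j hj hij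
      apply isCoprime_X_sub_C_of_isUnit_sub
      apply IsUnit.mk0
      intro h
      rw [Finset.mem_coe, Finset.mem_range] at hi hj
      exact hij (inj_of_lt hx hi hj (sub_eq_zero.mp h))
    · intro i _
      rw [dvd_iff_isRoot, IsRoot.def, hP, eval_map_algebraMap, aeval_pow, minpoly.aeval,
        zero_pow (by positivity)]
  have h2 : (∏ i ∈ Finset.range d, (X - C (x ^ (2 ^ i)))).Monic :=
    monic_prod_of_monic _ _ (fun i _ => monic_X_sub_C _)
  have h3 : (∏ i ∈ Finset.range d, (X - C (x ^ (2 ^ i)))).natDegree = d := by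
    rw [natDegree_prod_of_monic _ _ (fun i _ => monic_X_sub_C _)]
    simp only [natDegree_X_sub_C, Finset.sum_const, Finset.card_range, smul_eq_mul, mul_one]
  apply eq_of_monic_of_dvd_of_natDegree_le h2 hPm h1
  rw [h3, hP, natDegree_map]

theorem pow_natDegree (hx : IsIntegral (ZMod 2) x) :
    x ^ (2 ^ (minpoly (ZMod 2) x).natDegree) = x := by
  have h1 : (minpoly (ZMod 2) x).natDegree ≥ 1 := minpoly.natDegree_pos hx
  have h2 := prod_eq hx
  have h3 := congrArg (eval (x ^ (2 ^ (minpoly (ZMod 2) x).natDegree))) h2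
  rw [eval_map_algebraMap, aeval_pow, minpoly.aeval, zero_pow (by positivity), eval_prod] at h3
  obtain ⟨i, hi, h4⟩ := Finset.prod_eq_zero_iff.mp h3.symm
  rw [Finset.mem_range] at hi
  rw [eval_sub, eval_X, eval_C, sub_eq_zero] at h4
  rcases Nat.eq_zero_or_pos i with rfl | hi0
  · simpa using h4
  · exfalso
    obtain ⟨e, he⟩ := Nat.exists_eq_add_of_lt hi
    have h5 : (minpoly (ZMod 2) x).natDegree = (e + 1) + i := by omega
    rw [h5, pow_add, pow_mul] at h4
    exact ne_of_lt hx (e := e + 1) (by omega) (by omega) (sq_inj i h4)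

theorem period (hx : IsIntegral (ZMod 2) x) (i : ℕ) :
    x ^ (2 ^ ((minpoly (ZMod 2) x).natDegree + i)) = x ^ (2 ^ i) := by
  rw [pow_add, pow_mul, pow_natDegree hx]

theorem dvd_of (hx : IsIntegral (ZMod 2) x) {M : ℕ} (h : x ^ (2 ^ M) = x) :
    (minpoly (ZMod 2) x).natDegree ∣ M := by
  have h0 : 0 < (minpoly (ZMod 2) x).natDegree := minpoly.natDegree_pos hx
  rw [Nat.dvd_iff_mod_eq_zero]
  by_contra hne
  apply ne_of_lt hx (e := M % (minpoly (ZMod 2) x).natDegree) (by omega) (Nat.mod_lt _ h0)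
  have h1 : ∀ q i : ℕ, x ^ (2 ^ ((minpoly (ZMod 2) x).natDegree * q + i)) = x ^ (2 ^ i) := by
    intro q
    induction q with
    | zero => intro i; simp
    | succ q ih =>
      intro i
      rw [show (minpoly (ZMod 2) x).natDegree * (q + 1) + i =
        (minpoly (ZMod 2) x).natDegree + ((minpoly (ZMod 2) x).natDegree * q + i) by ring,
        period hx, ih]
  rw [← h1 (M / (minpoly (ZMod 2) x).natDegree), Nat.div_add_mod, h]

end conj

theorem prod_range_period {R : Type} [CommMonoid R] (f : ℕ → R) (d : ℕ)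
    (hf : ∀ i, f (d + i) = f i) (q : ℕ) :
    ∏ i ∈ Finset.range (d * q), f i = (∏ i ∈ Finset.range d, f i) ^ q := by
  induction q with
  | zero => simp
  | succ q ih =>
    rw [show d * (q + 1) = d + d * q by ring, Finset.prod_range_add, pow_succ', ← ih]
    congr 1
    apply Finset.prod_congr rfl
    intro i _
    exact hf i

theorem lam_map {A R : Type} [CommRing A] [Algebra (ZMod 2) A] [CommRing R] [Algebra (ZMod 2) R]
    (φ : A →ₐ[ZMod 2] R) (t1 t0 : A) (f : P2) : lam (φ t1) (φ t0) f = φ (lam t1 t0 f) := by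
  unfold lam
  rw [map_sum]
  apply Finset.sum_congr rfl
  intro i _
  rw [map_mul, map_mul, map_pow, map_pow, AlgHom.commutes]

theorem list_prod_eq {R : Type} [CommMonoid R] (f : ℕ → R) (n : ℕ) :
    ((List.range n).map f).prod = ∏ i ∈ Finset.range n, f i := by
  induction n with
  | zero => simp
  | succ n ih => rw [List.range_succ, List.map_append, List.prod_append, ih,
      Finset.prod_range_succ]; simp

section hom
variable (A : Type) [CommRing A] [Algebra (ZMod 2) A] [Finite A]
  (Ω : Type) [CommRing Ω] [Algebra (ZMod 2) Ω]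

/-- `LMC` as an algebra homomorphism. -/
def LMCa : A →ₐ[ZMod 2] Matrix (Fin (Module.finrank (ZMod 2) A))
    (Fin (Module.finrank (ZMod 2) A)) Ω where
  __ := LMC A Ω
  commutes' c := by
    rcases zmod2_cases c with rfl | rfl
    · simp
    · simp

theorem LMCa_apply (a : A) : LMCa A Ω a = LMC A Ω a := rfl

open TensorProduct in
/-- The induced homomorphism on the base change. -/
def Phi : Ω ⊗[ZMod 2] A →ₐ[Ω] Matrix (Fin (Module.finrank (ZMod 2) A))
    (Fin (Module.finrank (ZMod 2) A)) Ω :=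
  Algebra.TensorProduct.lift (Algebra.ofId Ω _) (LMCa A Ω)
    (fun w _ => Algebra.commutes w _)

theorem Phi_right (a : A) :
    Phi A Ω (Algebra.TensorProduct.includeRight a) = LMC A Ω a := by
  unfold Phi
  rw [Algebra.TensorProduct.includeRight_apply, Algebra.TensorProduct.lift_tmul]
  rw [map_one, one_mul, LMCa_apply]

end hom

end MatM

section matm
variable {A : Type} [CommRing A] [Algebra (ZMod 2) A] [Finite A] (t1 t0 : A)
  (Ω : Type) [Field Ω] [Algebra (ZMod 2) Ω]

theorem prod_conj (M : ℕ) (hM : 1 ≤ M) (x : Ω) (hx : x ^ (2 ^ M) = x) :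
    ((List.range M).map (fun i => LMC A Ω t1 - (x ^ (2 ^ i) : Ω) • LMC A Ω t0)).prod =
      LMC A Ω (lam t1 t0 (minpoly (ZMod 2) x) ^ (M / (minpoly (ZMod 2) x).natDegree)) := by
  have hint : IsIntegral (ZMod 2) x := by
    refine ⟨X ^ (2 ^ M) - X, monic_X_pow_sub ?_, ?_⟩
    · rw [degree_X]
      have : 1 < 2 ^ M := Nat.one_lt_two_pow (by omega)
      exact_mod_cast this
    · rw [eval₂_sub, eval₂_X_pow, eval₂_X, hx, sub_self]
  set T1 := (Algebra.TensorProduct.includeRight : A →ₐ[ZMod 2] TensorProduct (ZMod 2) Ω A) t1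
    with hT1
  set T0 := (Algebra.TensorProduct.includeRight : A →ₐ[ZMod 2] TensorProduct (ZMod 2) Ω A) t0
    with hT0
  set d := (minpoly (ZMod 2) x).natDegree with hd
  have h1 : ∀ i : ℕ, LMC A Ω t1 - (x ^ (2 ^ i) : Ω) • LMC A Ω t0 =
      MatM.Phi A Ω (T1 - algebraMap Ω _ (x ^ (2 ^ i)) * T0) := by
    intro i
    rw [map_sub, map_mul, AlgHom.commutes, hT1, hT0, MatM.Phi_right, MatM.Phi_right,
      Algebra.smul_def]
  have h2 : (fun i => LMC A Ω t1 - (x ^ (2 ^ i) : Ω) • LMC A Ω t0) =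
      (MatM.Phi A Ω) ∘ (fun i => T1 - algebraMap Ω _ (x ^ (2 ^ i)) * T0) := by
    funext i
    exact h1 i
  rw [h2, ← List.map_map, ← map_list_prod, MatM.list_prod_eq]
  obtain ⟨q, hq⟩ := MatM.dvd_of hint hx
  have hd0 : 0 < d := minpoly.natDegree_pos hint
  have h3 : M / d = q := by
    rw [hq]; exact Nat.mul_div_cancel_left q hd0
  rw [h3]
  have h4 : ∏ i ∈ Finset.range M, (T1 - algebraMap Ω _ (x ^ (2 ^ i)) * T0) =
      (∏ i ∈ Finset.range d, (T1 - algebraMap Ω _ (x ^ (2 ^ i)) * T0)) ^ q := by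
    rw [hq]
    apply MatM.prod_range_period
    intro i
    rw [MatM.period hint]
  rw [h4, ← lam_roots T1 T0 (minpoly (ZMod 2) x) d (fun i => x ^ (2 ^ i)) (MatM.prod_eq hint),
    hT1, hT0, MatM.lam_map, ← map_pow, MatM.Phi_right]

theorem det_conj (i : ℕ) (x : Ω) :
    (LMC A Ω t1 - (x ^ (2 ^ i) : Ω) • LMC A Ω t0).det =
      (LMC A Ω t1 - x • LMC A Ω t0).det ^ (2 ^ i) := by
  have := MatM.charP_of (Ω := Ω)
  have h1 : ∀ c : ZMod 2, (algebraMap (ZMod 2) Ω c) ^ (2 ^ i) = algebraMap (ZMod 2) Ω c := by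
    intro c
    rcases zmod2_cases c with rfl | rfl
    · rw [map_zero, zero_pow (by positivity)]
    · rw [map_one, one_pow]
  have h2 : LMC A Ω t1 - (x ^ (2 ^ i) : Ω) • LMC A Ω t0 =
      (iterateFrobenius Ω 2 i).mapMatrix (LMC A Ω t1 - x • LMC A Ω t0) := by
    ext a b
    rw [RingHom.mapMatrix_apply, Matrix.map_apply, Matrix.sub_apply, Matrix.sub_apply, map_sub,
      Matrix.smul_apply, Matrix.smul_apply, smul_eq_mul, smul_eq_mul, map_mul]
    simp only [iterateFrobenius_def]
    unfold LMC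
    simp only [RingHom.comp_apply, RingHom.mapMatrix_apply, Matrix.map_apply, h1]
  rw [h2, ← RingHom.map_det, iterateFrobenius_def]

theorem det_LMC (a : A) (R : Type) [CommRing R] [Nontrivial R] [Algebra (ZMod 2) R] :
    (LMC A R a).det ≠ 0 ↔ IsUnit a := by
  have h1 : (LMC A R a).det = algebraMap (ZMod 2) R (Algebra.norm (ZMod 2) a) := by
    rw [Algebra.norm_eq_matrix_det (Module.finBasis (ZMod 2) A)]
    unfold LMC
    rw [RingHom.comp_apply, ← RingHom.map_det]
    rfl
  rw [h1, map_ne_zero_iff _ (algebraMap (ZMod 2) R).injective]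
  rw [← isUnit_iff_ne_zero, Algebra.norm_apply, ← LinearMap.isUnit_iff_isUnit_det]
  exact Algebra.lmul_isUnit_iff

theorem LMC_injective (A : Type) [CommRing A] [Algebra (ZMod 2) A] [Finite A]
    (R : Type) [CommRing R] [Nontrivial R] [Algebra (ZMod 2) R] :
    Function.Injective (LMC A R) := by
  unfold LMC
  rw [RingHom.coe_comp]
  apply Function.Injective.comp
  · intro M N h
    exact Matrix.map_injective (algebraMap (ZMod 2) R).injective h
  · exact Algebra.leftMulMatrix_injective _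
end matm

end

end Pool.Agent.MP196
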