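import Mathlib
import Pool.Agent.Lib.MP_196a10_nt.Base
import Pool.Agent.Lib.MP_196a10_nt.MatM

open Polynomial TensorProduct

namespace Pool.Agent.MP196

noncomputable section

namespace MatU

variable {A : Type} [CommRing A] [Algebra (ZMod 2) A] [Finite A]

theorem LMC_mapMatrix {R R' : Type} [CommRing R] [CommRing R'] [Algebra (ZMod 2) R]
    [Algebra (ZMod 2) R'] (φ : R →+* R') (a : A) : (LMC A R a).map φ = LMC A R' a := by
  have hφ : φ.comp (algebraMap (ZMod 2) R) = algebraMap (ZMod 2) R' := RingHom.ext_zmod _ _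
  ext i j
  simp only [LMC, RingHom.comp_apply, RingHom.mapMatrix_apply, Matrix.map_apply]
  exact congrArg (fun F : ZMod 2 →+* R' => F _) hφ

/-- `F_i = t1 - x^(2^i) t0` -/
def FF (t1 t0 : A) {R : Type} [CommRing R] [Algebra (ZMod 2) R] (x : R) (i : ℕ) :
    Matrix (Fin (Module.finrank (ZMod 2) A)) (Fin (Module.finrank (ZMod 2) A)) R :=
  LMC A R t1 - (x ^ (2 ^ i) : R) • LMC A R t0

theorem FF_map (t1 t0 : A) {R R' : Type} [CommRing R] [CommRing R'] [Algebra (ZMod 2) R]
    [Algebra (ZMod 2) R'] (φ : R →+* R') (x : R) (i : ℕ) :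
    (FF t1 t0 x i).map φ = FF t1 t0 (φ x) i := by
  have h1 : (FF t1 t0 x i).map φ = (LMC A R t1).map φ - φ (x ^ (2 ^ i)) • (LMC A R t0).map φ := by
    ext a b
    simp [FF]
  rw [h1, LMC_mapMatrix, LMC_mapMatrix, map_pow]
  rfl

theorem UU_map (t1 t0 c' : A) (k : Type) [Field k] [Algebra (ZMod 2) k] (x0 : k) (f : ℕ)
    {R : Type} [CommRing R] [Algebra (ZMod 2) R] (φ : k[X] →+* R) :
    (UU t1 t0 c' k x0 f).map φ =
      LMC A R c' * ((List.range f).map (fun i => FF t1 t0 (φ (C x0 + X)) i)).prod := by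
  have h1 : (UU t1 t0 c' k x0 f).map φ = φ.mapMatrix (UU t1 t0 c' k x0 f) := rfl
  rw [h1]
  unfold UU
  rw [map_mul, map_list_prod, List.map_map]
  congr 1
  · exact LMC_mapMatrix φ c'
  · congr 1
    apply List.map_congr_left
    intro i _
    exact FF_map t1 t0 φ (C x0 + X) i

theorem FF_eq_Phi (t1 t0 : A) {R : Type} [CommRing R] [Algebra (ZMod 2) R] (x : R) (i : ℕ) :
    FF t1 t0 x i = MatM.Phi A R ((Algebra.TensorProduct.includeRight t1 :
      TensorProduct (ZMod 2) R A) - algebraMap R _ (x ^ (2 ^ i)) *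
      (Algebra.TensorProduct.includeRight t0 : TensorProduct (ZMod 2) R A)) := by
  rw [map_sub, map_mul, AlgHom.commutes, MatM.Phi_right, MatM.Phi_right, FF, Algebra.smul_def]

theorem prod_FF (t1 t0 : A) {R : Type} [CommRing R] [Algebra (ZMod 2) R] (x : R) (s : ℕ → ℕ)
    (n : ℕ) : ((List.range n).map (fun i => FF t1 t0 x (s i))).prod =
      MatM.Phi A R (∏ i ∈ Finset.range n, ((Algebra.TensorProduct.includeRight t1 :
      TensorProduct (ZMod 2) R A) - algebraMap R _ (x ^ (2 ^ (s i))) *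
      (Algebra.TensorProduct.includeRight t0 : TensorProduct (ZMod 2) R A))) := by
  have h2 : (fun i => FF t1 t0 x (s i)) =
      (MatM.Phi A R) ∘ (fun i => (Algebra.TensorProduct.includeRight t1 :
      TensorProduct (ZMod 2) R A) - algebraMap R _ (x ^ (2 ^ (s i))) *
      (Algebra.TensorProduct.includeRight t0 : TensorProduct (ZMod 2) R A)) := by
    funext i
    exact FF_eq_Phi t1 t0 x (s i)
  rw [h2, ← List.map_map, ← map_list_prod, MatM.list_prod_eq]

theorem coeff_mem (k : Type) [Field k] [Algebra (ZMod 2) k] (z : TensorProduct (ZMod 2) k[X] A)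
    (n : ℕ) : (MatM.Phi A k[X] z).map (fun h => h.coeff n) ∈
      Algebra.adjoin k (Set.range (LMC A k)) := by
  induction z using TensorProduct.induction_on with
  | zero =>
    have h : (MatM.Phi A k[X] 0).map (fun h => h.coeff n) = 0 := by
      ext i j
      simp
    rw [h]
    exact zero_mem _
  | tmul p a =>
    have h : (MatM.Phi A k[X] (p ⊗ₜ[ZMod 2] a)).map (fun h => h.coeff n) =
        (p.coeff n) • LMC A k a := by
      have h0 : (p ⊗ₜ[ZMod 2] a : TensorProduct (ZMod 2) k[X] A) =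
          algebraMap k[X] _ p * Algebra.TensorProduct.includeRight a := by
        rw [Algebra.TensorProduct.algebraMap_apply, Algebra.TensorProduct.includeRight_apply,
          Algebra.TensorProduct.tmul_mul_tmul, mul_one, one_mul]
        rfl
      rw [h0, map_mul, AlgHom.commutes, MatM.Phi_right, ← Algebra.smul_def]
      ext i j
      have h1 : (algebraMap (ZMod 2) k[X]) = (C : k →+* k[X]).comp (algebraMap (ZMod 2) k) :=
        RingHom.ext_zmod _ _
      simp only [Matrix.map_apply, Matrix.smul_apply, smul_eq_mul, LMC, RingHom.comp_apply,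
        RingHom.mapMatrix_apply]
      rw [h1, RingHom.comp_apply, coeff_mul_C]
    rw [h]
    exact Subalgebra.smul_mem _ (Algebra.subset_adjoin (Set.mem_range_self a)) _
  | add x y hx hy =>
    have h : (MatM.Phi A k[X] (x + y)).map (fun h => h.coeff n) =
        (MatM.Phi A k[X] x).map (fun h => h.coeff n) +
        (MatM.Phi A k[X] y).map (fun h => h.coeff n) := by
      ext i j
      simp
    rw [h]
    exact add_mem hx hy

theorem comm_of_mem (k : Type) [Field k] [Algebra (ZMod 2) k]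
    {a b : Matrix (Fin (Module.finrank (ZMod 2) A)) (Fin (Module.finrank (ZMod 2) A)) k}
    (ha : a ∈ Algebra.adjoin k (Set.range (LMC A k)))
    (hb : b ∈ Algebra.adjoin k (Set.range (LMC A k))) : Commute a b := by
  exact Algebra.commute_of_mem_adjoin_of_forall_mem_commute hb (fun c hc => by
    obtain ⟨n, rfl⟩ := hc
    exact (Algebra.commute_of_mem_adjoin_of_forall_mem_commute ha (fun c hc => by
      obtain ⟨m, rfl⟩ := hc
      show LMC A k n * LMC A k m = LMC A k m * LMC A k n
      rw [← map_mul, ← map_mul, mul_comm])).symm)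

end MatU

open MatU

section matu
variable {A : Type} [CommRing A] [Algebra (ZMod 2) A] [Finite A] (t1 t0 c' : A) (k : Type)
    [Field k] [Finite k] [Algebra (ZMod 2) k] (x0 : k) (Ps : P2)

theorem UU_zero (hPs : Irreducible Ps) (hx0 : aeval x0 Ps = 0)
    (hc : c' * lam t1 t0 Ps = 1) :
    (UU t1 t0 c' k x0 Ps.natDegree).map (fun f => f.coeff 0) = 1 := by
  have h1 : (UU t1 t0 c' k x0 Ps.natDegree).map (fun f => f.coeff 0) =
      (UU t1 t0 c' k x0 Ps.natDegree).map (evalRingHom (0 : k)) := by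
    ext i j
    simp [coeff_zero_eq_eval_zero]
  have hint : IsIntegral (ZMod 2) x0 := ⟨Ps, monic_of_ne hPs.ne_zero, hx0⟩
  have hmin : minpoly (ZMod 2) x0 = Ps :=
    (minpoly.eq_of_irreducible_of_monic hPs hx0 (monic_of_ne hPs.ne_zero)).symm
  have hpow : x0 ^ (2 ^ Ps.natDegree) = x0 := by
    have := MatM.pow_natDegree hint
    rwa [hmin] at this
  rw [h1, UU_map]
  have h2 : evalRingHom (0 : k) (C x0 + X) = x0 := by simp
  have h3 := prod_conj t1 t0 k Ps.natDegree hPs.natDegree_pos x0 hpow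
  rw [h2]
  have h4 : ((List.range Ps.natDegree).map (fun i => FF t1 t0 x0 i)).prod =
      LMC A k (lam t1 t0 Ps) := by
    rw [hmin, Nat.div_self hPs.natDegree_pos, pow_one] at h3
    exact h3
  rw [h4, ← map_mul, hc, map_one]

theorem UU_comm (f i j : ℕ) :
    Commute ((UU t1 t0 c' k x0 f).map (fun h => h.coeff i))
      ((UU t1 t0 c' k x0 f).map (fun h => h.coeff j)) := by
  have h1 : ∃ z : TensorProduct (ZMod 2) k[X] A, UU t1 t0 c' k x0 f = MatM.Phi A k[X] z := by
    have h2 : UU t1 t0 c' k x0 f = LMC A k[X] c' *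
      ((List.range f).map (fun i => FF t1 t0 (C x0 + X) i)).prod := rfl
    rw [h2, prod_FF t1 t0 _ (fun i => i), ← MatM.Phi_right, ← map_mul]
    exact ⟨_, rfl⟩
  obtain ⟨z, hz⟩ := h1
  rw [hz]
  exact comm_of_mem k (coeff_mem k z i) (coeff_mem k z j)

theorem UU_eval (Ω : Type) [Field Ω] [Algebra (ZMod 2) Ω] [Algebra k Ω]
    [IsScalarTower (ZMod 2) k Ω] (f : ℕ) (hk : Nat.card k = 2 ^ f) (m : ℕ) (w : Ω) :
    (Gm (2 ^ f) (UU t1 t0 c' k x0 f) m).map (aeval w) =
      LMC A Ω (c' ^ m) * ((List.range (f * m)).map (fun i =>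
        LMC A Ω t1 - ((algebraMap k Ω x0 + w) ^ (2 ^ i) : Ω) • LMC A Ω t0)).prod := by
  have hU : ∀ w : Ω, (UU t1 t0 c' k x0 f).map (aeval w) =
      LMC A Ω c' * ((List.range f).map (fun i => FF t1 t0 (algebraMap k Ω x0 + w) i)).prod := by
    intro w
    have h1 := UU_map t1 t0 c' k x0 f (aeval w : k[X] →ₐ[k] Ω).toRingHom
    have h2 : (aeval w : k[X] →ₐ[k] Ω).toRingHom (C x0 + X) = algebraMap k Ω x0 + w := by
      show aeval w (C x0 + X) = _
      simp
    rw [h2] at h1
    exact h1
  show _ = LMC A Ω (c' ^ m) * ((List.range (f * m)).map (fun i =>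
    FF t1 t0 (algebraMap k Ω x0 + w) i)).prod
  induction m generalizing w with
  | zero => simp [Gm, Matrix.map_one]
  | succ m ih =>
    have h1 : (Gm (2 ^ f) (UU t1 t0 c' k x0 f) (m + 1)).map (aeval w) =
        (Gm (2 ^ f) (UU t1 t0 c' k x0 f) m).map (aeval (w ^ (2 ^ f))) *
          (UU t1 t0 c' k x0 f).map (aeval w) := by
      show ((Gm (2 ^ f) (UU t1 t0 c' k x0 f) m).map (fun h => expand k (2 ^ f) h) *
        UU t1 t0 c' k x0 f).map (aeval w) = _
      rw [Matrix.map_mul]
      congr 1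
      ext a b
      simp [expand_aeval]
    have hfr : algebraMap k Ω x0 + w ^ (2 ^ f) = (algebraMap k Ω x0 + w) ^ (2 ^ f) := by
      have hch : CharP Ω 2 := MatM.charP_of
      rw [add_pow_char_pow, ← map_pow, pow_q hk]
    rw [h1, ih, hU, hfr]
    have h2 : ((List.range (f * m)).map (fun i =>
        FF t1 t0 ((algebraMap k Ω x0 + w) ^ (2 ^ f)) i)).prod =
        ((List.range (f * m)).map (fun i =>
        FF t1 t0 (algebraMap k Ω x0 + w) (f + i))).prod := by
      congr 1
      apply List.map_congr_left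
      intro i _
      unfold FF
      rw [← pow_mul, ← pow_add]
    rw [h2, prod_FF t1 t0 _ (fun i => f + i), prod_FF t1 t0 _ (fun i => i),
      prod_FF t1 t0 _ (fun i => i), ← MatM.Phi_right, ← MatM.Phi_right, ← MatM.Phi_right,
      ← map_mul, ← map_mul, ← map_mul, ← map_mul]
    congr 1
    rw [show f * (m + 1) = f + f * m by ring, Finset.prod_range_add, map_pow, map_pow, pow_succ]
    ring
end matu

end

end Pool.Agent.MP196
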