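import Mathlib
import Pool.Agent.Lib.MP_196a10_nt.Base

open Polynomial

namespace Pool.Agent.MP196

noncomputable section

namespace Newton

open UniqueFactorizationMonoid

theorem normalize_eq_self (P : P2) : normalize P = P :=
  eq_of_associated (normalize_associated P)

theorem pow_dvd_iff {P f : P2} (hP : Irreducible P) (hf : f ≠ 0) (m : ℕ) :
    P ^ m ∣ f ↔ m ≤ (normalizedFactors f).count P := by
  rw [pow_dvd_iff_le_emultiplicity, emultiplicity_eq_count_normalizedFactors hP hf,
    normalize_eq_self]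
  exact_mod_cast Iff.rfl

theorem irreducible_of_mem {P f : P2} (h : P ∈ normalizedFactors f) : Irreducible P :=
  irreducible_of_normalized_factor P h

theorem sum_degree {f : P2} (hf : f ≠ 0) :
    ((normalizedFactors f).map natDegree).sum = f.natDegree := by
  have h1 : (normalizedFactors f).prod = f := eq_of_associated (prod_normalizedFactors hf)
  have h2 : (0 : P2) ∉ normalizedFactors f := zero_notMem_normalizedFactors f
  have h3 := natDegree_multiset_prod (normalizedFactors f) h2
  rw [h1] at h3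
  exact h3.symm

/-- the sum of von Mangoldt over the divisors -/
theorem key {f : P2} (hf : f ≠ 0) (S : Finset P2)
    (hS : ∀ d, d ∈ S → d ∣ f) (hS' : ∀ d, d ∣ f → d ≠ 1 → d ∈ S) :
    ∑ d ∈ S, vM d = f.natDegree := by
  classical
  set s := normalizedFactors f with hs
  have hsub : s.toFinset.biUnion (fun P => (Finset.Icc 1 (s.count P)).image (fun m => P ^ m))
      ⊆ S := by
    intro d hd
    simp only [Finset.mem_biUnion, Multiset.mem_toFinset, Finset.mem_image,
      Finset.mem_Icc] at hd
    obtain ⟨P, hP, m, ⟨hm1, hm2⟩, rfl⟩ := hd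
    have hPi := irreducible_of_mem hP
    refine hS' _ ((pow_dvd_iff hPi hf m).mpr hm2) ?_
    intro h
    have h1 : IsUnit (P ^ m) := h ▸ isUnit_one
    exact hPi.not_isUnit ((isUnit_pow_iff (by omega)).mp h1)
  rw [← Finset.sum_subset hsub, Finset.sum_biUnion]
  · have h1 : ∀ P ∈ s.toFinset, ∑ d ∈ (Finset.Icc 1 (s.count P)).image (fun m => P ^ m), vM d
        = s.count P • P.natDegree := by
      intro P hP
      have hPi := irreducible_of_mem (Multiset.mem_toFinset.mp hP)
      rw [Finset.sum_image]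
      · have h2 : ∀ m ∈ Finset.Icc 1 (s.count P), vM (P ^ m) = P.natDegree := by
          intro m hm
          rw [Finset.mem_Icc] at hm
          exact vM_pow hPi (by omega)
        rw [Finset.sum_congr rfl h2, Finset.sum_const, Nat.card_Icc]
        simp
      · intro m hm n _ hmn
        rw [Finset.mem_coe, Finset.mem_Icc] at hm
        exact (irreducible_pow_unique hPi hPi (by omega) hmn).2
    rw [Finset.sum_congr rfl h1, ← Finset.sum_multiset_map_count]
    exact sum_degree hf
  · intro P hP Q hQ hne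
    rw [Function.onFun, Finset.disjoint_left]
    intro d hd hd'
    simp only [Finset.mem_image, Finset.mem_Icc] at hd hd'
    obtain ⟨m, hm, rfl⟩ := hd
    obtain ⟨n, hn, h⟩ := hd'
    have hPi := irreducible_of_mem (Multiset.mem_toFinset.mp hP)
    have hQi := irreducible_of_mem (Multiset.mem_toFinset.mp hQ)
    exact hne (irreducible_pow_unique hPi hQi (by omega) h.symm).1
  · intro d hd hd'
    apply vM_eq_zero
    rintro ⟨P, hP, m, hm, rfl⟩
    apply hd'
    simp only [Finset.mem_biUnion, Multiset.mem_toFinset, Finset.mem_image, Finset.mem_Icc]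
    have h1 := (pow_dvd_iff hP hf m).mp (hS _ hd)
    refine ⟨P, ?_, m, ⟨by omega, h1⟩, rfl⟩
    exact Multiset.count_pos.mp (lt_of_lt_of_le hm h1)

open scoped Classical in
theorem key' {j : ℕ} {f : P2} (hf : f ∈ MD j) :
    ∑ i ∈ Finset.range j, ∑ d ∈ MD (i + 1), (if d ∣ f then (vM d : ℂ) else 0) = j := by
  have hf0 := ne_zero_of_mem_MD hf
  have h1 := key hf0 ((Finset.range j).biUnion (fun i => (MD (i + 1)).filter (fun d => d ∣ f)))
    (by
      intro d hd
      simp only [Finset.mem_biUnion, Finset.mem_filter] at hd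
      obtain ⟨i, _, _, h⟩ := hd
      exact h)
    (by
      intro d hd hd1
      have hd0 : d ≠ 0 := ne_zero_of_dvd_ne_zero hf0 hd
      have h2 : d.natDegree ≤ j := by
        rw [← natDegree_of_mem_MD hf]
        exact natDegree_le_of_dvd hd hf0
      have h3 : d.natDegree ≠ 0 := by
        intro h
        exact hd1 ((monic_of_ne hd0).natDegree_eq_zero.mp h)
      simp only [Finset.mem_biUnion, Finset.mem_filter, Finset.mem_range]
      refine ⟨d.natDegree - 1, by omega, ?_, hd⟩
      rw [mem_MD']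
      exact ⟨hd0, by omega⟩)
  rw [Finset.sum_biUnion] at h1
  · rw [natDegree_of_mem_MD hf] at h1
    have h2 := congrArg (Nat.cast : ℕ → ℂ) h1
    push_cast at h2
    rw [← h2]
    refine Finset.sum_congr rfl fun i _ => ?_
    rw [Finset.sum_filter]
  · intro i _ i' _ hne
    rw [Function.onFun, Finset.disjoint_left]
    intro d hd hd'
    rw [Finset.mem_filter] at hd hd'
    have h2 := natDegree_of_mem_MD hd.1
    have h3 := natDegree_of_mem_MD hd'.1
    omega

open scoped Classical in
theorem multiples (Φ : P2 → ℂ) (hm : ∀ f g, f ≠ 0 → g ≠ 0 → Φ (f * g) = Φ f * Φ g) {i j : ℕ}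
    (hij : i ≤ j) {d : P2} (hd : d ∈ MD i) :
    ∑ f ∈ MD j, (if d ∣ f then Φ f else 0) = Φ d * ∑ h ∈ MD (j - i), Φ h := by
  have hd0 := ne_zero_of_mem_MD hd
  rw [← Finset.sum_filter, Finset.mul_sum]
  symm
  refine Finset.sum_bij (fun h _ => d * h) ?_ ?_ ?_ ?_
  · intro h hh
    rw [Finset.mem_filter]
    refine ⟨?_, dvd_mul_right d h⟩
    have := mul_mem_MD hd hh
    rwa [show i + (j - i) = j by omega] at this
  · intro h _ h' _ e
    exact mul_left_cancel₀ hd0 e
  · intro f hf
    rw [Finset.mem_filter] at hf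
    obtain ⟨hf, h, rfl⟩ := hf
    have hf0 := ne_zero_of_mem_MD hf
    have hh0 : h ≠ 0 := right_ne_zero_of_mul hf0
    refine ⟨h, ?_, rfl⟩
    have h1 := natDegree_of_mem_MD hf
    have h2 := natDegree_of_mem_MD hd
    rw [natDegree_mul hd0 hh0] at h1
    rw [mem_MD']
    exact ⟨hh0, by omega⟩
  · intro h hh
    exact (hm d h hd0 (ne_zero_of_mem_MD hh)).symm

end Newton

theorem newton (Φ : P2 → ℂ) (hm : ∀ f g, f ≠ 0 → g ≠ 0 → Φ (f * g) = Φ f * Φ g) (j : ℕ) :
    (j : ℂ) * ∑ f ∈ MD j, Φ f =
      ∑ i ∈ Finset.range j, (∑ d ∈ MD (i + 1), (vM d : ℂ) * Φ d) *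
        ∑ h ∈ MD (j - 1 - i), Φ h := by
  classical
  rw [Finset.mul_sum]
  have h1 : ∀ f ∈ MD j, (j : ℂ) * Φ f = ∑ i ∈ Finset.range j, ∑ d ∈ MD (i + 1),
      (vM d : ℂ) * (if d ∣ f then Φ f else 0) := by
    intro f hf
    rw [← Newton.key' hf, Finset.sum_mul]
    refine Finset.sum_congr rfl fun i _ => ?_
    rw [Finset.sum_mul]
    refine Finset.sum_congr rfl fun d _ => ?_
    split_ifs <;> simp
  rw [Finset.sum_congr rfl h1, Finset.sum_comm]
  refine Finset.sum_congr rfl fun i hi => ?_
  rw [Finset.mem_range] at hi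
  rw [Finset.sum_comm, Finset.sum_mul]
  refine Finset.sum_congr rfl fun d hd => ?_
  rw [← Finset.mul_sum, Newton.multiples Φ hm (show i + 1 ≤ j by omega) hd,
    show j - 1 - i = j - (i + 1) by omega, mul_assoc]

end

end Pool.Agent.MP196
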