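import Mathlib
import Pool.Agent.Lib.MP_196a10_nt.Base
import Pool.Agent.Lib.MP_196a10_nt.Newton

open Polynomial

namespace Pool.Agent.MP196

noncomputable section

theorem vM_total (j : ℕ) (hj : 1 ≤ j) : ∑ f ∈ MD j, vM f = 2 ^ j := by
  induction j using Nat.strong_induction_on with
  | _ j ih =>
    obtain ⟨k, rfl⟩ : ∃ k, j = k + 1 := ⟨j - 1, by omega⟩
    have h := newton (fun _ => 1) (fun f g _ _ => by norm_num) (k + 1)
    simp only [mul_one, Finset.sum_const, card_MD, nsmul_eq_mul] at h
    rw [Finset.sum_range_succ] at h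
    have h1 : ∑ i ∈ Finset.range k, (∑ d ∈ MD (i + 1), (vM d : ℂ)) *
        ((2 ^ (k + 1 - 1 - i) : ℕ) : ℂ) = k * 2 ^ (k + 1) := by
      rw [Finset.sum_congr rfl (g := fun _ => (2 : ℂ) ^ (k + 1))]
      · simp
      · intro i hi
        rw [Finset.mem_range] at hi
        have h2 := ih (i + 1) (by omega) (by omega)
        have h3 : (∑ d ∈ MD (i + 1), (vM d : ℂ)) = ((2 ^ (i + 1) : ℕ) : ℂ) := by
          rw [← h2]; push_cast; rfl
        rw [h3]
        push_cast
        rw [← pow_add]
        congr 1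
        omega
    rw [h1] at h
    have h4 : k + 1 - 1 - k = 0 := by omega
    rw [h4] at h
    push_cast at h
    have h5 : ((∑ f ∈ MD (k + 1), vM f : ℕ) : ℂ) = ((2 ^ (k + 1) : ℕ) : ℂ) := by
      push_cast
      linear_combination -h
    exact_mod_cast h5

end

end Pool.Agent.MP196
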