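import Mathlib
import Pool.Agent.Lib.MP_196a10_nt.Base

open Polynomial

namespace Pool.Agent.MP196

noncomputable section

namespace FAbs

variable {A : Type} [CommRing A] [Fintype A]

theorem sum_char [Fintype (MulChar A ℂ)] (z : A) (hz : z ≠ 1) :
    ∑ ψ : MulChar A ℂ, ψ z = 0 := by
  obtain ⟨ψ0, h0⟩ := MulChar.exists_apply_ne_one_of_hasEnoughRootsOfUnity A ℂ hz
  have h1 : ∑ ψ : MulChar A ℂ, ψ z = ∑ ψ : MulChar A ℂ, (ψ0 * ψ) z :=
    (Equiv.sum_comp (Equiv.mulLeft ψ0) (fun ψ : MulChar A ℂ => ψ z)).symm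
  have h2 : ∑ ψ : MulChar A ℂ, (ψ0 * ψ) z = ψ0 z * ∑ ψ : MulChar A ℂ, ψ z := by
    rw [Finset.mul_sum]
    exact Finset.sum_congr rfl (fun ψ _ => MulChar.mul_apply ψ0 ψ z)
  have h3 : (1 - ψ0 z) * ∑ ψ : MulChar A ℂ, ψ z = 0 := by
    rw [sub_mul, one_mul, ← h2, ← h1, sub_self]
  rcases mul_eq_zero.mp h3 with h | h
  · exact absurd (sub_eq_zero.mp h).symm h0
  · exact h

theorem sum_char_one [Fintype (MulChar A ℂ)] :
    ∑ ψ : MulChar A ℂ, ψ (1 : A) = (Nat.card Aˣ : ℂ) := by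
  have h : Nat.card (MulChar A ℂ) = Nat.card Aˣ :=
    MulChar.card_eq_card_units_of_hasEnoughRootsOfUnity A ℂ
  rw [Finset.sum_congr rfl (fun ψ _ => map_one ψ), Finset.sum_const, nsmul_eq_mul, mul_one,
    Finset.card_univ, ← Nat.card_eq_fintype_card, h]

theorem orth [Fintype (MulChar A ℂ)] (x y : A) (hy : IsUnit y) (hxy : y ≠ x) :
    ∑ ψ : MulChar A ℂ, ψ⁻¹ y * ψ x = 0 := by
  obtain ⟨u, rfl⟩ := hy
  have h1 : ∀ ψ : MulChar A ℂ, ψ⁻¹ (u : A) * ψ x = ψ (((u⁻¹ : Aˣ) : A) * x) := by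
    intro ψ
    rw [MulChar.inv_apply, Ring.inverse_unit, map_mul]
  rw [Finset.sum_congr rfl (fun ψ _ => h1 ψ)]
  apply sum_char
  intro h
  apply hxy
  have h2 : (u : A) * (((u⁻¹ : Aˣ) : A) * x) = (u : A) * 1 := by rw [h]
  rw [Units.mul_inv_cancel_left, mul_one] at h2
  exact h2.symm

theorem orth_self [Fintype (MulChar A ℂ)] (y : A) (hy : IsUnit y) :
    ∑ ψ : MulChar A ℂ, ψ⁻¹ y * ψ y = (Nat.card Aˣ : ℂ) := by
  obtain ⟨u, rfl⟩ := hy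
  have h1 : ∀ ψ : MulChar A ℂ, ψ⁻¹ (u : A) * ψ (u : A) = ψ (1 : A) := by
    intro ψ
    rw [MulChar.inv_apply, Ring.inverse_unit, ← map_mul, Units.inv_mul]
  rw [Finset.sum_congr rfl (fun ψ _ => h1 ψ)]
  exact sum_char_one

/-- Fourier transform. -/
def ft (F : A → ℂ) (ψ : MulChar A ℂ) : ℂ := ∑ y, F y * ψ⁻¹ y

theorem inversion [Fintype (MulChar A ℂ)] (F : A → ℂ) (hF : ∀ x, ¬ IsUnit x → F x = 0) (x : A) :
    ∑ ψ : MulChar A ℂ, ft F ψ * ψ x = (Nat.card Aˣ : ℂ) * F x := by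
  have h1 : ∀ ψ : MulChar A ℂ, ft F ψ * ψ x = ∑ y, F y * (ψ⁻¹ y * ψ x) := by
    intro ψ
    rw [ft, Finset.sum_mul]
    exact Finset.sum_congr rfl (fun y _ => mul_assoc _ _ _)
  rw [Finset.sum_congr rfl (fun ψ _ => h1 ψ), Finset.sum_comm]
  rw [Finset.sum_eq_single x]
  · rw [← Finset.mul_sum]
    by_cases hx : IsUnit x
    · rw [orth_self x hx, mul_comm]
    · rw [hF x hx, zero_mul, mul_zero]
  · intro y _ hyx
    rw [← Finset.mul_sum]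
    by_cases hy : IsUnit y
    · rw [orth x y hy hyx, mul_zero]
    · rw [hF y hy, zero_mul]
  · intro h
    exact absurd (Finset.mem_univ x) h

theorem parseval [Fintype (MulChar A ℂ)] (F : A → ℂ) (hF : ∀ x, ¬ IsUnit x → F x = 0) :
    ∑ ψ : MulChar A ℂ, ‖ft F ψ‖ ^ 2 = (Nat.card Aˣ : ℝ) * ∑ x, ‖F x‖ ^ 2 := by
  have hc : ∀ z : ℂ, ((‖z‖ ^ 2 : ℝ) : ℂ) = z * star z := by
    intro z
    have := Complex.mul_conj z
    rw [Complex.star_def, this, Complex.normSq_eq_norm_sq]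
  have h1 : ∀ ψ : MulChar A ℂ, star (ft F ψ) = ∑ x, star (F x) * ψ x := by
    intro ψ
    rw [ft, star_sum]
    refine Finset.sum_congr rfl (fun x _ => ?_)
    rw [star_mul', MulChar.star_apply', inv_inv]
  have h2 : ((∑ ψ : MulChar A ℂ, ‖ft F ψ‖ ^ 2 : ℝ) : ℂ) =
      (((Nat.card Aˣ : ℝ) * ∑ x, ‖F x‖ ^ 2 : ℝ) : ℂ) := by
    push_cast
    have h3 : ∀ ψ : MulChar A ℂ, ((‖ft F ψ‖ : ℝ) : ℂ) ^ 2 =
        ∑ x, star (F x) * (ft F ψ * ψ x) := by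
      intro ψ
      have := hc (ft F ψ)
      push_cast at this
      rw [this, h1, Finset.mul_sum]
      exact Finset.sum_congr rfl (fun x _ => by ring)
    rw [Finset.sum_congr rfl (fun ψ _ => h3 ψ), Finset.sum_comm, Finset.mul_sum]
    refine Finset.sum_congr rfl (fun x _ => ?_)
    rw [← Finset.mul_sum, inversion F hF x]
    have := hc (F x)
    push_cast at this
    rw [this]
    ring
  exact_mod_cast h2

theorem ft_one (F : A → ℂ) (hF : ∀ x, ¬ IsUnit x → F x = 0) : ft F 1 = ∑ x, F x := by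
  rw [ft]
  refine Finset.sum_congr rfl (fun y _ => ?_)
  by_cases hy : IsUnit y
  · rw [inv_one, MulChar.one_apply hy, mul_one]
  · rw [hF y hy, zero_mul]

theorem sum_one (T : A → ℂ) (hT : ∀ x, ¬ IsUnit x → T x = 0) :
    ∑ x, T x * (1 : MulChar A ℂ) x = ∑ x, T x := by
  refine Finset.sum_congr rfl (fun y _ => ?_)
  by_cases hy : IsUnit y
  · rw [MulChar.one_apply hy, mul_one]
  · rw [hT y hy, zero_mul]

end FAbs

open FAbs in
theorem fourier_abstract (A : Type) [CommRing A] [Fintype A] (T F : A → ℂ)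
    (hT : ∀ x, ¬ IsUnit x → T x = 0) (hF : ∀ x, ¬ IsUnit x → F x = 0) (B : ℝ)
    (hB0 : 0 ≤ B) (hB : ∀ ψ : MulChar A ℂ, ψ ≠ 1 → ‖∑ x, T x * ψ x‖ ≤ B) :
    ‖∑ x, T x * F x - (∑ x, T x) * (∑ x, F x) / (Nat.card Aˣ : ℂ)‖ ≤
      B * Real.sqrt (∑ x, ‖F x‖ ^ 2) := by
  classical
  haveI : Fintype (MulChar A ℂ) := Fintype.ofFinite _
  have hn0 : 0 < Nat.card Aˣ := Nat.card_pos
  have hnC : (Nat.card Aˣ : ℂ) ≠ 0 := Nat.cast_ne_zero.mpr hn0.ne'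
  have hnR : (0 : ℝ) < (Nat.card Aˣ : ℝ) := Nat.cast_pos.mpr hn0
  have hcard : (Fintype.card (MulChar A ℂ) : ℝ) = (Nat.card Aˣ : ℝ) := by
    rw [← Nat.card_eq_fintype_card, MulChar.card_eq_card_units_of_hasEnoughRootsOfUnity A ℂ]
  have h1 : (Nat.card Aˣ : ℂ) * ∑ x, T x * F x =
      ∑ ψ : MulChar A ℂ, ft F ψ * ∑ x, T x * ψ x := by
    have h2 : ∀ ψ : MulChar A ℂ, ft F ψ * ∑ x, T x * ψ x = ∑ x, T x * (ft F ψ * ψ x) := by
      intro ψ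
      rw [Finset.mul_sum]
      exact Finset.sum_congr rfl (fun x _ => by ring)
    rw [Finset.sum_congr rfl (fun ψ _ => h2 ψ), Finset.sum_comm, Finset.mul_sum]
    refine Finset.sum_congr rfl (fun x _ => ?_)
    rw [← Finset.mul_sum, inversion F hF x]
    ring
  have h3 : ∑ x, T x * F x - (∑ x, T x) * (∑ x, F x) / (Nat.card Aˣ : ℂ) =
      (∑ ψ ∈ Finset.univ.erase (1 : MulChar A ℂ), ft F ψ * ∑ x, T x * ψ x) /
        (Nat.card Aˣ : ℂ) := by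
    rw [eq_div_iff hnC, sub_mul, div_mul_cancel₀ _ hnC, mul_comm (∑ x, T x * F x), h1,
      ← Finset.add_sum_erase Finset.univ _ (Finset.mem_univ (1 : MulChar A ℂ)), ft_one F hF,
      sum_one T hT]
    ring
  rw [h3, norm_div, Complex.norm_natCast, div_le_iff₀ hnR]
  calc ‖∑ ψ ∈ Finset.univ.erase (1 : MulChar A ℂ), ft F ψ * ∑ x, T x * ψ x‖
      ≤ ∑ ψ ∈ Finset.univ.erase (1 : MulChar A ℂ), ‖ft F ψ * ∑ x, T x * ψ x‖ := norm_sum_le _ _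
    _ ≤ ∑ ψ ∈ Finset.univ.erase (1 : MulChar A ℂ), ‖ft F ψ‖ * B := by
        refine Finset.sum_le_sum (fun ψ hψ => ?_)
        rw [norm_mul]
        exact mul_le_mul_of_nonneg_left (hB ψ (Finset.ne_of_mem_erase hψ)) (norm_nonneg _)
    _ ≤ ∑ ψ : MulChar A ℂ, ‖ft F ψ‖ * B :=
        Finset.sum_le_sum_of_subset_of_nonneg (Finset.erase_subset _ _)
          (fun ψ _ _ => mul_nonneg (norm_nonneg _) hB0)
    _ = B * ∑ ψ : MulChar A ℂ, ‖ft F ψ‖ := by rw [← Finset.sum_mul, mul_comm]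
    _ ≤ B * ((Nat.card Aˣ : ℝ) * Real.sqrt (∑ x, ‖F x‖ ^ 2)) := by
        refine mul_le_mul_of_nonneg_left ?_ hB0
        have hcs : (∑ ψ : MulChar A ℂ, ‖ft F ψ‖) ^ 2 ≤
            (Fintype.card (MulChar A ℂ) : ℝ) * ∑ ψ : MulChar A ℂ, ‖ft F ψ‖ ^ 2 := by
          have := sq_sum_le_card_mul_sum_sq (s := (Finset.univ : Finset (MulChar A ℂ)))
            (f := fun ψ => ‖ft F ψ‖)
          simpa using this
        rw [parseval F hF, hcard] at hcs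
        have hS : 0 ≤ ∑ x, ‖F x‖ ^ 2 := Finset.sum_nonneg (fun x _ => sq_nonneg _)
        have h5 : (∑ ψ : MulChar A ℂ, ‖ft F ψ‖) ^ 2 ≤
            ((Nat.card Aˣ : ℝ) * Real.sqrt (∑ x, ‖F x‖ ^ 2)) ^ 2 := by
          rw [mul_pow, Real.sq_sqrt hS]
          calc _ ≤ _ := hcs
            _ = _ := by ring
        exact le_of_sq_le_sq h5 (mul_nonneg hnR.le (Real.sqrt_nonneg _))
    _ = B * Real.sqrt (∑ x, ‖F x‖ ^ 2) * (Nat.card Aˣ : ℝ) := by ring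

end

end Pool.Agent.MP196
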