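import Mathlib
import Pool.Agent.Lib.MP_196a10_nt.Base

open Polynomial

namespace Pool.Agent.MP196

noncomputable section

namespace Pars

/-- The linear functional with coefficients `θ`. -/
def lt (n : ℕ) (θ : Fin (n + 1) → ZMod 2) : P2 →ₗ[ZMod 2] ZMod 2 :=
  ∑ i : Fin (n + 1), θ i • lcoeff (ZMod 2) (i : ℕ)

theorem lt_apply (n : ℕ) (θ : Fin (n + 1) → ZMod 2) (f : P2) :
    lt n θ f = ∑ i : Fin (n + 1), θ i * f.coeff i := by
  unfold lt
  rw [LinearMap.sum_apply]
  apply Finset.sum_congr rfl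
  intro i _
  rw [LinearMap.smul_apply, lcoeff_apply, smul_eq_mul]

theorem lt_add (n : ℕ) (θ θ' : Fin (n + 1) → ZMod 2) (f : P2) :
    lt n (θ + θ') f = lt n θ f + lt n θ' f := by
  rw [lt_apply, lt_apply, lt_apply, ← Finset.sum_add_distrib]
  apply Finset.sum_congr rfl
  intro i _
  rw [Pi.add_apply, add_mul]

theorem orth (n : ℕ) (f : P2) (hf : f ∈ Plt (n + 1)) (h0 : f ≠ 0) :
    ∑ θ : Fin (n + 1) → ZMod 2, sg (lt n θ f) = 0 := by
  classical
  have hd : f.natDegree < n + 1 := by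
    rw [mem_Plt, degree_eq_natDegree h0] at hf
    exact_mod_cast hf
  set i : Fin (n + 1) := ⟨f.natDegree, hd⟩ with hi
  have h1 : lt n (Pi.single i 1) f = 1 := by
    rw [lt_apply, Finset.sum_eq_single i]
    · rw [Pi.single_eq_same, one_mul]
      exact monic_of_ne h0
    · intro b _ hb
      rw [Pi.single_eq_of_ne hb, zero_mul]
    · intro h
      exact absurd (Finset.mem_univ _) h
  have h2 : ∑ θ : Fin (n + 1) → ZMod 2, sg (lt n θ f) =
      ∑ θ : Fin (n + 1) → ZMod 2, sg (lt n (θ + Pi.single i 1) f) :=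
    (Equiv.sum_comp (Equiv.addRight (Pi.single i (1 : ZMod 2)))
      (fun θ => sg (lt n θ f))).symm
  have h3 : ∀ θ : Fin (n + 1) → ZMod 2, sg (lt n (θ + Pi.single i 1) f) = - sg (lt n θ f) := by
    intro θ
    rw [lt_add, sg_add, h1, sg_one, mul_neg, mul_one]
  rw [Finset.sum_congr rfl (fun θ _ => h3 θ), Finset.sum_neg_distrib] at h2
  linarith

theorem orth_zero (n : ℕ) :
    ∑ θ : Fin (n + 1) → ZMod 2, sg (lt n θ 0) = 2 ^ (n + 1) := by
  have h : ∀ θ : Fin (n + 1) → ZMod 2, sg (lt n θ 0) = 1 := by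
    intro θ
    rw [map_zero, sg_zero]
  rw [Finset.sum_congr rfl (fun θ _ => h θ), Finset.sum_const, nsmul_eq_mul, mul_one,
    Finset.card_univ]
  simp [ZMod.card]

end Pars

open Pars in
theorem ratio_bound (n : ℕ) (w : P2 → ℝ) (κ : ℝ) (hκ : 0 ≤ κ)
    (hw : ∀ l : P2 →ₗ[ZMod 2] ZMod 2, -κ ≤ ∑ s ∈ Plt (n + 1), w s * sg (l s))
    (A : Finset P2) (hA : A ⊆ Plt (n + 1)) (hgood : ∀ a ∈ A, ∀ b ∈ A, w (a - b) = 0) :
    (A.card : ℝ) * ∑ s ∈ Plt (n + 1), w s ≤ 2 ^ (n + 1) * κ := by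
  classical
  rcases A.eq_empty_or_nonempty with rfl | hne
  · simp only [Finset.card_empty, Nat.cast_zero, zero_mul]
    positivity
  set W : (Fin (n + 1) → ZMod 2) → ℝ := fun θ => ∑ s ∈ Plt (n + 1), w s * sg (lt n θ s) with hW
  set H : (Fin (n + 1) → ZMod 2) → ℝ := fun θ => ∑ a ∈ A, sg (lt n θ a) with hH
  have h1 : ∑ θ, W θ * (H θ) ^ 2 = 0 := by
    have e1 : ∀ θ, W θ * (H θ) ^ 2 = ∑ s ∈ Plt (n + 1), ∑ a ∈ A, ∑ b ∈ A,
        w s * sg (lt n θ (s + a + b)) := by
      intro θ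
      rw [hW, hH, sq]
      simp only
      rw [Finset.sum_mul_sum, Finset.sum_mul]
      apply Finset.sum_congr rfl
      intro s _
      rw [Finset.mul_sum]
      apply Finset.sum_congr rfl
      intro a _
      rw [Finset.mul_sum]
      apply Finset.sum_congr rfl
      intro b _
      rw [map_add, map_add, sg_add, sg_add]
      ring
    rw [Finset.sum_congr rfl (fun θ _ => e1 θ), Finset.sum_comm]
    apply Finset.sum_eq_zero
    intro s hs
    rw [Finset.sum_comm]
    apply Finset.sum_eq_zero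
    intro a ha
    rw [Finset.sum_comm]
    apply Finset.sum_eq_zero
    intro b hb
    rw [← Finset.mul_sum]
    by_cases h0 : s + a + b = 0
    · have h2 : s = a - b := by
        have h3 : s = - (a + b) := by
          rw [add_assoc] at h0
          exact eq_neg_of_add_eq_zero_left h0
        rw [h3, neg_eq_P2, sub_eq_add_P2]
      rw [h2, hgood a ha b hb, zero_mul]
    · rw [orth n _ (add_mem_Plt (add_mem_Plt hs (hA ha)) (hA hb)) h0, mul_zero]
  have h2 : ∑ θ, (H θ) ^ 2 = 2 ^ (n + 1) * (A.card : ℝ) := by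
    have e1 : ∀ θ, (H θ) ^ 2 = ∑ a ∈ A, ∑ b ∈ A, sg (lt n θ (a + b)) := by
      intro θ
      rw [hH, sq]
      simp only
      rw [Finset.sum_mul_sum]
      apply Finset.sum_congr rfl
      intro a _
      apply Finset.sum_congr rfl
      intro b _
      rw [map_add, sg_add]
    rw [Finset.sum_congr rfl (fun θ _ => e1 θ), Finset.sum_comm]
    have e2 : ∀ a ∈ A, ∑ θ, ∑ b ∈ A, sg (lt n θ (a + b)) = 2 ^ (n + 1) := by
      intro a ha
      rw [Finset.sum_comm, Finset.sum_eq_single a]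
      · rw [add_self_P2, orth_zero]
      · intro b hb hba
        apply orth n _ (add_mem_Plt (hA ha) (hA hb))
        intro h0
        apply hba
        have := eq_neg_of_add_eq_zero_right h0
        rw [this, neg_eq_P2]
      · intro h
        exact absurd ha h
    rw [Finset.sum_congr rfl e2, Finset.sum_const, nsmul_eq_mul]
    ring
  have h3 : (W 0 + κ) * (H 0) ^ 2 ≤ ∑ θ, (W θ + κ) * (H θ) ^ 2 := by
    apply Finset.single_le_sum (f := fun θ => (W θ + κ) * (H θ) ^ 2) _ (Finset.mem_univ 0)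
    intro θ _
    apply mul_nonneg _ (sq_nonneg _)
    have := hw (lt n θ)
    simp only [hW]
    linarith
  have h4 : ∑ θ, (W θ + κ) * (H θ) ^ 2 = κ * (2 ^ (n + 1) * (A.card : ℝ)) := by
    simp_rw [add_mul]
    rw [Finset.sum_add_distrib, h1, zero_add, ← Finset.mul_sum, h2]
  have h5 : W 0 = ∑ s ∈ Plt (n + 1), w s := by
    simp only [hW]
    apply Finset.sum_congr rfl
    intro s _
    have : lt n 0 s = 0 := by
      rw [lt_apply]
      simp
    rw [this, sg_zero, mul_one]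
  have h6 : H 0 = A.card := by
    simp only [hH]
    have : ∀ a ∈ A, sg (lt n 0 a) = 1 := by
      intro a _
      have : lt n 0 a = 0 := by
        rw [lt_apply]
        simp
      rw [this, sg_zero]
    rw [Finset.sum_congr rfl this, Finset.sum_const, nsmul_eq_mul, mul_one]
  rw [h4, h5, h6] at h3
  have hpos : (0 : ℝ) < A.card := by exact_mod_cast hne.card_pos
  have h7 : (A.card : ℝ) * ((A.card : ℝ) * ∑ s ∈ Plt (n + 1), w s) ≤
      (A.card : ℝ) * (2 ^ (n + 1) * κ) := by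
    nlinarith [mul_nonneg hκ (sq_nonneg (A.card : ℝ))]
  exact le_of_mul_le_mul_left h7 hpos

end

end Pool.Agent.MP196
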