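import Mathlib
import Pool.Agent.Lib.MP_196a10_nt.Base

open Polynomial

namespace Pool.Agent.MP196

noncomputable section

namespace Mqf

/-- The additive character `z ↦ (-1)^(res g (a z))`. -/
def E (g a z : P2) : ℝ := sg (res g (a * z))

theorem E_add (g a z w : P2) : E g a (z + w) = E g a z * E g a w := by
  unfold E
  rw [mul_add, res_add, sg_add]

theorem E_congr {g : P2} (hg : g ≠ 0) (a : P2) {z w : P2} (h : g ∣ z - w) :
    E g a z = E g a w := by
  unfold E
  rw [res_congr hg]
  rw [← mul_sub]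
  exact dvd_mul_of_dvd_right h a

theorem E_zero (g a : P2) : E g a 0 = 1 := by
  unfold E
  rw [mul_zero, res_zero, sg_zero]

theorem E_cases (g a z : P2) : E g a z = 1 ∨ E g a z = -1 := by
  unfold E
  rcases zmod2_cases (res g (a * z)) with h | h
  · left; rw [h, sg_zero]
  · right; rw [h, sg_one]

theorem E_sum (g a : P2) (s : Finset P2) (x : P2 → P2) :
    E g a (∑ P ∈ s, x P) = ∏ P ∈ s, E g a (x P) := by
  classical
  induction s using Finset.induction_on with
  | empty => simp [E_zero]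
  | insert b s hb ih => rw [Finset.sum_insert hb, Finset.prod_insert hb, E_add, ih]

theorem nondeg {g a : P2} (hg : g ≠ 0) (hco : IsCoprime a g) (w : P2)
    (h : ∀ z, E g a (w * z) = 1) : g ∣ w := by
  by_contra hw
  have h1 : ¬ g ∣ a * w := fun hc => hw (hco.symm.dvd_of_dvd_mul_left hc)
  have hm := monic_of_ne hg
  set r := (a * w) %ₘ g with hr
  have hr0 : r ≠ 0 := fun hc => h1 ((modByMonic_eq_zero_iff_dvd hm).mp hc)
  have hdr : r.degree < g.degree := degree_modByMonic_lt _ hm
  have hnr : r.natDegree < g.natDegree := natDegree_lt_natDegree hr0 hdr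
  have h2 := h (X ^ (g.natDegree - 1 - r.natDegree))
  have h3 : E g a (w * X ^ (g.natDegree - 1 - r.natDegree)) = -1 := by
    unfold E
    have h4 : res g (a * (w * X ^ (g.natDegree - 1 - r.natDegree))) =
        res g (r * X ^ (g.natDegree - 1 - r.natDegree)) := by
      apply res_congr hg
      rw [← mul_assoc, ← sub_mul]
      apply dvd_mul_of_dvd_left
      rw [← modByMonic_eq_zero_iff_dvd hm, sub_modByMonic, sub_eq_zero, hr]
      rw [(modByMonic_eq_self_iff hm).mpr (degree_modByMonic_lt _ hm)]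
    have h5 : (r * X ^ (g.natDegree - 1 - r.natDegree) : P2).natDegree = g.natDegree - 1 := by
      rw [natDegree_mul hr0 (pow_ne_zero _ X_ne_zero), natDegree_X_pow]
      omega
    have h6 : (r * X ^ (g.natDegree - 1 - r.natDegree) : P2) %ₘ g =
        r * X ^ (g.natDegree - 1 - r.natDegree) := by
      rw [modByMonic_eq_self_iff hm]
      apply degree_lt_degree
      rw [h5]; omega
    have h7 : res g (r * X ^ (g.natDegree - 1 - r.natDegree)) = 1 := by
      unfold res
      rw [h6]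
      have h8 : (r * X ^ (g.natDegree - 1 - r.natDegree) : P2).leadingCoeff = 1 :=
        monic_of_ne (mul_ne_zero hr0 (pow_ne_zero _ X_ne_zero))
      rw [leadingCoeff, h5] at h8
      exact h8
    rw [h4, h7, sg_one]
  rw [h3] at h2
  norm_num at h2

open Classical in
/-- the elements of `Plt (deg g)` congruent to `y0` modulo `d` -/
def Yd (g d y0 : P2) : Finset P2 := (Plt g.natDegree).filter (fun y => d ∣ y - y0)

theorem mem_Yd {g d y0 y : P2} : y ∈ Yd g d y0 ↔ y ∈ Plt g.natDegree ∧ d ∣ y - y0 := by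
  classical
  unfold Yd
  rw [Finset.mem_filter]

theorem mem_Plt_g {g : P2} (hg : g ≠ 0) (y : P2) : y %ₘ g ∈ Plt g.natDegree := by
  rw [mem_Plt, ← degree_eq_natDegree hg]
  exact degree_modByMonic_lt _ (monic_of_ne hg)

theorem dvd_mod_sub {g : P2} (hg : g ≠ 0) (y : P2) : g ∣ y %ₘ g - y := by
  have hm := monic_of_ne hg
  rw [← modByMonic_eq_zero_iff_dvd hm, sub_modByMonic, sub_eq_zero]
  exact (modByMonic_eq_self_iff hm).mpr (degree_modByMonic_lt _ hm)

theorem mod_eq_of_mem {g y : P2} (hg : g ≠ 0) (hy : y ∈ Plt g.natDegree) : y %ₘ g = y := by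
  rw [modByMonic_eq_self_iff (monic_of_ne hg), degree_eq_natDegree hg]
  exact mem_Plt.mp hy

open Classical in
theorem char_sum {g a : P2} (hg : g ≠ 0) (hco : IsCoprime a g) (q d y0 : P2) (hd : d ∣ g) :
    ∑ y ∈ Yd g d y0, E g a (q * y) =
      if g ∣ q * d then ((Yd g d y0).card : ℝ) * E g a (q * y0) else 0 := by
  split_ifs with h
  · have : ∀ y ∈ Yd g d y0, E g a (q * y) = E g a (q * y0) := by
      intro y hy
      apply E_congr hg
      rw [← mul_sub]
      obtain ⟨c, hc⟩ := (mem_Yd.mp hy).2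
      rw [hc, ← mul_assoc]
      exact dvd_mul_of_dvd_left h c
    rw [Finset.sum_congr rfl this, Finset.sum_const, nsmul_eq_mul]
  · have h1 : ¬ ∀ z, E g a (q * d * z) = 1 := fun hc => h (nondeg hg hco _ hc)
    push Not at h1
    obtain ⟨w, hw⟩ := h1
    have key : ∑ y ∈ Yd g d y0, E g a (q * y) =
        ∑ y ∈ Yd g d y0, E g a (q * d * w) * E g a (q * y) := by
      have hmaps : ∀ y ∈ Yd g d y0, (y + d * w) %ₘ g ∈ Yd g d y0 := by
        intro y hy
        rw [mem_Yd] at hy ⊢
        refine ⟨mem_Plt_g hg _, ?_⟩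
        have h2 := dvd_mod_sub hg (y + d * w)
        have h3 : (y + d * w) %ₘ g - y0 = ((y + d * w) %ₘ g - (y + d * w)) + (y - y0) + d * w := by
          ring
        rw [h3]
        exact dvd_add (dvd_add (hd.trans h2) hy.2) (dvd_mul_right d w)
      have hinv : ∀ y ∈ Yd g d y0, ((y + d * w) %ₘ g + d * w) %ₘ g = y := by
        intro y hy
        rw [mem_Yd] at hy
        rw [add_modByMonic, mod_eq_of_mem hg (mem_Plt_g hg _), ← add_modByMonic]
        have : y + d * w + d * w = y := by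
          rw [add_assoc, add_self_P2, add_zero]
        rw [this, mod_eq_of_mem hg hy.1]
      refine Finset.sum_nbij' (fun y => (y + d * w) %ₘ g) (fun y => (y + d * w) %ₘ g)
        hmaps hmaps hinv hinv ?_
      intro y _
      have h4 : E g a (q * ((y + d * w) %ₘ g)) = E g a (q * (y + d * w)) := by
        apply E_congr hg
        rw [← mul_sub]
        exact dvd_mul_of_dvd_right (dvd_mod_sub hg _) q
      rw [h4, mul_add, E_add, ← mul_assoc q d w]
      have h5 : E g a (q * d * w) * E g a (q * d * w) = 1 := by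
        rcases E_cases g a (q * d * w) with h | h <;> rw [h] <;> norm_num
      calc E g a (q * y) = (E g a (q * d * w) * E g a (q * d * w)) * E g a (q * y) := by
            rw [h5, one_mul]
        _ = _ := by ring
    rw [← Finset.mul_sum] at key
    have h6 : (1 - E g a (q * d * w)) * ∑ y ∈ Yd g d y0, E g a (q * y) = 0 := by
      linarith
    rcases mul_eq_zero.mp h6 with h7 | h7
    · exact absurd (by linarith) hw
    · exact h7

theorem card_Yd {g d : P2} (hg : g ≠ 0) (hd : d ∣ g) (y0 : P2) :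
    (Yd g d y0).card = 2 ^ (g.natDegree - d.natDegree) := by
  have hd0 : d ≠ 0 := ne_zero_of_dvd_ne_zero hg hd
  have hm := monic_of_ne hd0
  have hle : d.natDegree ≤ g.natDegree := natDegree_le_of_dvd hd hg
  rw [← card_Plt]
  symm
  refine Finset.card_nbij' (fun z => y0 %ₘ d + d * z) (fun y => y /ₘ d) ?_ ?_ ?_ ?_
  · intro z hz
    simp only [Finset.mem_coe] at hz ⊢
    rw [mem_Yd]
    constructor
    · rw [mem_Plt] at hz ⊢
      apply (degree_add_le _ _).trans_lt
      apply max_lt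
      · apply (degree_modByMonic_lt y0 hm).trans_le
        rw [degree_eq_natDegree hd0]
        exact_mod_cast hle
      · by_cases hz0 : z = 0
        · rw [hz0, mul_zero, degree_zero]
          exact WithBot.bot_lt_coe _
        · rw [degree_mul, degree_eq_natDegree hd0]
          rw [degree_eq_natDegree hz0] at hz ⊢
          have : z.natDegree < g.natDegree - d.natDegree := by exact_mod_cast hz
          have h2 : d.natDegree + z.natDegree < g.natDegree := by omega
          exact_mod_cast h2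
    · have h3 : y0 %ₘ d + d * z - y0 = (y0 %ₘ d - y0) + d * z := by ring
      rw [h3]
      exact dvd_add (dvd_mod_sub hd0 y0) (dvd_mul_right d z)
  · intro y hy
    simp only [Finset.mem_coe] at hy ⊢
    rw [mem_Yd, mem_Plt] at hy
    rw [mem_Plt]
    by_cases hz0 : y /ₘ d = 0
    · rw [hz0, degree_zero]
      exact WithBot.bot_lt_coe _
    · have hy0 : y ≠ 0 := by
        rintro rfl
        simp at hz0
      rw [degree_eq_natDegree hz0, natDegree_divByMonic _ hm]
      have h1 := hy.1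
      rw [degree_eq_natDegree hy0] at h1
      have h1' : y.natDegree < g.natDegree := by exact_mod_cast h1
      have h4 : d.natDegree ≤ y.natDegree := by
        by_contra hc
        push Not at hc
        apply hz0
        rw [divByMonic_eq_zero_iff hm]
        exact degree_lt_degree hc
      have h5 : y.natDegree - d.natDegree < g.natDegree - d.natDegree := by omega
      exact_mod_cast h5
  · intro z hz
    simp only
    have h1 := degree_modByMonic_lt y0 hm
    exact (div_modByMonic_unique (f := y0 %ₘ d + d * z) z (y0 %ₘ d) hm ⟨rfl, h1⟩).1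
  · intro y hy
    simp only [Finset.mem_coe] at hy
    rw [mem_Yd] at hy
    simp only
    have h1 : y0 %ₘ d = y %ₘ d := by
      rw [← sub_eq_zero, ← sub_modByMonic, modByMonic_eq_zero_iff_dvd hm]
      rw [← neg_sub, dvd_neg]
      exact hy.2
    rw [h1]
    exact modByMonic_add_div y d

/-! ### prime divisors -/

theorem mem_pf {g P : P2} (hg : g ≠ 0) : P ∈ pf g ↔ Irreducible P ∧ P ∣ g := by
  classical
  unfold pf
  rw [Multiset.mem_toFinset]
  constructor
  · intro h
    exact ⟨UniqueFactorizationMonoid.irreducible_of_normalized_factor _ h,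
      UniqueFactorizationMonoid.dvd_of_mem_normalizedFactors h⟩
  · rintro ⟨h1, h2⟩
    obtain ⟨Q, hQ, hPQ⟩ := UniqueFactorizationMonoid.exists_mem_normalizedFactors_of_dvd hg h1 h2
    rwa [eq_of_associated hPQ]

theorem mem_Tq {g q P : P2} (hg : g ≠ 0) : P ∈ Tq g q ↔ (Irreducible P ∧ P ∣ g) ∧ ¬ P ∣ q := by
  classical
  unfold Tq
  rw [Finset.mem_filter, mem_pf hg]

theorem pairwise_coprime {s : Finset P2} (hs : ∀ P ∈ s, Irreducible P) :
    (s : Set P2).Pairwise (Function.onFun IsCoprime id) := by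
  intro P hP Q hQ hne
  simp only [Function.onFun, id]
  rw [(hs P hP).coprime_iff_not_dvd]
  intro h
  exact hne (eq_of_associated ((hs P hP).associated_of_dvd (hs Q hQ) h))

theorem prod_dvd_iff {s : Finset P2} (hs : ∀ P ∈ s, Irreducible P) (x : P2) :
    ∏ P ∈ s, P ∣ x ↔ ∀ P ∈ s, P ∣ x := by
  constructor
  · intro h P hP
    exact (Finset.dvd_prod_of_mem (fun P => P) hP).trans h
  · intro h
    exact Finset.prod_dvd_of_coprime (pairwise_coprime hs) h

theorem dvd_prod_iff {s : Finset P2} (hs : ∀ P ∈ s, Irreducible P) {P : P2}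
    (hP : Irreducible P) : P ∣ ∏ Q ∈ s, Q ↔ P ∈ s := by
  constructor
  · intro h
    obtain ⟨Q, hQ, hd⟩ := (hP.prime.dvd_finsetProd_iff _).mp h
    rwa [eq_of_associated (hP.associated_of_dvd (hs Q hQ) hd)]
  · intro h
    exact Finset.dvd_prod_of_mem (fun P => P) h

theorem coprime_iff {g : P2} (hg : g ≠ 0) (x : P2) :
    IsCoprime x g ↔ ∀ P ∈ pf g, ¬ P ∣ x := by
  constructor
  · intro h P hP hx
    rw [mem_pf hg] at hP
    exact hP.1.not_isUnit (h.isUnit_of_dvd' hx hP.2)
  · intro h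
    by_contra hc
    have hnz : ¬ (x = 0 ∧ g = 0) := fun h0 => hg h0.2
    obtain ⟨P, hP, h1, h2⟩ : ∃ P, Irreducible P ∧ P ∣ x ∧ P ∣ g := by
      by_contra hcon
      push Not at hcon
      apply hc
      apply isCoprime_of_prime_dvd hnz
      intro z hz h1 h2
      exact hcon z hz.irreducible h1 h2
    exact h P ((mem_pf hg).mpr ⟨hP, h2⟩) h1

open Classical in
theorem indicator {g : P2} (hg : g ≠ 0) (x : P2) :
    (if IsCoprime x g then (1 : ℝ) else 0) =
      ∑ S ∈ (pf g).powerset, (-1) ^ S.card * (if ∏ P ∈ S, P ∣ x then (1 : ℝ) else 0) := by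
  have h1 : (if IsCoprime x g then (1 : ℝ) else 0) =
      ∏ P ∈ pf g, (1 + (if P ∣ x then (-1 : ℝ) else 0)) := by
    split_ifs with h
    · rw [coprime_iff hg] at h
      symm
      apply Finset.prod_eq_one
      intro P hP
      rw [if_neg (h P hP), add_zero]
    · rw [coprime_iff hg] at h
      push Not at h
      obtain ⟨P, hP, hx⟩ := h
      symm
      apply Finset.prod_eq_zero hP
      rw [if_pos hx]
      norm_num
  rw [h1, Finset.prod_one_add]
  apply Finset.sum_congr rfl
  intro S hS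
  have hS' : ∀ P ∈ S, Irreducible P := fun P hP =>
    ((mem_pf hg).mp (Finset.mem_powerset.mp hS hP)).1
  by_cases h : ∏ P ∈ S, P ∣ x
  · rw [if_pos h, mul_one]
    rw [prod_dvd_iff hS'] at h
    rw [Finset.prod_congr rfl (fun P hP => if_pos (h P hP)), Finset.prod_const]
  · rw [if_neg h, mul_zero]
    rw [prod_dvd_iff hS'] at h
    push Not at h
    obtain ⟨P, hP, hx⟩ := h
    exact Finset.prod_eq_zero hP (if_neg hx)

open Classical in
theorem mobius_sum {g : P2} (hg : g ≠ 0) (q : P2) (F : P2 → ℝ) :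
    ∑ y ∈ YY g q, F y = ∑ S ∈ (pf g).powerset, (-1) ^ S.card *
      ∑ y ∈ (Plt g.natDegree).filter (fun y => ∏ P ∈ S, P ∣ 1 + q * y), F y := by
  have h1 : ∑ y ∈ YY g q, F y = ∑ y ∈ Plt g.natDegree,
      (if IsCoprime (1 + q * y) g then (1 : ℝ) else 0) * F y := by
    unfold YY
    rw [Finset.sum_filter]
    apply Finset.sum_congr rfl
    intro y _
    split_ifs <;> simp
  rw [h1]
  simp_rw [indicator hg, Finset.sum_mul]
  rw [Finset.sum_comm]
  apply Finset.sum_congr rfl
  intro S _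
  rw [Finset.sum_filter, Finset.mul_sum]
  apply Finset.sum_congr rfl
  intro y _
  split_ifs <;> simp

open Classical in
theorem filter_empty {g q : P2} (hg : g ≠ 0) {S : Finset P2} (hS : S ⊆ pf g)
    (hT : ¬ S ⊆ Tq g q) :
    (Plt g.natDegree).filter (fun y => ∏ P ∈ S, P ∣ 1 + q * y) = ∅ := by
  rw [Finset.filter_eq_empty_iff]
  intro y _ h
  apply hT
  intro P hP
  have h1 := (mem_pf hg).mp (hS hP)
  rw [mem_Tq hg]
  refine ⟨h1, fun hq => ?_⟩
  have h2 : P ∣ 1 + q * y := (Finset.dvd_prod_of_mem (fun P => P) hP).trans h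
  have h3 : P ∣ 1 := (dvd_add_left (dvd_mul_of_dvd_left hq y)).mp h2
  exact h1.1.not_isUnit (isUnit_of_dvd_one h3)

theorem coprime_prod {g q : P2} (hg : g ≠ 0) {S : Finset P2} (hS : S ⊆ Tq g q) :
    IsCoprime (∏ P ∈ S, P) q := by
  apply IsCoprime.prod_left
  intro P hP
  have h1 := (mem_Tq hg).mp (hS hP)
  rw [h1.1.1.coprime_iff_not_dvd]
  exact h1.2

/-- a solution of `1 + q y ≡ 0` modulo the product of the primes in `S` -/
theorem exists_sol {g q : P2} (hg : g ≠ 0) {S : Finset P2} (hS : S ⊆ Tq g q) :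
    ∃ y : P2, ∏ P ∈ S, P ∣ 1 + q * y := by
  obtain ⟨u, v, h⟩ := coprime_prod hg hS
  refine ⟨v, ⟨u, ?_⟩⟩
  rw [← h]
  have : v * q + q * v = 0 := by rw [mul_comm q v, add_self_P2]
  calc u * ∏ P ∈ S, P + v * q + q * v = u * ∏ P ∈ S, P + (v * q + q * v) := by ring
    _ = _ := by rw [this, add_zero, mul_comm]

open Classical in
theorem filter_eq {g q : P2} (hg : g ≠ 0) {S : Finset P2} (hS : S ⊆ Tq g q) {y0 : P2}
    (hy0 : ∏ P ∈ S, P ∣ 1 + q * y0) :
    (Plt g.natDegree).filter (fun y => ∏ P ∈ S, P ∣ 1 + q * y) = Yd g (∏ P ∈ S, P) y0 := by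
  unfold Yd
  apply Finset.filter_congr
  intro y _
  have h1 : 1 + q * y = (1 + q * y0) + q * (y - y0) := by ring
  rw [h1, dvd_add_right hy0]
  exact ⟨fun h => (coprime_prod hg hS).dvd_of_dvd_mul_left h, fun h => dvd_mul_of_dvd_right h q⟩

theorem prod_dvd_g {g q : P2} (hg : g ≠ 0) {S : Finset P2} (hS : S ⊆ Tq g q) :
    ∏ P ∈ S, P ∣ g := by
  rw [prod_dvd_iff]
  · intro P hP
    exact ((mem_Tq hg).mp (hS hP)).1.2
  · intro P hP
    exact ((mem_Tq hg).mp (hS hP)).1.1

theorem natDegree_prod' {S : Finset P2} (hS : ∀ P ∈ S, Irreducible P) :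
    (∏ P ∈ S, P).natDegree = ∑ P ∈ S, P.natDegree :=
  natDegree_prod _ _ (fun P hP => (hS P hP).ne_zero)

theorem sub_pf (g q : P2) : Tq g q ⊆ pf g := by
  classical
  unfold Tq
  exact Finset.filter_subset _ _

open Classical in
theorem card_YY {g : P2} (hg : g ≠ 0) (q : P2) :
    ((YY g q).card : ℝ) = 2 ^ g.natDegree * ∏ P ∈ Tq g q, (1 - 1 / (2 : ℝ) ^ P.natDegree) := by
  have h1 : ((YY g q).card : ℝ) = ∑ y ∈ YY g q, (1 : ℝ) := by
    rw [Finset.sum_const, nsmul_eq_mul, mul_one]
  rw [h1, mobius_sum hg]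
  have h2 : ∏ P ∈ Tq g q, (1 - 1 / (2 : ℝ) ^ P.natDegree) =
      ∏ P ∈ Tq g q, (1 + (-(1 / (2 : ℝ) ^ P.natDegree))) := by
    apply Finset.prod_congr rfl
    intro P _
    ring
  rw [h2, Finset.prod_one_add, Finset.mul_sum]
  symm
  have hsub : (Tq g q).powerset ⊆ (pf g).powerset := Finset.powerset_mono.mpr (sub_pf g q)
  rw [← Finset.sum_subset hsub]
  · apply Finset.sum_congr rfl
    intro S hS
    rw [Finset.mem_powerset] at hS
    obtain ⟨y0, hy0⟩ := exists_sol hg hS
    rw [filter_eq hg hS hy0, Finset.sum_const, nsmul_eq_mul, mul_one,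
      card_Yd hg (prod_dvd_g hg hS)]
    have hirr : ∀ P ∈ S, Irreducible P := fun P hP => ((mem_Tq hg).mp (hS hP)).1.1
    have hle : (∏ P ∈ S, P).natDegree ≤ g.natDegree :=
      natDegree_le_of_dvd (prod_dvd_g hg hS) hg
    have h3 : ∏ P ∈ S, (-(1 / (2 : ℝ) ^ P.natDegree)) =
        (-1) ^ S.card * (1 / 2 ^ (∏ P ∈ S, P).natDegree) := by
      rw [natDegree_prod' hirr, Finset.prod_neg, ← Finset.prod_pow_eq_pow_sum]
      congr 1
      rw [Finset.prod_div_distrib, Finset.prod_const_one]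
    rw [h3]
    have h4 : (2 : ℝ) ^ g.natDegree = 2 ^ (g.natDegree - (∏ P ∈ S, P).natDegree) *
        2 ^ (∏ P ∈ S, P).natDegree := by
      rw [← pow_add]
      congr 1
      omega
    rw [h4]
    have h5 : (2 : ℝ) ^ (∏ P ∈ S, P).natDegree ≠ 0 := pow_ne_zero _ two_ne_zero
    push_cast
    field_simp
  · intro S hS hS'
    rw [Finset.mem_powerset] at hS hS'
    rw [filter_empty hg hS hS', Finset.sum_empty, mul_zero]

open Classical in
theorem sum_E {g a : P2} (hg : g ≠ 0) (hco : IsCoprime a g) (q : P2) {y0 : P2}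
    (hy0 : ∏ P ∈ Tq g q, P ∣ 1 + q * y0) :
    ∑ y ∈ YY g q, E g a (q * y) =
      if g ∣ q * ∏ P ∈ Tq g q, P then (-1) ^ (Tq g q).card *
        (2 ^ (g.natDegree - (∏ P ∈ Tq g q, P).natDegree) * E g a (q * y0)) else 0 := by
  rw [mobius_sum hg]
  have hmem : Tq g q ∈ (pf g).powerset := Finset.mem_powerset.mpr (sub_pf g q)
  rw [Finset.sum_eq_single_of_mem _ hmem]
  · rw [filter_eq hg subset_rfl hy0, char_sum hg hco _ _ _ (prod_dvd_g hg subset_rfl),
      card_Yd hg (prod_dvd_g hg subset_rfl)]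
    split_ifs
    · push_cast
      ring
    · ring
  · intro S hS hne
    rw [Finset.mem_powerset] at hS
    by_cases hT : S ⊆ Tq g q
    · obtain ⟨y1, hy1⟩ := exists_sol hg hT
      rw [filter_eq hg hT hy1, char_sum hg hco _ _ _ (prod_dvd_g hg hT), if_neg, mul_zero]
      intro hdiv
      apply hne
      apply Finset.Subset.antisymm hT
      intro P hP
      have h1 := (mem_Tq hg).mp hP
      have h2 : P ∣ q * ∏ Q ∈ S, Q := h1.1.2.trans hdiv
      have hirr : ∀ P ∈ S, Irreducible P := fun P hP => ((mem_Tq hg).mp (hT hP)).1.1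
      rcases h1.1.1.prime.dvd_or_dvd h2 with h3 | h3
      · exact absurd h3 h1.2
      · exact (dvd_prod_iff hirr h1.1.1).mp h3
    · rw [filter_empty hg hS hT, Finset.sum_empty, mul_zero]

/-- `x_P`: congruent to `1` modulo `P` and to `0` modulo `g / P` -/
theorem exists_x {g P : P2} (hP : Irreducible P) {h : P2} (hgP : g = P * h)
    (hsq : ¬ P ^ 2 ∣ g) : ∃ x : P2, P ∣ 1 - x ∧ h ∣ x := by
  have h1 : IsCoprime P h := by
    rw [hP.coprime_iff_not_dvd]
    rintro ⟨c, hc⟩
    apply hsq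
    rw [hgP, hc, sq]
    exact ⟨c, by ring⟩
  obtain ⟨u, v, huv⟩ := h1
  refine ⟨v * h, ⟨u, ?_⟩, dvd_mul_left h v⟩
  rw [← huv]
  ring

end Mqf

open Mqf in
open Classical in
theorem mq_formula (g a : P2) (hg : g ≠ 0) (hco : IsCoprime a g) :
    ∃ ε : P2 → ℝ, (∀ P, ε P = 1 ∨ ε P = -1) ∧ ∀ q : P2, q ≠ 0 →
      mq g a q = if g ∣ q * ∏ P ∈ Tq g q, P then
        ∏ P ∈ Tq g q, (- ε P / ((2 : ℝ) ^ P.natDegree - 1)) else 0 := by
  -- the choice of `x_P`
  have hx : ∀ P : P2, ∃ x : P2, (Irreducible P → ¬ P ^ 2 ∣ g → ∀ h, g = P * h →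
      P ∣ 1 - x ∧ h ∣ x) := by
    intro P
    by_cases h1 : Irreducible P ∧ ¬ P ^ 2 ∣ g ∧ ∃ h, g = P * h
    · obtain ⟨hP, hsq, h, hgP⟩ := h1
      obtain ⟨x, hx1, hx2⟩ := exists_x hP hgP hsq
      refine ⟨x, fun _ _ h' hgP' => ⟨hx1, ?_⟩⟩
      have : h' = h := mul_left_cancel₀ hP.ne_zero (hgP'.symm.trans hgP)
      rw [this]; exact hx2
    · refine ⟨0, fun hP hsq h hgP => ?_⟩
      exact absurd ⟨hP, hsq, h, hgP⟩ h1
  choose x hx using hx
  refine ⟨fun P => E g a (x P), fun P => E_cases g a (x P), ?_⟩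
  intro q hq
  obtain ⟨y0, hy0⟩ := exists_sol hg (subset_refl (Tq g q))
  have hirr : ∀ P ∈ Tq g q, Irreducible P := fun P hP => ((mem_Tq hg).mp hP).1.1
  have hsum : ∑ y ∈ YY g q, sg (res g (a * q * y)) = ∑ y ∈ YY g q, E g a (q * y) := by
    apply Finset.sum_congr rfl
    intro y _
    unfold E
    rw [mul_assoc]
  unfold mq
  rw [hsum, sum_E hg hco q hy0, card_YY hg]
  by_cases hdiv : g ∣ q * ∏ P ∈ Tq g q, P
  · rw [if_pos hdiv, if_pos hdiv]
    -- the key congruence
    set k := ∏ P ∈ Tq g q, P with hk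
    have hkg : k ∣ g := prod_dvd_g hg subset_rfl
    obtain ⟨h, hgk⟩ := hkg
    have hk0 : k ≠ 0 := by
      rintro h0
      rw [h0, zero_mul] at hgk
      exact hg hgk
    have hhq : h ∣ q := by
      rw [hgk, mul_comm q k] at hdiv
      exact (mul_dvd_mul_iff_left hk0).mp hdiv
    have hcop : IsCoprime k h := by
      rw [hk]
      apply IsCoprime.prod_left
      intro P hP
      rw [(hirr P hP).coprime_iff_not_dvd]
      intro hc
      exact ((mem_Tq hg).mp hP).2 (hc.trans hhq)
    have hsq : ∀ P ∈ Tq g q, ¬ P ^ 2 ∣ g := by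
      intro P hP hc
      obtain ⟨c, hc2⟩ : P ∣ k := Finset.dvd_prod_of_mem (fun P => P) hP
      have h2 : P ∣ c * h := by
        rw [hgk, hc2, sq, mul_assoc P c h] at hc
        exact (mul_dvd_mul_iff_left (hirr P hP).ne_zero).mp hc
      rcases (hirr P hP).prime.dvd_or_dvd h2 with h3 | h3
      · -- `P ∣ c`, where `k = P c`, contradicts squarefreeness
        have h4 : c = ∏ Q ∈ (Tq g q).erase P, Q := by
          have h5 : k = P * ∏ Q ∈ (Tq g q).erase P, Q := by
            rw [hk]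
            exact (Finset.mul_prod_erase (Tq g q) (fun Q => Q) hP).symm
          exact mul_left_cancel₀ (hirr P hP).ne_zero (hc2.symm.trans h5)
        rw [h4, dvd_prod_iff (fun Q hQ => hirr Q (Finset.mem_of_mem_erase hQ)) (hirr P hP)] at h3
        exact Finset.notMem_erase P _ h3
      · exact ((mem_Tq hg).mp hP).2 (h3.trans hhq)
    have hkey : g ∣ q * y0 - ∑ P ∈ Tq g q, x P := by
      refine (dvd_of_eq hgk).trans ?_
      apply hcop.mul_dvd
      · refine (prod_dvd_iff hirr _).mpr ?_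
        intro P hP
        have h1 : P ∣ 1 + q * y0 := (Finset.dvd_prod_of_mem (fun P => P) hP).trans hy0
        obtain ⟨c, hc⟩ := ((mem_Tq hg).mp hP).1.2
        have h2 := (hx P (hirr P hP) (hsq P hP) c hc).1
        have h3 : P ∣ ∑ Q ∈ (Tq g q).erase P, x Q := by
          apply Finset.dvd_sum
          intro Q hQ
          have hQT := Finset.mem_of_mem_erase hQ
          obtain ⟨c', hc'⟩ := ((mem_Tq hg).mp hQT).1.2
          have h4 := (hx Q (hirr Q hQT) (hsq Q hQT) c' hc').2
          apply dvd_trans _ h4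
          have h5 : P ∣ Q * c' := hc' ▸ ((mem_Tq hg).mp hP).1.2
          rcases (hirr P hP).prime.dvd_or_dvd h5 with h6 | h6
          · exact absurd (eq_of_associated ((hirr P hP).associated_of_dvd (hirr Q hQT) h6))
              (Finset.ne_of_mem_erase hQ).symm
          · exact h6
        rw [← Finset.add_sum_erase _ _ hP]
        have h7 : q * y0 - (x P + ∑ Q ∈ (Tq g q).erase P, x Q) =
            (1 + q * y0) - ((1 - x P) + 2 * x P) - ∑ Q ∈ (Tq g q).erase P, x Q := by ring
        have h8 : (2 : P2) * x P = 0 := by rw [two_mul, add_self_P2]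
        rw [h7, h8, add_zero]
        exact dvd_sub (dvd_sub h1 h2) h3
      · apply dvd_sub
        · exact dvd_mul_of_dvd_left hhq y0
        · apply Finset.dvd_sum
          intro P hP
          obtain ⟨c, hc⟩ := ((mem_Tq hg).mp hP).1.2
          have h4 := (hx P (hirr P hP) (hsq P hP) c hc).2
          apply dvd_trans _ h4
          obtain ⟨e, he⟩ : P ∣ k := Finset.dvd_prod_of_mem (fun P => P) hP
          have h9 : c = e * h := by
            apply mul_left_cancel₀ (hirr P hP).ne_zero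
            rw [← hc, hgk, he, mul_assoc]
          rw [h9]
          exact dvd_mul_left h e
    rw [E_congr hg a hkey, E_sum]
    have hle : k.natDegree ≤ g.natDegree := natDegree_le_of_dvd ⟨h, hgk⟩ hg
    have h4 : (2 : ℝ) ^ g.natDegree = 2 ^ (g.natDegree - k.natDegree) *
        ∏ P ∈ Tq g q, (2 : ℝ) ^ P.natDegree := by
      rw [Finset.prod_pow_eq_pow_sum, ← natDegree_prod' hirr, ← pow_add]
      congr 1
      rw [← hk]
      omega
    rw [h4]
    have h5 : ∏ P ∈ Tq g q, (-E g a (x P) / ((2 : ℝ) ^ P.natDegree - 1)) =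
        ((-1) ^ (Tq g q).card * ∏ P ∈ Tq g q, E g a (x P)) /
          ∏ P ∈ Tq g q, ((2 : ℝ) ^ P.natDegree - 1) := by
      rw [Finset.prod_div_distrib, Finset.prod_neg]
    have h6 : (∏ P ∈ Tq g q, (2 : ℝ) ^ P.natDegree) *
        ∏ P ∈ Tq g q, (1 - 1 / (2 : ℝ) ^ P.natDegree) =
          ∏ P ∈ Tq g q, ((2 : ℝ) ^ P.natDegree - 1) := by
      rw [← Finset.prod_mul_distrib]
      apply Finset.prod_congr rfl
      intro P _
      have : (2 : ℝ) ^ P.natDegree ≠ 0 := pow_ne_zero _ two_ne_zero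
      field_simp
    rw [h5, mul_assoc, h6]
    have h7 : (2 : ℝ) ^ (g.natDegree - k.natDegree) ≠ 0 := pow_ne_zero _ two_ne_zero
    have h8 : ∏ P ∈ Tq g q, ((2 : ℝ) ^ P.natDegree - 1) ≠ 0 := by
      rw [Finset.prod_ne_zero_iff]
      intro P hP
      have h9 : 0 < P.natDegree := (hirr P hP).natDegree_pos
      have h10 : (1 : ℝ) < 2 ^ P.natDegree := one_lt_pow₀ (by norm_num) h9.ne'
      linarith
    field_simp
  · rw [if_neg hdiv, if_neg hdiv, zero_div]

end

end Pool.Agent.MP196
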