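import Mathlib
import Pool.Agent.Lib.MP_196a10_nt.Base
import Pool.Agent.Lib.MP_196a10_nt.Mqf

open Polynomial

namespace Pool.Agent.MP196

noncomputable section

namespace MBd

theorem irreducible_of_mem_pf {g P : P2} (h : P ∈ pf g) : Irreducible P := by
  classical
  unfold pf at h
  exact UniqueFactorizationMonoid.irreducible_of_normalized_factor P (Multiset.mem_toFinset.mp h)

theorem prod_dvd {g : P2} (hg : g ≠ 0) {T : Finset P2} (hT : T ⊆ pf g) : ∏ P ∈ T, P ∣ g := by
  classical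
  have h1 : T.val ≤ UniqueFactorizationMonoid.normalizedFactors g := by
    rw [Multiset.le_iff_subset T.nodup]
    intro P hP
    have := hT (Finset.mem_val.mp hP)
    unfold pf at this
    exact Multiset.mem_toFinset.mp this
  have h2 := Multiset.prod_dvd_prod_of_le h1
  have h3 := UniqueFactorizationMonoid.prod_normalizedFactors hg
  rw [Finset.prod_val] at h2
  exact h2.trans h3.dvd

theorem card_multiples (h : P2) (hh : h ≠ 0) (D : ℕ) (S : Finset P2)
    (hS : ∀ q ∈ S, q ∈ MD D ∧ h ∣ q) : (S.card : ℝ) * 2 ^ h.natDegree ≤ 2 ^ D := by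
  classical
  by_cases hle : h.natDegree ≤ D
  · have h1 : S ⊆ (MD (D - h.natDegree)).image (fun q => h * q) := by
      intro q hq
      obtain ⟨h2, q', rfl⟩ := hS q hq
      refine Finset.mem_image.mpr ⟨q', ?_, rfl⟩
      rw [mem_MD'] at h2 ⊢
      obtain ⟨h3, h4⟩ := h2
      have h5 : q' ≠ 0 := right_ne_zero_of_mul h3
      rw [natDegree_mul hh h5] at h4
      exact ⟨h5, by omega⟩
    have h2 : S.card ≤ 2 ^ (D - h.natDegree) := by
      refine (Finset.card_le_card h1).trans ?_
      refine Finset.card_image_le.trans ?_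
      rw [card_MD]
    have h3 : (S.card : ℝ) ≤ 2 ^ (D - h.natDegree) := by exact_mod_cast h2
    calc (S.card : ℝ) * 2 ^ h.natDegree ≤ 2 ^ (D - h.natDegree) * 2 ^ h.natDegree := by
          gcongr
      _ = 2 ^ D := by rw [← pow_add, Nat.sub_add_cancel hle]
  · have h1 : S = ∅ := by
      apply Finset.eq_empty_of_forall_notMem
      intro q hq
      obtain ⟨h2, q', rfl⟩ := hS q hq
      rw [mem_MD'] at h2
      obtain ⟨h3, h4⟩ := h2
      have h5 : q' ≠ 0 := right_ne_zero_of_mul h3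
      rw [natDegree_mul hh h5] at h4
      omega
    rw [h1]
    simp

theorem two_pow_ge {P : P2} (hP : Irreducible P) : (2 : ℝ) ≤ 2 ^ P.natDegree := by
  have h1 : 1 ≤ P.natDegree := hP.natDegree_pos
  calc (2 : ℝ) = 2 ^ 1 := by norm_num
    _ ≤ 2 ^ P.natDegree := pow_le_pow_right₀ (by norm_num) h1

open Classical in
theorem abs_mq_bound (g a q : P2) (ε : P2 → ℝ) (hε : ∀ P, ε P = 1 ∨ ε P = -1)
    (h : mq g a q = if g ∣ q * ∏ P ∈ Tq g q, P then
        ∏ P ∈ Tq g q, (- ε P / ((2 : ℝ) ^ P.natDegree - 1)) else 0) :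
    |mq g a q| = if g ∣ q * ∏ P ∈ Tq g q, P then
        ∏ P ∈ Tq g q, (1 / ((2 : ℝ) ^ P.natDegree - 1)) else 0 := by
  rw [h]
  split_ifs with h1
  · rw [Finset.abs_prod]
    apply Finset.prod_congr rfl
    intro P hP
    have h2 : P ∈ pf g := by
      unfold Tq at hP
      exact (Finset.mem_filter.mp hP).1
    have h3 := two_pow_ge (irreducible_of_mem_pf h2)
    rw [abs_div, abs_neg, abs_of_pos (by linarith : (0 : ℝ) < 2 ^ P.natDegree - 1)]
    congr 1
    rcases hε P with h4 | h4 <;> rw [h4] <;> simp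
  · simp

theorem Tq_subset (g q : P2) : Tq g q ⊆ pf g := by
  classical
  unfold Tq
  exact Finset.filter_subset _ _

end MBd

open MBd in
theorem M_bound (g a : P2) (hg : g ≠ 0) (hco : IsCoprime a g) (D : ℕ) :
    |∑ q ∈ MD D, mq g a q| * 2 ^ g.natDegree ≤ 2 ^ D * 3 ^ (pf g).card := by
  classical
  obtain ⟨ε, hε, hmq⟩ := mq_formula g a hg hco
  let c : Finset P2 → ℝ := fun T => ∏ P ∈ T, (1 / ((2 : ℝ) ^ P.natDegree - 1))
  have hc0 : ∀ T ∈ (pf g).powerset, 0 ≤ c T := by
    intro T hT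
    apply Finset.prod_nonneg
    intro P hP
    have h3 := two_pow_ge (irreducible_of_mem_pf (Finset.mem_powerset.mp hT hP))
    apply div_nonneg zero_le_one
    linarith
  -- bound of each term by the sum over T
  have h1 : |∑ q ∈ MD D, mq g a q| ≤ ∑ q ∈ MD D, ∑ T ∈ (pf g).powerset,
      (if g ∣ q * ∏ P ∈ T, P then c T else 0) := by
    refine (Finset.abs_sum_le_sum_abs _ _).trans ?_
    apply Finset.sum_le_sum
    intro q hq
    rw [abs_mq_bound g a q ε hε (hmq q (ne_zero_of_mem_MD hq))]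
    have h2 : (if g ∣ q * ∏ P ∈ Tq g q, P then c (Tq g q) else 0) ≤
        ∑ T ∈ (pf g).powerset, (if g ∣ q * ∏ P ∈ T, P then c T else 0) := by
      refine Finset.single_le_sum (f := fun T => (if g ∣ q * ∏ P ∈ T, P then c T else 0)) ?_
        (Finset.mem_powerset.mpr (Tq_subset g q))
      intro T hT
      split_ifs
      · exact hc0 T hT
      · exact le_rfl
    exact h2
  rw [Finset.sum_comm] at h1
  have h2 : ∀ T ∈ (pf g).powerset, (∑ q ∈ MD D, (if g ∣ q * ∏ P ∈ T, P then c T else 0)) *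
      2 ^ g.natDegree ≤ 2 ^ D * ∏ P ∈ T, (2 : ℝ) := by
    intro T hT
    have hTs := Finset.mem_powerset.mp hT
    obtain ⟨h, hh⟩ := prod_dvd hg hTs
    have hk0 : (∏ P ∈ T, P) ≠ 0 := by
      intro h0
      rw [h0, zero_mul] at hh
      exact hg hh
    have hh0 : h ≠ 0 := by
      rintro rfl
      rw [mul_zero] at hh
      exact hg hh
    have hdeg : g.natDegree = (∏ P ∈ T, P).natDegree + h.natDegree := by
      conv_lhs => rw [hh]
      exact natDegree_mul hk0 hh0
    have hdk : (∏ P ∈ T, P).natDegree = ∑ P ∈ T, P.natDegree := by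
      apply natDegree_prod
      intro P hP
      exact (irreducible_of_mem_pf (hTs hP)).ne_zero
    rw [← Finset.sum_filter, Finset.sum_const, nsmul_eq_mul]
    have h3 := card_multiples h hh0 D ((MD D).filter (fun q => g ∣ q * ∏ P ∈ T, P)) (by
      intro q hq
      obtain ⟨h4, h5⟩ := Finset.mem_filter.mp hq
      refine ⟨h4, ?_⟩
      rw [hh, mul_comm q] at h5
      exact (mul_dvd_mul_iff_left hk0).mp h5)
    have h6 : c T * 2 ^ (∏ P ∈ T, P).natDegree ≤ ∏ P ∈ T, (2 : ℝ) := by
      rw [hdk, ← Finset.prod_pow_eq_pow_sum, ← Finset.prod_mul_distrib]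
      apply Finset.prod_le_prod
      · intro P hP
        have h7 := two_pow_ge (irreducible_of_mem_pf (hTs hP))
        apply mul_nonneg (div_nonneg zero_le_one (by linarith)) (by positivity)
      · intro P hP
        have h7 := two_pow_ge (irreducible_of_mem_pf (hTs hP))
        rw [div_mul_eq_mul_div, one_mul, div_le_iff₀ (by linarith)]
        linarith
    have hcT := hc0 T hT
    calc _ = ((((MD D).filter (fun q => g ∣ q * ∏ P ∈ T, P)).card : ℝ) * 2 ^ h.natDegree) *
          (c T * 2 ^ (∏ P ∈ T, P).natDegree) := by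
          rw [hdeg, pow_add]; ring
      _ ≤ 2 ^ D * (c T * 2 ^ (∏ P ∈ T, P).natDegree) := by
          apply mul_le_mul_of_nonneg_right h3
          positivity
      _ ≤ 2 ^ D * ∏ P ∈ T, (2 : ℝ) := by
          apply mul_le_mul_of_nonneg_left h6
          positivity
  calc |∑ q ∈ MD D, mq g a q| * 2 ^ g.natDegree
      ≤ (∑ T ∈ (pf g).powerset, ∑ q ∈ MD D, (if g ∣ q * ∏ P ∈ T, P then c T else 0)) *
        2 ^ g.natDegree := by
        apply mul_le_mul_of_nonneg_right h1
        positivity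
    _ = ∑ T ∈ (pf g).powerset, (∑ q ∈ MD D, (if g ∣ q * ∏ P ∈ T, P then c T else 0)) *
        2 ^ g.natDegree := Finset.sum_mul _ _ _
    _ ≤ ∑ T ∈ (pf g).powerset, 2 ^ D * ∏ P ∈ T, (2 : ℝ) := Finset.sum_le_sum h2
    _ = 2 ^ D * ∏ P ∈ pf g, (1 + (2 : ℝ)) := by
        rw [← Finset.mul_sum, Finset.prod_one_add]
    _ = 2 ^ D * 3 ^ (pf g).card := by
        rw [Finset.prod_const]
        norm_num

theorem abs_mq_le (g a q : P2) : |mq g a q| ≤ 1 := by
  unfold mq
  rw [abs_div]
  apply div_le_one_of_le₀ _ (abs_nonneg _)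
  rw [Nat.abs_cast]
  refine (Finset.abs_sum_le_sum_abs _ _).trans ?_
  simp only [abs_sg]
  simp

end

end Pool.Agent.MP196
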