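import Mathlib
import Pool.Agent.Lib.MP_196a10_nt.Base
import Pool.Agent.Lib.MP_196a10_nt.Mqf

open Polynomial

namespace Pool.Agent.MP196

noncomputable section

namespace MPos

theorem mem_pf {g P : P2} (hg : g ≠ 0) : P ∈ pf g ↔ Irreducible P ∧ P ∣ g := by
  classical
  unfold pf
  rw [Multiset.mem_toFinset, UniqueFactorizationMonoid.mem_normalizedFactors_iff' hg]
  constructor
  · rintro ⟨h1, _, h3⟩
    exact ⟨h1, h3⟩
  · rintro ⟨h1, h3⟩
    refine ⟨h1, ?_, h3⟩
    exact eq_of_associated (normalize_associated P)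

theorem eq_of_irr_dvd {P Q : P2} (hP : Irreducible P) (hQ : Irreducible Q) (h : P ∣ Q) : P = Q :=
  eq_of_associated (hP.associated_of_dvd hQ h)

theorem mem_of_dvd_prod {T : Finset P2} (hT : ∀ P ∈ T, Irreducible P) {P : P2}
    (hP : Irreducible P) (h : P ∣ ∏ Q ∈ T, Q) : P ∈ T := by
  obtain ⟨Q, hQ, h1⟩ := (Prime.dvd_finset_prod_iff hP.prime _).mp h
  rw [eq_of_irr_dvd hP (hT Q hQ) h1]
  exact hQ

/-- Counting the multiples of `d`. -/
theorem card_mul {d : P2} (hd : d ≠ 0) {n : ℕ} (hn : d.natDegree ≤ n) (p : P2 → Prop)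
    [DecidablePred (fun q => d ∣ q ∧ p q)] [DecidablePred (fun q => p (d * q))] :
    ((MD n).filter (fun q => d ∣ q ∧ p q)).card =
      ((MD (n - d.natDegree)).filter (fun q => p (d * q))).card := by
  symm
  apply Finset.card_bij (fun q _ => d * q)
  · intro q hq
    rw [Finset.mem_filter] at hq ⊢
    refine ⟨?_, dvd_mul_right _ _, hq.2⟩
    have h1 : d ∈ MD d.natDegree := mem_MD'.mpr ⟨hd, rfl⟩
    have h2 := mul_mem_MD h1 hq.1
    rwa [Nat.add_sub_cancel' hn] at h2
  · intro q1 _ q2 _ h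
    exact mul_left_cancel₀ hd h
  · intro q hq
    rw [Finset.mem_filter] at hq
    obtain ⟨h1, ⟨c, rfl⟩, h3⟩ := hq
    rw [mem_MD'] at h1
    have hc : c ≠ 0 := right_ne_zero_of_mul h1.1
    refine ⟨c, ?_, rfl⟩
    rw [Finset.mem_filter, mem_MD']
    refine ⟨⟨hc, ?_⟩, h3⟩
    have := h1.2
    rw [natDegree_mul hd hc] at this
    omega

open Classical in
theorem card_coprime (T : Finset P2) (hT : ∀ P ∈ T, Irreducible P) (n : ℕ)
    (hn : ∑ P ∈ T, P.natDegree ≤ n) :
    (((MD n).filter (fun q => ∀ P ∈ T, ¬ P ∣ q)).card : ℝ) =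
      2 ^ (n - ∑ P ∈ T, P.natDegree) * ∏ P ∈ T, ((2 : ℝ) ^ P.natDegree - 1) := by
  induction T using Finset.induction_on generalizing n with
  | empty =>
    simp [card_MD]
  | insert P T hPT ih =>
    have hP : Irreducible P := hT P (Finset.mem_insert_self _ _)
    have hT' : ∀ Q ∈ T, Irreducible Q := fun Q hQ => hT Q (Finset.mem_insert_of_mem hQ)
    rw [Finset.sum_insert hPT] at hn ⊢
    rw [Finset.prod_insert hPT]
    have h1 := ih hT' n (by omega)
    have h2 := ih hT' (n - P.natDegree) (by omega)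
    have h3 := card_mul hP.ne_zero (n := n) (by omega) (fun q => ∀ Q ∈ T, ¬ Q ∣ q)
    have h4 : ((MD (n - P.natDegree)).filter (fun q => ∀ Q ∈ T, ¬ Q ∣ P * q)) =
        ((MD (n - P.natDegree)).filter (fun q => ∀ Q ∈ T, ¬ Q ∣ q)) := by
      apply Finset.filter_congr
      intro q _
      constructor
      · intro h Q hQ h5
        exact h Q hQ (h5.mul_left _)
      · intro h Q hQ h5
        rcases (hT' Q hQ).prime.dvd_or_dvd h5 with h6 | h6
        · rw [eq_of_irr_dvd (hT' Q hQ) hP h6] at hQ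
          exact hPT hQ
        · exact h Q hQ h6
    have h5 : ((MD n).filter (fun q => ∀ Q ∈ T, ¬ Q ∣ q)).card =
        ((MD n).filter (fun q => ∀ Q ∈ insert P T, ¬ Q ∣ q)).card +
        ((MD n).filter (fun q => P ∣ q ∧ ∀ Q ∈ T, ¬ Q ∣ q)).card := by
      rw [← Finset.card_union_of_disjoint]
      · congr 1
        ext q
        simp only [Finset.mem_union, Finset.mem_filter, Finset.mem_insert, forall_eq_or_imp]
        tauto
      · rw [Finset.disjoint_left]
        intro q hq hq'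
        rw [Finset.mem_filter] at hq hq'
        exact hq.2 P (Finset.mem_insert_self _ _) hq'.2.1
    rw [h3, h4] at h5
    have h6 : (((MD n).filter (fun q => ∀ Q ∈ insert P T, ¬ Q ∣ q)).card : ℝ) =
        (((MD n).filter (fun q => ∀ Q ∈ T, ¬ Q ∣ q)).card : ℝ) -
        (((MD (n - P.natDegree)).filter (fun q => ∀ Q ∈ T, ¬ Q ∣ q)).card : ℝ) := by
      rw [h5]; push_cast; ring
    rw [h6, h1, h2]
    have h7 : n - ∑ P ∈ T, P.natDegree = (n - (P.natDegree + ∑ P ∈ T, P.natDegree)) +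
        P.natDegree := by omega
    have h8 : n - P.natDegree - ∑ P ∈ T, P.natDegree =
        n - (P.natDegree + ∑ P ∈ T, P.natDegree) := by omega
    rw [h8, h7, pow_add]
    ring

open Classical in
/-- The primes dividing `g` exactly once. -/
def T1 (g : P2) : Finset P2 := (pf g).filter (fun P => ¬ P ^ 2 ∣ g)

theorem mem_T1 {g P : P2} (hg : g ≠ 0) : P ∈ T1 g ↔ Irreducible P ∧ P ∣ g ∧ ¬ P ^ 2 ∣ g := by
  classical
  unfold T1
  rw [Finset.mem_filter, mem_pf hg, and_assoc]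

theorem mem_Tq {g q P : P2} (hg : g ≠ 0) :
    P ∈ Tq g q ↔ Irreducible P ∧ P ∣ g ∧ ¬ P ∣ q := by
  classical
  unfold Tq
  rw [Finset.mem_filter, mem_pf hg, and_assoc]

/-- Divisibility forces `Tq g q ⊆ T1 g`. -/
theorem Tq_sub {g q : P2} (hg : g ≠ 0) (h : g ∣ q * ∏ P ∈ Tq g q, P) : Tq g q ⊆ T1 g := by
  classical
  intro P hP
  have hP' := (mem_Tq hg).mp hP
  rw [mem_T1 hg]
  refine ⟨hP'.1, hP'.2.1, ?_⟩
  intro hsq
  have h1 : P ^ 2 ∣ q * ∏ P ∈ Tq g q, P := hsq.trans h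
  have h2 : IsCoprime P q := (hP'.1.coprime_iff_not_dvd).mpr hP'.2.2
  have h3 : P ^ 2 ∣ ∏ P ∈ Tq g q, P := (h2.pow_left).dvd_of_dvd_mul_left h1
  rw [← Finset.mul_prod_erase _ _ hP, pow_two] at h3
  have h4 : P ∣ ∏ P ∈ (Tq g q).erase P, P := (mul_dvd_mul_iff_left hP'.1.ne_zero).mp h3
  have h5 := mem_of_dvd_prod (T := (Tq g q).erase P) (by
    intro Q hQ
    exact ((mem_Tq hg).mp (Finset.mem_of_mem_erase hQ)).1) hP'.1 h4
  exact (Finset.notMem_erase P _) h5

/-- The product of distinct prime divisors of `g` divides `g`. -/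
theorem prod_dvd {g : P2} (hg : g ≠ 0) (T : Finset P2)
    (hT : ∀ P ∈ T, Irreducible P ∧ P ∣ g) : ∏ P ∈ T, P ∣ g := by
  classical
  apply Finset.prod_dvd_of_coprime
  · intro P hP Q hQ hne
    have h1 := hT P hP
    have h2 := hT Q hQ
    refine (h1.1.coprime_iff_not_dvd).mpr ?_
    intro h
    exact hne (eq_of_irr_dvd h1.1 h2.1 h)
  · intro P hP
    exact (hT P hP).2

open Classical in
theorem card_T {g : P2} (hg : g ≠ 0) {D : ℕ} (hD : g.natDegree ≤ D) (T : Finset P2)
    (hT : T ⊆ T1 g) :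
    (((MD D).filter (fun q => Tq g q = T ∧ g ∣ q * ∏ P ∈ Tq g q, P)).card : ℝ) =
      2 ^ (D - g.natDegree) * ∏ P ∈ T, ((2 : ℝ) ^ P.natDegree - 1) := by
  have hTi : ∀ P ∈ T, Irreducible P := fun P hP => ((mem_T1 hg).mp (hT hP)).1
  have hTd : ∀ P ∈ T, P ∣ g := fun P hP => ((mem_T1 hg).mp (hT hP)).2.1
  have hTs : ∀ P ∈ T, ¬ P ^ 2 ∣ g := fun P hP => ((mem_T1 hg).mp (hT hP)).2.2
  obtain ⟨g', hg'⟩ := prod_dvd hg T (fun P hP => ⟨hTi P hP, hTd P hP⟩)
  have hk0 : ∏ P ∈ T, P ≠ 0 := by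
    intro h
    rw [h, zero_mul] at hg'
    exact hg hg'
  have hg'0 : g' ≠ 0 := by
    rintro rfl
    rw [mul_zero] at hg'
    exact hg hg'
  have hPg' : ∀ P ∈ T, ¬ P ∣ g' := by
    intro P hP h
    apply hTs P hP
    rw [hg', pow_two]
    exact mul_dvd_mul (Finset.dvd_prod_of_mem _ hP) h
  have hset : (MD D).filter (fun q => Tq g q = T ∧ g ∣ q * ∏ P ∈ Tq g q, P) =
      (MD D).filter (fun q => g' ∣ q ∧ ∀ P ∈ T, ¬ P ∣ q) := by
    apply Finset.filter_congr
    intro q _
    constructor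
    · rintro ⟨h1, h2⟩
      rw [h1] at h2
      constructor
      · nth_rewrite 1 [hg'] at h2
        rw [mul_comm q] at h2
        exact (mul_dvd_mul_iff_left hk0).mp h2
      · intro P hP
        rw [← h1] at hP
        exact ((mem_Tq hg).mp hP).2.2
    · rintro ⟨h1, h2⟩
      have h3 : Tq g q = T := by
        ext P
        rw [mem_Tq hg]
        constructor
        · rintro ⟨h4, h5, h6⟩
          rw [hg'] at h5
          rcases h4.prime.dvd_or_dvd h5 with h7 | h7
          · exact mem_of_dvd_prod hTi h4 h7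
          · exact absurd (h7.trans h1) h6
        · intro hP
          exact ⟨hTi P hP, hTd P hP, h2 P hP⟩
      refine ⟨h3, ?_⟩
      rw [h3]
      nth_rewrite 1 [hg']
      rw [mul_comm q]
      exact mul_dvd_mul_left _ h1
  have hdeg : g.natDegree = ∑ P ∈ T, P.natDegree + g'.natDegree := by
    rw [hg', natDegree_mul hk0 hg'0, natDegree_prod _ _ (fun P hP => (hTi P hP).ne_zero)]
  rw [hset, card_mul hg'0 (by omega)]
  have h4 : ((MD (D - g'.natDegree)).filter (fun q => ∀ Q ∈ T, ¬ Q ∣ g' * q)) =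
      ((MD (D - g'.natDegree)).filter (fun q => ∀ Q ∈ T, ¬ Q ∣ q)) := by
    apply Finset.filter_congr
    intro q _
    constructor
    · intro h Q hQ h5
      exact h Q hQ (h5.mul_left _)
    · intro h Q hQ h5
      rcases (hTi Q hQ).prime.dvd_or_dvd h5 with h6 | h6
      · exact hPg' Q hQ h6
      · exact h Q hQ h6
  rw [h4, card_coprime T hTi _ (by omega)]
  congr 2
  omega

end MPos

theorem M_nonneg (g a : P2) (hg : g ≠ 0) (hco : IsCoprime a g) (D : ℕ) (hD : g.natDegree ≤ D) :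
    0 ≤ ∑ q ∈ MD D, mq g a q := by
  classical
  obtain ⟨ε, hε, hm⟩ := mq_formula g a hg hco
  have h1 : ∑ q ∈ MD D, mq g a q = ∑ q ∈ MD D, (if g ∣ q * ∏ P ∈ Tq g q, P then
        ∏ P ∈ Tq g q, (- ε P / ((2 : ℝ) ^ P.natDegree - 1)) else 0) := by
    apply Finset.sum_congr rfl
    intro q hq
    rw [hm q (ne_zero_of_mem_MD hq)]
  have h2 : ∑ q ∈ MD D, (if g ∣ q * ∏ P ∈ Tq g q, P then
        ∏ P ∈ Tq g q, (- ε P / ((2 : ℝ) ^ P.natDegree - 1)) else 0) =
      ∑ T ∈ (MPos.T1 g).powerset, (2 : ℝ) ^ (D - g.natDegree) * ∏ P ∈ T, (- ε P) := by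
    rw [← Finset.sum_filter]
    rw [← Finset.sum_fiberwise_of_maps_to (s := (MD D).filter
      (fun q => g ∣ q * ∏ P ∈ Tq g q, P)) (t := (MPos.T1 g).powerset) (g := fun q => Tq g q)]
    · apply Finset.sum_congr rfl
      intro T hT
      rw [Finset.mem_powerset] at hT
      have h3 : ∀ q ∈ ((MD D).filter (fun q => g ∣ q * ∏ P ∈ Tq g q, P)).filter
          (fun q => Tq g q = T), ∏ P ∈ Tq g q, (- ε P / ((2 : ℝ) ^ P.natDegree - 1)) =
          ∏ P ∈ T, (- ε P / ((2 : ℝ) ^ P.natDegree - 1)) := by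
        intro q hq
        rw [(Finset.mem_filter.mp hq).2]
      rw [Finset.sum_congr rfl h3, Finset.sum_const, nsmul_eq_mul]
      have h4 : ((MD D).filter (fun q => g ∣ q * ∏ P ∈ Tq g q, P)).filter
          (fun q => Tq g q = T) =
          (MD D).filter (fun q => Tq g q = T ∧ g ∣ q * ∏ P ∈ Tq g q, P) := by
        rw [Finset.filter_filter]
        apply Finset.filter_congr
        intro q _
        exact and_comm
      rw [h4, MPos.card_T hg hD T hT, mul_assoc, ← Finset.prod_mul_distrib]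
      congr 1
      apply Finset.prod_congr rfl
      intro P hP
      have h5 : Irreducible P := ((MPos.mem_T1 hg).mp (hT hP)).1
      have h6 : (1 : ℝ) < 2 ^ P.natDegree := by
        apply one_lt_pow₀ (by norm_num) h5.natDegree_pos.ne'
      have h7 : (2 : ℝ) ^ P.natDegree - 1 ≠ 0 := by linarith
      field_simp
    · intro q hq
      rw [Finset.mem_powerset]
      exact MPos.Tq_sub hg (Finset.mem_filter.mp hq).2
  rw [h1, h2, ← Finset.mul_sum, ← Finset.prod_one_add]
  apply mul_nonneg (by positivity)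
  apply Finset.prod_nonneg
  intro P _
  rcases hε P with h | h
  · rw [h]; norm_num
  · rw [h]; norm_num

end

end Pool.Agent.MP196
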