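import Mathlib
import Pool.Agent.Lib.MP_196a10_nt.Base

open Polynomial

namespace Pool.Agent.MP196

noncomputable section

namespace Omega

theorem sum_natDegree_pf_le (g : P2) (hg : g ≠ 0) :
    ∑ P ∈ pf g, P.natDegree ≤ g.natDegree := by
  classical
  have h1 : (UniqueFactorizationMonoid.normalizedFactors g).prod = g :=
    eq_of_associated (UniqueFactorizationMonoid.prod_normalizedFactors hg)
  have h0 : (0 : P2) ∉ UniqueFactorizationMonoid.normalizedFactors g :=
    UniqueFactorizationMonoid.zero_notMem_normalizedFactors g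
  have h2 : g.natDegree =
      ((UniqueFactorizationMonoid.normalizedFactors g).map natDegree).sum := by
    conv_lhs => rw [← h1]
    exact natDegree_multiset_prod _ h0
  rw [h2, Finset.sum_multiset_map_count]
  have h3 : pf g = (UniqueFactorizationMonoid.normalizedFactors g).toFinset := by
    unfold pf
    ext x
    simp
  rw [h3]
  apply Finset.sum_le_sum
  intro P hP
  have h4 : 1 ≤ Multiset.count P (UniqueFactorizationMonoid.normalizedFactors g) :=
    Multiset.one_le_count_iff_mem.mpr (Multiset.mem_toFinset.mp hP)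
  rw [smul_eq_mul]
  nlinarith [Nat.zero_le P.natDegree]

theorem card_small_le (g : P2) (d : ℕ) :
    ((pf g).filter (fun P => P.natDegree < d)).card ≤ 2 ^ d := by
  classical
  rw [← card_Plt d]
  apply Finset.card_le_card
  intro P hP
  rw [Finset.mem_filter] at hP
  rw [mem_Plt]
  by_cases h0 : P = 0
  · subst h0
    simp
  · exact (natDegree_lt_iff_degree_lt h0).mp hP.2

theorem card_large_mul_le (g : P2) (hg : g ≠ 0) (d : ℕ) :
    ((pf g).filter (fun P => ¬ P.natDegree < d)).card * d ≤ g.natDegree := by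
  classical
  refine le_trans ?_ (sum_natDegree_pf_le g hg)
  calc ((pf g).filter (fun P => ¬ P.natDegree < d)).card * d
      ≤ ∑ P ∈ (pf g).filter (fun P => ¬ P.natDegree < d), P.natDegree := by
        rw [← smul_eq_mul, ← Finset.sum_const]
        apply Finset.sum_le_sum
        intro P hP
        rw [Finset.mem_filter] at hP
        exact not_lt.mp hP.2
    _ ≤ ∑ P ∈ pf g, P.natDegree :=
        Finset.sum_le_sum_of_subset (Finset.filter_subset _ _)

end Omega

theorem omega_bound (ε : ℝ) (hε : 0 < ε) :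
    ∃ c : ℝ, 0 < c ∧ ∀ g : P2, g ≠ 0 → (3 : ℝ) ^ (pf g).card ≤ c * (2 : ℝ) ^ (ε * g.natDegree) := by
  classical
  obtain ⟨d, hd⟩ := exists_nat_gt (2 / ε)
  have hd2 : 2 < ε * d := by
    rw [div_lt_iff₀ hε] at hd
    linarith
  have h4 : (3 : ℝ) ≤ (2 : ℝ) ^ (ε * d) := by
    have h5 : (2 : ℝ) ^ (2 : ℝ) ≤ (2 : ℝ) ^ (ε * d) :=
      Real.rpow_le_rpow_of_exponent_le (by norm_num) hd2.le
    have h6 : (2 : ℝ) ^ (2 : ℝ) = 4 := by
      rw [show (2 : ℝ) = ((2 : ℕ) : ℝ) by norm_num, Real.rpow_natCast]
      norm_num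
    linarith
  refine ⟨(3 : ℝ) ^ (2 ^ d), by positivity, ?_⟩
  intro g hg
  have hA := Omega.card_small_le g d
  have hB := Omega.card_large_mul_le g hg d
  have hsplit : (pf g).card = ((pf g).filter (fun P => P.natDegree < d)).card +
      ((pf g).filter (fun P => ¬ P.natDegree < d)).card :=
    (Finset.card_filter_add_card_filter_not _).symm
  set a := ((pf g).filter (fun P => P.natDegree < d)).card
  set m := ((pf g).filter (fun P => ¬ P.natDegree < d)).card
  rw [hsplit, pow_add]
  have h7 : (3 : ℝ) ^ a ≤ (3 : ℝ) ^ (2 ^ d) := pow_le_pow_right₀ (by norm_num) hA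
  have h8 : (3 : ℝ) ^ m ≤ (2 : ℝ) ^ (ε * g.natDegree) := by
    calc (3 : ℝ) ^ m ≤ ((2 : ℝ) ^ (ε * d)) ^ m := pow_le_pow_left₀ (by norm_num) h4 m
      _ = (2 : ℝ) ^ (ε * d * m) := by
          rw [Real.rpow_mul (by norm_num) (ε * d) m, Real.rpow_natCast]
      _ ≤ (2 : ℝ) ^ (ε * g.natDegree) := by
          apply Real.rpow_le_rpow_of_exponent_le (by norm_num)
          have h9 : (m : ℝ) * d ≤ g.natDegree := by exact_mod_cast hB
          nlinarith
  exact mul_le_mul h7 h8 (by positivity) (by positivity)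

end

end Pool.Agent.MP196
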