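import Mathlib
import Pool.Agent.Lib.MP_196a10_nt.Base

open Polynomial

namespace Pool.Agent.MP196

noncomputable section

namespace VSum

theorem mem_Plt_succ {d : ℕ} {f : P2} : f ∈ Plt (d + 1) ↔ f ∈ Plt d ∨ f ∈ MD d := by
  rw [mem_Plt, mem_Plt, mem_MD]
  rw [← le_iff_lt_or_eq]
  by_cases hf : f = 0
  · subst hf
    simp
  · rw [degree_eq_natDegree hf]
    constructor
    · intro h
      have h1 : f.natDegree < d + 1 := by exact_mod_cast h
      exact_mod_cast Nat.lt_succ_iff.mp h1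
    · intro h
      have h1 : f.natDegree ≤ d := by exact_mod_cast h
      exact_mod_cast Nat.lt_succ_iff.mpr h1

theorem sum_succ (d : ℕ) (F : P2 → ℝ) :
    ∑ f ∈ Plt (d + 1), F f = ∑ f ∈ Plt d, F f + ∑ f ∈ MD d, F f := by
  classical
  have h1 : Plt (d + 1) = Plt d ∪ MD d := by
    ext f
    rw [Finset.mem_union, mem_Plt_succ]
  rw [h1, Finset.sum_union]
  rw [Finset.disjoint_left]
  intro f hf hf'
  rw [mem_Plt] at hf
  rw [mem_MD] at hf'
  rw [hf'] at hf
  exact lt_irrefl _ hf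

theorem sum_all (b : P2 →ₗ[ZMod 2] ZMod 2) (n : ℕ) (hb1 : b 1 = 0) :
    ∑ j ∈ Finset.Icc 1 n, ∑ f ∈ MD j, sg (b f) = ∑ f ∈ Plt (n + 1), sg (b f) - 2 := by
  induction n with
  | zero =>
    rw [sum_succ, Plt_zero, MD_zero]
    simp [sg_zero, hb1]
    norm_num
  | succ n ih =>
    rw [Finset.sum_Icc_succ_top (by omega), ih, sum_succ (n + 1)]
    ring

theorem sum_zero (b : P2 →ₗ[ZMod 2] ZMod 2) (m : ℕ) (f0 : P2) (hf0 : f0 ∈ Plt m)
    (hb : b f0 ≠ 0) : ∑ f ∈ Plt m, sg (b f) = 0 := by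
  have hb1 : b f0 = 1 := (zmod2_cases _).resolve_left hb
  have h1 : ∑ f ∈ Plt m, sg (b f) = ∑ f ∈ Plt m, sg (b (f + f0)) := by
    apply Finset.sum_bij' (fun f _ => f + f0) (fun f _ => f + f0)
    · intro f hf
      exact add_mem_Plt hf hf0
    · intro f hf
      exact add_mem_Plt hf hf0
    · intro f _
      rw [add_assoc, add_self_P2, add_zero]
    · intro f _
      rw [add_assoc, add_self_P2, add_zero]
    · intro f _
      rw [add_assoc, add_self_P2, add_zero]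
  have h2 : ∑ f ∈ Plt m, sg (b (f + f0)) = - ∑ f ∈ Plt m, sg (b f) := by
    rw [← Finset.sum_neg_distrib]
    apply Finset.sum_congr rfl
    intro f _
    rw [map_add, sg_add, hb1, sg_one]
    ring
  linarith

end VSum

open Classical in
theorem V_eq (b : P2 →ₗ[ZMod 2] ZMod 2) (n : ℕ) (hb1 : b 1 = 0) :
    ∑ j ∈ Finset.Icc 1 n, ∑ f ∈ MD j, sg (b f) =
      (if ∀ f ∈ Plt (n + 1), b f = 0 then (2 : ℝ) ^ (n + 1) else 0) - 2 := by
  rw [VSum.sum_all b n hb1]
  congr 1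
  split_ifs with h
  · rw [Finset.sum_congr rfl (fun f hf => by rw [h f hf, sg_zero])]
    rw [Finset.sum_const, card_Plt]
    simp
  · push Not at h
    obtain ⟨f0, hf0, hb⟩ := h
    exact VSum.sum_zero b _ f0 hf0 hb

end

end Pool.Agent.MP196
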