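import Mathlib
import Pool.Agent.Lib.MP_196a10_nt.Base

open Polynomial

namespace Pool.Agent.MP196

noncomputable section

theorem lamA_eq (r : P2) (K : ℕ) (f : P2) :
    lam (t1A r K) (t0A r K) f = (AdjoinRoot.mk r f, AdjoinRoot.mk (X ^ (K + 1)) f.reverse) := by
  have h1 : ∀ (g : P2), algebraMap (ZMod 2) (AdjoinRoot g) = (AdjoinRoot.mk g).comp C := by
    intro g; rfl
  apply Prod.ext
  · show (RingHom.fst _ _) (lam (t1A r K) (t0A r K) f) = AdjoinRoot.mk r f
    unfold lam
    rw [map_sum]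
    simp only [map_mul, map_pow, t1A, t0A, RingHom.coe_fst, one_pow, mul_one]
    conv_rhs => rw [as_sum_range_C_mul_X_pow f]
    rw [map_sum]
    apply Finset.sum_congr rfl
    intro i _
    rw [map_mul, map_pow, AdjoinRoot.mk_X]
    rfl
  · show (RingHom.snd _ _) (lam (t1A r K) (t0A r K) f) = AdjoinRoot.mk _ f.reverse
    unfold lam
    rw [map_sum]
    simp only [map_mul, map_pow, t1A, t0A, RingHom.coe_snd, one_pow, mul_one]
    have h2 : f.reverse = ∑ i ∈ Finset.range (f.natDegree + 1),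
        C (f.coeff i) * X ^ (f.natDegree - i) := by
      ext n
      rw [coeff_reverse, finsetSum_coeff]
      simp only [coeff_C_mul, coeff_X_pow]
      by_cases hn : n ≤ f.natDegree
      · rw [revAt_le hn, Finset.sum_eq_single (f.natDegree - n)]
        · rw [if_pos (by omega), mul_one]
        · intro i hi hne
          rw [Finset.mem_range] at hi
          rw [if_neg (by omega), mul_zero]
        · intro h
          exact absurd (Finset.mem_range.mpr (by omega)) h
      · push Not at hn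
        rw [revAt_eq_self_of_lt hn, coeff_eq_zero_of_natDegree_lt hn, Finset.sum_eq_zero]
        intro i _
        rw [if_neg (by omega), mul_zero]
    rw [h2, map_sum]
    apply Finset.sum_congr rfl
    intro i _
    rw [map_mul, map_pow, AdjoinRoot.mk_X]
    rfl

theorem finite_AA (r : P2) (hr : r ≠ 0) (K : ℕ) : Finite (AA r K) := by
  have h1 : ∀ g : P2, g ≠ 0 → Finite (AdjoinRoot g) := by
    intro g hg
    have h2 : Module.Finite (ZMod 2) (AdjoinRoot g) := (AdjoinRoot.powerBasis hg).finite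
    exact Module.finite_of_finite (ZMod 2)
  have h3 := h1 r hr
  have h4 := h1 (X ^ (K + 1)) (pow_ne_zero _ X_ne_zero)
  exact inferInstanceAs (Finite (AdjoinRoot r × AdjoinRoot (X ^ (K + 1) : P2)))

theorem isUnit_mk_iff (r f : P2) : IsUnit (AdjoinRoot.mk r f) ↔ IsCoprime f r := by
  constructor
  · intro h
    obtain ⟨u, hu⟩ := h
    obtain ⟨g, hg⟩ := AdjoinRoot.mk_surjective ((u⁻¹ : (AdjoinRoot r)ˣ) : AdjoinRoot r)
    have h1 : AdjoinRoot.mk r (f * g) = AdjoinRoot.mk r 1 := by
      rw [map_mul, hg, ← hu, map_one, Units.mul_inv]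
    rw [AdjoinRoot.mk_eq_mk] at h1
    obtain ⟨s, hs⟩ := h1
    exact ⟨g, -s, by linear_combination hs⟩
  · rintro ⟨a, b, hab⟩
    rw [isUnit_iff_exists_inv']
    refine ⟨AdjoinRoot.mk r a, ?_⟩
    rw [← map_mul, ← map_one (AdjoinRoot.mk r), AdjoinRoot.mk_eq_mk]
    exact ⟨-b, by linear_combination hab⟩

theorem isUnit_AA_iff (r : P2) (K : ℕ) (f v : P2) :
    IsUnit ((AdjoinRoot.mk r f, AdjoinRoot.mk (X ^ (K + 1)) v) : AA r K) ↔
      IsCoprime f r ∧ v.coeff 0 = 1 := by
  rw [Prod.isUnit_iff, isUnit_mk_iff, isUnit_mk_iff]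
  apply and_congr Iff.rfl
  rw [IsCoprime.pow_right_iff (Nat.succ_pos K)]
  constructor
  · intro h
    rcases zmod2_cases (v.coeff 0) with h0 | h0
    · exfalso
      have h1 : (X : P2) ∣ v := X_dvd_iff.mpr h0
      have h2 : IsUnit (X : P2) := isUnit_of_dvd_unit (dvd_refl _) (h.isUnit_of_dvd' h1 (dvd_refl _))
      exact not_isUnit_X h2
    · exact h0
  · intro h
    refine IsCoprime.symm ((Irreducible.coprime_iff_not_dvd irreducible_X).mpr ?_)
    rw [X_dvd_iff, h]
    decide

end

end Pool.Agent.MP196
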