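import Mathlib
import Pool.Agent.Lib.MP_196a10_nt.Base

open Polynomial

namespace Pool.Agent.MP196

noncomputable section

namespace PSum

open PowerSeries in
theorem geom_mul (α : ℂ) :
    (1 - PowerSeries.C α * PowerSeries.X) * PowerSeries.mk (fun i => α ^ i) = 1 := by
  ext n
  rw [sub_mul, one_mul, mul_assoc, map_sub, PowerSeries.coeff_C_mul]
  cases n with
  | zero => simp
  | succ n =>
    rw [PowerSeries.coeff_succ_X_mul, PowerSeries.coeff_mk, PowerSeries.coeff_mk,
      PowerSeries.coeff_one]
    simp [pow_succ]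
    ring

theorem logder (s : Multiset ℂ) :
    PowerSeries.derivative ℂ
      ((s.map (fun α => (1 - PowerSeries.C α * PowerSeries.X : PowerSeries ℂ))).prod) =
    (s.map (fun α => (1 - PowerSeries.C α * PowerSeries.X : PowerSeries ℂ))).prod *
      PowerSeries.mk (fun i => - (s.map (fun α => α ^ (i + 1))).sum) := by
  induction s using Multiset.induction_on with
  | empty =>
    simp
    ext n
    simp
  | cons α s ih =>
    rw [Multiset.map_cons, Multiset.prod_cons]
    set f := (s.map (fun α => (1 - PowerSeries.C α * PowerSeries.X : PowerSeries ℂ))).prod with hf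
    have h1 : PowerSeries.derivative ℂ ((1 - PowerSeries.C α * PowerSeries.X) * f) =
        - PowerSeries.C α * f + (1 - PowerSeries.C α * PowerSeries.X) *
          PowerSeries.derivative ℂ f := by
      rw [Derivation.leibniz]
      simp [smul_eq_mul]
      ring
    have h2 : PowerSeries.mk (fun i => - ((α ::ₘ s).map (fun α => α ^ (i + 1))).sum) =
        PowerSeries.mk (fun i => - (s.map (fun α => α ^ (i + 1))).sum) -
          PowerSeries.C α * PowerSeries.mk (fun i => α ^ i) := by
      ext n
      simp [pow_succ]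
      ring
    rw [h1, ih, h2]
    have h3 := geom_mul α
    linear_combination (PowerSeries.C α * f) * h3

theorem prod_norm (s : Multiset ℂ) (hs : ∀ ρ ∈ s, ρ ≠ 0) :
    (s.map (fun ρ => (X - C ρ : ℂ[X]))).prod =
      C ((s.map (fun ρ => -ρ)).prod) * (s.map (fun ρ => (1 - C ρ⁻¹ * X : ℂ[X]))).prod := by
  induction s using Multiset.induction_on with
  | empty => simp
  | cons ρ s ih =>
    rw [Multiset.map_cons, Multiset.map_cons, Multiset.map_cons, Multiset.prod_cons,
      Multiset.prod_cons, Multiset.prod_cons, ih (fun x hx => hs x (Multiset.mem_cons_of_mem hx))]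
    have hρ : ρ ≠ 0 := hs ρ (Multiset.mem_cons_self _ _)
    have h1 : (C ρ * C ρ⁻¹ : ℂ[X]) = 1 := by
      rw [← C_mul, mul_inv_cancel₀ hρ, C_1]
    rw [C_mul, C_neg]
    linear_combination (- (C ((s.map (fun ρ => -ρ)).prod) *
      (s.map (fun ρ => (1 - C ρ⁻¹ * X : ℂ[X]))).prod) * X) * h1

theorem coeff_eq (s : Multiset ℂ) (L : ℂ[X])
    (hL : L = (s.map (fun α => (1 - C α * X : ℂ[X]))).prod) (j : ℕ) :
    (j : ℂ) * L.coeff j = ∑ i ∈ Finset.range j,
      (- (s.map (fun α => α ^ (i + 1))).sum) * L.coeff (j - 1 - i) := by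
  have h1 : (L : PowerSeries ℂ) =
      (s.map (fun α => (1 - PowerSeries.C α * PowerSeries.X : PowerSeries ℂ))).prod := by
    rw [hL]
    have : ∀ f : ℂ[X], (f : PowerSeries ℂ) = Polynomial.coeToPowerSeries.ringHom f :=
      fun f => rfl
    rw [this, map_multiset_prod, Multiset.map_map]
    congr 1
    refine Multiset.map_congr rfl fun x _ => ?_
    simp
  have h2 := logder s
  rw [← h1] at h2
  cases j with
  | zero => simp
  | succ n =>
    have h3 := congrArg (PowerSeries.coeff n) h2
    rw [PowerSeries.coeff_derivative, PowerSeries.coeff_mul, Polynomial.coeff_coe,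
      ← Finset.Nat.sum_antidiagonal_swap,
      Finset.Nat.sum_antidiagonal_eq_sum_range_succ_mk] at h3
    rw [mul_comm]
    push_cast
    rw [h3]
    refine Finset.sum_congr rfl fun i _ => ?_
    simp only [Prod.fst_swap, Prod.snd_swap, PowerSeries.coeff_mk, Polynomial.coeff_coe]
    ring

end PSum

theorem power_sums (a S : ℕ → ℂ) (R : ℕ) (h0 : a 0 = 1) (hR : ∀ j ≥ R, a j = 0)
    (hN : ∀ j : ℕ, (j : ℂ) * a j = ∑ i ∈ Finset.range j, S (i + 1) * a (j - 1 - i)) :
    ∃ (r : ℕ) (α : Fin r → ℂ), r + 1 ≤ R ∧ ∀ j ≥ 1, S j = - ∑ i, α i ^ j := by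
  classical
  set L : ℂ[X] := ∑ j ∈ Finset.range R, C (a j) * X ^ j with hLdef
  have hc : ∀ j, L.coeff j = a j := by
    intro j
    rw [hLdef, Polynomial.finsetSum_coeff]
    simp only [coeff_C_mul, coeff_X_pow, mul_ite, mul_one, mul_zero, Finset.sum_ite_eq,
      Finset.mem_range]
    split_ifs with h
    · rfl
    · exact (hR j (by omega)).symm
  have hL0 : L ≠ 0 := by
    intro h
    have := hc 0
    rw [h, h0] at this
    simp at this
  have hdeg : L.natDegree < R := by
    by_contra hge
    push Not at hge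
    have h1 : L.leadingCoeff = 0 := by
      rw [leadingCoeff, hc]
      exact hR _ hge
    exact hL0 (leadingCoeff_eq_zero.1 h1)
  have hroot : ∀ ρ ∈ L.roots, ρ ≠ 0 := by
    rintro ρ hρ rfl
    have h1 : L.eval 0 = 0 := (mem_roots hL0).1 hρ
    rw [← coeff_zero_eq_eval_zero, hc, h0] at h1
    exact one_ne_zero h1
  have hsplit := (IsAlgClosed.splits L).eq_prod_roots
  rw [PSum.prod_norm _ hroot, ← mul_assoc, ← C_mul] at hsplit
  have h1 : L.leadingCoeff * (L.roots.map (fun ρ => -ρ)).prod = 1 := by
    have h2 := congrArg (fun f => Polynomial.eval 0 f) hsplit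
    simp only [eval_mul, eval_C, eval_multiset_prod, Multiset.map_map] at h2
    rw [← coeff_zero_eq_eval_zero, hc, h0] at h2
    have h3 : (L.roots.map ((eval 0) ∘ (fun ρ => (1 - C ρ⁻¹ * X : ℂ[X])))).prod = 1 := by
      refine Multiset.prod_eq_one ?_
      intro x hx
      obtain ⟨y, -, rfl⟩ := Multiset.mem_map.1 hx
      simp
    rw [h3, mul_one] at h2
    exact h2.symm
  rw [h1, C_1, one_mul] at hsplit
  set s : Multiset ℂ := L.roots.map (fun ρ => ρ⁻¹) with hs
  have hLs : L = (s.map (fun α => (1 - C α * X : ℂ[X]))).prod := by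
    rw [hs, Multiset.map_map]
    exact hsplit
  have hrec := PSum.coeff_eq s L hLs
  simp only [hc] at hrec
  refine ⟨s.toList.length, fun i => s.toList.get i, ?_, ?_⟩
  · rw [Multiset.length_toList, hs, Multiset.card_map]
    have := Polynomial.card_roots' L
    omega
  · intro j hj
    have hsum : ∀ j : ℕ, ∑ i, (s.toList.get i) ^ j = (s.map (fun α => α ^ j)).sum := by
      intro j
      have h2 := Fin.sum_univ_fun_getElem s.toList (fun α => α ^ j)
      have h3 : (s.map (fun α => α ^ j)).sum = (s.toList.map (fun α => α ^ j)).sum := by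
        conv_lhs => rw [← Multiset.coe_toList s]
        rw [Multiset.map_coe, Multiset.sum_coe]
      rw [h3]
      exact h2
    rw [hsum]
    induction j using Nat.strong_induction_on with
    | _ j ih =>
      obtain ⟨n, rfl⟩ : ∃ n, j = n + 1 := ⟨j - 1, by omega⟩
      have e1 := hN (n + 1)
      have e2 := hrec (n + 1)
      rw [e1, Finset.sum_range_succ, Finset.sum_range_succ] at e2
      have e3 : ∑ i ∈ Finset.range n, S (i + 1) * a (n + 1 - 1 - i) =
          ∑ i ∈ Finset.range n, (- (s.map (fun α => α ^ (i + 1))).sum) * a (n + 1 - 1 - i) := by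
        refine Finset.sum_congr rfl fun i hi => ?_
        rw [ih (i + 1) (by have := Finset.mem_range.1 hi; omega) (by omega)]
      rw [e3] at e2
      have e4 : n + 1 - 1 - n = 0 := by omega
      rw [e4, h0, mul_one, mul_one] at e2
      exact add_left_cancel e2

end

end Pool.Agent.MP196
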