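import Mathlib
import Pool.Agent.Lib.MP_196a10_nt.Base

open Polynomial

namespace Pool.Agent.MP196

noncomputable section

namespace RBound

theorem recur_unit {r : ℕ} (u : Fin r → ℂ) (hu : ∀ i, ‖u i‖ = 1) (M : ℕ) :
    ∃ μ ≥ max M 1, ∀ i, 1 / 2 ≤ ((u i) ^ μ).re := by
  obtain ⟨a, -, φ, hφ, hlim⟩ := (isCompact_closedBall (0 : Fin r → ℂ) 1).tendsto_subseq
    (x := fun n : ℕ => fun i => u i ^ n) (by
      intro n
      rw [mem_closedBall_zero_iff, pi_norm_le_iff_of_nonneg (by norm_num)]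
      intro i
      rw [norm_pow, hu i, one_pow])
  have hc := hlim.cauchySeq
  rw [Metric.cauchySeq_iff] at hc
  obtain ⟨N, hN⟩ := hc (1 / 2) (by norm_num)
  have h1 := hN (max M 1 + N) (by omega) N le_rfl
  have hle : max M 1 + φ N ≤ φ (max M 1 + N) := hφ.add_le_nat _ _
  refine ⟨φ (max M 1 + N) - φ N, by omega, fun i => ?_⟩
  have h2 : dist (u i ^ (φ (max M 1 + N))) (u i ^ (φ N)) < 1 / 2 :=
    lt_of_le_of_lt (dist_le_pi_dist (fun i => u i ^ (φ (max M 1 + N)))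
      (fun i => u i ^ (φ N)) i) h1
  have h3 : u i ^ (φ (max M 1 + N)) = u i ^ (φ N) * u i ^ (φ (max M 1 + N) - φ N) := by
    rw [← pow_add]
    congr 1
    omega
  set w := u i ^ (φ (max M 1 + N) - φ N) with hw
  have h4 : ‖w - 1‖ < 1 / 2 := by
    rw [dist_eq_norm, h3] at h2
    have : u i ^ (φ N) * w - u i ^ (φ N) = u i ^ (φ N) * (w - 1) := by ring
    rw [this, norm_mul, norm_pow, hu i, one_pow, one_mul] at h2
    exact h2
  have h5 : |(w - 1).re| ≤ ‖w - 1‖ := Complex.abs_re_le_norm _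
  have h6 : (w - 1).re = w.re - 1 := by simp
  rw [h6, abs_le] at h5
  linarith [h5.1]

theorem recur {r : ℕ} (β : Fin r → ℂ) (M : ℕ) :
    ∃ μ ≥ max M 1, ∀ i, ‖β i‖ ^ μ / 2 ≤ ((β i) ^ μ).re := by
  obtain ⟨μ, hμ, h⟩ := recur_unit (fun i => if β i = 0 then 1 else β i / (‖β i‖ : ℂ)) (by
    intro i
    by_cases h : β i = 0
    · simp [h]
    · simp [h]) M
  refine ⟨μ, hμ, fun i => ?_⟩
  have hμ1 : μ ≠ 0 := by
    have := le_max_right M 1
    omega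
  by_cases h0 : β i = 0
  · rw [h0, norm_zero, zero_pow hμ1, zero_pow hμ1]
    simp
  · have hi := h i
    simp only [h0, if_false] at hi
    have hn : (‖β i‖ : ℂ) ≠ 0 := by
      simpa using h0
    have he : β i ^ μ = ((‖β i‖ ^ μ : ℝ) : ℂ) * (β i / (‖β i‖ : ℂ)) ^ μ := by
      rw [div_pow]
      push_cast
      field_simp
    rw [he, Complex.re_ofReal_mul]
    have hp : 0 ≤ ‖β i‖ ^ μ := by positivity
    nlinarith

end RBound

theorem root_bound {r : ℕ} (α : Fin r → ℂ) (t : ℕ) (ht : 1 ≤ t) (c ρ : ℝ) (hρ : 0 < ρ) (μ0 : ℕ)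
    (h : ∀ μ ≥ μ0, ‖∑ i, α i ^ (t * μ)‖ ≤ c * ρ ^ (t * μ)) (i : Fin r) : ‖α i‖ ≤ ρ := by
  by_contra hlt
  push Not at hlt
  have hρc : (ρ : ℂ) ≠ 0 := by
    exact_mod_cast hρ.ne'
  have hβ : 1 < ‖(α i / (ρ : ℂ)) ^ t‖ := by
    rw [norm_pow, norm_div, Complex.norm_real, Real.norm_of_nonneg hρ.le]
    exact one_lt_pow₀ ((one_lt_div hρ).2 hlt) (by omega)
  obtain ⟨n0, hn0⟩ := (((tendsto_pow_atTop_atTop_of_one_lt hβ).eventually_gt_atTop (2 * c))).exists_forall_of_atTop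
  obtain ⟨μ, hμ, hre⟩ := RBound.recur (fun k => (α k / (ρ : ℂ)) ^ t) (max μ0 n0)
  have hμ0 : μ0 ≤ μ := le_trans (le_trans (le_max_left _ _) (le_max_left _ 1)) hμ
  have hμ1 : n0 ≤ μ := le_trans (le_trans (le_max_right _ _) (le_max_left _ 1)) hμ
  have hb := h μ hμ0
  have hsum : ∑ k, ((α k / (ρ : ℂ)) ^ t) ^ μ = (∑ k, α k ^ (t * μ)) / (ρ : ℂ) ^ (t * μ) := by
    rw [Finset.sum_div]
    refine Finset.sum_congr rfl fun k _ => ?_
    rw [← pow_mul, div_pow]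
  have hnorm : ‖∑ k, ((α k / (ρ : ℂ)) ^ t) ^ μ‖ ≤ c := by
    rw [hsum, norm_div, norm_pow, Complex.norm_real, Real.norm_of_nonneg hρ.le]
    rw [div_le_iff₀ (by positivity)]
    exact hb
  have hre2 : (∑ k, ((α k / (ρ : ℂ)) ^ t) ^ μ).re ≤ c :=
    le_trans (le_trans (le_abs_self _) (Complex.abs_re_le_norm _)) hnorm
  rw [Complex.re_sum] at hre2
  have hge : ‖(α i / (ρ : ℂ)) ^ t‖ ^ μ / 2 ≤ ∑ k, (((α k / (ρ : ℂ)) ^ t) ^ μ).re := by
    refine le_trans (hre i) ?_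
    refine Finset.single_le_sum (f := fun k => (((α k / (ρ : ℂ)) ^ t) ^ μ).re) (fun k _ => ?_)
      (Finset.mem_univ i)
    refine le_trans ?_ (hre k)
    positivity
  have := hn0 μ hμ1
  linarith

theorem no_pole {r : ℕ} (α : Fin r → ℂ) (t : ℕ) (z : ℂ) (hz : 1 < ‖z‖) (c : ℝ) (μ0 : ℕ)
    (h : ∀ μ ≥ μ0, ‖(- ∑ i, α i ^ (t * μ)) - z ^ μ‖ ≤ c) : False := by
  have hz0 : z ≠ 0 := by
    rintro rfl
    simp at hz
    linarith
  obtain ⟨n0, hn0⟩ := (((tendsto_pow_atTop_atTop_of_one_lt hz).eventually_gt_atTop c)).exists_forall_of_atTop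
  obtain ⟨μ, hμ, hre⟩ := RBound.recur (fun k => α k ^ t / z) (max μ0 n0)
  have hμ0 : μ0 ≤ μ := le_trans (le_trans (le_max_left _ _) (le_max_left _ 1)) hμ
  have hμ1 : n0 ≤ μ := le_trans (le_trans (le_max_right _ _) (le_max_left _ 1)) hμ
  have hb := h μ hμ0
  have hsum : (∑ k, (α k ^ t / z) ^ μ) + 1 = -(((- ∑ k, α k ^ (t * μ)) - z ^ μ)) / z ^ μ := by
    have h1 : ∑ k, (α k ^ t / z) ^ μ = (∑ k, α k ^ (t * μ)) / z ^ μ := by
      rw [Finset.sum_div]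
      refine Finset.sum_congr rfl fun k _ => ?_
      rw [div_pow, ← pow_mul]
    rw [h1]
    field_simp
    ring
  have hzp : 0 < ‖z‖ ^ μ := by positivity
  have hnorm : ‖(∑ k, (α k ^ t / z) ^ μ) + 1‖ ≤ c / ‖z‖ ^ μ := by
    rw [hsum, norm_div, norm_neg, norm_pow]
    exact div_le_div_of_nonneg_right hb hzp.le
  have hre2 : ((∑ k, (α k ^ t / z) ^ μ) + 1).re ≤ c / ‖z‖ ^ μ :=
    le_trans (le_trans (le_abs_self _) (Complex.abs_re_le_norm _)) hnorm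
  rw [Complex.add_re, Complex.re_sum, Complex.one_re] at hre2
  have hge : 0 ≤ ∑ k, ((α k ^ t / z) ^ μ).re := by
    refine Finset.sum_nonneg fun k _ => ?_
    refine le_trans ?_ (hre k)
    positivity
  have h2 : 1 ≤ c / ‖z‖ ^ μ := by linarith
  rw [le_div_iff₀ hzp] at h2
  have := hn0 μ hμ1
  linarith

end

end Pool.Agent.MP196
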