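import Mathlib
import Pool.Agent.Lib.MP_196a10_nt.Base
import Pool.Agent.Lib.MP_196a10_nt.Eqa
import Pool.Agent.Lib.MP_196a10_nt.PSum
import Pool.Agent.Lib.MP_196a10_nt.RBound
import Pool.Agent.Lib.MP_196a10_nt.Newton

open Polynomial

namespace Pool.Agent.MP196

noncomputable section

namespace Rha

theorem norm_of_isUnit {A : Type} [CommRing A] [Finite A] (ψ : MulChar A ℂ) {a : A}
    (ha : IsUnit a) : ‖ψ a‖ = 1 := by
  classical
  have := Fintype.ofFinite A
  obtain ⟨u, rfl⟩ := ha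
  have h1 : (ψ u) ^ (Fintype.card Aˣ) = 1 := by
    rw [← map_pow, ← Units.val_pow_eq_pow_val, pow_card_eq_one, Units.val_one, map_one]
  exact Complex.norm_eq_one_of_pow_eq_one h1 Fintype.card_ne_zero

end Rha

open Rha in
theorem rh_char (A : Type) [CommRing A] [Finite A] [Nontrivial A] [Algebra (ZMod 2) A]
    (t1 t0 : A) (Ps : P2) (hPs : Irreducible Ps) (hu : IsUnit (lam t1 t0 Ps))
    (ψ : MulChar A ℂ) (R : ℕ) (hR : ∀ j ≥ R, ∑ f ∈ MD j, ψ (lam t1 t0 f) = 0)
    (j : ℕ) (hj : 1 ≤ j) : ‖SS t1 t0 ψ j‖ ≤ R * (Real.sqrt 2) ^ j := by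
  have hm : ∀ f g : P2, f ≠ 0 → g ≠ 0 →
      ψ (lam t1 t0 (f * g)) = ψ (lam t1 t0 f) * ψ (lam t1 t0 g) := by
    intro f g hf hg
    rw [lam_mul t1 t0 hf hg, map_mul]
  obtain ⟨r, α, hr, hα⟩ := power_sums (fun j => ∑ f ∈ MD j, ψ (lam t1 t0 f))
    (fun j => SS t1 t0 ψ j) R (by simp [MD_zero, lam_one]) hR
    (fun j => newton (fun f => ψ (lam t1 t0 f)) hm j)
  obtain ⟨H, c, μ0, hH⟩ := eqa A t1 t0 Ps hPs hu
  have hd : 1 ≤ Ps.natDegree := hPs.natDegree_pos
  have hbound : ∀ i, ‖α i‖ ≤ Real.sqrt 2 := by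
    by_cases htriv : ∀ h ∈ H, ψ ((h : Aˣ) : A) = 1
    · exfalso
      refine no_pole α (2 * Ps.natDegree) (ψ (lam t1 t0 Ps) ^ 2 * 2 ^ (2 * Ps.natDegree)) ?_ c
        (max μ0 1) ?_
      · rw [norm_mul, norm_pow, norm_of_isUnit ψ hu, norm_pow]
        simp only [one_pow, one_mul, Complex.norm_ofNat]
        exact one_lt_pow₀ (by norm_num) (by omega)
      · intro μ hμ
        have h1 := (hH μ (le_trans (le_max_left _ _) hμ) ψ).1 htriv
        have hμ1 : 1 ≤ μ := le_trans (le_max_right μ0 1) hμ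
        have h2 : 1 ≤ 2 * μ * Ps.natDegree := by
          have := Nat.mul_le_mul hμ1 hd
          nlinarith
        rw [hα _ h2] at h1
        have h3 : 2 * Ps.natDegree * μ = 2 * μ * Ps.natDegree := by ring
        rw [h3, mul_pow, ← pow_mul, ← pow_mul, h3]
        exact h1
    · push Not at htriv
      have hc : ∃ h ∈ H, ψ ((h : Aˣ) : A) ≠ 1 := htriv
      refine root_bound α (2 * Ps.natDegree) (by omega) c (Real.sqrt 2) (by positivity)
        (max μ0 1) ?_
      intro μ hμ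
      have h1 := (hH μ (le_trans (le_max_left _ _) hμ) ψ).2 hc
      have hμ1 : 1 ≤ μ := le_trans (le_max_right μ0 1) hμ
      have h2 : 1 ≤ 2 * μ * Ps.natDegree := by
        have := Nat.mul_le_mul hμ1 hd
        nlinarith
      rw [hα _ h2, norm_neg] at h1
      have h3 : 2 * Ps.natDegree * μ = 2 * μ * Ps.natDegree := by ring
      have h4 : Real.sqrt 2 ^ (2 * Ps.natDegree * μ) = 2 ^ (μ * Ps.natDegree) := by
        have h5 : 2 * Ps.natDegree * μ = 2 * (μ * Ps.natDegree) := by ring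
        rw [h5, pow_mul, Real.sq_sqrt (by norm_num)]
      rw [h4, h3]
      exact h1
  rw [hα j hj, norm_neg]
  calc ‖∑ i, α i ^ j‖ ≤ ∑ i, ‖α i ^ j‖ := norm_sum_le _ _
    _ ≤ ∑ _i : Fin r, Real.sqrt 2 ^ j := by
        apply Finset.sum_le_sum
        intro i _
        rw [norm_pow]
        exact pow_le_pow_left₀ (norm_nonneg _) (hbound i) j
    _ = r * Real.sqrt 2 ^ j := by simp
    _ ≤ R * Real.sqrt 2 ^ j := by
        apply mul_le_mul_of_nonneg_right _ (by positivity)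
        exact_mod_cast (by omega : r ≤ R)

end

end Pool.Agent.MP196
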