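import Mathlib
import Pool.Agent.Lib.MP_196a10_nt.Base
import Pool.Agent.Lib.MP_196a10_nt.LamA

open Polynomial

namespace Pool.Agent.MP196

noncomputable section

namespace Van

/-- the constant coefficient of the second component -/
def ep (r : P2) (K : ℕ) : AA r K →+* ZMod 2 :=
  (AdjoinRoot.lift (RingHom.id (ZMod 2)) 0 (by simp)).comp (RingHom.snd _ _)

theorem ep_mk (r : P2) (K : ℕ) (y : AdjoinRoot r) (v : P2) :
    ep r K (y, AdjoinRoot.mk (X ^ (K + 1)) v) = v.coeff 0 := by
  unfold ep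
  simp only [RingHom.coe_comp, Function.comp_apply, RingHom.coe_snd, AdjoinRoot.lift_mk]
  rw [eval₂_at_zero]
  simp

theorem ep_unit {r : P2} {K : ℕ} {x : AA r K} (hx : IsUnit x) : ep r K x = 1 := by
  have h1 : IsUnit (ep r K x) := hx.map (ep r K)
  rcases zmod2_cases (ep r K x) with h | h
  · rw [h] at h1
    exact absurd h1 not_isUnit_zero
  · exact h

theorem add_mem_MD {j : ℕ} {f d : P2} (hf : f ∈ MD j) (hd : d ∈ Plt j) : f + d ∈ MD j := by
  rw [mem_MD] at *
  rw [mem_Plt] at hd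
  rw [degree_add_eq_left_of_degree_lt (by rwa [hf]), hf]

theorem L_add (r : P2) (K : ℕ) {j : ℕ} {f d : P2} (hf : f ∈ MD j) (hd : d ∈ Plt j) :
    lam (t1A r K) (t0A r K) (f + d) = lam (t1A r K) (t0A r K) f +
      (AdjoinRoot.mk r d, AdjoinRoot.mk (X ^ (K + 1)) (d.reflect j)) := by
  rw [lamA_eq, lamA_eq]
  have h1 : f.natDegree = j := natDegree_of_mem_MD hf
  have h2 : (f + d).natDegree = j := natDegree_of_mem_MD (add_mem_MD hf hd)
  unfold reverse
  rw [h1, h2, reflect_add, map_add, map_add]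
  rfl

theorem ep_L (r : P2) (K : ℕ) {j : ℕ} {f : P2} (hf : f ∈ MD j) :
    ep r K (lam (t1A r K) (t0A r K) f) = 1 := by
  rw [lamA_eq, ep_mk, coeff_zero_reverse]
  exact monic_of_ne (ne_zero_of_mem_MD hf)

/-- surjectivity of the linear part -/
theorem exists_d (r : P2) (hr : r ≠ 0) (K j : ℕ) (hj : r.natDegree + K ≤ j) (δ : AA r K)
    (hδ : ep r K δ = 0) :
    ∃ d ∈ Plt j, (AdjoinRoot.mk r d, AdjoinRoot.mk (X ^ (K + 1)) (d.reflect j)) = δ := by
  obtain ⟨y₀, w₀⟩ := δ
  obtain ⟨y, rfl⟩ := AdjoinRoot.mk_surjective y₀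
  obtain ⟨w, rfl⟩ := AdjoinRoot.mk_surjective w₀
  rw [ep_mk] at hδ
  have hX : (X ^ (K + 1) : P2).Monic := monic_X_pow _
  have hrm : r.Monic := monic_of_ne hr
  set w' : P2 := w %ₘ X ^ (K + 1) with hw'
  have hw'd : w'.degree < (K + 1 : ℕ) := by
    have := degree_modByMonic_lt w hX
    rwa [degree_X_pow] at this
  have hw'c : ∀ i, K < i → w'.coeff i = 0 := fun i hi => by
    apply coeff_eq_zero_of_degree_lt
    refine hw'd.trans_le ?_
    exact_mod_cast hi
  have hw'0 : w'.coeff 0 = 0 := by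
    have h1 : w = w' + X ^ (K + 1) * (w /ₘ X ^ (K + 1)) := by
      rw [hw']; exact (modByMonic_add_div w (X ^ (K + 1))).symm
    have h2 := congrArg (fun p : P2 => p.coeff 0) h1
    simp only [coeff_add, hδ] at h2
    rw [mul_coeff_zero, coeff_X_pow, if_neg (by omega), zero_mul, add_zero] at h2
    exact h2.symm
  set d₁ : P2 := w'.reflect j with hd₁
  have hd₁c : ∀ i, d₁.coeff i = w'.coeff (revAt j i) := fun i => by rw [hd₁, coeff_reflect]
  have hd₁m : d₁ ∈ Plt j := by
    rw [mem_Plt, degree_lt_iff_coeff_zero]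
    intro i hi
    rw [hd₁c]
    rcases eq_or_lt_of_le hi with h | h
    · rw [← h, revAt_le le_rfl, Nat.sub_self, hw'0]
    · rw [revAt_eq_self_of_lt h]
      exact hw'c i (by omega)
  set e : P2 := (y - d₁) %ₘ r with he
  have hed : e.degree < (j - K : ℕ) := by
    have h1 := degree_modByMonic_lt (y - d₁) hrm
    refine h1.trans_le ?_
    rw [degree_eq_natDegree hr]
    exact_mod_cast (by omega : r.natDegree ≤ j - K)
  have hem : e ∈ Plt j := by
    rw [mem_Plt]
    refine hed.trans_le ?_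
    exact_mod_cast Nat.sub_le j K
  refine ⟨d₁ + e, add_mem_Plt hd₁m hem, ?_⟩
  have h1 : AdjoinRoot.mk r (d₁ + e) = AdjoinRoot.mk r y := by
    rw [AdjoinRoot.mk_eq_mk]
    have h2 : y - d₁ = e + r * ((y - d₁) /ₘ r) := by
      rw [he]; exact (modByMonic_add_div (y - d₁) r).symm
    refine ⟨-((y - d₁) /ₘ r), ?_⟩
    linear_combination (-1 : P2) * h2
  have h2 : AdjoinRoot.mk (X ^ (K + 1) : P2) ((d₁ + e).reflect j) =
      AdjoinRoot.mk (X ^ (K + 1)) w := by
    rw [AdjoinRoot.mk_eq_mk, reflect_add]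
    have h3 : d₁.reflect j = w' := by
      ext i
      rw [coeff_reflect, hd₁c, revAt_invol]
    rw [h3]
    have h4 : (X ^ (K + 1) : P2) ∣ w' - w := by
      refine ⟨-(w /ₘ X ^ (K + 1)), ?_⟩
      have h5 : w = w' + X ^ (K + 1) * (w /ₘ X ^ (K + 1)) := by
        rw [hw']; exact (modByMonic_add_div w (X ^ (K + 1))).symm
      conv_lhs => rw [h5]
      ring
    have h6 : (X ^ (K + 1) : P2) ∣ e.reflect j := by
      rw [X_pow_dvd_iff]
      intro i hi
      rw [coeff_reflect]
      apply coeff_eq_zero_of_degree_lt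
      have h7 : revAt j i = j - i := revAt_le (by omega)
      rw [h7]
      refine hed.trans_le ?_
      exact_mod_cast (by omega : j - K ≤ j - i)
    have h8 : w' + e.reflect j - w = (w' - w) + e.reflect j := by ring
    rw [h8]
    exact dvd_add h4 h6
  rw [h1, h2]

end Van

open Van in
theorem sum_char_zero (r : P2) (hr : r ≠ 0) (K j : ℕ) (hj : r.natDegree + K ≤ j)
    (ψ : MulChar (AA r K) ℂ) (hψ : ψ ≠ 1) :
    ∑ f ∈ MD j, ψ (lam (t1A r K) (t0A r K) f) = 0 := by
  classical
  have := finite_AA r hr K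
  let _ : Fintype (AA r K) := Fintype.ofFinite _
  obtain ⟨x, hx⟩ := MulChar.ne_one_iff.1 hψ
  set L : P2 → AA r K := fun f => lam (t1A r K) (t0A r K) f with hL
  set N : AA r K → ℕ := fun h => ((MD j).filter (fun f => L f = h)).card with hN
  -- the fibres have equal cardinality
  have hcomp : ∀ h h' : AA r K, ep r K h = 1 → ep r K h' = 1 → N h ≤ N h' := by
    intro h h' h1 h2
    obtain ⟨d, hd, hd2⟩ := exists_d r hr K j hj (h' - h) (by rw [map_sub, h1, h2, sub_self])
    refine Finset.card_le_card_of_injOn (fun f => f + d) ?_ ?_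
    · intro f hf
      simp only [Finset.coe_filter, Set.mem_ofPred_eq] at hf ⊢
      refine ⟨add_mem_MD hf.1 hd, ?_⟩
      have h3 := L_add r K hf.1 hd
      rw [hd2] at h3
      show L (f + d) = h'
      rw [hL]
      simp only
      rw [h3]
      have h4 : lam (t1A r K) (t0A r K) f = h := hf.2
      rw [h4]
      ring
    · intro f _ g _ hfg
      exact add_right_cancel hfg
  have hzero : ∀ h : AA r K, ep r K h ≠ 1 → N h = 0 := by
    intro h hh
    rw [hN]
    simp only
    rw [Finset.card_eq_zero, Finset.filter_eq_empty_iff]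
    intro f hf hfh
    apply hh
    rw [← hfh]
    exact ep_L r K hf
  have hinv : ∀ h : AA r K, N ((x : AA r K) * h) = N h := by
    intro h
    have h1 : ep r K ((x : AA r K) * h) = ep r K h := by
      rw [map_mul, ep_unit x.isUnit, one_mul]
    by_cases h2 : ep r K h = 1
    · exact le_antisymm (hcomp _ _ (h1.trans h2) h2) (hcomp _ _ h2 (h1.trans h2))
    · rw [hzero h h2, hzero _ (by rwa [h1])]
  have hsum : ∑ f ∈ MD j, ψ (L f) = ∑ h : AA r K, (N h : ℂ) * ψ h := by
    rw [← Finset.sum_fiberwise (MD j) L]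
    refine Finset.sum_congr rfl (fun h _ => ?_)
    rw [Finset.sum_congr rfl (g := fun _ => ψ h) (fun f hf => by rw [(Finset.mem_filter.1 hf).2])]
    rw [Finset.sum_const, nsmul_eq_mul]
  have hs2 : ∑ h : AA r K, (N h : ℂ) * ψ h = ψ x * ∑ h : AA r K, (N h : ℂ) * ψ h := by
    calc ∑ h : AA r K, (N h : ℂ) * ψ h
        = ∑ h : AA r K, (N ((x : AA r K) * h) : ℂ) * ψ ((x : AA r K) * h) :=
          (Equiv.sum_comp (Units.mulLeft x : AA r K ≃ AA r K) (fun h => (N h : ℂ) * ψ h)).symm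
      _ = ψ x * ∑ h : AA r K, (N h : ℂ) * ψ h := by
          rw [Finset.mul_sum]
          refine Finset.sum_congr rfl (fun h _ => ?_)
          rw [hinv, map_mul]
          ring
  have h3 : (1 - ψ x) * ∑ h : AA r K, (N h : ℂ) * ψ h = 0 := by
    rw [sub_mul, one_mul, ← hs2, sub_self]
  have h4 : (1 - ψ (x : AA r K)) ≠ 0 := sub_ne_zero.2 (Ne.symm hx)
  rw [hL] at hsum
  simp only at hsum
  rw [hsum]
  exact (mul_eq_zero.1 h3).resolve_left h4

end

end Pool.Agent.MP196
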