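import Mathlib
import Pool.Agent.Lib.MP_196a10_nt.Base
import Pool.Agent.Lib.MP_196a10_nt.Rha
import Pool.Agent.Lib.MP_196a10_nt.Van
import Pool.Agent.Lib.MP_196a10_nt.LamA

open Polynomial

namespace Pool.Agent.MP196

noncomputable section

theorem RhAA.exists_irr (r : P2) (hr : r ≠ 0) : ∃ P : P2, Irreducible P ∧ IsCoprime P r := by
  have h1 : (X * r + 1 : P2).natDegree = r.natDegree + 1 := by
    rw [natDegree_add_eq_left_of_natDegree_lt]
    · rw [natDegree_X_mul hr]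
    · rw [natDegree_X_mul hr, natDegree_one]; omega
  have h2 : ¬ IsUnit (X * r + 1 : P2) := by
    intro h
    rw [isUnit_iff_one] at h
    rw [h, natDegree_one] at h1
    omega
  have h3 : (X * r + 1 : P2) ≠ 0 := by
    intro h
    rw [h, natDegree_zero] at h1
    omega
  obtain ⟨P, hP, hd⟩ := WfDvdMonoid.exists_irreducible_factor h2 h3
  refine ⟨P, hP, ?_⟩
  obtain ⟨s, hs⟩ := hd
  refine ⟨s, -X, ?_⟩
  rw [mul_comm s P, ← hs]
  ring

theorem rh_AA (r : P2) (hr : r ≠ 0) (K : ℕ) (ψ : MulChar (AA r K) ℂ) (hψ : ψ ≠ 1) (j : ℕ)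
    (hj : 1 ≤ j) :
    ‖SS (t1A r K) (t0A r K) ψ j‖ ≤ ((r.natDegree + K : ℕ) : ℝ) * (Real.sqrt 2) ^ j := by
  have hfin := finite_AA r hr K
  have hnt : Nontrivial (AdjoinRoot (X ^ (K + 1) : P2)) := by
    apply AdjoinRoot.nontrivial
    rw [degree_X_pow]
    have : (0 : WithBot ℕ) < ((K + 1 : ℕ) : WithBot ℕ) := by exact_mod_cast Nat.succ_pos K
    exact this.ne'
  have hne : Nonempty (AdjoinRoot r) := ⟨0⟩
  have : Nontrivial (AA r K) := nontrivial_prod_right
  obtain ⟨P, hP, hc⟩ := RhAA.exists_irr r hr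
  apply rh_char (AA r K) (t1A r K) (t0A r K) P hP
  · rw [lamA_eq, isUnit_AA_iff]
    refine ⟨hc, ?_⟩
    rw [coeff_zero_reverse]
    exact monic_of_ne hP.ne_zero
  · intro i hi
    exact sum_char_zero r hr K i hi ψ hψ
  · exact hj

end

end Pool.Agent.MP196
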