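import Mathlib
import Pool.Agent.Lib.MP_196a10_nt.Base
import Pool.Agent.Lib.MP_196a10_nt.LamA

open Polynomial

namespace Pool.Agent.MP196

noncomputable section

namespace Units17

theorem mk_inj {g : P2} (hg : g ≠ 0) {d : ℕ} (hd : g.natDegree = d) {u u' : P2}
    (hu : u ∈ Plt d) (hu' : u' ∈ Plt d) (h : AdjoinRoot.mk g u = AdjoinRoot.mk g u') :
    u = u' := by
  rw [AdjoinRoot.mk_eq_mk] at h
  have h1 : u - u' ∈ Plt d := by
    rw [sub_eq_add_P2]
    exact add_mem_Plt hu hu'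
  rw [mem_Plt] at h1
  have h2 : (u - u').degree < g.degree := by
    rw [degree_eq_natDegree hg, hd]
    exact h1
  have h3 : u - u' = 0 := eq_zero_of_dvd_of_degree_lt h h2
  exact sub_eq_zero.mp h3

theorem mk_surj {g : P2} (hg : g ≠ 0) {d : ℕ} (hd : g.natDegree = d) (x : AdjoinRoot g) :
    ∃ u ∈ Plt d, AdjoinRoot.mk g u = x := by
  obtain ⟨f, rfl⟩ := AdjoinRoot.mk_surjective x
  refine ⟨f %ₘ g, ?_, ?_⟩
  · rw [mem_Plt]
    have := degree_modByMonic_lt f (monic_of_ne hg)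
    rwa [degree_eq_natDegree hg, hd] at this
  · rw [AdjoinRoot.mk_eq_mk]
    have h := modByMonic_add_div f g
    refine ⟨-(f /ₘ g), ?_⟩
    calc f %ₘ g - f = f %ₘ g - (f %ₘ g + g * (f /ₘ g)) := by rw [h]
      _ = g * -(f /ₘ g) := by ring

theorem card_V1 (K : ℕ) : (V1 K).card = 2 ^ K := by
  classical
  have h1 : (V1 K).card = ((Plt (K + 1)).filter (fun v => ¬ v.coeff 0 = 1)).card := by
    unfold V1
    refine Finset.card_bij' (fun v _ => v + 1) (fun v _ => v + 1) ?_ ?_ ?_ ?_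
    · intro v hv
      simp only [Finset.mem_filter] at hv ⊢
      refine ⟨add_mem_Plt hv.1 ?_, ?_⟩
      · rw [mem_Plt, degree_one]
        exact_mod_cast Nat.succ_pos K
      · rw [coeff_add, hv.2, coeff_one_zero]
        decide
    · intro v hv
      simp only [Finset.mem_filter] at hv ⊢
      refine ⟨add_mem_Plt hv.1 ?_, ?_⟩
      · rw [mem_Plt, degree_one]
        exact_mod_cast Nat.succ_pos K
      · rw [coeff_add, coeff_one_zero]
        rcases zmod2_cases (v.coeff 0) with h | h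
        · rw [h]; rfl
        · exact absurd h hv.2
    · intro v _
      rw [add_assoc, add_self_P2, add_zero]
    · intro v _
      rw [add_assoc, add_self_P2, add_zero]
  have h2 : (V1 K).card + ((Plt (K + 1)).filter (fun v => ¬ v.coeff 0 = 1)).card =
      (Plt (K + 1)).card := by
    unfold V1
    exact Finset.card_filter_add_card_filter_not (s := Plt (K + 1)) (fun v : P2 => v.coeff 0 = 1)
  rw [← h1, card_Plt, pow_succ] at h2
  omega

end Units17

open Units17

theorem sum_units (r : P2) (hr : r ≠ 0) (K : ℕ) [Fintype (AA r K)] (F : AA r K → ℂ)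
    (hF : ∀ x, ¬ IsUnit x → F x = 0) :
    ∑ x, F x = ∑ u ∈ Cop r, ∑ v ∈ V1 K, F (AdjoinRoot.mk r u, AdjoinRoot.mk (X ^ (K + 1)) v) := by
  classical
  have hX : (X ^ (K + 1) : P2) ≠ 0 := pow_ne_zero _ X_ne_zero
  have hXd : (X ^ (K + 1) : P2).natDegree = K + 1 := natDegree_X_pow _
  have himg : (Finset.univ : Finset (AA r K)) = (Plt r.natDegree ×ˢ Plt (K + 1)).image
      (fun p => (AdjoinRoot.mk r p.1, AdjoinRoot.mk (X ^ (K + 1)) p.2)) := by
    symm
    rw [Finset.eq_univ_iff_forall]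
    rintro ⟨x, y⟩
    obtain ⟨u, hu, rfl⟩ := mk_surj hr rfl x
    obtain ⟨v, hv, rfl⟩ := mk_surj hX hXd y
    rw [Finset.mem_image]
    exact ⟨(u, v), Finset.mem_product.mpr ⟨hu, hv⟩, rfl⟩
  rw [himg, Finset.sum_image, Finset.sum_product]
  · have h1 : ∑ u ∈ Cop r, ∑ v ∈ Plt (K + 1),
        F (AdjoinRoot.mk r u, AdjoinRoot.mk (X ^ (K + 1)) v) =
        ∑ u ∈ Plt r.natDegree, ∑ v ∈ Plt (K + 1),
        F (AdjoinRoot.mk r u, AdjoinRoot.mk (X ^ (K + 1)) v) := by
      refine Finset.sum_subset (Finset.filter_subset _ _) ?_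
      intro u hu hu'
      refine Finset.sum_eq_zero (fun v _ => hF _ ?_)
      rw [isUnit_AA_iff]
      rintro ⟨h, _⟩
      apply hu'
      unfold Cop
      rw [Finset.mem_filter]
      exact ⟨hu, h⟩
    rw [← h1]
    refine Finset.sum_congr rfl (fun u _ => ?_)
    symm
    refine Finset.sum_subset (Finset.filter_subset _ _) ?_
    intro v hv hv'
    apply hF
    rw [isUnit_AA_iff]
    rintro ⟨_, h⟩
    apply hv'
    unfold V1
    rw [Finset.mem_filter]
    exact ⟨hv, h⟩
  · rintro ⟨u, v⟩ huv ⟨u', v'⟩ huv' h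
    rw [Finset.mem_coe, Finset.mem_product] at huv huv'
    rw [Prod.mk.injEq] at h
    rw [Prod.mk.injEq]
    exact ⟨mk_inj hr rfl huv.1 huv'.1 h.1, mk_inj hX hXd huv.2 huv'.2 h.2⟩

theorem card_units_AA (r : P2) (hr : r ≠ 0) (K : ℕ) :
    Nat.card (AA r K)ˣ = ph r * 2 ^ K := by
  classical
  have hfin : Finite (AA r K) := finite_AA r hr K
  letI : Fintype (AA r K) := Fintype.ofFinite _
  have h1 := sum_units r hr K (fun x => if IsUnit x then (1 : ℂ) else 0)
    (fun x hx => if_neg hx)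
  have h2 : ∀ u ∈ Cop r, ∀ v ∈ V1 K,
      (if IsUnit ((AdjoinRoot.mk r u, AdjoinRoot.mk (X ^ (K + 1)) v) : AA r K)
        then (1 : ℂ) else 0) = 1 := by
    intro u hu v hv
    unfold Cop at hu
    unfold V1 at hv
    rw [Finset.mem_filter] at hu hv
    rw [if_pos]
    rw [isUnit_AA_iff]
    exact ⟨hu.2, hv.2⟩
  rw [Finset.sum_congr rfl (fun u hu => Finset.sum_congr rfl (fun v hv => h2 u hu v hv)),
    Finset.sum_boole] at h1
  simp only [Finset.sum_const, card_V1, nsmul_eq_mul, mul_one] at h1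
  have h3 : Nat.card (AA r K)ˣ = (Finset.univ.filter (fun x : AA r K => IsUnit x)).card := by
    rw [← Fintype.card_subtype, ← Nat.card_eq_fintype_card]
    refine Nat.card_congr (Equiv.ofBijective
      (fun u : (AA r K)ˣ => (⟨(u : AA r K), u.isUnit⟩ : {x : AA r K // IsUnit x})) ⟨?_, ?_⟩)
    · intro u v h
      exact Units.ext (congrArg Subtype.val h)
    · rintro ⟨x, hx⟩
      obtain ⟨u, rfl⟩ := hx
      exact ⟨u, rfl⟩
  rw [h3]
  unfold ph
  have h4 : ((Finset.univ.filter (fun x : AA r K => IsUnit x)).card : ℂ) =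
      (((Cop r).card * 2 ^ K : ℕ) : ℂ) := by
    rw [h1]
    push_cast
    rfl
  exact_mod_cast h4

end

end Pool.Agent.MP196
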