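import Mathlib
import Pool.Agent.Lib.MP_196a10_nt.Base
import Pool.Agent.Lib.MP_196a10_nt.RhAA
import Pool.Agent.Lib.MP_196a10_nt.FAbs
import Pool.Agent.Lib.MP_196a10_nt.Units
import Pool.Agent.Lib.MP_196a10_nt.CntR
import Pool.Agent.Lib.MP_196a10_nt.VTot
import Pool.Agent.Lib.MP_196a10_nt.LamA

open Polynomial

namespace Pool.Agent.MP196

noncomputable section

namespace Four

theorem isUnit_lam {r : P2} {K j : ℕ} {f : P2} (hf : f ∈ MD j) :
    IsUnit (lam (t1A r K) (t0A r K) f) ↔ IsCoprime f r := by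
  have hf0 : f ≠ 0 := ne_zero_of_mem_MD hf
  rw [lamA_eq, isUnit_AA_iff]
  constructor
  · exact fun h => h.1
  · intro h
    refine ⟨h, ?_⟩
    rw [coeff_zero_reverse]
    exact monic_of_ne hf0

open Classical in
/-- the mass function -/
def TT (r : P2) (K j : ℕ) (x : AA r K) : ℂ :=
  if IsUnit x then ∑ f ∈ MD j with lam (t1A r K) (t0A r K) f = x, (vM f : ℂ) else 0

open Classical in
theorem sum_TT (r : P2) (K j : ℕ) [Fintype (AA r K)] (W : AA r K → ℂ)
    (hW : ∀ x, ¬ IsUnit x → W x = 0) :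
    ∑ x, TT r K j x * W x = ∑ f ∈ MD j, (vM f : ℂ) * W (lam (t1A r K) (t0A r K) f) := by
  rw [← Finset.sum_fiberwise (MD j) (fun f => lam (t1A r K) (t0A r K) f)]
  refine Finset.sum_congr rfl fun x _ => ?_
  by_cases hx : IsUnit x
  · rw [TT, if_pos hx, Finset.sum_mul]
    refine Finset.sum_congr rfl fun f hf => ?_
    rw [(Finset.mem_filter.mp hf).2]
  · rw [hW x hx, mul_zero]
    symm
    refine Finset.sum_eq_zero fun f hf => ?_
    rw [(Finset.mem_filter.mp hf).2, hW x hx, mul_zero]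

/-- canonical representatives -/
def rep {r : P2} (hr : r ≠ 0) (x : AdjoinRoot r) : P2 := AdjoinRoot.modByMonicHom (monic_of_ne hr) x

theorem rep_mk {r : P2} (hr : r ≠ 0) (u : P2) : rep hr (AdjoinRoot.mk r u) = u %ₘ r := by
  rw [rep, AdjoinRoot.modByMonicHom_mk]

theorem XK_ne (K : ℕ) : (X ^ (K + 1) : P2) ≠ 0 := pow_ne_zero _ X_ne_zero

open Classical in
/-- the transported function -/
def FF {r : P2} (hr : r ≠ 0) (K : ℕ) (F : P2 → P2 → ℂ) (x : AA r K) : ℂ :=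
  if IsUnit x then F (rep hr x.1) (rep (XK_ne K) x.2) else 0

theorem FF_nonunit {r : P2} (hr : r ≠ 0) (K : ℕ) (F : P2 → P2 → ℂ) (x : AA r K)
    (hx : ¬ IsUnit x) : FF hr K F x = 0 := by
  rw [FF, if_neg hx]

theorem FF_mk {r : P2} (hr : r ≠ 0) (K : ℕ) (F : P2 → P2 → ℂ) {u v : P2} (hu : u ∈ Cop r)
    (hv : v ∈ V1 K) :
    FF hr K F (AdjoinRoot.mk r u, AdjoinRoot.mk (X ^ (K + 1)) v) = F u v := by
  classical
  unfold Cop at hu
  unfold V1 at hv
  rw [Finset.mem_filter, mem_Plt] at hu hv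
  rw [FF, if_pos ((isUnit_AA_iff r K u v).mpr ⟨hu.2, hv.2⟩), rep_mk, rep_mk]
  rw [(modByMonic_eq_self_iff (monic_of_ne hr)).mpr (by rw [degree_eq_natDegree hr]; exact hu.1),
    (modByMonic_eq_self_iff (monic_of_ne (XK_ne K))).mpr (by
      rw [degree_X_pow]; exact hv.1)]

theorem FF_lam {r : P2} (hr : r ≠ 0) (K : ℕ) (F : P2 → P2 → ℂ) {j : ℕ} {f : P2} (hf : f ∈ MD j)
    (hc : IsCoprime f r) : FF hr K F (lam (t1A r K) (t0A r K) f) =
      F (f %ₘ r) (f.reverse %ₘ X ^ (K + 1)) := by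
  rw [FF, if_pos ((isUnit_lam hf).mpr hc), lamA_eq, rep_mk, rep_mk]

theorem card_V1_le (K : ℕ) : (V1 K).card ≤ 2 ^ K := by
  classical
  have h : V1 K ⊆ (Plt K).image (fun w => 1 + X * w) := by
    intro v hv
    unfold V1 at hv
    rw [Finset.mem_filter, mem_Plt] at hv
    rw [Finset.mem_image]
    refine ⟨v.divX, ?_, ?_⟩
    · rw [mem_Plt, degree_lt_iff_coeff_zero]
      intro m hm
      rw [coeff_divX]
      apply coeff_eq_zero_of_degree_lt
      refine hv.1.trans_le ?_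
      exact_mod_cast (by omega : K + 1 ≤ m + 1)
    · have := X_mul_divX_add v
      rw [hv.2, C_1] at this
      rw [add_comm]
      exact this
  calc (V1 K).card ≤ _ := Finset.card_le_card h
    _ ≤ (Plt K).card := Finset.card_image_le
    _ = 2 ^ K := card_Plt K

end Four

open Four in
open Classical in
theorem fourier_bound (r : P2) (hr : r ≠ 0) (K j : ℕ) (hj : 1 ≤ j) (F : P2 → P2 → ℂ)
    (hF : ∀ u v, ‖F u v‖ ≤ 1) :
    ‖∑ f ∈ MD j, (if IsCoprime f r then (vM f : ℂ) * F (f %ₘ r) (f.reverse %ₘ X ^ (K + 1)) else 0)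
      - 2 ^ j * ((∑ u ∈ Cop r, ∑ v ∈ V1 K, F u v) / ((ph r : ℂ) * 2 ^ K))‖ ≤
      r.natDegree + ((r.natDegree + K : ℕ) : ℝ) * (Real.sqrt 2) ^ j *
        Real.sqrt (∑ u ∈ Cop r, ∑ v ∈ V1 K, ‖F u v‖ ^ 2) := by
  have hfin := finite_AA r hr K
  have := Fintype.ofFinite (AA r K)
  set B : ℝ := ((r.natDegree + K : ℕ) : ℝ) * (Real.sqrt 2) ^ j with hB
  have hB0 : 0 ≤ B := by positivity
  -- sum of T F'
  have h1 : ∑ x, TT r K j x * FF hr K F x = ∑ f ∈ MD j,
      (if IsCoprime f r then (vM f : ℂ) * F (f %ₘ r) (f.reverse %ₘ X ^ (K + 1)) else 0) := by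
    rw [sum_TT r K j _ (FF_nonunit hr K F)]
    refine Finset.sum_congr rfl fun f hf => ?_
    split_ifs with hc
    · rw [FF_lam hr K F hf hc]
    · rw [FF_nonunit hr K F _ (fun h => hc ((isUnit_lam hf).mp h)), mul_zero]
  -- sum of T
  have h2 : ∑ x, TT r K j x = ∑ f ∈ MD j, (if IsCoprime f r then (vM f : ℂ) else 0) := by
    have h3 := sum_TT r K j (fun x => if IsUnit x then 1 else 0) (fun x hx => if_neg hx)
    have h4 : ∀ x, TT r K j x * (if IsUnit x then 1 else 0) = TT r K j x := by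
      intro x
      unfold TT
      split_ifs <;> simp
    simp only [h4] at h3
    rw [h3]
    refine Finset.sum_congr rfl fun f hf => ?_
    simp only [isUnit_lam hf]
    split_ifs <;> simp
  -- sum of F'
  have h5 : ∑ x, FF hr K F x = ∑ u ∈ Cop r, ∑ v ∈ V1 K, F u v := by
    rw [sum_units r hr K _ (FF_nonunit hr K F)]
    exact Finset.sum_congr rfl fun u hu => Finset.sum_congr rfl fun v hv => FF_mk hr K F hu hv
  have h6 : ∑ x, ‖FF hr K F x‖ ^ 2 = ∑ u ∈ Cop r, ∑ v ∈ V1 K, ‖F u v‖ ^ 2 := by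
    have h7 := sum_units r hr K (fun x => ((‖FF hr K F x‖ ^ 2 : ℝ) : ℂ)) (fun x hx => by
      rw [FF_nonunit hr K F x hx]; simp)
    have h8 : ∑ u ∈ Cop r, ∑ v ∈ V1 K, ((‖FF hr K F (AdjoinRoot.mk r u,
        AdjoinRoot.mk (X ^ (K + 1)) v)‖ ^ 2 : ℝ) : ℂ) =
        ∑ u ∈ Cop r, ∑ v ∈ V1 K, ((‖F u v‖ ^ 2 : ℝ) : ℂ) :=
      Finset.sum_congr rfl fun u hu => Finset.sum_congr rfl fun v hv => by
        rw [FF_mk hr K F hu hv]
    rw [h8] at h7
    exact_mod_cast h7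
  -- the Fourier bound
  have h9 := fourier_abstract (AA r K) (TT r K j) (FF hr K F)
    (fun x hx => by rw [TT, if_neg hx]) (FF_nonunit hr K F) B hB0 (by
      intro ψ hψ
      have h10 : ∑ x, TT r K j x * ψ x = SS (t1A r K) (t0A r K) ψ j := by
        rw [sum_TT r K j _ (fun x hx => ψ.map_nonunit hx)]
        rfl
      rw [h10]
      exact rh_AA r hr K ψ hψ j hj)
  rw [h1, h5, h6, card_units_AA r hr K] at h9
  -- the mass
  have h11 : ‖(∑ x, TT r K j x) - 2 ^ j‖ ≤ r.natDegree := by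
    have h12 : ∑ f ∈ MD j, (if IsCoprime f r then vM f else 0) +
        ∑ f ∈ MD j, (if IsCoprime f r then 0 else vM f) = 2 ^ j := by
      rw [← vM_total j hj, ← Finset.sum_add_distrib]
      refine Finset.sum_congr rfl fun f _ => ?_
      split_ifs <;> simp
    have h13 := sum_vM_not_coprime r hr j hj
    have h14 : (∑ x, TT r K j x) - 2 ^ j =
        -((∑ f ∈ MD j, (if IsCoprime f r then 0 else vM f) : ℕ) : ℂ) := by
      rw [h2]
      have h15 : ((2 : ℂ) ^ j) = ((∑ f ∈ MD j, (if IsCoprime f r then vM f else 0) +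
        ∑ f ∈ MD j, (if IsCoprime f r then 0 else vM f) : ℕ) : ℂ) := by
        rw [h12]; push_cast; rfl
      rw [h15]
      push_cast
      ring
    rw [h14, norm_neg, Complex.norm_natCast]
    exact_mod_cast h13
  have h16 : ‖(∑ u ∈ Cop r, ∑ v ∈ V1 K, F u v) / ((ph r : ℂ) * 2 ^ K)‖ ≤ 1 := by
    rw [norm_div]
    apply div_le_one_of_le₀ _ (norm_nonneg _)
    have h17 : ‖((ph r : ℂ) * 2 ^ K)‖ = (ph r : ℝ) * 2 ^ K := by
      rw [norm_mul, norm_pow, Complex.norm_natCast]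
      norm_num
    rw [h17]
    calc ‖∑ u ∈ Cop r, ∑ v ∈ V1 K, F u v‖ ≤ ∑ u ∈ Cop r, ∑ v ∈ V1 K, (1 : ℝ) := by
          refine (norm_sum_le _ _).trans (Finset.sum_le_sum fun u _ => ?_)
          exact (norm_sum_le _ _).trans (Finset.sum_le_sum fun v _ => hF u v)
      _ = (ph r : ℝ) * ((V1 K).card : ℝ) := by
          simp [ph]
      _ ≤ (ph r : ℝ) * 2 ^ K := by
          apply mul_le_mul_of_nonneg_left _ (Nat.cast_nonneg _)
          exact_mod_cast card_V1_le K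
  -- conclusion
  set Sg : ℂ := ∑ u ∈ Cop r, ∑ v ∈ V1 K, F u v
  set Tg : ℂ := ∑ x, TT r K j x
  set L : ℂ := ∑ f ∈ MD j,
      (if IsCoprime f r then (vM f : ℂ) * F (f %ₘ r) (f.reverse %ₘ X ^ (K + 1)) else 0)
  have h18 : L - 2 ^ j * (Sg / ((ph r : ℂ) * 2 ^ K)) =
      (Tg - 2 ^ j) * (Sg / ((ph r : ℂ) * 2 ^ K)) +
        (L - Tg * Sg / ((ph r * 2 ^ K : ℕ) : ℂ)) := by
    push_cast
    ring
  rw [h18]
  refine (norm_add_le _ _).trans (add_le_add ?_ h9)
  rw [norm_mul]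
  calc ‖Tg - 2 ^ j‖ * ‖Sg / ((ph r : ℂ) * 2 ^ K)‖ ≤ r.natDegree * 1 :=
        mul_le_mul h11 h16 (norm_nonneg _) (Nat.cast_nonneg _)
    _ = r.natDegree := mul_one _

end

end Pool.Agent.MP196
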