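import Mathlib
import Pool.Agent.Lib.MP_196a10_nt.Base

open Polynomial

namespace Pool.Agent.MP196

noncomputable section

open Classical in
theorem sum_vM_nonprime (j : ℕ) :
    ∑ f ∈ MD j, (if Irreducible f then (0 : ℝ) else (vM f : ℝ)) ≤ j * (Real.sqrt 2) ^ j := by
  classical
  set S : Finset P2 := (Plt (j / 2 + 1)).filter (fun P => Irreducible P ∧ P.natDegree ∣ j) with hS
  have hmem : ∀ P ∈ S, Irreducible P ∧ P.natDegree ∣ j ∧ P.natDegree ≤ j / 2 := by
    intro P hP
    rw [hS, Finset.mem_filter, mem_Plt] at hP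
    refine ⟨hP.2.1, hP.2.2, ?_⟩
    have := (natDegree_lt_iff_degree_lt hP.2.1.ne_zero).mpr hP.1
    omega
  rcases Nat.eq_zero_or_pos j with rfl | hj
  · rw [MD_zero]
    simp [vM_one]
  have hpos : ∀ P ∈ S, 0 < j / P.natDegree := by
    intro P hP
    have := hmem P hP
    exact Nat.div_pos (Nat.le_of_dvd (by omega) this.2.1) this.1.natDegree_pos
  have h1 : S.image (fun P => P ^ (j / P.natDegree)) ⊆ MD j := by
    intro f hf
    rw [Finset.mem_image] at hf
    obtain ⟨P, hP, rfl⟩ := hf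
    have := hmem P hP
    rw [mem_MD']
    refine ⟨pow_ne_zero _ this.1.ne_zero, ?_⟩
    rw [natDegree_pow, Nat.div_mul_cancel this.2.1]
  have hsq : (1 : ℝ) ≤ Real.sqrt 2 := by
    rw [Real.one_le_sqrt]; norm_num
  rw [← Finset.sum_subset h1, Finset.sum_image]
  · have h2 : ∀ P ∈ S, (if Irreducible (P ^ (j / P.natDegree)) then (0 : ℝ)
        else (vM (P ^ (j / P.natDegree)) : ℝ)) ≤ ((j / 2 : ℕ) : ℝ) := by
      intro P hP
      split_ifs
      · positivity
      · rw [vM_pow (hmem P hP).1 (hpos P hP)]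
        exact_mod_cast (hmem P hP).2.2
    refine le_trans (Finset.sum_le_card_nsmul _ _ _ h2) ?_
    have h3 : S.card ≤ 2 ^ (j / 2 + 1) := by
      rw [← card_Plt (j / 2 + 1)]
      exact Finset.card_le_card (Finset.filter_subset _ _)
    rw [nsmul_eq_mul]
    have h4 : (S.card : ℝ) ≤ 2 ^ (j / 2 + 1) := by exact_mod_cast h3
    have h5 : (2 : ℝ) ^ (j / 2) ≤ (Real.sqrt 2) ^ j := by
      have h6 : (2 : ℝ) ^ (j / 2) = (Real.sqrt 2) ^ (2 * (j / 2)) := by
        rw [pow_mul, Real.sq_sqrt (by norm_num)]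
      rw [h6]
      exact pow_le_pow_right₀ hsq (Nat.mul_div_le j 2)
    have h7 : (((j / 2 : ℕ) : ℝ)) * 2 ≤ j := by
      have := Nat.div_mul_le_self j 2
      exact_mod_cast this
    calc (S.card : ℝ) * ((j / 2 : ℕ) : ℝ) ≤ 2 ^ (j / 2 + 1) * ((j / 2 : ℕ) : ℝ) := by
          gcongr
      _ = (((j / 2 : ℕ) : ℝ) * 2) * 2 ^ (j / 2) := by ring
      _ ≤ j * (Real.sqrt 2) ^ j := by
          gcongr
  · intro P hP Q hQ h
    exact (irreducible_pow_unique (hmem P hP).1 (hmem Q hQ).1 (hpos P hP) h).1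
  · intro f hf hf2
    split_ifs with hirr
    · rfl
    · rw [vM_eq_zero, Nat.cast_zero]
      rintro ⟨P, hP, m, hm0, rfl⟩
      apply hf2
      have hdeg := natDegree_of_mem_MD hf
      rw [natDegree_pow] at hdeg
      have hm2 : 2 ≤ m := by
        by_contra hlt
        have : m = 1 := by omega
        subst this
        rw [pow_one] at hirr
        exact hirr hP
      rw [Finset.mem_image]
      refine ⟨P, ?_, ?_⟩
      · rw [hS, Finset.mem_filter, mem_Plt]
        refine ⟨?_, hP, ⟨m, by rw [← hdeg, mul_comm]⟩⟩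
        rw [← natDegree_lt_iff_degree_lt hP.ne_zero]
        have : 2 * P.natDegree ≤ j := by rw [← hdeg]; exact Nat.mul_le_mul_right _ hm2
        omega
      · rw [← hdeg, Nat.mul_div_cancel _ hP.natDegree_pos]

end

end Pool.Agent.MP196
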