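import Mathlib
import Pool.Agent.Lib.MP_196a10_nt.Base

open Polynomial

namespace Pool.Agent.MP196

noncomputable section

namespace PhMul

theorem mem_Cop {r u : P2} : u ∈ Cop r ↔ u ∈ Plt r.natDegree ∧ IsCoprime u r := by
  classical
  unfold Cop
  rw [Finset.mem_filter]

theorem mem_YY {g q y : P2} :
    y ∈ YY g q ↔ y ∈ Plt g.natDegree ∧ IsCoprime (1 + q * y) g := by
  classical
  unfold YY
  rw [Finset.mem_filter]

theorem mem_pf {g P : P2} (hg : g ≠ 0) : P ∈ pf g ↔ Irreducible P ∧ P ∣ g := by
  classical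
  unfold pf
  rw [Multiset.mem_toFinset]
  constructor
  · intro h
    exact ⟨UniqueFactorizationMonoid.irreducible_of_normalized_factor P h,
      UniqueFactorizationMonoid.dvd_of_mem_normalizedFactors h⟩
  · rintro ⟨h1, h2⟩
    obtain ⟨Q, hQ1, hQ2⟩ := UniqueFactorizationMonoid.exists_mem_normalizedFactors_of_dvd hg h1 h2
    rw [eq_of_associated hQ2]
    exact hQ1

theorem mem_Plt_nat {g f : P2} (hg : g ≠ 0) : f ∈ Plt g.natDegree ↔ f.degree < g.degree := by
  rw [mem_Plt, degree_eq_natDegree hg]

theorem eq_of_dvd_sub {g y y' : P2} (hy : y.degree < g.degree)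
    (hy' : y'.degree < g.degree) (h : g ∣ y - y') : y = y' := by
  by_contra hne
  have h1 : y - y' ≠ 0 := sub_ne_zero.mpr hne
  have h2 : g.degree ≤ (y - y').degree := degree_le_of_dvd h h1
  have h3 : (y - y').degree < g.degree := (degree_sub_le y y').trans_lt (max_lt hy hy')
  exact absurd h2 (not_le.mpr h3)

theorem exists_lift (q g c : P2) (hg : g ≠ 0) (hc : IsCoprime c q) :
    ∃ z : P2, IsCoprime (c + q * z) g := by
  classical
  let z : P2 := ∏ P ∈ (pf g).filter (fun P => ¬ P ∣ c), P
  refine ⟨z, ?_⟩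
  apply isCoprime_of_irreducible_dvd (fun h => hg h.2)
  intro P hP hd hPg
  have hPmem : P ∈ pf g := (mem_pf hg).mpr ⟨hP, hPg⟩
  by_cases hPc : P ∣ c
  · have h1 : P ∣ q * z := (dvd_add_right hPc).mp hd
    rcases hP.prime.dvd_or_dvd h1 with h2 | h2
    · exact hP.not_isUnit (hc.isUnit_of_dvd' hPc h2)
    · obtain ⟨Q, hQ, hPQ⟩ := (Prime.dvd_finsetProd_iff hP.prime _).mp h2
      rw [Finset.mem_filter] at hQ
      have hQi : Irreducible Q := ((mem_pf hg).mp hQ.1).1
      have hPQ' : P = Q := eq_of_associated (hP.associated_of_dvd hQi hPQ)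
      exact hQ.2 (hPQ' ▸ hPc)
  · have h1 : P ∣ z := Finset.dvd_prod_of_mem _ (Finset.mem_filter.mpr ⟨hPmem, hPc⟩)
    exact hPc ((dvd_add_left (h1.mul_left q)).mp hd)

theorem card_fiber (q g : P2) (hq : q ≠ 0) (hg : g ≠ 0) (c : P2) (hc : c ∈ Cop q)
    (F : Finset P2) (hF : ∀ u, u ∈ F ↔ u ∈ Cop (q * g) ∧ u %ₘ q = c) :
    F.card = (YY g q).card := by
  classical
  have hqm : q.Monic := monic_of_ne hq
  have hgm : g.Monic := monic_of_ne hg
  have hqg : q * g ≠ 0 := mul_ne_zero hq hg
  rw [mem_Cop, mem_Plt_nat hq] at hc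
  obtain ⟨hcdeg, hcq⟩ := hc
  obtain ⟨z, hz⟩ := exists_lift q g c hg hcq
  symm
  apply Finset.card_bij (fun y _ => c + q * ((z + (c + q * z) * y) %ₘ g))
  · intro y hy
    rw [mem_YY, mem_Plt_nat hg] at hy
    rw [hF, mem_Cop, mem_Plt_nat hqg]
    have hr : ((z + (c + q * z) * y) %ₘ g).degree < g.degree := degree_modByMonic_lt _ hgm
    refine ⟨⟨?_, ?_⟩, ?_⟩
    · apply (degree_add_le _ _).trans_lt
      apply max_lt
      · rw [degree_mul]
        apply hcdeg.trans_le
        have : (0 : WithBot ℕ) ≤ g.degree := zero_le_degree_iff.mpr hg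
        calc q.degree = q.degree + 0 := (add_zero _).symm
          _ ≤ q.degree + g.degree := by gcongr
      · rw [degree_mul, degree_mul]
        exact WithBot.add_lt_add_left (by rw [degree_eq_natDegree hq]; exact WithBot.coe_ne_bot) hr
    · have h1 : c + q * ((z + (c + q * z) * y) %ₘ g) =
          (c + q * z) * (1 + q * y) + (q * g) * (-((z + (c + q * z) * y) /ₘ g)) := by
        have h2 := modByMonic_add_div (z + (c + q * z) * y) g
        linear_combination q * h2
      rw [h1]
      rw [IsCoprime.add_mul_left_left_iff]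
      apply IsCoprime.mul_left
      · apply IsCoprime.mul_right
        · exact (IsCoprime.add_mul_left_left_iff).mpr hcq
        · exact hz
      · apply IsCoprime.mul_right
        · exact (IsCoprime.add_mul_left_left_iff).mpr isCoprime_one_left
        · exact hy.2
    · rw [add_modByMonic, mul_comm q, mul_self_modByMonic hqm, add_zero]
      exact (modByMonic_eq_self_iff hqm).mpr hcdeg
  · intro y hy y' hy' h
    rw [mem_YY, mem_Plt_nat hg] at hy hy'
    have h1 : q * ((z + (c + q * z) * y) %ₘ g) = q * ((z + (c + q * z) * y') %ₘ g) :=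
      add_left_cancel h
    have h2 : (z + (c + q * z) * y) %ₘ g = (z + (c + q * z) * y') %ₘ g :=
      mul_left_cancel₀ hq h1
    have h3 : g ∣ (c + q * z) * (y - y') := by
      have h4 := (modByMonic_eq_zero_iff_dvd hgm).mp
        (show ((z + (c + q * z) * y) - (z + (c + q * z) * y')) %ₘ g = 0 by
          rw [sub_modByMonic, h2, sub_self])
      have h5 : (z + (c + q * z) * y) - (z + (c + q * z) * y') = (c + q * z) * (y - y') := by
        ring
      rwa [h5] at h4
    have h4 : g ∣ y - y' := hz.symm.dvd_of_dvd_mul_left h3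
    exact eq_of_dvd_sub hy.1 hy'.1 h4
  · intro u hu
    rw [hF, mem_Cop, mem_Plt_nat hqg] at hu
    obtain ⟨⟨hudeg, hucop⟩, huc⟩ := hu
    -- u = c + q w
    set w : P2 := u /ₘ q with hw
    have hu1 : u = c + q * w := by
      rw [← huc]
      exact (modByMonic_add_div u q).symm
    have hwdeg : w.degree < g.degree := by
      by_contra hlt
      push Not at hlt
      have hw0 : w ≠ 0 := by
        rintro h0
        rw [h0, degree_zero] at hlt
        exact absurd (le_bot_iff.mp hlt) (by rw [degree_eq_natDegree hg]; exact WithBot.coe_ne_bot)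
      have h1 : (q * g).degree ≤ (q * w).degree := by
        rw [degree_mul, degree_mul]
        gcongr
      have h2 : c.degree < (q * w).degree := by
        apply hcdeg.trans_le
        rw [degree_mul]
        have : (0 : WithBot ℕ) ≤ w.degree := zero_le_degree_iff.mpr hw0
        calc q.degree = q.degree + 0 := (add_zero _).symm
          _ ≤ q.degree + w.degree := by gcongr
      have h3 : u.degree = (q * w).degree := by
        rw [hu1]
        exact degree_add_eq_right_of_degree_lt h2
      rw [h3] at hudeg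
      exact absurd hudeg (not_lt.mpr h1)
    obtain ⟨a, b, hab⟩ := hz
    -- a (c + q z) + b g = 1
    refine ⟨(a * (w - z)) %ₘ g, ?_, ?_⟩
    · rw [mem_YY, mem_Plt_nat hg]
      refine ⟨degree_modByMonic_lt _ hgm, ?_⟩
      have hug : IsCoprime u g := hucop.of_mul_right_right
      have h1 : (c + q * z) * (1 + q * ((a * (w - z)) %ₘ g)) =
          u + g * (-(q * b * (w - z)) - (c + q * z) * q * ((a * (w - z)) /ₘ g)) := by
        have h2 := modByMonic_add_div (a * (w - z)) g
        rw [hu1]
        linear_combination ((c + q * z) * q) * h2 + q * (w - z) * hab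
      have h2 : IsCoprime ((c + q * z) * (1 + q * ((a * (w - z)) %ₘ g))) g := by
        rw [h1, IsCoprime.add_mul_left_left_iff]
        exact hug
      exact h2.of_mul_left_right
    · have h1 : (z + (c + q * z) * ((a * (w - z)) %ₘ g)) %ₘ g = w := by
        apply eq_of_dvd_sub (degree_modByMonic_lt _ hgm) hwdeg
        have h2 := modByMonic_add_div (a * (w - z)) g
        have h3 := modByMonic_add_div (z + (c + q * z) * ((a * (w - z)) %ₘ g)) g
        refine ⟨-(b * (w - z)) - (c + q * z) * ((a * (w - z)) /ₘ g) -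
          ((z + (c + q * z) * ((a * (w - z)) %ₘ g)) /ₘ g), ?_⟩
        linear_combination h3 + (c + q * z) * h2 + (w - z) * hab
      simp only [h1]
      exact hu1.symm

end PhMul

open PhMul in
theorem ph_mul (q g : P2) (hq : q ≠ 0) (hg : g ≠ 0) :
    ph (q * g) = ph q * (YY g q).card := by
  classical
  have hqm : q.Monic := monic_of_ne hq
  have hmaps : ∀ u ∈ Cop (q * g), u %ₘ q ∈ Cop q := by
    intro u hu
    rw [mem_Cop] at hu
    rw [mem_Cop, mem_Plt_nat hq]
    refine ⟨degree_modByMonic_lt _ hqm, ?_⟩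
    have h1 : IsCoprime u q := hu.2.of_mul_right_left
    have h2 := modByMonic_add_div u q
    rw [← h2, IsCoprime.add_mul_left_left_iff] at h1
    exact h1
  unfold ph
  rw [Finset.card_eq_sum_card_fiberwise (f := fun u => u %ₘ q) (t := Cop q) hmaps]
  rw [Finset.sum_const_nat (m := (YY g q).card)]
  intro c hc
  apply card_fiber q g hq hg c hc
  intro u
  rw [Finset.mem_filter]

end

end Pool.Agent.MP196
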