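import Mathlib
import Pool.Agent.Lib.MP_196a10_nt.Base
import Pool.Agent.Lib.MP_196a10_nt.Four
import Pool.Agent.Lib.MP_196a10_nt.PhMul
import Pool.Agent.Lib.MP_196a10_nt.PPow
import Pool.Agent.Lib.MP_196a10_nt.CntR

open Polynomial

namespace Pool.Agent.MP196

noncomputable section

namespace PerQ

theorem coeff_mod (m : ℕ) (f : P2) (i : ℕ) :
    (f %ₘ X ^ m).coeff i = if i < m then f.coeff i else 0 := by
  have hm : (X ^ m : P2).Monic := monic_X_pow m
  split_ifs with h
  · have h1 : (X ^ m : P2) ∣ f - f %ₘ X ^ m := by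
      have := modByMonic_add_div f (X ^ m : P2)
      refine ⟨f /ₘ X ^ m, ?_⟩
      linear_combination -this
    rw [X_pow_dvd_iff] at h1
    have h2 := h1 i h
    rw [coeff_sub, sub_eq_zero] at h2
    exact h2.symm
  · apply coeff_eq_zero_of_degree_lt
    have h1 := degree_modByMonic_lt f hm
    rw [degree_X_pow] at h1
    exact h1.trans_le (by exact_mod_cast not_lt.mp h)

theorem coeff_refl {j i : ℕ} (f : P2) (h : i ≤ j) : (reflect j f).coeff i = f.coeff (j - i) := by
  rw [coeff_reflect, revAt_le h]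

theorem coeff_refl' {j i : ℕ} (f : P2) (h : j < i) : (reflect j f).coeff i = f.coeff i := by
  rw [coeff_reflect, revAt_eq_self_of_lt h]

theorem coeff_of_mem_Plt {d i : ℕ} {f : P2} (hf : f ∈ Plt d) (h : d ≤ i) : f.coeff i = 0 := by
  rw [mem_Plt] at hf
  exact coeff_eq_zero_of_degree_lt (hf.trans_le (by exact_mod_cast h))

theorem coeff_of_mem_MD {j : ℕ} {f : P2} (hf : f ∈ MD j) : f.coeff j = 1 := by
  obtain ⟨h1, h2⟩ := mem_MD'.mp hf
  have := monic_of_ne h1
  rw [← h2]
  exact this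

theorem coeff_of_mem_MD' {j i : ℕ} {f : P2} (hf : f ∈ MD j) (h : j < i) : f.coeff i = 0 := by
  obtain ⟨h1, h2⟩ := mem_MD'.mp hf
  exact coeff_eq_zero_of_natDegree_lt (by omega)

theorem mem_MD_of_coeff {j : ℕ} {f : P2} (h1 : f.coeff j = 1) (h2 : ∀ i, j < i → f.coeff i = 0) :
    f ∈ MD j := by
  rw [mem_MD]
  apply degree_eq_of_le_of_coeff_ne_zero
  · rw [degree_le_iff_coeff_zero]
    intro i hi
    exact h2 i (by exact_mod_cast hi)
  · rw [h1]; decide

theorem mod_mem_Plt (m : ℕ) (f : P2) : f %ₘ X ^ m ∈ Plt m := by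
  rw [mem_Plt]
  have h1 := degree_modByMonic_lt f (monic_X_pow m : (X ^ m : P2).Monic)
  rwa [degree_X_pow] at h1

theorem split_eq {j K : ℕ} (hK : K ≤ j) {f : P2} (hf : f ∈ MD j) :
    reflect j (reflect j f %ₘ X ^ (K + 1)) + f %ₘ X ^ (j - K) = f := by
  ext i
  rw [coeff_add]
  rcases le_or_gt i j with h | h
  · rw [coeff_refl _ h, coeff_mod, coeff_mod]
    by_cases h1 : j - i < K + 1
    · rw [if_pos h1, if_neg (by omega), add_zero, coeff_refl _ (by omega)]
      congr 1
      omega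
    · rw [if_neg h1, if_pos (by omega), zero_add]
  · rw [coeff_refl' _ h, coeff_mod, coeff_mod, if_neg (by omega), if_neg (by omega), add_zero,
      coeff_of_mem_MD' hf h]

theorem mem_V1_iff {K : ℕ} {v : P2} : v ∈ V1 K ↔ v ∈ Plt (K + 1) ∧ v.coeff 0 = 1 := by
  unfold V1
  rw [Finset.mem_filter]

theorem sum_MD {j K : ℕ} (hK : K ≤ j) (φ : P2 → ℝ) :
    ∑ f ∈ MD j, φ f = ∑ p ∈ V1 K ×ˢ Plt (j - K), φ (reflect j p.1 + p.2) := by
  symm
  refine Finset.sum_bij' (fun p _ => reflect j p.1 + p.2)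
    (fun f _ => (reflect j f %ₘ X ^ (K + 1), f %ₘ X ^ (j - K))) ?_ ?_ ?_ ?_ ?_
  · rintro ⟨v, w⟩ hp
    rw [Finset.mem_product] at hp
    obtain ⟨hv, hw⟩ := hp
    dsimp only at hv hw ⊢
    rw [mem_V1_iff] at hv
    apply mem_MD_of_coeff
    · rw [coeff_add, coeff_refl _ le_rfl, Nat.sub_self, hv.2,
        coeff_of_mem_Plt hw (Nat.sub_le _ _), add_zero]
    · intro i hi
      rw [coeff_add, coeff_refl' _ hi, coeff_of_mem_Plt hv.1 (by omega),
        coeff_of_mem_Plt hw (by omega), add_zero]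
  · intro f hf
    rw [Finset.mem_product]
    refine ⟨?_, mod_mem_Plt _ _⟩
    rw [mem_V1_iff]
    refine ⟨mod_mem_Plt _ _, ?_⟩
    dsimp only
    rw [coeff_mod, if_pos (by omega), coeff_refl _ (by omega), Nat.sub_zero, coeff_of_mem_MD hf]
  · rintro ⟨v, w⟩ hp
    rw [Finset.mem_product] at hp
    obtain ⟨hv, hw⟩ := hp
    dsimp only at hv hw ⊢
    rw [mem_V1_iff] at hv
    rw [Prod.mk.injEq]
    constructor
    · ext i
      rw [coeff_mod]
      split_ifs with h
      · rw [coeff_refl _ (by omega), coeff_add, coeff_refl _ (by omega),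
          coeff_of_mem_Plt hw (by omega), add_zero]
        congr 1
        omega
      · rw [coeff_of_mem_Plt hv.1 (by omega)]
    · ext i
      rw [coeff_mod]
      split_ifs with h
      · rw [coeff_add, coeff_refl _ (by omega), coeff_of_mem_Plt hv.1 (by omega), zero_add]
      · rw [coeff_of_mem_Plt hw (by omega)]
  · intro f hf
    exact split_eq hK hf
  · intro p _
    rfl

theorem card_V1 (K : ℕ) : (V1 K).card = 2 ^ K := by
  have h := sum_MD (le_refl K) (fun _ => 1)
  rw [Nat.sub_self, Plt_zero] at h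
  simp only [Finset.sum_const, card_MD, nsmul_eq_mul, mul_one, Finset.card_product,
    Finset.card_singleton] at h
  exact_mod_cast h.symm

/-- The part of `l` not seen by `g`. -/
def bL (l : P2 →ₗ[ZMod 2] ZMod 2) (g a : P2) : P2 →ₗ[ZMod 2] ZMod 2 := l - resL g a

theorem bL_apply (l : P2 →ₗ[ZMod 2] ZMod 2) (g a f : P2) :
    bL l g a f = l f - res g (a * f) := by
  simp [bL, resL_apply]

theorem natDegree_le_of_mem_Plt {d I : ℕ} {f : P2} (hf : f ∈ Plt d) (hd : d ≤ I + 1) :
    f.natDegree ≤ I := by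
  rw [natDegree_le_iff_coeff_eq_zero]
  intro i hi
  exact coeff_of_mem_Plt hf (by omega)

theorem one_mem_Cop {q : P2} (hq1 : 1 ≤ q.natDegree) : (1 : P2) ∈ Cop q := by
  classical
  unfold Cop
  rw [Finset.mem_filter]
  refine ⟨?_, isCoprime_one_left⟩
  rw [mem_Plt, degree_one]
  exact_mod_cast hq1

theorem ph_pos {q : P2} (hq1 : 1 ≤ q.natDegree) : 0 < ph q :=
  Finset.card_pos.mpr ⟨1, one_mem_Cop hq1⟩

theorem coprime_of_dvd {q f : P2} (h : q ∣ f + 1) : IsCoprime f q := by
  obtain ⟨y, hy⟩ := h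
  refine ⟨-1, y, ?_⟩
  have h1 : f = q * y - 1 := by rw [← hy]; ring
  have h2 : (-1 : P2) * f + y * q = 1 := by rw [h1]; ring
  exact h2

open Classical in
/-- The residue classes involved, parametrised by `Y_q`. -/
theorem sum_Cop (g q : P2) (hg : g ≠ 0) (hq : q ≠ 0) (hq1 : 1 ≤ q.natDegree) (φ : P2 → ℝ) :
    ∑ u ∈ (Cop (q * g)).filter (fun u => q ∣ u + 1), φ u = ∑ y ∈ YY g q, φ (1 + q * y) := by
  symm
  have hdeg : (q * g).natDegree = q.natDegree + g.natDegree := natDegree_mul hq hg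
  apply Finset.sum_nbij (fun y => 1 + q * y)
  · intro y hy
    unfold YY at hy
    rw [Finset.mem_filter] at hy
    obtain ⟨h1, h2⟩ := hy
    have hdv : q ∣ (1 + q * y) + 1 := by
      refine ⟨y, ?_⟩
      have : (1 : P2) + 1 = 0 := add_self_P2 1
      linear_combination this
    rw [Finset.mem_filter]
    refine ⟨?_, hdv⟩
    unfold Cop
    rw [Finset.mem_filter]
    refine ⟨?_, (coprime_of_dvd hdv).mul_right h2⟩
    rw [hdeg]
    by_cases hy0 : y = 0
    · subst hy0
      rw [mul_zero, add_zero, mem_Plt, degree_one]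
      exact_mod_cast (by omega : 0 < q.natDegree + g.natDegree)
    · rw [mem_Plt] at h1 ⊢
      refine (degree_add_le _ _).trans_lt (max_lt ?_ ?_)
      · rw [degree_one]
        exact_mod_cast (by omega : 0 < q.natDegree + g.natDegree)
      · rw [degree_mul, degree_eq_natDegree hq, degree_eq_natDegree hy0]
        rw [degree_eq_natDegree hy0] at h1
        have h3 : y.natDegree < g.natDegree := by exact_mod_cast h1
        exact_mod_cast (by omega : q.natDegree + y.natDegree < q.natDegree + g.natDegree)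
  · intro y _ y' _ h
    dsimp only at h
    exact mul_left_cancel₀ hq (add_left_cancel h)
  · intro u hu
    rw [Finset.mem_coe, Finset.mem_filter] at hu
    obtain ⟨h1, y, hy⟩ := hu
    unfold Cop at h1
    rw [Finset.mem_filter, hdeg] at h1
    have hu1 : u = 1 + q * y := by
      have : (1 : P2) + 1 = 0 := add_self_P2 1
      linear_combination hy - this
    refine ⟨y, ?_, hu1.symm⟩
    unfold YY
    rw [Finset.mem_coe, Finset.mem_filter]
    refine ⟨?_, ?_⟩
    · by_cases hy0 : y = 0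
      · subst hy0
        exact zero_mem_Plt _
      · have h2 : q * y ∈ Plt (q.natDegree + g.natDegree) := by
          rw [← hy]
          apply add_mem_Plt h1.1
          rw [mem_Plt, degree_one]
          exact_mod_cast (by omega : 0 < q.natDegree + g.natDegree)
        rw [mem_Plt, degree_mul, degree_eq_natDegree hq, degree_eq_natDegree hy0] at h2
        rw [mem_Plt, degree_eq_natDegree hy0]
        have h3 : q.natDegree + y.natDegree < q.natDegree + g.natDegree := by exact_mod_cast h2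
        exact_mod_cast (by omega : y.natDegree < g.natDegree)
    · have h2 := h1.2
      rw [hu1] at h2
      exact h2.of_mul_right_right
  · intro y _
    rfl

open Classical in
/-- The function to which `fourier_bound` is applied. -/
def FF (l : P2 →ₗ[ZMod 2] ZMod 2) (g a q : P2) (j : ℕ) (u v : P2) : ℝ :=
  if q ∣ u + 1 then sg (res g (a * (u + 1))) * sg (bL l g a (reflect j v)) else 0

open Classical in
theorem abs_FF (l : P2 →ₗ[ZMod 2] ZMod 2) (g a q : P2) (j : ℕ) (u v : P2) :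
    |FF l g a q j u v| = if q ∣ u + 1 then 1 else 0 := by
  unfold FF
  split_ifs
  · rw [abs_mul, abs_sg, abs_sg, one_mul]
  · exact abs_zero

open Classical in
theorem FF_eval (n N : ℕ) (l : P2 →ₗ[ZMod 2] ZMod 2) (g a q : P2) (hg : g ≠ 0)
    (hap : ∀ f : P2, f.natDegree ≤ n - N + g.natDegree → l f = res g (a * f))
    (hq : q ≠ 0) (j K : ℕ) (hK : K ≤ j) (hKI : j - K ≤ n - N + g.natDegree + 1)
    (f : P2) (hf : f ∈ MD j) :
    FF l g a q j (f %ₘ (q * g)) (f.reverse %ₘ X ^ (K + 1)) =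
      if q ∣ f + 1 then sg (l (f + 1)) else 0 := by
  have hr : (q * g).Monic := monic_of_ne (mul_ne_zero hq hg)
  have hrev : f.reverse = reflect j f := by
    unfold reverse
    rw [natDegree_of_mem_MD hf]
  have hdiff : (f %ₘ (q * g) + 1) - (f + 1) = q * g * (-(f /ₘ (q * g))) := by
    have := modByMonic_add_div f (q * g)
    linear_combination this
  have hdv : q ∣ f %ₘ (q * g) + 1 ↔ q ∣ f + 1 := by
    have h1 : q ∣ (f %ₘ (q * g) + 1) - (f + 1) := by
      rw [hdiff]
      exact ⟨g * (-(f /ₘ (q * g))), by ring⟩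
    constructor
    · intro h
      have := dvd_sub h h1
      rwa [sub_sub_cancel] at this
    · intro h
      have := dvd_add h1 h
      rwa [sub_add_cancel] at this
  have hres : res g (a * (f %ₘ (q * g) + 1)) = res g (a * (f + 1)) := by
    apply res_congr hg
    rw [← mul_sub, hdiff]
    exact ⟨a * q * (-(f /ₘ (q * g))), by ring⟩
  have hb0 : ∀ h : P2, h.natDegree ≤ n - N + g.natDegree → bL l g a h = 0 := by
    intro h hh
    rw [bL_apply, hap h hh, sub_self]
  have hb : bL l g a (reflect j (f.reverse %ₘ X ^ (K + 1))) = bL l g a (f + 1) := by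
    rw [hrev, map_add, hb0 1 (by rw [natDegree_one]; omega), add_zero]
    conv_rhs => rw [← split_eq hK hf]
    rw [map_add, hb0 (f %ₘ X ^ (j - K)) (natDegree_le_of_mem_Plt (mod_mem_Plt _ _) hKI), add_zero]
  unfold FF
  rw [hres, hb]
  simp only [hdv]
  split_ifs with h
  · rw [← sg_add, bL_apply, add_sub_cancel]
  · rfl

open Classical in
theorem diff_bound (l : P2 →ₗ[ZMod 2] ZMod 2) (g q : P2) (hg : g ≠ 0) (j : ℕ) (hj : 1 ≤ j) :
    |∑ p ∈ MD j, (if Irreducible p ∧ q ∣ p + 1 then (j : ℝ) * sg (l (p + 1)) else 0) -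
      ∑ f ∈ MD j, (if IsCoprime f (q * g) then
        (vM f : ℝ) * (if q ∣ f + 1 then sg (l (f + 1)) else 0) else 0)| ≤
      j * (Real.sqrt 2) ^ j + g.natDegree := by
  rw [← Finset.sum_sub_distrib]
  refine (Finset.abs_sum_le_sum_abs _ _).trans ?_
  have h1 := sum_vM_nonprime j
  have h2 : ∑ f ∈ MD j, (if IsCoprime f g then (0 : ℝ) else (vM f : ℝ)) ≤ g.natDegree := by
    have := sum_vM_not_coprime g hg j hj
    have h3 : ((∑ f ∈ MD j, (if IsCoprime f g then 0 else vM f) : ℕ) : ℝ) ≤ (g.natDegree : ℝ) := by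
      exact_mod_cast this
    rw [Nat.cast_sum] at h3
    refine le_trans (le_of_eq (Finset.sum_congr rfl fun f _ => ?_)) h3
    split_ifs <;> simp
  refine le_trans ?_ (add_le_add h1 h2)
  rw [← Finset.sum_add_distrib]
  apply Finset.sum_le_sum
  intro f hf
  have hv0 : (0 : ℝ) ≤ (vM f : ℝ) := Nat.cast_nonneg _
  by_cases hd : q ∣ f + 1
  · have hcop : IsCoprime f (q * g) ↔ IsCoprime f g := by
      constructor
      · intro h; exact h.of_mul_right_right
      · intro h; exact (coprime_of_dvd hd).mul_right h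
    simp only [hd, and_true, if_true, hcop]
    by_cases hi : Irreducible f
    · have hv : (vM f : ℝ) = j := by
        rw [vM_irreducible hi, natDegree_of_mem_MD hf]
      by_cases hc : IsCoprime f g
      · simp [hi, hc, hv]
      · simp only [hi, hc, if_true, if_false, sub_zero, zero_add]
        rw [abs_mul, abs_sg, mul_one, hv, abs_of_nonneg (Nat.cast_nonneg _)]
    · by_cases hc : IsCoprime f g
      · simp only [hi, hc, if_true, if_false, zero_sub, add_zero, abs_neg]
        rw [abs_mul, abs_sg, mul_one, abs_of_nonneg hv0]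
      · simp only [hi, hc, if_false, sub_zero, abs_zero]
        linarith
  · simp only [hd, and_false, if_false, mul_zero, ite_self, sub_zero, abs_zero]
    have h3 : (0 : ℝ) ≤ (if Irreducible f then (0 : ℝ) else (vM f : ℝ)) := by
      split_ifs
      · exact le_rfl
      · exact hv0
    have h4 : (0 : ℝ) ≤ (if IsCoprime f g then (0 : ℝ) else (vM f : ℝ)) := by
      split_ifs
      · exact le_rfl
      · exact hv0
    linarith

theorem YY_card_pos (g q : P2) : 0 < (YY g q).card := by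
  classical
  apply Finset.card_pos.mpr
  refine ⟨0, ?_⟩
  unfold YY
  rw [Finset.mem_filter]
  refine ⟨zero_mem_Plt _, ?_⟩
  rw [mul_zero, add_zero]
  exact isCoprime_one_left

theorem YY_card_le (g q : P2) : (YY g q).card ≤ 2 ^ g.natDegree := by
  classical
  rw [← card_Plt]
  unfold YY
  exact Finset.card_filter_le _ _

theorem sum_FF (l : P2 →ₗ[ZMod 2] ZMod 2) (g a q : P2) (hg : g ≠ 0) (hq : q ≠ 0)
    (hq1 : 1 ≤ q.natDegree) (j K : ℕ) :
    ∑ u ∈ Cop (q * g), ∑ v ∈ V1 K, FF l g a q j u v =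
      (∑ y ∈ YY g q, sg (res g (a * q * y))) * ∑ v ∈ V1 K, sg (bL l g a (reflect j v)) := by
  classical
  have h1 : ∀ u, ∑ v ∈ V1 K, FF l g a q j u v =
      if q ∣ u + 1 then sg (res g (a * (u + 1))) * ∑ v ∈ V1 K, sg (bL l g a (reflect j v))
        else 0 := by
    intro u
    unfold FF
    split_ifs with h
    · rw [Finset.mul_sum]
    · exact Finset.sum_const_zero
  rw [Finset.sum_congr rfl (fun u _ => h1 u), ← Finset.sum_filter, sum_Cop g q hg hq hq1
    (fun u => sg (res g (a * (u + 1))) * ∑ v ∈ V1 K, sg (bL l g a (reflect j v))),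
    ← Finset.sum_mul]
  congr 1
  apply Finset.sum_congr rfl
  intro y _
  congr 2
  have : (1 : P2) + 1 = 0 := add_self_P2 1
  linear_combination a * this

theorem sum_FF_sq (l : P2 →ₗ[ZMod 2] ZMod 2) (g a q : P2) (hg : g ≠ 0) (hq : q ≠ 0)
    (hq1 : 1 ≤ q.natDegree) (j K : ℕ) :
    ∑ u ∈ Cop (q * g), ∑ v ∈ V1 K, (FF l g a q j u v) ^ 2 ≤ 2 ^ (g.natDegree + K) := by
  classical
  have h1 : ∀ u, ∑ v ∈ V1 K, (FF l g a q j u v) ^ 2 = if q ∣ u + 1 then (2 : ℝ) ^ K else 0 := by
    intro u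
    have h2 : ∀ v, (FF l g a q j u v) ^ 2 = if q ∣ u + 1 then (1 : ℝ) else 0 := by
      intro v
      rw [← sq_abs, abs_FF]
      split_ifs <;> norm_num
    rw [Finset.sum_congr rfl (fun v _ => h2 v)]
    split_ifs
    · rw [Finset.sum_const, card_V1, nsmul_eq_mul, mul_one]
      push_cast
      rfl
    · exact Finset.sum_const_zero
  rw [Finset.sum_congr rfl (fun u _ => h1 u), ← Finset.sum_filter, sum_Cop g q hg hq hq1
    (fun _ => (2 : ℝ) ^ K), Finset.sum_const, nsmul_eq_mul, pow_add]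
  apply mul_le_mul_of_nonneg_right _ (by positivity)
  exact_mod_cast YY_card_le g q

theorem main_term (n N : ℕ) (l : P2 →ₗ[ZMod 2] ZMod 2) (g a q : P2) (hg : g ≠ 0)
    (hap : ∀ f : P2, f.natDegree ≤ n - N + g.natDegree → l f = res g (a * f))
    (hq : q ≠ 0) (hq1 : 1 ≤ q.natDegree) (j K : ℕ) (hK : K ≤ j)
    (hKI : j - K ≤ n - N + g.natDegree + 1) :
    2 ^ j * ((∑ u ∈ Cop (q * g), ∑ v ∈ V1 K, FF l g a q j u v) / ((ph (q * g) : ℝ) * 2 ^ K)) =
      mq g a q * (∑ f ∈ MD j, sg (l f - res g (a * f))) / (ph q : ℝ) := by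
  have h1 : ∑ f ∈ MD j, sg (l f - res g (a * f)) =
      2 ^ (j - K) * ∑ v ∈ V1 K, sg (bL l g a (reflect j v)) := by
    rw [sum_MD hK, Finset.sum_product, Finset.mul_sum]
    apply Finset.sum_congr rfl
    intro v _
    have h2 : ∀ w ∈ Plt (j - K), sg (l (reflect j v + w) - res g (a * (reflect j v + w))) =
        sg (bL l g a (reflect j v)) := by
      intro w hw
      rw [← bL_apply, map_add]
      have h3 : bL l g a w = 0 := by
        rw [bL_apply, hap w (natDegree_le_of_mem_Plt hw hKI), sub_self]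
      rw [h3, add_zero]
    rw [Finset.sum_congr rfl h2, Finset.sum_const, card_Plt, nsmul_eq_mul]
    push_cast
    rfl
  rw [sum_FF l g a q hg hq hq1, ph_mul q g hq hg, h1]
  unfold mq
  have hY : ((YY g q).card : ℝ) ≠ 0 := by
    have := YY_card_pos g q
    exact_mod_cast this.ne'
  have hp : (ph q : ℝ) ≠ 0 := by
    have := ph_pos hq1
    exact_mod_cast this.ne'
  have hpow : (2 : ℝ) ^ j = 2 ^ (j - K) * 2 ^ K := by
    rw [← pow_add]
    congr 1
    omega
  rw [hpow]
  push_cast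
  field_simp

end PerQ

open Classical in
theorem per_q (n N : ℕ) (hN : N ≤ n) (l : P2 →ₗ[ZMod 2] ZMod 2) (g a q : P2) (hg : g ≠ 0)
    (hgN : g.natDegree ≤ N)
    (hap : ∀ f : P2, f.natDegree ≤ n - N + g.natDegree → l f = res g (a * f))
    (hq : q ≠ 0) (hq1 : 1 ≤ q.natDegree) (j : ℕ) (hj : 1 ≤ j) (hjn : j ≤ n) :
    |(ph q : ℝ) * ∑ p ∈ MD j, (if Irreducible p ∧ q ∣ p + 1 then (j : ℝ) * sg (l (p + 1)) else 0)
      - mq g a q * ∑ f ∈ MD j, sg (l f - res g (a * f))| ≤
      (ph q : ℝ) * ((q.natDegree + N : ℕ) + ((q.natDegree + 2 * N : ℕ) : ℝ) * (Real.sqrt 2) ^ j *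
        (Real.sqrt 2) ^ N + j * (Real.sqrt 2) ^ j + N) := by
  set K := j - 1 - (n - N + g.natDegree) with hKdef
  have hK : K ≤ j := by omega
  have hKI : j - K ≤ n - N + g.natDegree + 1 := by omega
  have hGK : g.natDegree + K ≤ N := by omega
  have hr : q * g ≠ 0 := mul_ne_zero hq hg
  have hdeg : (q * g).natDegree = q.natDegree + g.natDegree := natDegree_mul hq hg
  have hfb := fourier_bound (q * g) hr K j hj
    (fun u v => ((PerQ.FF l g a q j u v : ℝ) : ℂ)) (by
      intro u v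
      rw [Complex.norm_real, Real.norm_eq_abs, PerQ.abs_FF]
      split_ifs <;> norm_num)
  -- the left side is real
  have hL : ∑ f ∈ MD j, (if IsCoprime f (q * g) then (vM f : ℂ) *
      ((PerQ.FF l g a q j (f %ₘ (q * g)) (f.reverse %ₘ X ^ (K + 1)) : ℝ) : ℂ) else 0) =
      ((∑ f ∈ MD j, (if IsCoprime f (q * g) then
        (vM f : ℝ) * (if q ∣ f + 1 then sg (l (f + 1)) else 0) else 0) : ℝ) : ℂ) := by
    rw [Complex.ofReal_sum]
    apply Finset.sum_congr rfl
    intro f hf
    rw [PerQ.FF_eval n N l g a q hg hap hq j K hK hKI f hf]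
    split_ifs <;> simp
  have hM : (2 : ℂ) ^ j * ((∑ u ∈ Cop (q * g), ∑ v ∈ V1 K,
      ((PerQ.FF l g a q j u v : ℝ) : ℂ)) / ((ph (q * g) : ℂ) * 2 ^ K)) =
      ((mq g a q * (∑ f ∈ MD j, sg (l f - res g (a * f))) / (ph q : ℝ) : ℝ) : ℂ) := by
    rw [← PerQ.main_term n N l g a q hg hap hq hq1 j K hK hKI]
    push_cast
    rfl
  have hS : ∑ u ∈ Cop (q * g), ∑ v ∈ V1 K, ‖((PerQ.FF l g a q j u v : ℝ) : ℂ)‖ ^ 2 ≤
      (2 : ℝ) ^ N := by
    have h1 : ∑ u ∈ Cop (q * g), ∑ v ∈ V1 K, ‖((PerQ.FF l g a q j u v : ℝ) : ℂ)‖ ^ 2 =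
        ∑ u ∈ Cop (q * g), ∑ v ∈ V1 K, (PerQ.FF l g a q j u v) ^ 2 := by
      apply Finset.sum_congr rfl
      intro u _
      apply Finset.sum_congr rfl
      intro v _
      rw [Complex.norm_real, Real.norm_eq_abs, sq_abs]
    rw [h1]
    refine (PerQ.sum_FF_sq l g a q hg hq hq1 j K).trans ?_
    exact pow_le_pow_right₀ (by norm_num) hGK
  have hS2 : Real.sqrt (∑ u ∈ Cop (q * g), ∑ v ∈ V1 K,
      ‖((PerQ.FF l g a q j u v : ℝ) : ℂ)‖ ^ 2) ≤ (Real.sqrt 2) ^ N := by
    refine (Real.sqrt_le_sqrt hS).trans (le_of_eq ?_)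
    have h2 : (2 : ℝ) ^ N = ((Real.sqrt 2) ^ N) ^ 2 := by
      rw [← pow_mul, mul_comm, pow_mul, Real.sq_sqrt (by norm_num)]
    rw [h2]
    exact Real.sqrt_sq (by positivity)
  rw [hL, hM, ← Complex.ofReal_sub, Complex.norm_real, Real.norm_eq_abs] at hfb
  have hdb := PerQ.diff_bound l g q hg j hj
  have hp : (0 : ℝ) < (ph q : ℝ) := by
    have := PerQ.ph_pos hq1
    exact_mod_cast this
  set T := ∑ p ∈ MD j, (if Irreducible p ∧ q ∣ p + 1 then (j : ℝ) * sg (l (p + 1)) else 0)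
    with hT
  set L := ∑ f ∈ MD j, (if IsCoprime f (q * g) then
        (vM f : ℝ) * (if q ∣ f + 1 then sg (l (f + 1)) else 0) else 0) with hLdef
  set M := mq g a q * ∑ f ∈ MD j, sg (l f - res g (a * f)) with hMdef
  have hsplit : (ph q : ℝ) * T - M = (ph q : ℝ) * (T - M / ph q) := by
    field_simp
  rw [hsplit, abs_mul, abs_of_pos hp]
  apply mul_le_mul_of_nonneg_left _ hp.le
  have h3 : |T - M / ph q| ≤ |T - L| + |L - M / ph q| := by
    have : T - M / ph q = (T - L) + (L - M / ph q) := by ring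
    rw [this]
    exact abs_add_le _ _
  refine h3.trans ?_
  refine (add_le_add hdb hfb).trans ?_
  have h4 : (g.natDegree : ℝ) ≤ N := by exact_mod_cast hgN
  have h5 : ((q * g).natDegree : ℝ) ≤ ((q.natDegree + N : ℕ) : ℝ) := by
    rw [hdeg]
    exact_mod_cast (by omega : q.natDegree + g.natDegree ≤ q.natDegree + N)
  have h6 : (((q * g).natDegree + K : ℕ) : ℝ) ≤ ((q.natDegree + 2 * N : ℕ) : ℝ) := by
    rw [hdeg]
    exact_mod_cast (by omega : q.natDegree + g.natDegree + K ≤ q.natDegree + 2 * N)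
  have h7 : (((q * g).natDegree + K : ℕ) : ℝ) * (Real.sqrt 2) ^ j *
      Real.sqrt (∑ u ∈ Cop (q * g), ∑ v ∈ V1 K, ‖((PerQ.FF l g a q j u v : ℝ) : ℂ)‖ ^ 2) ≤
      ((q.natDegree + 2 * N : ℕ) : ℝ) * (Real.sqrt 2) ^ j * (Real.sqrt 2) ^ N := by
    apply mul_le_mul
    · exact mul_le_mul_of_nonneg_right h6 (by positivity)
    · exact hS2
    · exact Real.sqrt_nonneg _
    · positivity
  linarith

end

end Pool.Agent.MP196
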