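import Mathlib
import Pool.Agent.Lib.MP_196a10_nt.Base
import Pool.Agent.Lib.MP_196a10_nt.PerQ

open Polynomial

namespace Pool.Agent.MP196

noncomputable section

namespace WApp

theorem add_one_add_one (p : P2) : p + 1 + 1 = p := by
  rw [add_assoc, add_self_P2, add_zero]

theorem one_mem_Plt (n : ℕ) : (1 : P2) ∈ Plt (n + 1) := by
  rw [mem_Plt, degree_one]
  exact_mod_cast Nat.succ_pos n

theorem sum_Plt_shift (n : ℕ) (F : P2 → ℝ) :
    ∑ s ∈ Plt (n + 1), F s = ∑ p ∈ Plt (n + 1), F (p + 1) := by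
  refine Finset.sum_bij' (fun s _ => s + 1) (fun p _ => p + 1) ?_ ?_ ?_ ?_ ?_
  · intro s hs
    exact add_mem_Plt hs (one_mem_Plt n)
  · intro s hs
    exact add_mem_Plt hs (one_mem_Plt n)
  · intro s _
    exact add_one_add_one s
  · intro s _
    exact add_one_add_one s
  · intro s _
    rw [add_one_add_one]

open Classical in
theorem sum_Plt_irr (n : ℕ) (H : P2 → ℝ) (hH : ∀ p, ¬ Irreducible p → H p = 0) :
    ∑ p ∈ Plt (n + 1), H p = ∑ j ∈ Finset.Icc 1 n, ∑ p ∈ MD j, H p := by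
  have h1 : ∑ p ∈ Plt (n + 1), H p = ∑ p ∈ (Plt (n + 1)).filter (fun p => Irreducible p), H p := by
    rw [Finset.sum_filter]
    apply Finset.sum_congr rfl
    intro p _
    split_ifs with h
    · rfl
    · exact hH p h
  rw [h1, ← Finset.sum_fiberwise_of_maps_to (t := Finset.Icc 1 n) (g := fun p : P2 => p.natDegree)]
  · apply Finset.sum_congr rfl
    intro j hj
    have h2 : ∑ p ∈ MD j, H p = ∑ p ∈ (MD j).filter (fun p => Irreducible p), H p := by
      rw [Finset.sum_filter]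
      apply Finset.sum_congr rfl
      intro p _
      split_ifs with h
      · rfl
      · exact hH p h
    rw [h2]
    apply Finset.sum_congr _ (fun _ _ => rfl)
    ext p
    simp only [Finset.mem_filter]
    constructor
    · rintro ⟨⟨h3, h4⟩, h5⟩
      exact ⟨mem_MD'.mpr ⟨h4.ne_zero, h5⟩, h4⟩
    · rintro ⟨h3, h4⟩
      refine ⟨⟨?_, h4⟩, natDegree_of_mem_MD h3⟩
      rw [mem_Plt, mem_MD.mp h3]
      rw [Finset.mem_Icc] at hj
      exact_mod_cast Nat.lt_succ_of_le hj.2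
  · intro p hp
    rw [Finset.mem_filter, mem_Plt] at hp
    rw [Finset.mem_Icc]
    refine ⟨hp.2.natDegree_pos, ?_⟩
    have := (natDegree_lt_iff_degree_lt hp.2.ne_zero).mpr hp.1
    omega

open Classical in
theorem wt_eq (D : ℕ) (l : P2 →ₗ[ZMod 2] ZMod 2) (p : P2) :
    wt D (p + 1) * sg (l (p + 1)) = ∑ q ∈ MD D, (ph q : ℝ) *
      (if Irreducible p ∧ q ∣ p + 1 then (p.natDegree : ℝ) * sg (l (p + 1)) else 0) := by
  unfold wt
  rw [add_one_add_one]
  by_cases h : Irreducible p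
  · rw [if_pos h]
    simp only [h, true_and]
    rw [Finset.sum_filter, Finset.mul_sum, Finset.sum_mul]
    apply Finset.sum_congr rfl
    intro q _
    split_ifs
    · ring
    · ring
  · rw [if_neg h]
    simp only [h, false_and, if_false, mul_zero, Finset.sum_const_zero, zero_mul]

open Classical in
theorem main_eq (n D : ℕ) (l : P2 →ₗ[ZMod 2] ZMod 2) :
    ∑ s ∈ Plt (n + 1), wt D s * sg (l s) = ∑ q ∈ MD D, ∑ j ∈ Finset.Icc 1 n, (ph q : ℝ) *
      ∑ p ∈ MD j, (if Irreducible p ∧ q ∣ p + 1 then (j : ℝ) * sg (l (p + 1)) else 0) := by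
  rw [sum_Plt_shift n (fun s => wt D s * sg (l s)), sum_Plt_irr]
  · rw [Finset.sum_comm (s := MD D)]
    apply Finset.sum_congr rfl
    intro j _
    simp only [Finset.mul_sum]
    rw [Finset.sum_comm (s := MD D)]
    apply Finset.sum_congr rfl
    intro p hp
    rw [wt_eq, natDegree_of_mem_MD hp]
  · intro p hp
    rw [wt_eq]
    simp only [hp, false_and, if_false, mul_zero, Finset.sum_const_zero]

theorem ph_le {D : ℕ} {q : P2} (hq : q ∈ MD D) : (ph q : ℝ) ≤ 2 ^ D := by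
  classical
  have h1 : ph q ≤ 2 ^ D := by
    unfold ph Cop
    rw [natDegree_of_mem_MD hq, ← card_Plt D]
    exact Finset.card_filter_le _ _
  exact_mod_cast h1

end WApp

theorem W_approx (n N D : ℕ) (hN : N ≤ n) (hD : 1 ≤ D) (l : P2 →ₗ[ZMod 2] ZMod 2) (g a : P2)
    (hg : g ≠ 0) (hgN : g.natDegree ≤ N)
    (hap : ∀ f : P2, f.natDegree ≤ n - N + g.natDegree → l f = res g (a * f)) :
    |∑ s ∈ Plt (n + 1), wt D s * sg (l s) -
      (∑ q ∈ MD D, mq g a q) * ∑ j ∈ Finset.Icc 1 n, ∑ f ∈ MD j, sg (l f - res g (a * f))| ≤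
      2 ^ (2 * D) * (n * ((D + N : ℕ) + ((D + 2 * N : ℕ) : ℝ) * (Real.sqrt 2) ^ n *
        (Real.sqrt 2) ^ N + n * (Real.sqrt 2) ^ n + N)) := by
  classical
  set B : ℝ := ((D + N : ℕ) + ((D + 2 * N : ℕ) : ℝ) * (Real.sqrt 2) ^ n *
        (Real.sqrt 2) ^ N + n * (Real.sqrt 2) ^ n + N) with hB
  rw [WApp.main_eq, Finset.sum_mul]
  simp only [Finset.mul_sum (s := Finset.Icc 1 n)]
  rw [← Finset.sum_sub_distrib]
  simp only [← Finset.sum_sub_distrib]
  have hsq : (1 : ℝ) ≤ Real.sqrt 2 := by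
    rw [Real.one_le_sqrt]; norm_num
  have hB0 : 0 ≤ B := by
    rw [hB]; positivity
  have key : ∀ q ∈ MD D, ∀ j ∈ Finset.Icc 1 n,
      |(ph q : ℝ) * ∑ p ∈ MD j, (if Irreducible p ∧ q ∣ p + 1 then (j : ℝ) * sg (l (p + 1)) else 0)
      - mq g a q * ∑ f ∈ MD j, sg (l f - res g (a * f))| ≤ 2 ^ D * B := by
    intro q hq j hj
    rw [Finset.mem_Icc] at hj
    have hdeg := natDegree_of_mem_MD hq
    have h1 := per_q n N hN l g a q hg hgN hap (ne_zero_of_mem_MD hq) (by omega) j hj.1 hj.2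
    refine h1.trans ?_
    rw [hdeg]
    have h2 : (Real.sqrt 2) ^ j ≤ (Real.sqrt 2) ^ n := pow_le_pow_right₀ hsq hj.2
    have h3 : (j : ℝ) ≤ n := by exact_mod_cast hj.2
    have h4 := WApp.ph_le hq
    apply mul_le_mul h4 _ (by positivity) (by positivity)
    rw [hB]
    gcongr
  calc |∑ q ∈ MD D, ∑ j ∈ Finset.Icc 1 n, ((ph q : ℝ) * ∑ p ∈ MD j,
        (if Irreducible p ∧ q ∣ p + 1 then (j : ℝ) * sg (l (p + 1)) else 0)
      - mq g a q * ∑ f ∈ MD j, sg (l f - res g (a * f)))|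
      ≤ ∑ q ∈ MD D, ∑ j ∈ Finset.Icc 1 n, (2 ^ D * B) := by
        refine (Finset.abs_sum_le_sum_abs _ _).trans (Finset.sum_le_sum (fun q hq => ?_))
        refine (Finset.abs_sum_le_sum_abs _ _).trans (Finset.sum_le_sum (fun j hj => ?_))
        exact key q hq j hj
    _ = 2 ^ (2 * D) * (n * B) := by
        rw [Finset.sum_const, Finset.sum_const, card_MD, Nat.card_Icc, nsmul_eq_mul, nsmul_eq_mul]
        push_cast
        rw [two_mul, pow_add]
        ring

end

end Pool.Agent.MP196
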