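import Mathlib
import Pool.Agent.Lib.MP_196a10_nt.Base
import Pool.Agent.Lib.MP_196a10_nt.Approx
import Pool.Agent.Lib.MP_196a10_nt.MPos
import Pool.Agent.Lib.MP_196a10_nt.MBd
import Pool.Agent.Lib.MP_196a10_nt.Omega
import Pool.Agent.Lib.MP_196a10_nt.VSum
import Pool.Agent.Lib.MP_196a10_nt.WApp

open Polynomial

namespace Pool.Agent.MP196

noncomputable section

namespace WLow

/-- `n^2 ≤ C 2^(ε n)`. -/
theorem sq_le (ε : ℝ) (hε : 0 < ε) : ∃ c : ℝ, 0 < c ∧ ∀ n : ℕ,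
    (n : ℝ) ^ 2 ≤ c * (2 : ℝ) ^ (ε * n) := by
  have hl : 0 < Real.log 2 := Real.log_pos (by norm_num)
  refine ⟨2 / (ε * Real.log 2) ^ 2, by positivity, ?_⟩
  intro n
  have h1 : (2 : ℝ) ^ (ε * n) = Real.exp (ε * Real.log 2 * n) := by
    rw [Real.rpow_def_of_pos (by norm_num)]
    congr 1
    ring
  have hx : 0 ≤ ε * Real.log 2 * n := by positivity
  have h2 := Real.quadratic_le_exp_of_nonneg hx
  rw [h1]
  have h3 : (ε * Real.log 2 * n) ^ 2 / 2 ≤ Real.exp (ε * Real.log 2 * n) := by linarith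
  have h4 : (n : ℝ) ^ 2 = 2 / (ε * Real.log 2) ^ 2 * ((ε * Real.log 2 * n) ^ 2 / 2) := by
    have : ε * Real.log 2 ≠ 0 := by positivity
    field_simp
  rw [h4]
  exact mul_le_mul_of_nonneg_left h3 (by positivity)

theorem sqrt_pow_even (m : ℕ) : (Real.sqrt 2) ^ (2 * m) = (2 : ℝ) ^ m := by
  rw [pow_mul, Real.sq_sqrt (by norm_num)]

theorem one_le_sqrt2 : (1 : ℝ) ≤ Real.sqrt 2 := by
  rw [Real.one_le_sqrt]; norm_num

theorem sqrt2_le : Real.sqrt 2 ≤ 2 := by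
  rw [Real.sqrt_le_left (by norm_num)]; norm_num

theorem sqrt_pow_le (n : ℕ) : (Real.sqrt 2) ^ (2 * n + 1) ≤ 2 * (2 : ℝ) ^ n := by
  rw [pow_succ, sqrt_pow_even]
  nlinarith [sqrt2_le, pow_pos (two_pos : (0 : ℝ) < 2) n]

/-- the error term -/
theorem err_le (n N D : ℕ) (hN : N = n / 2 + 1) (hD : D = n / 8) (hn : 8 ≤ n) :
    (2 : ℝ) ^ (2 * D) * (n * ((D + N : ℕ) + ((D + 2 * N : ℕ) : ℝ) * (Real.sqrt 2) ^ n *
        (Real.sqrt 2) ^ N + n * (Real.sqrt 2) ^ n + N)) ≤ 11 * ((n : ℝ) ^ 2 * 2 ^ n) := by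
  have hs := one_le_sqrt2
  have e1 : (2 : ℝ) ^ (2 * D) ≤ 2 ^ n := pow_le_pow_right₀ (by norm_num) (by omega)
  have e2 : (2 : ℝ) ^ (2 * D) * ((Real.sqrt 2) ^ n * (Real.sqrt 2) ^ N) ≤ 2 * 2 ^ n := by
    rw [← sqrt_pow_even, ← pow_add, ← pow_add]
    exact (pow_le_pow_right₀ hs (by omega)).trans (sqrt_pow_le n)
  have e3 : (2 : ℝ) ^ (2 * D) * (Real.sqrt 2) ^ n ≤ 2 * 2 ^ n := by
    rw [← sqrt_pow_even, ← pow_add]
    exact (pow_le_pow_right₀ hs (by omega)).trans (sqrt_pow_le n)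
  have f1 : ((D + N : ℕ) : ℝ) ≤ 2 * n := by
    have : D + N ≤ 2 * n := by omega
    exact_mod_cast this
  have f2 : ((D + 2 * N : ℕ) : ℝ) ≤ 3 * n := by
    have : D + 2 * N ≤ 3 * n := by omega
    exact_mod_cast this
  have f3 : (N : ℝ) ≤ n := by
    have : N ≤ n := by omega
    exact_mod_cast this
  have hn0 : (0 : ℝ) ≤ n := Nat.cast_nonneg n
  have hp : (0 : ℝ) < 2 ^ n := by positivity
  have hq : (0 : ℝ) < 2 ^ (2 * D) := by positivity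
  have g1 : (2 : ℝ) ^ (2 * D) * ((D + N : ℕ) : ℝ) ≤ 2 ^ n * (2 * n) :=
    mul_le_mul e1 f1 (Nat.cast_nonneg _) hp.le
  have g2 : (2 : ℝ) ^ (2 * D) * (((D + 2 * N : ℕ) : ℝ) * (Real.sqrt 2) ^ n *
        (Real.sqrt 2) ^ N) ≤ (3 * n) * (2 * 2 ^ n) := by
    calc (2 : ℝ) ^ (2 * D) * (((D + 2 * N : ℕ) : ℝ) * (Real.sqrt 2) ^ n * (Real.sqrt 2) ^ N)
        = ((D + 2 * N : ℕ) : ℝ) * (2 ^ (2 * D) * ((Real.sqrt 2) ^ n * (Real.sqrt 2) ^ N)) := by
          ring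
      _ ≤ (3 * n) * (2 * 2 ^ n) := mul_le_mul f2 e2 (by positivity) (by positivity)
  have g3 : (2 : ℝ) ^ (2 * D) * (n * (Real.sqrt 2) ^ n) ≤ n * (2 * 2 ^ n) := by
    calc (2 : ℝ) ^ (2 * D) * (n * (Real.sqrt 2) ^ n) = n * (2 ^ (2 * D) * (Real.sqrt 2) ^ n) := by
          ring
      _ ≤ n * (2 * 2 ^ n) := mul_le_mul_of_nonneg_left e3 hn0
  have g4 : (2 : ℝ) ^ (2 * D) * (N : ℝ) ≤ 2 ^ n * n :=
    mul_le_mul e1 f3 (Nat.cast_nonneg _) hp.le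
  have hsum : (2 : ℝ) ^ (2 * D) * (((D + N : ℕ) : ℝ) + ((D + 2 * N : ℕ) : ℝ) * (Real.sqrt 2) ^ n *
        (Real.sqrt 2) ^ N + n * (Real.sqrt 2) ^ n + N) ≤ 11 * (n * 2 ^ n) := by
    rw [mul_add, mul_add, mul_add]
    linarith
  calc (2 : ℝ) ^ (2 * D) * (n * ((D + N : ℕ) + ((D + 2 * N : ℕ) : ℝ) * (Real.sqrt 2) ^ n *
        (Real.sqrt 2) ^ N + n * (Real.sqrt 2) ^ n + N))
      = n * ((2 : ℝ) ^ (2 * D) * (((D + N : ℕ) : ℝ) + ((D + 2 * N : ℕ) : ℝ) *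
        (Real.sqrt 2) ^ n * (Real.sqrt 2) ^ N + n * (Real.sqrt 2) ^ n + N)) := by ring
    _ ≤ n * (11 * (n * 2 ^ n)) := mul_le_mul_of_nonneg_left hsum hn0
    _ = 11 * ((n : ℝ) ^ 2 * 2 ^ n) := by ring

end WLow

open WLow in
theorem W_lower (ε : ℝ) (hε : 0 < ε) :
    ∃ c : ℝ, 0 < c ∧ ∀ n : ℕ, 8 ≤ n → ∀ l : P2 →ₗ[ZMod 2] ZMod 2,
      - (c * (2 : ℝ) ^ ((1 + ε) * n)) ≤ ∑ s ∈ Plt (n + 1), wt (n / 8) s * sg (l s) := by
  obtain ⟨c3, hc3, hsq⟩ := sq_le ε hε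
  obtain ⟨c1, hc1, hom⟩ := omega_bound ε hε
  refine ⟨2 + 2 * c1 + 11 * c3, by positivity, ?_⟩
  intro n hn l
  set D := n / 8 with hD
  set N := n / 2 + 1 with hN
  have hNn : N ≤ n := by omega
  have hD1 : 1 ≤ D := by omega
  obtain ⟨g, a, hg, hgN, hco, hap⟩ := approx n N hNn (by omega) l
  set b : P2 →ₗ[ZMod 2] ZMod 2 := l - resL g a with hb
  have hbf : ∀ f, b f = l f - res g (a * f) := fun f => by
    rw [hb, LinearMap.sub_apply, resL_apply]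
  have hb1 : b 1 = 0 := by
    rw [hbf, hap 1 (by rw [natDegree_one]; exact Nat.zero_le _), sub_self]
  have hV := V_eq b n hb1
  have hW := W_approx n N D hNn hD1 l g a hg hgN hap
  set W := ∑ s ∈ Plt (n + 1), wt D s * sg (l s) with hWdef
  set M := ∑ q ∈ MD D, mq g a q with hM
  have hVV : ∑ j ∈ Finset.Icc 1 n, ∑ f ∈ MD j, sg (l f - res g (a * f)) =
      ∑ j ∈ Finset.Icc 1 n, ∑ f ∈ MD j, sg (b f) := by
    apply Finset.sum_congr rfl
    intro j _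
    apply Finset.sum_congr rfl
    intro f _
    rw [hbf]
  rw [hVV] at hW
  set V := ∑ j ∈ Finset.Icc 1 n, ∑ f ∈ MD j, sg (b f) with hVdef
  have hV2 : -2 ≤ V ∧ |V| ≤ 2 * 2 ^ n := by
    have hp : (2 : ℝ) ^ 8 ≤ 2 ^ n := pow_le_pow_right₀ (by norm_num) hn
    have hp2 : (2 : ℝ) ^ (n + 1) = 2 * 2 ^ n := by rw [pow_succ]; ring
    rw [hV, hp2]
    split_ifs
    · constructor
      · linarith
      · rw [abs_of_nonneg (by linarith)]; linarith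
    · constructor
      · linarith
      · rw [zero_sub, abs_neg, abs_of_pos (by norm_num)]; linarith
  have herr := err_le n N D hN hD hn
  have hW' := (abs_le.mp (hW.trans herr)).1
  -- sizes
  have hrp : (2 : ℝ) ^ ((1 + ε) * n) = 2 ^ n * (2 : ℝ) ^ (ε * n) := by
    rw [add_mul, one_mul, Real.rpow_add (by norm_num), Real.rpow_natCast]
  have hge1 : (1 : ℝ) ≤ (2 : ℝ) ^ (ε * n) :=
    Real.one_le_rpow (by norm_num) (by positivity)
  have hpn : (0 : ℝ) < 2 ^ n := by positivity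
  have habsM : |M| ≤ 2 ^ D := by
    have h1 : |M| ≤ ∑ q ∈ MD D, |mq g a q| := Finset.abs_sum_le_sum_abs _ _
    have h2 : ∑ q ∈ MD D, |mq g a q| ≤ ∑ q ∈ MD D, (1 : ℝ) :=
      Finset.sum_le_sum (fun q _ => abs_mq_le g a q)
    rw [Finset.sum_const, card_MD, nsmul_eq_mul, mul_one] at h2
    push_cast at h2
    exact h1.trans h2
  have hDn : (2 : ℝ) ^ D ≤ 2 ^ n := pow_le_pow_right₀ (by norm_num) (by omega)
  have hMV : - ((2 + 2 * c1) * (2 ^ n * (2 : ℝ) ^ (ε * n))) ≤ M * V := by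
    by_cases hG : g.natDegree ≤ D
    · have hM0 : 0 ≤ M := M_nonneg g a hg hco D hG
      have h1 : M * (-2) ≤ M * V := mul_le_mul_of_nonneg_left hV2.1 hM0
      have h2 : M ≤ 2 ^ n := (le_abs_self M).trans (habsM.trans hDn)
      have h3 : (2 : ℝ) ^ n ≤ 2 ^ n * (2 : ℝ) ^ (ε * n) := le_mul_of_one_le_right hpn.le hge1
      have h4 : 0 ≤ c1 * (2 ^ n * (2 : ℝ) ^ (ε * n)) := by positivity
      nlinarith
    · push Not at hG
      have h1 := M_bound g a hg hco D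
      have h2 := hom g hg
      have h3 : (2 : ℝ) ^ (ε * g.natDegree) ≤ (2 : ℝ) ^ (ε * n) := by
        apply Real.rpow_le_rpow_of_exponent_le (by norm_num)
        apply mul_le_mul_of_nonneg_left _ hε.le
        exact_mod_cast hgN.trans hNn
      have h4 : |M| * 2 ^ g.natDegree ≤ (c1 * (2 : ℝ) ^ (ε * n)) * 2 ^ g.natDegree := by
        calc |M| * 2 ^ g.natDegree ≤ 2 ^ D * 3 ^ (pf g).card := h1
          _ ≤ 2 ^ g.natDegree * (c1 * (2 : ℝ) ^ (ε * n)) := by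
              apply mul_le_mul
              · exact pow_le_pow_right₀ (by norm_num) hG.le
              · exact h2.trans (mul_le_mul_of_nonneg_left h3 hc1.le)
              · positivity
              · positivity
          _ = _ := by ring
      have h5 : |M| ≤ c1 * (2 : ℝ) ^ (ε * n) := le_of_mul_le_mul_right h4 (by positivity)
      have h6 : |M * V| ≤ (c1 * (2 : ℝ) ^ (ε * n)) * (2 * 2 ^ n) := by
        rw [abs_mul]
        exact mul_le_mul h5 hV2.2 (abs_nonneg _) (by positivity)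
      have h7 := (abs_le.mp h6).1
      have h8 : 0 ≤ 2 * (2 ^ n * (2 : ℝ) ^ (ε * n)) := by positivity
      nlinarith
  have hE : 11 * ((n : ℝ) ^ 2 * 2 ^ n) ≤ 11 * c3 * (2 ^ n * (2 : ℝ) ^ (ε * n)) := by
    have h1 := mul_le_mul_of_nonneg_right (hsq n) hpn.le
    nlinarith
  rw [hrp]
  nlinarith

end

end Pool.Agent.MP196
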