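import Mathlib
import Pool.Agent.Lib.MP_196a10_nt.Base
import Pool.Agent.Lib.MP_196a10_nt.WApp
import Pool.Agent.Lib.MP_196a10_nt.VSum

open Polynomial

namespace Pool.Agent.MP196

noncomputable section

namespace WZero

theorem YY_one (q : P2) : YY 1 q = {0} := by
  classical
  ext y
  unfold YY
  rw [Finset.mem_filter, natDegree_one, Plt_zero, Finset.mem_singleton]
  constructor
  · exact fun h => h.1
  · rintro rfl
    exact ⟨rfl, isCoprime_one_right⟩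

theorem mq_one (q : P2) : mq 1 0 q = 1 := by
  unfold mq
  rw [YY_one, Finset.sum_singleton, Finset.card_singleton, zero_mul, zero_mul, res_zero, sg_zero]
  norm_num

theorem sum_mq_one (D : ℕ) : ∑ q ∈ MD D, mq 1 0 q = (2 : ℝ) ^ D := by
  rw [Finset.sum_congr rfl (fun q _ => mq_one q), Finset.sum_const, card_MD]
  simp

theorem sum_V (n : ℕ) :
    ∑ j ∈ Finset.Icc 1 n, ∑ f ∈ MD j, sg ((0 : P2 →ₗ[ZMod 2] ZMod 2) f - res 1 (0 * f)) =
      (2 : ℝ) ^ (n + 1) - 2 := by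
  have h1 : ∀ j ∈ Finset.Icc 1 n,
      ∑ f ∈ MD j, sg ((0 : P2 →ₗ[ZMod 2] ZMod 2) f - res 1 (0 * f)) = (2 : ℝ) ^ j := by
    intro j _
    have h2 : ∀ f ∈ MD j, sg ((0 : P2 →ₗ[ZMod 2] ZMod 2) f - res 1 (0 * f)) = 1 := by
      intro f _
      rw [LinearMap.zero_apply, zero_mul, res_zero, sub_zero, sg_zero]
    rw [Finset.sum_congr rfl h2, Finset.sum_const, card_MD]
    simp
  rw [Finset.sum_congr rfl h1]
  induction n with
  | zero => norm_num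
  | succ n ih =>
    rw [Finset.sum_Icc_succ_top (by omega), ih (fun j hj => h1 j (by
      rw [Finset.mem_Icc] at *; omega))]
    ring

theorem pow_large (D : ℕ) (hD : 23 ≤ D) : 7200 * D ^ 2 ≤ 2 ^ D := by
  induction D, hD using Nat.le_induction with
  | base => norm_num
  | succ D hD ih =>
    rw [pow_succ 2 D]
    nlinarith

theorem err_bound (n : ℕ) (hn : 8 ≤ n) :
    (2 : ℝ) ^ (2 * (n / 8)) * (n * ((n / 8 + (n / 2 + 1) : ℕ) +
      ((n / 8 + 2 * (n / 2 + 1) : ℕ) : ℝ) * (Real.sqrt 2) ^ n * (Real.sqrt 2) ^ (n / 2 + 1) +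
        n * (Real.sqrt 2) ^ n + (n / 2 + 1 : ℕ))) ≤ 16 * (n : ℝ) ^ 2 * 2 ^ n := by
  set a : ℝ := Real.sqrt 2 with ha
  have ha2 : a ^ 2 = 2 := Real.sq_sqrt (by norm_num)
  have ha0 : 0 ≤ a := Real.sqrt_nonneg _
  have ha1 : 1 ≤ a := by nlinarith
  have ha3 : a ≤ 2 := by nlinarith
  set D : ℕ := n / 8 with hD
  set M : ℕ := n / 2 + 1 with hM
  have hD8 : 8 * D ≤ n := by omega
  have hM2 : 2 * M ≤ n + 2 := by omega
  have hn' : (8 : ℝ) ≤ n := by exact_mod_cast hn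
  have hDr : (8 : ℝ) * D ≤ n := by exact_mod_cast hD8
  have hMr : (2 : ℝ) * M ≤ n + 2 := by exact_mod_cast hM2
  have hD0 : (0 : ℝ) ≤ D := Nat.cast_nonneg _
  have hM0 : (0 : ℝ) ≤ M := Nat.cast_nonneg _
  set P : ℝ := a ^ n * a ^ M with hP
  have hP1 : 1 ≤ a ^ n := one_le_pow₀ ha1
  have hP2 : 1 ≤ a ^ M := one_le_pow₀ ha1
  have hPn : a ^ n ≤ P := by
    rw [hP]; nlinarith
  have hP3 : 1 ≤ P := hP1.trans hPn
  have h1 : ((D + M : ℕ) : ℝ) + ((D + 2 * M : ℕ) : ℝ) * a ^ n * a ^ M + n * a ^ n + (M : ℕ) ≤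
      8 * n * P := by
    push_cast
    have e1 : (D : ℝ) + M ≤ (D + M) * P := by nlinarith
    have e2 : (n : ℝ) * a ^ n ≤ n * P := by nlinarith
    have e3 : (M : ℝ) ≤ M * P := by nlinarith
    have e4 : ((D : ℝ) + 2 * M) * a ^ n * a ^ M = (D + 2 * M) * P := by rw [hP]; ring
    rw [e4]
    have e5 : ((D : ℝ) + M) + (D + 2 * M) + n + M ≤ 8 * n := by nlinarith
    nlinarith
  have h2 : (2 : ℝ) ^ (2 * D) = a ^ (4 * D) := by
    rw [← ha2, ← pow_mul]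
    congr 1
    ring
  have h3 : a ^ (4 * D) * P ≤ 2 * 2 ^ n := by
    rw [hP, ← pow_add, ← pow_add]
    calc a ^ (4 * D + (n + M)) ≤ a ^ (2 * n + 1) := pow_le_pow_right₀ ha1 (by omega)
      _ = a * 2 ^ n := by rw [pow_succ, pow_mul, ha2]; ring
      _ ≤ 2 * 2 ^ n := by
        apply mul_le_mul_of_nonneg_right ha3
        positivity
  rw [h2]
  calc a ^ (4 * D) * (n * (((D + M : ℕ) : ℝ) + ((D + 2 * M : ℕ) : ℝ) * a ^ n * a ^ M +
        n * a ^ n + (M : ℕ))) ≤ a ^ (4 * D) * (n * (8 * n * P)) := by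
        apply mul_le_mul_of_nonneg_left _ (by positivity)
        apply mul_le_mul_of_nonneg_left h1 (by positivity)
    _ = 8 * n ^ 2 * (a ^ (4 * D) * P) := by ring
    _ ≤ 8 * n ^ 2 * (2 * 2 ^ n) := by
        apply mul_le_mul_of_nonneg_left h3 (by positivity)
    _ = 16 * (n : ℝ) ^ 2 * 2 ^ n := by ring

end WZero

theorem W_zero : ∃ n0 : ℕ, ∀ n ≥ n0,
    (2 : ℝ) ^ (n / 8 + n) ≤ ∑ s ∈ Plt (n + 1), wt (n / 8) s := by
  refine ⟨184, fun n hn => ?_⟩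
  have h1 := W_approx n (n / 2 + 1) (n / 8) (by omega) (by omega) 0 1 0 one_ne_zero
    (by rw [natDegree_one]; omega) (by
      intro f _
      rw [LinearMap.zero_apply, zero_mul, res_zero])
  rw [WZero.sum_mq_one, WZero.sum_V] at h1
  have h2 : ∑ s ∈ Plt (n + 1), wt (n / 8) s * sg ((0 : P2 →ₗ[ZMod 2] ZMod 2) s) =
      ∑ s ∈ Plt (n + 1), wt (n / 8) s := by
    refine Finset.sum_congr rfl (fun s _ => ?_)
    rw [LinearMap.zero_apply, sg_zero, mul_one]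
  rw [h2] at h1
  have h3 := h1.trans (WZero.err_bound n (by omega))
  have h4 := (abs_le.mp h3).1
  set D : ℕ := n / 8 with hD
  have hD23 : 23 ≤ D := by omega
  have h5 : 32 * n ^ 2 ≤ 2 ^ D := by
    have h6 := WZero.pow_large D hD23
    have h7 : n ≤ 15 * D := by omega
    calc 32 * n ^ 2 ≤ 32 * (15 * D) ^ 2 := Nat.mul_le_mul_left _ (Nat.pow_le_pow_left h7 2)
      _ = 7200 * D ^ 2 := by ring
      _ ≤ 2 ^ D := h6
  have h5r : (32 : ℝ) * n ^ 2 ≤ 2 ^ D := by exact_mod_cast h5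
  have h8 : (4 : ℝ) ≤ 2 ^ n := by
    calc (4 : ℝ) = 2 ^ 2 := by norm_num
      _ ≤ 2 ^ n := pow_le_pow_right₀ (by norm_num) (by omega)
  have hDpos : (0 : ℝ) < 2 ^ D := by positivity
  have hnpos : (0 : ℝ) < 2 ^ n := by positivity
  rw [pow_succ (2 : ℝ) n] at h4
  rw [pow_add]
  have h9 : (16 : ℝ) * n ^ 2 * 2 ^ n ≤ 2 ^ D * 2 ^ n / 2 := by nlinarith
  have h10 : (2 : ℝ) ^ D * 2 ≤ 2 ^ D * 2 ^ n / 2 := by nlinarith
  nlinarith

end

end Pool.Agent.MP196
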