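import Mathlib
import Pool.Agent.Lib.MP_196a10_nt.Base
import Pool.Agent.Lib.MP_196a10_nt.WLow
import Pool.Agent.Lib.MP_196a10_nt.WZero
import Pool.Agent.Lib.MP_196a10_nt.Pars

open Polynomial

namespace Pool.Agent.MP196

noncomputable section

theorem shifted_irreducibles (c : ℝ) (hc : (2 : ℝ) ^ ((7 : ℝ) / 8) < c) :
    ∃ n0 : ℕ, ∀ n ≥ n0, ∀ A : Finset (ZMod 2)[X], (∀ a ∈ A, a.natDegree ≤ n) →
      c ^ n ≤ (A.card : ℝ) → ∃ a ∈ A, ∃ b ∈ A, Irreducible (a - b - 1) := by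
  have hc0 : 0 < c := lt_trans (by positivity) hc
  obtain ⟨β, hβ⟩ : ∃ β : ℝ, (2 : ℝ) ^ β = c :=
    ⟨Real.logb 2 c, Real.rpow_logb (by norm_num) (by norm_num) hc0⟩
  have hβ1 : 7 / 8 < β := by
    rw [← hβ] at hc
    exact (Real.rpow_lt_rpow_left_iff (by norm_num)).mp hc
  obtain ⟨ε, hε, hβε⟩ : ∃ ε : ℝ, 0 < ε ∧ β = 7 / 8 + 2 * ε := ⟨(β - 7 / 8) / 2, by linarith, by ring⟩
  obtain ⟨C0, hC0, hlow⟩ := W_lower ε hε
  obtain ⟨n0, hzero⟩ := W_zero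
  obtain ⟨n1, hn1⟩ : ∃ n1 : ℕ, ∀ n ≥ n1, 4 * C0 < (2 : ℝ) ^ (ε * n) := by
    have h2 : (1 : ℝ) < 2 ^ ε := Real.one_lt_rpow (by norm_num) hε
    obtain ⟨n1, hn1⟩ := pow_unbounded_of_one_lt (4 * C0) h2
    refine ⟨n1, fun n hn => lt_of_lt_of_le hn1 ?_⟩
    rw [Real.rpow_mul (by norm_num), Real.rpow_natCast]
    exact pow_le_pow_right₀ h2.le hn
  refine ⟨max (max n0 n1) 8, ?_⟩
  intro n hn A hA hcard
  have hn0 : n0 ≤ n := le_trans (le_trans (le_max_left _ _) (le_max_left _ _)) hn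
  have hn1' : n1 ≤ n := le_trans (le_trans (le_max_right _ _) (le_max_left _ _)) hn
  have hn8 : 8 ≤ n := le_trans (le_max_right _ _) hn
  by_contra hno
  push Not at hno
  have hgood : ∀ a ∈ A, ∀ b ∈ A, wt (n / 8) (a - b) = 0 := by
    intro a ha b hb
    unfold wt
    rw [if_neg]
    have h1 : a - b + 1 = a - b - 1 := (sub_eq_add_P2 _ _).symm
    rw [h1]
    exact hno a ha b hb
  have hAsub : A ⊆ Plt (n + 1) := by
    intro a ha
    rw [mem_Plt]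
    exact lt_of_le_of_lt degree_le_natDegree (by exact_mod_cast Nat.lt_succ_of_le (hA a ha))
  have hrb := ratio_bound n (wt (n / 8)) (C0 * (2 : ℝ) ^ ((1 + ε) * n)) (by positivity)
    (hlow n hn8) A hAsub hgood
  have hz := hzero n hn0
  have hfl : (n : ℝ) / 8 - 1 ≤ ((n / 8 : ℕ) : ℝ) := by
    have h1 : n < 8 * (n / 8) + 8 := by omega
    have h2 : (n : ℝ) < 8 * ((n / 8 : ℕ) : ℝ) + 8 := by exact_mod_cast h1
    linarith
  have h1 : c ^ n * (2 : ℝ) ^ ((n : ℝ) / 8 - 1 + n) ≤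
      2 ^ (n + 1) * (C0 * (2 : ℝ) ^ ((1 + ε) * n)) := by
    refine le_trans ?_ hrb
    have h3 : (2 : ℝ) ^ ((n : ℝ) / 8 - 1 + n) ≤ ∑ s ∈ Plt (n + 1), wt (n / 8) s := by
      refine le_trans ?_ hz
      rw [← Real.rpow_natCast]
      apply Real.rpow_le_rpow_of_exponent_le (by norm_num)
      push_cast
      linarith
    exact mul_le_mul hcard h3 (by positivity) (by positivity)
  have h2 : c ^ n = (2 : ℝ) ^ ((7 / 8 + 2 * ε) * n) := by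
    rw [Real.rpow_mul (by norm_num), Real.rpow_natCast, ← hβε, hβ]
  have h3 : (2 : ℝ) ^ (n + 1) = (2 : ℝ) ^ ((n : ℝ) + 1) := by
    rw [← Real.rpow_natCast]; push_cast; rfl
  rw [h2, h3, ← Real.rpow_add (by norm_num), mul_left_comm, ← Real.rpow_add (by norm_num)] at h1
  have h4 : (7 / 8 + 2 * ε) * (n : ℝ) + ((n : ℝ) / 8 - 1 + n) =
      (ε * n) + ((n : ℝ) + 1 + (1 + ε) * n) - 2 := by ring
  have h5 : (2 : ℝ) ^ ((ε * n) + ((n : ℝ) + 1 + (1 + ε) * n) - 2) =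
      (2 : ℝ) ^ (ε * n) * (2 : ℝ) ^ ((n : ℝ) + 1 + (1 + ε) * n) / 4 := by
    rw [Real.rpow_sub (by norm_num), Real.rpow_add (by norm_num)]
    norm_num
  rw [h4, h5] at h1
  have h6 : 0 < (2 : ℝ) ^ ((n : ℝ) + 1 + (1 + ε) * n) := by positivity
  have h7 := hn1 n hn1'
  nlinarith

end

end Pool.Agent.MP196
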