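import Pool.Agent.Lib.MP_196a10_nt.TB
import Pool.Agent.Lib.MP_196a10_nt.YSer
import Pool.Agent.Lib.MP_196a10_nt.IntB
import Pool.Agent.Lib.MP_196a10_nt.GalF
import Pool.Agent.Lib.MP_196a10_nt.GalP
import Pool.Agent.Lib.MP_196a10_nt.Redu
import Pool.Agent.Lib.MP_196a10_nt.FCong
import Pool.Agent.Lib.MP_196a10_nt.FMem
import Pool.Agent.Lib.MP_196a10_nt.SumOrd
import Pool.Agent.Lib.MP_196a10_nt.LspU
import Pool.Agent.Lib.MP_196a10_nt.LspL
import Pool.Agent.Lib.MP_196a10_nt.Step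
import Pool.Agent.Lib.MP_196a10_nt.Eqd
import Pool.Agent.Lib.MP_196a10_nt.LamMul
import Pool.Agent.Lib.MP_196a10_nt.Newton
import Pool.Agent.Lib.MP_196a10_nt.VTot
import Pool.Agent.Lib.MP_196a10_nt.PSum
import Pool.Agent.Lib.MP_196a10_nt.RBound
import Pool.Agent.Lib.MP_196a10_nt.SPts
import Pool.Agent.Lib.MP_196a10_nt.MatM
import Pool.Agent.Lib.MP_196a10_nt.MatU
import Pool.Agent.Lib.MP_196a10_nt.Eqa
import Pool.Agent.Lib.MP_196a10_nt.Rha
import Pool.Agent.Lib.MP_196a10_nt.LamA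
import Pool.Agent.Lib.MP_196a10_nt.Van
import Pool.Agent.Lib.MP_196a10_nt.Units
import Pool.Agent.Lib.MP_196a10_nt.FAbs
import Pool.Agent.Lib.MP_196a10_nt.RhAA
import Pool.Agent.Lib.MP_196a10_nt.CntR
import Pool.Agent.Lib.MP_196a10_nt.Four
import Pool.Agent.Lib.MP_196a10_nt.Approx
import Pool.Agent.Lib.MP_196a10_nt.PhMul
import Pool.Agent.Lib.MP_196a10_nt.PPow
import Pool.Agent.Lib.MP_196a10_nt.PerQ
import Pool.Agent.Lib.MP_196a10_nt.VSum
import Pool.Agent.Lib.MP_196a10_nt.Mqf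
import Pool.Agent.Lib.MP_196a10_nt.MPos
import Pool.Agent.Lib.MP_196a10_nt.MBd
import Pool.Agent.Lib.MP_196a10_nt.Omega
import Pool.Agent.Lib.MP_196a10_nt.WApp
import Pool.Agent.Lib.MP_196a10_nt.WLow
import Pool.Agent.Lib.MP_196a10_nt.WZero
import Pool.Agent.Lib.MP_196a10_nt.Pars
import Pool.Agent.Lib.MP_196a10_nt.Final
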